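import Mathlib

/-! Abelian varieties over the algebraic numbers, given by their exponential map. -/

namespace Pool.Agent.Lib.MP_caab05_ag.LT

/-- all coefficients of the polynomial are algebraic numbers -/
def AlgCoeff {σ : Type} (P : MvPolynomial σ ℂ) : Prop :=
  ∀ m, IsAlgebraic ℚ (MvPolynomial.coeff m P)

/-- An abelian variety `A ⊂ ℙ^M` of dimension `d` over the field of algebraic numbers, together
with a basis of its Lie algebra defined over the algebraic numbers.  The exponential map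
`ℂ^d → A(ℂ)` is written `z ↦ [θ z]` with theta functions `θ`, and `Λ` is its kernel, the period
lattice. -/
structure AbVar (d M : ℕ) where
  /-- the period lattice -/
  Λ : Submodule ℤ (Fin d → ℂ)
  discrete : DiscreteTopology Λ
  span_top : Submodule.span ℝ (Λ : Set (Fin d → ℂ)) = ⊤
  /-- homogeneous coordinates of the exponential map -/
  θ : (Fin d → ℂ) → Fin (M + 1) → ℂ
  holo : Differentiable ℂ θ
  ne_zero : ∀ z, θ z ≠ 0
  /-- the coordinates are theta functions for `Λ` -/
  theta : ∀ l ∈ Λ, ∃ (a : (Fin d → ℂ) →ₗ[ℂ] ℂ) (b : ℂ),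
    ∀ z, θ (z + l) = Complex.exp (a z + b) • θ z
  /-- `ℂ^d / Λ → ℙ^M` is injective -/
  inj : ∀ (z w : Fin d → ℂ) (c : ℂ), θ z = c • θ w → z - w ∈ Λ
  /-- the image is cut out by homogeneous equations with algebraic coefficients -/
  image : ∃ S : Set (MvPolynomial (Fin (M + 1)) ℂ),
    (∀ P ∈ S, (∃ k, P.IsHomogeneous k) ∧ AlgCoeff P) ∧
    {x | ∀ P ∈ S, MvPolynomial.eval x P = 0} = {x | ∃ (c : ℂ) (z : Fin d → ℂ), x = c • θ z}
  /-- the group law is a morphism over the algebraic numbers: near every pair of points it is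
  given by bihomogeneous polynomials with algebraic coefficients -/
  add : ∀ z₀ w₀ : Fin d → ℂ, ∃ (k : ℕ × ℕ)
    (B : Fin (M + 1) → MvPolynomial (Fin (M + 1) ⊕ Fin (M + 1)) ℂ),
    (∀ i, (B i).IsWeightedHomogeneous (Sum.elim (fun _ => (1, 0)) (fun _ => (0, 1))) k ∧
      AlgCoeff (B i)) ∧
    (fun i => MvPolynomial.eval (Sum.elim (θ z₀) (θ w₀)) (B i)) ≠ 0 ∧
    ∀ z w, ∃ c : ℂ, (fun i => MvPolynomial.eval (Sum.elim (θ z) (θ w)) (B i)) = c • θ (z + w)
  /-- the origin lies in the chart `X₀ ≠ 0` and has algebraic coordinates -/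
  origin : θ 0 0 ≠ 0
  origin_alg : ∀ i, IsAlgebraic ℚ (θ 0 i / θ 0 0)
  /-- the standard basis of `ℂ^d` is a basis of the tangent space at the origin defined over the
  algebraic numbers -/
  tangent_alg : ∀ i j, IsAlgebraic ℚ (fderiv ℂ (fun z => θ z i / θ z 0) 0 (Pi.single j 1))
  immersion : Function.Injective (fderiv ℂ (fun z i => θ z i / θ z 0) 0)

/-- `A` is simple: the torus `ℂ^d / Λ` has no subtorus other than `0` and itself. -/
def AbVar.Simple {d M : ℕ} (A : AbVar d M) : Prop :=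
  ∀ U : Submodule ℂ (Fin d → ℂ),
    Submodule.span ℝ ((U : Set (Fin d → ℂ)) ∩ (A.Λ : Set (Fin d → ℂ))) = U.restrictScalars ℝ →
    U = ⊥ ∨ U = ⊤

end Pool.Agent.Lib.MP_caab05_ag.LT
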