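import Mathlib
import Pool.Agent.Lib.MP_caab05_ag.LT.Defs

/-! Subspaces in general position with respect to abelian subvarieties. -/

namespace Pool.Agent.Lib.MP_caab05_ag.LT

/-- `W` together with the tangent space of any nonzero subtorus spans the whole space. -/
def AbVar.Gen {d M : ℕ} (A : AbVar d M) (W : Submodule ℂ (Fin d → ℂ)) : Prop :=
  ∀ U : Submodule ℂ (Fin d → ℂ),
    Submodule.span ℝ ((U : Set (Fin d → ℂ)) ∩ (A.Λ : Set (Fin d → ℂ))) = U.restrictScalars ℝ →
    U = ⊥ ∨ U ⊔ W = ⊤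

end Pool.Agent.Lib.MP_caab05_ag.LT
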