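import Mathlib
import Pool.Agent.Lib.MP_caab05_ag.LT.Defs

/-! Common definitions and small lemmas. -/

namespace Pool.Agent.Lib.MP_caab05_ag.LT

open MvPolynomial Filter Topology Asymptotics

/-- the tangent space -/
abbrev E (d : ℕ) : Type := Fin d → ℂ

/-- polynomials in the homogeneous coordinates -/
abbrev Pol (M : ℕ) : Type := MvPolynomial (Fin (M + 1)) ℂ

variable {d M : ℕ}

/-- a polynomial evaluated at the theta functions -/
noncomputable def ev (A : AbVar d M) (P : Pol M) (z : E d) : ℂ := eval (A.θ z) P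

/-- `F` vanishes to order at least `k` at `z` along every line of `W` -/
def Ord (W : Submodule ℂ (E d)) (F : E d → ℂ) (z : E d) (k : ℕ) : Prop :=
  ∀ u ∈ W, (fun τ : ℂ => F (z + τ • u)) =O[𝓝 0] fun τ : ℂ => τ ^ k

/-- upper bound for the Hilbert function of `A` -/
def HilBd (A : AbVar d M) (C : ℝ) : Prop :=
  ∀ (m : ℕ) (ι : Type) [Fintype ι] (P : ι → Pol M), (∀ i, (P i).IsHomogeneous m) →
    LinearIndependent ℂ (fun i => ev A (P i)) → (Fintype.card ι : ℝ) ≤ C * ((m : ℝ) + 1) ^ d

/-- irreducible subsets for the Zariski topology of `A` -/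
def Irr (A : AbVar d M) (V : Set (E d)) : Prop :=
  V.Nonempty ∧ ∀ (P Q : Pol M) (k l : ℕ), P.IsHomogeneous k → Q.IsHomogeneous l →
    (∀ z ∈ V, ev A P z * ev A Q z = 0) → (∀ z ∈ V, ev A P z = 0) ∨ (∀ z ∈ V, ev A Q z = 0)

/-- Zariski closure -/
def cl (A : AbVar d M) (V : Set (E d)) : Set (E d) :=
  {z | ∀ (P : Pol M) (k : ℕ), P.IsHomogeneous k → (∀ v ∈ V, ev A P v = 0) → ev A P z = 0}

/-- on every complex line `Q` is a real quadratic polynomial with controlled second order part -/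
def Quadr {V : Type} [NormedAddCommGroup V] [NormedSpace ℂ V] (c : ℝ) (Q : V → ℝ) : Prop :=
  ∀ z w : V, ∃ (α β : ℂ) (γ : ℝ), ‖α‖ ≤ c * ‖w‖ ^ 2 ∧ |γ| ≤ c * ‖w‖ ^ 2 ∧
    ∀ τ : ℂ, Q (z + τ • w) = Q z + (β * τ + α * τ ^ 2).re + γ * τ.im ^ 2

/-- the points whose coordinates in `r` are real -/
def Ur {n : ℕ} (r : Finset (Fin n)) : Set (Fin n → ℂ) := {u | ∀ k ∈ r, (u k).im = 0}

/-- value of a polynomial in `c` with coefficients in `ℤ[x]` -/
noncomputable def val {σ K : Type} [CommRing K] (Q : Polynomial (MvPolynomial σ ℤ)) (c : K)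
    (x : σ → K) : K :=
  Q.eval₂ (eval₂Hom (Int.castRingHom K) x) c

/-- an integer form of degree `N`, bounded by `B` on the unit polydisc and by `ε` at `η` -/
def Good {σ : Type} [Fintype σ] (η : σ → ℂ) (N : ℕ) (B ε : ℝ) (R : MvPolynomial σ ℤ) : Prop :=
  R.IsHomogeneous N ∧ (∀ x : σ → ℂ, ‖x‖ ≤ 1 → ‖aeval x R‖ ≤ B) ∧ ‖aeval η R‖ ≤ ε

/-- the good forms have no common zero with algebraic coordinates except the origin -/
def NZ {σ : Type} [Fintype σ] (η : σ → ℂ) (N : ℕ) (B ε : ℝ) : Prop :=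
  ∀ x : σ → AlgebraicClosure ℚ, x ≠ 0 → ∃ R, Good η N B ε R ∧ aeval x R ≠ 0

/-- the analogue of `Good` for forms with coefficients in `ℤ[c]` -/
def GoodC {σ : Type} [Fintype σ] (c : ℂ) (η : σ → ℂ) (N : ℕ) (B ε : ℝ)
    (Q : Polynomial (MvPolynomial σ ℤ)) : Prop :=
  (∀ (c' l : ℂ) (x : σ → ℂ), val Q c' (l • x) = l ^ N * val Q c' x) ∧
  (∀ c' : ℂ, Polynomial.aeval c' (minpoly ℤ c) = 0 → ∀ x : σ → ℂ, ‖x‖ ≤ 1 → ‖val Q c' x‖ ≤ B) ∧
  ‖val Q c η‖ ≤ ε

@[simp] lemma ev_mul (A : AbVar d M) (P Q : Pol M) (z : E d) :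
    ev A (P * Q) z = ev A P z * ev A Q z := by simp [ev]

@[simp] lemma ev_add (A : AbVar d M) (P Q : Pol M) (z : E d) :
    ev A (P + Q) z = ev A P z + ev A Q z := by simp [ev]

@[simp] lemma ev_sub (A : AbVar d M) (P Q : Pol M) (z : E d) :
    ev A (P - Q) z = ev A P z - ev A Q z := by simp [ev]

@[simp] lemma ev_pow (A : AbVar d M) (P : Pol M) (k : ℕ) (z : E d) :
    ev A (P ^ k) z = ev A P z ^ k := by simp [ev]

@[simp] lemma ev_X (A : AbVar d M) (i : Fin (M + 1)) (z : E d) : ev A (X i) z = A.θ z i := by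
  simp [ev]

@[simp] lemma ev_C (A : AbVar d M) (c : ℂ) (z : E d) : ev A (C c) z = c := by simp [ev]

@[simp] lemma ev_one (A : AbVar d M) (z : E d) : ev A 1 z = 1 := by simp [ev]

@[simp] lemma ev_zero (A : AbVar d M) (z : E d) : ev A 0 z = 0 := by simp [ev]

@[simp] lemma ev_smul (A : AbVar d M) (c : ℂ) (P : Pol M) (z : E d) :
    ev A (c • P) z = c * ev A P z := by simp [ev]

lemma differentiable_eval {σ : Type} [Fintype σ] (P : MvPolynomial σ ℂ) :
    Differentiable ℂ fun x : σ → ℂ => eval x P := by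
  induction P using MvPolynomial.induction_on with
  | C a => simp
  | add p q hp hq => simp only [map_add]; exact hp.add hq
  | mul_X p i hp => simp only [map_mul, eval_X]; exact hp.mul (differentiable_apply i)

lemma differentiable_ev (A : AbVar d M) (P : Pol M) : Differentiable ℂ (ev A P) :=
  (differentiable_eval P).comp A.holo

/-- scaling of a weighted homogeneous polynomial -/
lemma eval₂_scale {σ R K : Type} [CommSemiring R] [CommSemiring K] (f : R →+* K) (w : σ → ℕ)
    {P : MvPolynomial σ R} {k : ℕ} (hP : P.IsWeightedHomogeneous w k) (c : K) (x : σ → K) :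
    eval₂ f (fun i => c ^ w i * x i) P = c ^ k * eval₂ f x P := by
  rw [eval₂_eq, eval₂_eq, Finset.mul_sum]
  refine Finset.sum_congr rfl fun m hm => ?_
  have h := hP (mem_support_iff.1 hm)
  rw [Finsupp.weight_apply, Finsupp.sum] at h
  simp only [mul_pow, Finset.prod_mul_distrib, ← pow_mul, Finset.prod_pow_eq_pow_sum, ← h,
    smul_eq_mul, mul_comm (w _)]
  ring

lemma aeval_smul_of_hom {σ R K : Type} [CommSemiring R] [CommSemiring K] [Algebra R K]
    {P : MvPolynomial σ R} {k : ℕ} (hP : P.IsHomogeneous k) (c : K) (x : σ → K) :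
    aeval (c • x) P = c ^ k * aeval x P := by
  have := eval₂_scale (algebraMap R K) (1 : σ → ℕ) hP c x
  simpa [aeval_def, Pi.smul_def] using this

lemma eval_smul_of_hom {σ K : Type} [CommSemiring K]
    {P : MvPolynomial σ K} {k : ℕ} (hP : P.IsHomogeneous k) (c : K) (x : σ → K) :
    eval (c • x) P = c ^ k * eval x P := by
  simpa [coe_aeval_eq_eval] using aeval_smul_of_hom hP c x

/-- scaling of a bihomogeneous polynomial -/
lemma eval_bihom {σ : Type} {P : MvPolynomial (σ ⊕ σ) ℂ} {k : ℕ × ℕ}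
    (hP : P.IsWeightedHomogeneous (Sum.elim (fun _ => (1, 0)) (fun _ => (0, 1))) k)
    (a b : ℂ) (x y : σ → ℂ) :
    eval (Sum.elim (a • x) (b • y)) P = a ^ k.1 * b ^ k.2 * eval (Sum.elim x y) P := by
  have h1 : P.IsWeightedHomogeneous (Sum.elim (fun _ => 1) (fun _ => 0)) k.1 := by
    intro m hm
    have := congrArg Prod.fst (hP hm)
    rw [← this, Finsupp.weight_apply, Finsupp.weight_apply, Finsupp.sum, Finsupp.sum,
      Prod.fst_sum]
    refine Finset.sum_congr rfl fun i _ => ?_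
    cases i <;> simp
  have h2 : P.IsWeightedHomogeneous (Sum.elim (fun _ => 0) (fun _ => 1)) k.2 := by
    intro m hm
    have := congrArg Prod.snd (hP hm)
    rw [← this, Finsupp.weight_apply, Finsupp.weight_apply, Finsupp.sum, Finsupp.sum,
      Prod.snd_sum]
    refine Finset.sum_congr rfl fun i _ => ?_
    cases i <;> simp
  have e1 := eval₂_scale (RingHom.id ℂ) _ h1 a (Sum.elim x (b • y))
  have e2 := eval₂_scale (RingHom.id ℂ) _ h2 b (Sum.elim x y)
  have f1 : (fun i => a ^ (Sum.elim (fun _ => 1) (fun _ => 0) : σ ⊕ σ → ℕ) i *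
      Sum.elim x (b • y) i) = Sum.elim (a • x) (b • y) := by
    ext i; cases i <;> simp
  have f2 : (fun i => b ^ (Sum.elim (fun _ => 0) (fun _ => 1) : σ ⊕ σ → ℕ) i *
      Sum.elim x y i) = Sum.elim x (b • y) := by
    ext i; cases i <;> simp
  rw [f1] at e1
  rw [f2] at e2
  simp only [eval₂_id] at e1 e2
  rw [e1, e2, mul_assoc]

/-- a polynomial which scales like a form of degree `k` is a form of degree `k` -/
lemma isHomogeneous_of_scaling {σ R : Type} [CommRing R] [Algebra R ℂ] [FaithfulSMul R ℂ]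
    {P : MvPolynomial σ R} {k : ℕ}
    (h : ∀ (c : ℂ) (x : σ → ℂ), c ≠ 0 → aeval (c • x) P = c ^ k * aeval x P) :
    P.IsHomogeneous k := by
  have key : ∀ m, m ≠ k → homogeneousComponent m P = 0 := by
    intro m hm
    apply map_injective (algebraMap R ℂ) (FaithfulSMul.algebraMap_injective R ℂ)
    rw [map_zero]
    apply MvPolynomial.funext
    intro x
    rw [map_zero, eval_map, ← aeval_def]
    by_cases hm' : P.totalDegree < m
    · rw [homogeneousComponent_eq_zero _ _ hm', map_zero]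
    set p : Polynomial ℂ := ∑ i ∈ Finset.range (P.totalDegree + 1),
      Polynomial.monomial i (aeval x (homogeneousComponent i P)) -
        Polynomial.monomial k (aeval x P) with hp
    have hp0 : p = 0 := by
      apply Polynomial.eq_zero_of_infinite_isRoot
      refine Set.Infinite.mono (s := {0}ᶜ) (fun c hc => ?_) (Set.finite_singleton _).infinite_compl
      have h1 := h c x hc
      conv_lhs at h1 => rw [← sum_homogeneousComponent P, map_sum]
      simp only [aeval_smul_of_hom (homogeneousComponent_isHomogeneous _ P)] at h1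
      simp only [Set.mem_ofPred_eq, Polynomial.IsRoot.def, hp, Polynomial.eval_sub,
        Polynomial.eval_finsetSum, Polynomial.eval_monomial]
      rw [sub_eq_zero, mul_comm, ← h1]
      exact Finset.sum_congr rfl fun i _ => mul_comm _ _
    have h2 := congrArg (Polynomial.coeff · m) hp0
    simp only [hp, Polynomial.coeff_sub, Polynomial.finsetSum_coeff, Polynomial.coeff_monomial,
      Polynomial.coeff_zero, Finset.sum_ite_eq', Finset.mem_range, if_neg (Ne.symm hm),
      sub_zero] at h2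
    rwa [if_pos (by omega)] at h2
  rw [← sum_homogeneousComponent P]
  refine IsHomogeneous.sum _ _ _ fun m _ => ?_
  by_cases hm : m = k
  · rw [hm]; exact homogeneousComponent_isHomogeneous _ _
  · rw [key m hm]; exact isHomogeneous_zero _ _ _

/-- order of vanishing through derivatives -/
lemma isBigO_pow_iff {f : ℂ → ℂ} (hf : AnalyticAt ℂ f 0) (k : ℕ) :
    (f =O[𝓝 0] fun τ : ℂ => τ ^ k) ↔ ∀ j < k, iteratedDeriv j f 0 = 0 := by
  rw [← natCast_le_analyticOrderAt_iff_iteratedDeriv_eq_zero hf]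
  constructor
  · intro h
    by_contra hk
    push Not at hk
    obtain ⟨m, hm⟩ := ENat.ne_top_iff_exists.1 (ne_top_of_lt hk)
    obtain ⟨g, hg, hg0, hfg⟩ := (hf.analyticOrderAt_eq_natCast).1 hm.symm
    have hmk : m < k := by rw [← hm] at hk; exact_mod_cast hk
    obtain ⟨c, hc⟩ := h.bound
    have h1 : ∀ᶠ τ in 𝓝[≠] (0 : ℂ), ‖g τ‖ ≤ c * ‖τ‖ ^ (k - m) := by
      filter_upwards [hc.filter_mono nhdsWithin_le_nhds, hfg.filter_mono nhdsWithin_le_nhds,
        self_mem_nhdsWithin] with τ h1 h2 h3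
      have h4 : 0 < ‖τ‖ ^ m := pow_pos (norm_pos_iff.2 h3) m
      rw [h2, sub_zero, norm_smul, norm_pow, norm_pow] at h1
      have : ‖τ‖ ^ k = ‖τ‖ ^ m * ‖τ‖ ^ (k - m) := by rw [← pow_add]; congr 1; omega
      rw [this] at h1
      refine le_of_mul_le_mul_left ?_ h4
      linarith
    have h2 : Tendsto (fun τ : ℂ => ‖g τ‖) (𝓝[≠] 0) (𝓝 ‖g 0‖) :=
      (hg.continuousAt.norm.tendsto).mono_left nhdsWithin_le_nhds
    have h3 : Tendsto (fun τ : ℂ => c * ‖τ‖ ^ (k - m)) (𝓝[≠] 0) (𝓝 (c * ‖(0 : ℂ)‖ ^ (k - m))) :=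
      (Continuous.tendsto (by fun_prop) 0).mono_left nhdsWithin_le_nhds
    have h4 := le_of_tendsto_of_tendsto h2 h3 h1
    rw [norm_zero, zero_pow (by omega), mul_zero] at h4
    exact hg0 (norm_le_zero_iff.1 h4)
  · intro h
    obtain ⟨g, hg, hfg⟩ := (natCast_le_analyticOrderAt hf).1 h
    have h1 : g =O[𝓝 0] fun _ => (1 : ℂ) := hg.continuousAt.isBigO_one ℂ
    have h2 := (isBigO_refl (fun τ : ℂ => τ ^ k) (𝓝 0)).mul h1
    refine (h2.congr_right fun τ => mul_one _).congr' ?_ EventuallyEq.rfl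
    filter_upwards [hfg] with τ hτ
    rw [hτ, sub_zero, smul_eq_mul]

/-- linearly independent vectors have a nonzero maximal minor -/
lemma exists_minor {K ι κ : Type} [Field K] [Fintype ι] [DecidableEq ι] [Fintype κ]
    {u : ι → κ → K} (hu : LinearIndependent K u) :
    ∃ s : ι → κ, Function.Injective s ∧ (Matrix.of fun i j => u i (s j)).det ≠ 0 := by
  classical
  let col : κ → ι → K := fun k i => u i k
  have hspan : Submodule.span K (Set.range col) = ⊤ := by
    have h1 : (Matrix.of u).rank = Fintype.card ι := hu.rank_matrix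
    rw [Matrix.rank_eq_finrank_span_cols] at h1
    apply Submodule.eq_top_of_finrank_eq
    rw [Module.finrank_fintype_fun_eq_card]
    exact h1
  obtain ⟨κ', a, ha, hsp, hli⟩ := exists_linearIndependent' K col
  have : Finite κ' := Finite.of_injective a ha
  have := Fintype.ofFinite κ'
  let b : Module.Basis κ' K (ι → K) := Module.Basis.mk hli (by rw [hsp, hspan])
  have hcard : Fintype.card ι = Fintype.card κ' := by
    rw [← Module.finrank_eq_card_basis b, Module.finrank_fintype_fun_eq_card]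
  let e : ι ≃ κ' := Fintype.equivOfCardEq hcard
  refine ⟨a ∘ e, ha.comp e.injective, ?_⟩
  have h2 : LinearIndependent K (Matrix.of fun i j => u i ((a ∘ e) j)).col :=
    hli.comp e e.injective
  rw [Matrix.linearIndependent_cols_iff_isUnit, Matrix.isUnit_iff_isUnit_det] at h2
  exact h2.ne_zero

/-- a basis of the period lattice -/
lemma exists_basis (A : AbVar d M) : ∃ (ι : Type) (_ : Fintype ι) (b : Module.Basis ι ℝ (E d)),
    Submodule.span ℤ (Set.range b) = A.Λ := by
  have := A.discrete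
  have : IsZLattice ℝ A.Λ := ⟨A.span_top⟩
  have := ZLattice.module_finite ℝ A.Λ
  have := ZLattice.module_free ℝ A.Λ
  exact ⟨_, inferInstance, (Module.Free.chooseBasis ℤ A.Λ).ofZLatticeBasis ℝ A.Λ,
    Module.Basis.ofZLatticeBasis_span ℝ A.Λ _⟩

/-- the period lattice is cocompact -/
lemma exists_fund (A : AbVar d M) : ∃ R : ℝ, ∀ z : E d, ∃ l ∈ A.Λ, ‖z - l‖ ≤ R := by
  obtain ⟨ι, _, b, hb⟩ := exists_basis A
  refine ⟨∑ i, ‖b i‖, fun z => ⟨ZSpan.floor b z, hb ▸ (ZSpan.floor b z).2, ?_⟩⟩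
  exact ZSpan.norm_fract_le b z

/-- periods independent over `ℤ` are independent over `ℝ` -/
lemma indep_real (A : AbVar d M) {ι : Type} {y : ι → E d} (hy : ∀ i, y i ∈ A.Λ)
    (h : LinearIndependent ℤ y) : LinearIndependent ℝ y := by
  obtain ⟨κ, _, b, hb⟩ := exists_basis A
  have h1 : ∀ i, ∃ c : κ → ℤ, ∀ k, b.repr (y i) k = c k := by
    intro i
    have := (b.mem_span_iff_repr_mem ℤ (y i)).1 (hb ▸ hy i)
    choose c hc using this
    exact ⟨c, fun k => (hc k).symm⟩
  choose c hc using h1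
  have h2 : (fun i => algebraMap ℤ ℝ ∘ c i) = b.equivFun ∘ y := by
    ext i k; simp [hc]
  have h3 : LinearIndependent ℤ (b.equivFun ∘ y) :=
    h.map' (b.equivFun.toLinearMap.restrictScalars ℤ) (by
      rw [LinearMap.ker_eq_bot]; exact b.equivFun.injective)
  have h4 : LinearIndependent ℤ c := by
    rw [← h2] at h3
    exact LinearIndependent.of_comp (Pi.algebraMap κ ℤ ℝ) h3
  have h5 := (linearIndependent_algebraMap_comp_iff (S := ℝ)).2 h4
  rw [h2] at h5
  exact LinearIndependent.of_comp b.equivFun.toLinearMap h5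

/-- homogeneous polynomials in the theta functions are multiplied by a nonzero factor -/
lemma ev_add_period (A : AbVar d M) {P : Pol M} {k : ℕ} (hP : P.IsHomogeneous k) {l : E d}
    (hl : l ∈ A.Λ) (z : E d) : ev A P (z + l) = 0 ↔ ev A P z = 0 := by
  obtain ⟨a, b, h⟩ := A.theta l hl
  unfold ev
  rw [h, eval_smul_of_hom hP, mul_eq_zero, or_iff_right (pow_ne_zero _ (Complex.exp_ne_zero _))]

lemma subset_cl (A : AbVar d M) (V : Set (E d)) : V ⊆ cl A V := fun z hz _ _ _ h => h z hz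

end Pool.Agent.Lib.MP_caab05_ag.LT
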