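import Mathlib
import Pool.Agent.Lib.MP_caab05_ag.LT.Base

/-! Subspaces in general position, and the affine form of the Liouville inequality. -/

namespace Pool.Agent.Lib.MP_caab05_ag.LT

open MvPolynomial

/-- every nonzero subtorus contains a coordinate subspace which spans the whole space together
with `W` -/
def AbVar.GenC {d M : ℕ} (A : AbVar d M) (W : Submodule ℂ (Fin d → ℂ)) : Prop :=
  ∀ U : Submodule ℂ (Fin d → ℂ),
    Submodule.span ℝ ((U : Set (Fin d → ℂ)) ∩ (A.Λ : Set (Fin d → ℂ))) = U.restrictScalars ℝ →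
    U = ⊥ ∨ ∃ S : Finset (Fin d), (∀ k ∈ S, Pi.single k 1 ∈ U) ∧
      ∀ z : Fin d → ℂ, ∃ w ∈ W, ∀ k, k ∉ S → w k = z k

/-- the good forms have no common zero in the affine chart `x i₀ ≠ 0` -/
def NZ0 {σ : Type} [Fintype σ] (i₀ : σ) (η : σ → ℂ) (N : ℕ) (B ε : ℝ) : Prop :=
  ∀ x : σ → AlgebraicClosure ℚ, x i₀ ≠ 0 → ∃ R, Good η N B ε R ∧ aeval x R ≠ 0

/-- Siegel's lemma for relations between polynomials which are linear in the last variable -/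
def PerS : Prop :=
  ∀ κ : Type, ∀ [Fintype κ], ∃ C : ℕ, 0 < C ∧ ∀ (N : ℕ) (β : ℝ)
    (a b : Option (Option κ) → MvPolynomial κ ℤ), 1 ≤ N → 0 ≤ β →
    (∀ i, (a i).totalDegree ≤ N ∧ (b i).totalDegree ≤ N) →
    (∀ i (x : κ → ℂ), ‖x‖ ≤ 1 → ‖aeval x (a i)‖ ≤ Real.exp β ∧ ‖aeval x (b i)‖ ≤ Real.exp β) →
    ∃ W : MvPolynomial (Option (Option κ)) ℤ, W ≠ 0 ∧
      W.totalDegree ≤ C * N ^ Fintype.card κ ∧
      (∀ y : Option (Option κ) → ℂ, ‖y‖ ≤ 1 →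
        ‖aeval y W‖ ≤ Real.exp (C * (β + N) * (N : ℝ) ^ Fintype.card κ)) ∧
      aeval (fun i => (Polynomial.C (a i) + Polynomial.C (b i) * Polynomial.X :
        Polynomial (MvPolynomial κ ℤ))) W = 0

/-- the size of a factor of an integer polynomial -/
def FacBdS : Prop :=
  ∀ (σ : Type) [Fintype σ] (P Q : MvPolynomial σ ℤ) (B : ℝ), P * Q ≠ 0 →
    (∀ y : σ → ℂ, ‖y‖ ≤ 1 → ‖aeval y (P * Q)‖ ≤ B) →
    ∀ y : σ → ℂ, ‖y‖ ≤ 1 → ‖aeval y P‖ ≤ 100 ^ (P * Q).totalDegree * B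

/-- Noether normalisation with small coefficients (Jelonek's trick) -/
def NormS : Prop :=
  ∀ κ : Type, ∀ [Fintype κ], ∃ C : ℕ, 0 < C ∧ ∀ (N m : ℕ) (R : Fin m → MvPolynomial κ ℤ),
    1 ≤ N → (∀ k, (R k).totalDegree ≤ N) →
    (∀ x : κ → AlgebraicClosure ℚ, ∃ k, aeval x (R k) ≠ 0) →
    ∃ (l : Option κ → κ → ℤ) (r : Option κ → Fin m → ℤ),
      (∀ i j, |l i j| ≤ C * N ^ Fintype.card κ) ∧ (∀ i k, |r i k| ≤ C * N ^ Fintype.card κ) ∧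
      Algebra.IsIntegral (Algebra.adjoin ℚ (Set.range fun i : Option κ =>
        (Polynomial.C (map (Int.castRingHom ℚ) (∑ j, l i j • X j)) +
          Polynomial.C (map (Int.castRingHom ℚ) (∑ k, r i k • R k)) * Polynomial.X :
            Polynomial (MvPolynomial κ ℚ)))) (Polynomial (MvPolynomial κ ℚ))

/-- the affine Liouville inequality for polynomials without common zero -/
def DetAS : Prop :=
  ∀ (σ : Type) [Fintype σ] (i₀ : σ) (η : σ → ℂ), η i₀ ≠ 0 →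
    ∃ C : ℝ, 0 < C ∧ ∀ (N : ℕ) (τ V : ℝ), 1 ≤ N → 0 ≤ τ →
      NZ0 i₀ η N (Real.exp τ) (Real.exp (-V)) →
      V ≤ C * (τ + N) * (N : ℝ) ^ (Fintype.card σ - 1)

def ElimAS : Prop :=
  ∀ (t : ℕ) (F : IntermediateField ℚ ℂ), Algebra.trdeg ℚ F ≤ t →
    ∀ (σ : Type) [Fintype σ] (i₀ : σ) (η : σ → ℂ), η i₀ ≠ 0 → (∀ i, η i ∈ F) → ∀ c : ℂ,
    IsIntegral ℤ c → ∃ C : ℝ, 0 < C ∧ ∀ (N : ℕ) (τ V : ℝ), 1 ≤ N → 0 ≤ τ →
      (∀ x : σ → ℂ, x i₀ ≠ 0 →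
        ∃ Q, GoodC c η N (Real.exp τ) (Real.exp (-V)) Q ∧ val Q c x ≠ 0) →
      V ≤ C * (τ + N) * (N : ℝ) ^ t

/-- the multiplicity estimate -/
def ZeroCS : Prop :=
  ∀ (d M : ℕ) (A : AbVar d M), ∃ C : ℝ, 0 < C ∧ ∀ (D T n : ℕ) (P : Pol M)
    (w : Fin n → E d), 1 ≤ D → P.IsHomogeneous D → (∃ z, ev A P z ≠ 0) → LinearIndependent ℂ w →
    A.GenC (Submodule.span ℂ (Set.range w)) →
    (∀ u ∈ Submodule.span ℂ (Set.range w), ∀ j ≤ d * T,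
      iteratedDeriv j (fun τ : ℂ => ev A P (τ • u) / A.θ (τ • u) 0 ^ D) 0 = 0) →
    ((T : ℝ) + 1) ^ n ≤ C * (D : ℝ) ^ d

/-- the transcendence theorem for a subspace in general position -/
def MainCS : Prop :=
  ∀ (d M l n : ℕ) (A : AbVar d M) (y : Fin l → Fin d → ℂ), (∀ i, y i ∈ A.Λ) →
    LinearIndependent ℤ y → Module.finrank ℂ (Submodule.span ℂ (Set.range y)) = n →
    A.GenC (Submodule.span ℂ (Set.range y)) → ∀ F : IntermediateField ℚ ℂ,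
    Submodule.span ℂ {w | w ∈ Submodule.span ℂ (Set.range y) ∧ ∀ j, w j ∈ F} =
      Submodule.span ℂ (Set.range y) →
    ((l * (d - n) : ℕ) : Cardinal) ≤ ((d * (2 * n + 2 - l) : ℕ) : Cardinal) * Algebra.trdeg ℚ F

end Pool.Agent.Lib.MP_caab05_ag.LT
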