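import Mathlib
import Pool.Agent.Lib.MP_caab05_ag.LT.Defs4

/-! Powers of an abelian variety (redundant variables). -/

namespace Pool.Agent.Lib.MP_caab05_ag.LT

open MvPolynomial

/-- the `j`-th block of coordinates -/
def sl {d d' p : ℕ} (δ : Fin p × Fin d ≃ Fin d') (z : E d') (j : Fin p) : E d :=
  fun i => z (δ (j, i))

/-- the vectors all of whose blocks lie in `W` -/
def powS {d d' p : ℕ} (δ : Fin p × Fin d ≃ Fin d') (W : Submodule ℂ (E d)) :
    Submodule ℂ (E d') where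
  carrier := {z | ∀ j, sl δ z j ∈ W}
  zero_mem' := fun _ => W.zero_mem
  add_mem' := fun ha hb j => W.add_mem (ha j) (hb j)
  smul_mem' := fun c _ h j => W.smul_mem c (h j)

/-- the Segre embedding of a power -/
def PowS : Prop :=
  ∀ (d M p d' M' : ℕ) (A : AbVar d M) (δ : Fin p × Fin d ≃ Fin d')
    (ε : Fin (M' + 1) ≃ (Fin p → Fin (M + 1))), 0 < p → ε 0 = 0 →
    ∃ B : AbVar d' M', (∀ z, z ∈ B.Λ ↔ ∀ j, sl δ z j ∈ A.Λ) ∧
      ∀ z m, B.θ z m = ∏ j, A.θ (sl δ z j) (ε m j)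

/-- the multiplicity estimate on a power -/
def PowZS : Prop :=
  ∀ (d M p d' M' : ℕ) (A : AbVar d M) (δ : Fin p × Fin d ≃ Fin d')
    (ε : Fin (M' + 1) ≃ (Fin p → Fin (M + 1))) (B : AbVar d' M'),
    (∀ z m, B.θ z m = ∏ j, A.θ (sl δ z j) (ε m j)) → ∀ (W : Submodule ℂ (E d)) (D k : ℕ),
    (∀ P : Pol M, P.IsHomogeneous D → Ord W (ev A P) 0 (k + 1) → ∀ z, ev A P z = 0) →
    ∀ Q : Pol M', Q.IsHomogeneous D → Ord (powS δ W) (ev B Q) 0 (p * k + 1) → ∀ z, ev B Q z = 0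

/-- the transcendence theorem with redundant variables -/
def MainPS : Prop :=
  ∀ (d M l n : ℕ) (A : AbVar d M) (y : Fin l → Fin d → ℂ), (∀ i, y i ∈ A.Λ) →
    LinearIndependent ℤ y → Module.finrank ℂ (Submodule.span ℂ (Set.range y)) = n →
    A.GenC (Submodule.span ℂ (Set.range y)) → ∀ F : IntermediateField ℚ ℂ,
    Submodule.span ℂ {w | w ∈ Submodule.span ℂ (Set.range y) ∧ ∀ j, w j ∈ F} =
      Submodule.span ℂ (Set.range y) →
    ((l * (d - n) : ℕ) : Cardinal) ≤ ((d * (2 * n - l) : ℕ) : Cardinal) * Algebra.trdeg ℚ F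

end Pool.Agent.Lib.MP_caab05_ag.LT
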