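import Mathlib
import Pool.Agent.Lib.MP_caab05_ag.LT.Base

/-! The differential system over an order of a number field. -/

namespace Pool.Agent.Lib.MP_caab05_ag.LT

open MvPolynomial Filter Topology Asymptotics

variable {d M : ℕ}

namespace JetAAux

/-- the field of algebraic numbers -/
noncomputable abbrev K : IntermediateField ℚ ℂ := algebraicClosure ℚ ℂ

/-- one primitive integral element and one denominator for finitely many algebraic numbers -/
lemma prim (s : Finset ℂ) (hs : ∀ x ∈ s, IsAlgebraic ℚ x) : ∃ (c : ℂ) (a : ℕ),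
    IsIntegral ℤ c ∧ 0 < a ∧ ∀ x ∈ s, ∃ p : Polynomial ℤ, Polynomial.aeval c p = a * x := by
  classical
  set F := IntermediateField.adjoin ℚ (s : Set ℂ) with hF
  have : FiniteDimensional ℚ F :=
    IntermediateField.finiteDimensional_adjoin fun x hx => (hs x hx).isIntegral
  obtain ⟨α, hα⟩ := Field.exists_primitive_element ℚ F
  have hαa : IsAlgebraic ℚ α := IsAlgebraic.of_finite ℚ α
  have hαc : IsAlgebraic ℚ (α : ℂ) := hαa.algHom F.val
  have hαz : IsAlgebraic ℤ (α : ℂ) := (IsFractionRing.isAlgebraic_iff ℤ ℚ ℂ).2 hαc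
  obtain ⟨n, hn, hint⟩ := hαz.exists_integral_multiple
  have hn' : (n : ℂ) ≠ 0 := by exact_mod_cast hn
  set c : ℂ := n • (α : ℂ) with hc
  have one : ∀ x ∈ s, ∃ a : ℕ, 0 < a ∧ ∃ p : Polynomial ℤ, Polynomial.aeval c p = a * x := by
    intro x hx
    have hxF : x ∈ F := IntermediateField.subset_adjoin ℚ _ hx
    have h1 : (⟨x, hxF⟩ : F) ∈ (IntermediateField.adjoin ℚ {α}).toSubalgebra := by
      rw [hα]; exact IntermediateField.mem_top
    rw [IntermediateField.adjoin_simple_toSubalgebra_of_isAlgebraic hαa,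
      Algebra.adjoin_singleton_eq_range_aeval] at h1
    obtain ⟨q, hq⟩ := h1
    have h2 : Polynomial.aeval (α : ℂ) q = x := by
      have := congrArg (fun y : F => (y : ℂ)) hq
      simp only [AlgHom.toRingHom_eq_coe, RingHom.coe_coe] at this
      rw [← this]
      exact Polynomial.aeval_algHom_apply F.val α q
    set q' : Polynomial ℚ := q.comp (Polynomial.C (n : ℚ)⁻¹ * Polynomial.X) with hq'
    have h3 : Polynomial.aeval c q' = x := by
      rw [hq', Polynomial.aeval_comp, ← h2]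
      congr 2
      simp only [map_mul, Polynomial.aeval_C, Polynomial.aeval_X, hc, zsmul_eq_mul, map_inv₀,
        map_intCast]
      field_simp
    obtain ⟨b, hb, hbq⟩ := IsLocalization.integerNormalization_spec (nonZeroDivisors ℤ) q'
    have hb0 : b ≠ 0 := nonZeroDivisors.ne_zero hb
    have h4 : Polynomial.aeval c (IsLocalization.integerNormalization (nonZeroDivisors ℤ) q') =
        b * x := by
      rw [← Polynomial.aeval_map_algebraMap ℚ, hbq, map_zsmul, h3, zsmul_eq_mul]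
    refine ⟨b.natAbs * b.natAbs, Nat.mul_pos (Int.natAbs_pos.2 hb0) (Int.natAbs_pos.2 hb0),
      Polynomial.C b * IsLocalization.integerNormalization (nonZeroDivisors ℤ) q', ?_⟩
    rw [map_mul, h4, Polynomial.aeval_C, ← Int.cast_natCast (R := ℂ), Nat.cast_mul,
      Int.natAbs_mul_self']
    simp only [eq_intCast, Int.cast_mul]
    ring
  choose! a ha p hp using one
  refine ⟨c, ∏ x ∈ s, a x, hint, Finset.prod_pos ha, fun x hx => ?_⟩
  refine ⟨((∏ y ∈ s.erase x, a y : ℕ) : Polynomial ℤ) * p x, ?_⟩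
  rw [map_mul, hp x hx, map_natCast, ← Finset.mul_prod_erase s a hx, Nat.cast_mul]
  ring

/-- clearing denominators in a polynomial after scaling the variables -/
lemma homog {σ : Type} (c : ℂ) (a κ : ℕ) (P : MvPolynomial σ K) (hdeg : P.totalDegree ≤ κ)
    (hc : ∀ m ∈ P.support, ∃ p : Polynomial ℤ, Polynomial.aeval c p = a * ((coeff m P : K) : ℂ)) :
    ∃ G : MvPolynomial σ (Polynomial ℤ), ∀ x : σ → ℂ,
      eval₂ (Polynomial.eval₂RingHom (Int.castRingHom ℂ) c) (fun i => (a : ℂ) * x i) G =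
        (a : ℂ) ^ κ * (a * aeval x P) := by
  choose! p hp using hc
  refine ⟨∑ m ∈ P.support,
    monomial m ((a : Polynomial ℤ) ^ (κ - m.sum fun _ e => e) * p m), fun x => ?_⟩
  rw [eval₂_sum, aeval_def, eval₂_eq (algebraMap K ℂ), Finset.mul_sum, Finset.mul_sum]
  refine Finset.sum_congr rfl fun m hm => ?_
  have h1 : (m.sum fun _ e => e) ≤ κ := (le_totalDegree hm).trans hdeg
  have h2 : Polynomial.eval₂RingHom (Int.castRingHom ℂ) c (p m) = a * ((coeff m P : K) : ℂ) := by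
    rw [← hp m hm, Polynomial.aeval_def, Polynomial.coe_eval₂RingHom]; rfl
  rw [eval₂_monomial, map_mul, map_pow, map_natCast, h2, Finsupp.prod]
  simp only [mul_pow, Finset.prod_mul_distrib, Finset.prod_pow_eq_pow_sum]
  have h3 : (a : ℂ) ^ κ =
      (a : ℂ) ^ (κ - m.sum fun _ e => e) * (a : ℂ) ^ (∑ i ∈ m.support, m i) := by
    rw [← pow_add]; congr 1
    exact (Nat.sub_add_cancel h1).symm
  rw [h3]
  change _ = _ * ((a : ℂ) * (((coeff m P : K) : ℂ) * _))
  ring

/-- functions which are polynomials with algebraic coefficients in the entries of `Φ` -/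
def AP {Z σ : Type} (Φ : Z → σ → ℂ) (h : Z → ℂ) : Prop :=
  ∃ P : MvPolynomial σ K, ∀ z, h z = aeval (Φ z) P

lemma AP.coord {Z σ : Type} (Φ : Z → σ → ℂ) (i : σ) : AP Φ fun z => Φ z i :=
  ⟨X i, fun z => by simp⟩

lemma AP.const {Z σ : Type} (Φ : Z → σ → ℂ) {c : ℂ} (hc : IsAlgebraic ℚ c) : AP Φ fun _ => c :=
  ⟨C ⟨c, mem_algebraicClosure_iff.2 hc⟩, fun z => by rw [aeval_C]; rfl⟩

lemma AP.mul {Z σ : Type} {Φ : Z → σ → ℂ} {g h : Z → ℂ} (hg : AP Φ g) (hh : AP Φ h) :
    AP Φ fun z => g z * h z := by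
  obtain ⟨P, hP⟩ := hg
  obtain ⟨Q, hQ⟩ := hh
  exact ⟨P * Q, fun z => by rw [map_mul, ← hP, ← hQ]⟩

lemma AP.sub {Z σ : Type} {Φ : Z → σ → ℂ} {g h : Z → ℂ} (hg : AP Φ g) (hh : AP Φ h) :
    AP Φ fun z => g z - h z := by
  obtain ⟨P, hP⟩ := hg
  obtain ⟨Q, hQ⟩ := hh
  exact ⟨P - Q, fun z => by rw [map_sub, ← hP, ← hQ]⟩

lemma AP.neg {Z σ : Type} {Φ : Z → σ → ℂ} {g : Z → ℂ} (hg : AP Φ g) :
    AP Φ fun z => -g z := by
  obtain ⟨P, hP⟩ := hg
  exact ⟨-P, fun z => by rw [map_neg, ← hP]⟩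

lemma AP.aeval {Z σ τ : Type} {Φ : Z → σ → ℂ} {u : Z → τ → ℂ} (hu : ∀ t, AP Φ fun z => u z t)
    (Q : MvPolynomial τ K) : AP Φ fun z => MvPolynomial.aeval (u z) Q := by
  choose P hP using hu
  refine ⟨bind₁ P Q, fun z => ?_⟩
  have h : (fun t => MvPolynomial.aeval (Φ z) (P t)) = u z := funext fun t => (hP t z).symm
  rw [aeval_bind₁, h]

lemma alg_aeval {τ : Type} {u : τ → ℂ} (hu : ∀ t, IsAlgebraic ℚ (u t)) (Q : MvPolynomial τ K) :
    IsAlgebraic ℚ (MvPolynomial.aeval u Q) := by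
  induction Q using MvPolynomial.induction_on with
  | C a => rw [aeval_C]; exact mem_algebraicClosure_iff.1 a.2
  | add p q hp hq => rw [map_add]; exact hp.add hq
  | mul_X p i hp => rw [map_mul, aeval_X]; exact hp.mul (hu i)

/-- the derivative of a polynomial along a curve is a polynomial in position and velocity -/
lemma exists_deriv {τ : Type} (P : MvPolynomial τ K) : ∃ Q : MvPolynomial (τ ⊕ τ) K,
    ∀ (ψ : ℂ → τ → ℂ) (v : τ → ℂ), (∀ t, HasDerivAt (fun s => ψ s t) (v t) 0) →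
      HasDerivAt (fun s => MvPolynomial.aeval (ψ s) P)
        (MvPolynomial.aeval (Sum.elim (ψ 0) v) Q) 0 := by
  induction P using MvPolynomial.induction_on with
  | C a =>
    refine ⟨0, fun ψ v _ => ?_⟩
    simp only [aeval_C, map_zero]
    exact hasDerivAt_const _ _
  | add p q hp hq =>
    obtain ⟨P, hP⟩ := hp
    obtain ⟨Q, hQ⟩ := hq
    refine ⟨P + Q, fun ψ v h => ?_⟩
    simp only [map_add]
    exact (hP ψ v h).add (hQ ψ v h)
  | mul_X p i hp =>
    obtain ⟨P, hP⟩ := hp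
    refine ⟨P * X (Sum.inl i) + rename Sum.inl p * X (Sum.inr i), fun ψ v h => ?_⟩
    simp only [map_add, map_mul, aeval_X, aeval_rename, Sum.elim_comp_inl, Sum.elim_inl,
      Sum.elim_inr]
    exact (hP ψ v h).mul (h i)

lemma differentiable_aeval {τ : Type} [Fintype τ] (P : MvPolynomial τ K) :
    Differentiable ℂ fun x : τ → ℂ => MvPolynomial.aeval x P := by
  have := differentiable_eval (map (algebraMap K ℂ) P)
  simpa only [eval_map, aeval_def] using this

lemma lift {τ : Type} {P : MvPolynomial τ ℂ} (hP : AlgCoeff P) :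
    ∃ Q : MvPolynomial τ K, ∀ x, eval x P = MvPolynomial.aeval x Q := by
  have : P ∈ Set.range (MvPolynomial.map (algebraMap K ℂ)) := by
    rw [mem_range_map_iff_coeffs_subset]
    intro y hy
    obtain ⟨m, -, rfl⟩ := mem_coeffs_iff.1 hy
    exact ⟨⟨_, mem_algebraicClosure_iff.2 (hP m)⟩, rfl⟩
  obtain ⟨Q, rfl⟩ := this
  exact ⟨Q, fun x => by rw [eval_map, aeval_def]⟩

/-- affine coordinates -/
noncomputable def f (A : AbVar d M) (z : E d) (i : Fin (M + 1)) : ℂ := A.θ z i / A.θ z 0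

lemma f_eq (A : AbVar d M) (z : E d) : f A z = (A.θ z 0)⁻¹ • A.θ z := by
  ext i; simp [f, div_eq_inv_mul]

lemma diff_f (A : AbVar d M) {z : E d} (hz : A.θ z 0 ≠ 0) (i : Fin (M + 1)) :
    DifferentiableAt ℂ (fun z => f A z i) z := by
  have h : ∀ i, DifferentiableAt ℂ (fun z => A.θ z i) z := fun i =>
    differentiableAt_pi.1 (A.holo z) i
  simp only [f, div_eq_mul_inv]
  exact (h i).fun_mul ((h 0).fun_inv hz)

lemma line {F : Type} [NormedAddCommGroup F] [NormedSpace ℂ F] {h : E d → F} {z : E d}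
    (hz : DifferentiableAt ℂ h z) (w : E d) :
    HasDerivAt (fun s : ℂ => h (z + s • w)) (fderiv ℂ h z w) 0 :=
  (hz.hasFDerivAt.hasLineDerivAt w)

/-- the addition law near the origin in affine coordinates -/
lemma law (A : AbVar d M) : ∃ B : Fin (M + 1) → MvPolynomial (Fin (M + 1) ⊕ Fin (M + 1)) K,
    MvPolynomial.aeval (Sum.elim (f A 0) (f A 0)) (B 0) ≠ 0 ∧
    ∀ z w, MvPolynomial.aeval (Sum.elim (f A z) (f A w)) (B 0) ≠ 0 → ∀ i,
      f A (z + w) i = MvPolynomial.aeval (Sum.elim (f A z) (f A w)) (B i) /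
        MvPolynomial.aeval (Sum.elim (f A z) (f A w)) (B 0) := by
  obtain ⟨k, B, hB, hne, hlaw⟩ := A.add 0 0
  choose B' hB' using fun i => lift (hB i).2
  refine ⟨B', ?_, fun z w h0 i => ?_⟩
  · obtain ⟨c, hc⟩ := hlaw 0 0
    have hc0 : c ≠ 0 := by
      rintro rfl
      exact hne (by rw [hc, zero_smul])
    have h1 := congrFun hc 0
    rw [← hB', f_eq, eval_bihom (hB 0).1, h1, add_zero]
    have := A.origin
    simp only [Pi.smul_apply, smul_eq_mul]
    positivity
  · obtain ⟨c, hc⟩ := hlaw z w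
    have h1 : ∀ i, MvPolynomial.aeval (Sum.elim (f A z) (f A w)) (B' i) =
        ((A.θ z 0)⁻¹ ^ k.1 * (A.θ w 0)⁻¹ ^ k.2 * c) * A.θ (z + w) i := by
      intro i
      rw [← hB', f_eq, f_eq, eval_bihom (hB i).1, congrFun hc i]
      simp only [Pi.smul_apply, smul_eq_mul]
      ring
    rw [h1] at h0
    rw [h1, h1, mul_div_mul_left _ _ (left_ne_zero_of_mul h0), f]

/-- the differential system over the field of algebraic numbers -/
lemma ode (A : AbVar d M) : ∃ (Φ : E d → Option (Fin (M + 1)) → ℂ)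
    (P : Option (Fin (M + 1)) → Fin d → MvPolynomial (Option (Fin (M + 1))) K),
    (∀ z i, Φ z (some i) = f A z i) ∧ (∀ i, IsAlgebraic ℚ (Φ 0 i)) ∧
    ∀ᶠ z in 𝓝 (0 : E d), DifferentiableAt ℂ Φ z ∧ ∀ i j,
      fderiv ℂ Φ z (Pi.single j 1) i = MvPolynomial.aeval (Φ z) (P i j) := by
  obtain ⟨B, hB0, hB⟩ := law A
  choose Q hQ using fun i => exists_deriv (B i)
  set b : Fin (M + 1) → E d → ℂ := fun i z =>
    MvPolynomial.aeval (Sum.elim (f A z) (f A 0)) (B i) with hb
  set Φ : E d → Option (Fin (M + 1)) → ℂ := fun z o => o.elim (b 0 z)⁻¹ (f A z) with hΦ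
  set t : Fin d → Fin (M + 1) → ℂ := fun j i =>
    fderiv ℂ (fun z => f A z i) 0 (Pi.single j 1) with ht
  set q : Fin d → Fin (M + 1) → E d → ℂ := fun j i z =>
    MvPolynomial.aeval (Sum.elim (Sum.elim (f A z) (f A 0)) (Sum.elim 0 (t j))) (Q i) with hq
  set D : Fin d → Fin (M + 1) → E d → ℂ := fun j i z =>
    (q j i z * b 0 z - b i z * q j 0 z) * ((b 0 z)⁻¹ * (b 0 z)⁻¹) with hD
  set D0 : Fin d → E d → ℂ := fun j z =>
    -MvPolynomial.aeval (Sum.elim (Sum.elim (f A z) (f A 0)) (Sum.elim (fun i => D j i z) 0))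
      (Q 0) * ((b 0 z)⁻¹ * (b 0 z)⁻¹) with hD0
  have ap_pos : ∀ s, AP Φ fun z => Sum.elim (f A z) (f A 0) s := by
    rintro (i | i)
    · exact AP.coord Φ (some i)
    · exact AP.const Φ (A.origin_alg i)
  have ap_b : ∀ i, AP Φ (b i) := fun i => AP.aeval ap_pos _
  have ap_g : AP Φ fun z => (b 0 z)⁻¹ * (b 0 z)⁻¹ := (AP.coord Φ none).mul (AP.coord Φ none)
  have ap_q : ∀ j i, AP Φ (q j i) := by
    intro j i
    refine AP.aeval ?_ _
    rintro (s | i | i)
    · exact ap_pos s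
    · exact AP.const Φ isAlgebraic_zero
    · exact AP.const Φ (A.tangent_alg i j)
  have ap_D : ∀ j i, AP Φ (D j i) := fun j i =>
    (((ap_q j i).mul (ap_b 0)).sub ((ap_b i).mul (ap_q j 0))).mul ap_g
  have ap_D0 : ∀ j, AP Φ (D0 j) := by
    intro j
    refine (AP.neg (AP.aeval ?_ _)).mul ap_g
    rintro (s | i | i)
    · exact ap_pos s
    · exact ap_D j i
    · exact AP.const Φ isAlgebraic_zero
  have der_f : ∀ z, b 0 z ≠ 0 → ∀ j i,
      HasDerivAt (fun s : ℂ => f A (z + s • Pi.single j 1) i) (D j i z) 0 := by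
    intro z hz j i
    set ψ : ℂ → Fin (M + 1) ⊕ Fin (M + 1) → ℂ := fun s =>
      Sum.elim (f A z) (f A (0 + s • Pi.single j 1)) with hψ
    have hψ0 : ψ 0 = Sum.elim (f A z) (f A 0) := by simp [hψ]
    have hψd : ∀ s, HasDerivAt (fun τ => ψ τ s) (Sum.elim 0 (t j) s) 0 := by
      rintro (i | i)
      · exact hasDerivAt_const _ _
      · exact line (diff_f A A.origin i) _
    have h1 : ∀ i, HasDerivAt (fun s => MvPolynomial.aeval (ψ s) (B i)) (q j i z) 0 := by
      intro i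
      have := hQ i ψ _ hψd
      rwa [hψ0] at this
    have h2 : MvPolynomial.aeval (ψ 0) (B 0) ≠ 0 := by rw [hψ0]; exact hz
    have h3 := (h1 i).fun_div (h1 0) h2
    have h4 : ∀ᶠ s in 𝓝 (0 : ℂ), MvPolynomial.aeval (ψ s) (B 0) ≠ 0 :=
      (h1 0).continuousAt.eventually_ne h2
    refine (h3.congr_of_eventuallyEq ?_).congr_deriv ?_
    · filter_upwards [h4] with s hs
      have := hB z (0 + s • Pi.single j 1) hs i
      conv_lhs at this => rw [zero_add]
      exact this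
    · rw [hψ0]
      change (q j i z * b 0 z - b i z * q j 0 z) / b 0 z ^ 2 = _
      rw [hD, div_eq_mul_inv, sq, mul_inv]
  have der_g : ∀ z, b 0 z ≠ 0 → ∀ j,
      HasDerivAt (fun s : ℂ => (b 0 (z + s • Pi.single j 1))⁻¹) (D0 j z) 0 := by
    intro z hz j
    set ψ : ℂ → Fin (M + 1) ⊕ Fin (M + 1) → ℂ := fun s =>
      Sum.elim (f A (z + s • Pi.single j 1)) (f A 0) with hψ
    have hψ0 : ψ 0 = Sum.elim (f A z) (f A 0) := by simp [hψ]
    have hψd : ∀ s, HasDerivAt (fun τ => ψ τ s) (Sum.elim (fun i => D j i z) 0 s) 0 := by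
      rintro (i | i)
      · exact der_f z hz j i
      · exact hasDerivAt_const _ _
    have h1 := hQ 0 ψ _ hψd
    have h2 : MvPolynomial.aeval (ψ 0) (B 0) ≠ 0 := by rw [hψ0]; exact hz
    refine (h1.fun_inv h2).congr_deriv ?_
    rw [hψ0]
    change _ / b 0 z ^ 2 = _
    rw [hD0, div_eq_mul_inv, sq, mul_inv]
  have ap_all : ∀ (o : Option (Fin (M + 1))) (j : Fin d),
      AP Φ (o.elim (D0 j) (D j)) := by
    rintro (_ | i) j
    · exact ap_D0 j
    · exact ap_D j i
  choose P hP using ap_all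
  have diff_b : ∀ z, A.θ z 0 ≠ 0 → DifferentiableAt ℂ (b 0) z := by
    intro z hz
    refine (differentiable_aeval (B 0) _).comp z (differentiableAt_pi.2 ?_)
    rintro (i | i)
    · exact diff_f A hz i
    · exact differentiableAt_const _
  refine ⟨Φ, P, fun _ _ => rfl, ?_, ?_⟩
  · rintro (_ | i)
    · refine IsAlgebraic.inv (alg_aeval ?_ (B 0))
      rintro (i | i) <;> exact A.origin_alg i
    · exact A.origin_alg i
  · have e1 : ∀ᶠ z in 𝓝 (0 : E d), A.θ z 0 ≠ 0 :=
      (differentiableAt_pi.1 (A.holo 0) 0).continuousAt.eventually_ne A.origin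
    have e2 : ∀ᶠ z in 𝓝 (0 : E d), b 0 z ≠ 0 :=
      (diff_b 0 A.origin).continuousAt.eventually_ne hB0
    filter_upwards [e1, e2] with z h1 h2
    have hd : DifferentiableAt ℂ Φ z := by
      refine differentiableAt_pi.2 ?_
      rintro (_ | i)
      · exact (diff_b z h1).inv h2
      · exact diff_f A h1 i
    refine ⟨hd, fun o j => ?_⟩
    have h3 := hasDerivAt_pi.1 (line hd (Pi.single j 1)) o
    rw [← hP]
    rcases o with _ | i
    · exact h3.unique (der_g z h2 j)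
    · exact h3.unique (der_f z h2 j i)

end JetAAux

theorem exists_ode (A : AbVar d M) : ∃ (c : ℂ) (a a' : ℕ) (φ : E d → Option (Fin (M + 1)) → ℂ)
    (e : Option (Fin (M + 1)) → Polynomial ℤ)
    (G : Option (Fin (M + 1)) → Fin d → MvPolynomial (Option (Fin (M + 1))) (Polynomial ℤ)),
    IsIntegral ℤ c ∧ 0 < a ∧ 0 < a' ∧
    (∀ z i, φ z (some i) = a * (A.θ z i / A.θ z 0)) ∧
    (∀ i, φ 0 i = Polynomial.aeval c (e i)) ∧
    ∀ᶠ z in 𝓝 (0 : E d), DifferentiableAt ℂ φ z ∧ ∀ w i, (a' : ℂ) * fderiv ℂ φ z w i =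
      ∑ j, w j * eval₂ (Polynomial.eval₂RingHom (Int.castRingHom ℂ) c) (φ z) (G i j) := by
  classical
  obtain ⟨Φ, P, h1, h2, h3⟩ := JetAAux.ode A
  set s : Finset ℂ := Finset.univ.image (Φ 0) ∪ Finset.univ.biUnion
    fun p : Option (Fin (M + 1)) × Fin d =>
      (P p.1 p.2).support.image fun m => ((coeff m (P p.1 p.2) : JetAAux.K) : ℂ) with hs
  obtain ⟨c, a, hc, ha, hp⟩ := JetAAux.prim s (by
    intro x hx
    simp only [hs, Finset.mem_union, Finset.mem_image, Finset.mem_univ, true_and,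
      Finset.mem_biUnion] at hx
    rcases hx with ⟨i, rfl⟩ | ⟨p, m, -, rfl⟩
    · exact h2 i
    · exact mem_algebraicClosure_iff.1 (Subtype.property _))
  set κ : ℕ := Finset.univ.sup fun p : Option (Fin (M + 1)) × Fin d => (P p.1 p.2).totalDegree
    with hκ
  have hG := fun i j => JetAAux.homog c a κ (P i j)
    (Finset.le_sup (f := fun p : Option (Fin (M + 1)) × Fin d => (P p.1 p.2).totalDegree)
      (Finset.mem_univ (i, j)))
    (fun m hm => hp _ (Finset.mem_union_right _ (Finset.mem_biUnion.2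
      ⟨(i, j), Finset.mem_univ _, Finset.mem_image_of_mem _ hm⟩)))
  choose G hG using hG
  choose e he using fun i => hp (Φ 0 i)
    (Finset.mem_union_left _ (Finset.mem_image_of_mem _ (Finset.mem_univ i)))
  refine ⟨c, a, a ^ κ, fun z i => a * Φ z i, e, G, hc, ha, pow_pos ha _,
    fun z i => congrArg _ (h1 z i), fun i => (he i).symm, ?_⟩
  filter_upwards [h3] with z ⟨hd, hz⟩
  have hd' : HasFDerivAt (fun z i => (a : ℂ) * Φ z i) ((a : ℂ) • fderiv ℂ Φ z) z :=
    hd.hasFDerivAt.const_smul (a : ℂ)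
  refine ⟨hd'.differentiableAt, fun w i => ?_⟩
  rw [hd'.fderiv]
  have hw : w = ∑ j, w j • (Pi.single j 1 : E d) := by
    ext k; simp [Finset.sum_apply, Pi.single_apply]
  conv_lhs => rw [hw]
  simp only [smul_apply, map_sum, map_smul, Finset.sum_apply, Pi.smul_apply,
    smul_eq_mul, hz, hG, Finset.mul_sum, Nat.cast_pow]
  exact Finset.sum_congr rfl fun j _ => by ring

end Pool.Agent.Lib.MP_caab05_ag.LT
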