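import Mathlib
import Pool.Agent.Lib.MP_caab05_ag.LT.Base

/-! Lower bound for forms without common zero in projective space. -/

namespace Pool.Agent.Lib.MP_caab05_ag.LT

open MvPolynomial Filter Topology Asymptotics

variable {d M : ℕ}

namespace DetAux

lemma geom {K : ℕ} {ζ : ℂ} (hζ : IsPrimitiveRoot ζ K) {a b : ℕ} (ha : a < K) (hb : b < K) :
    ∑ j ∈ Finset.range K, (ζ ^ a * (ζ ^ b)⁻¹) ^ j = if a = b then (K : ℂ) else 0 := by
  have h0 : ζ ^ b ≠ 0 := pow_ne_zero _ (hζ.ne_zero (by omega))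
  split_ifs with h
  · simp [h, mul_inv_cancel₀ h0]
  · have h1 : ζ ^ a * (ζ ^ b)⁻¹ ≠ 1 := fun e =>
      h (hζ.pow_inj ha hb ((mul_inv_eq_one₀ h0).1 e))
    rw [geom_sum_eq h1, mul_pow, inv_pow, ← pow_mul, ← pow_mul, mul_comm a, mul_comm b, pow_mul,
      pow_mul, hζ.pow_eq_one]
    simp

end DetAux

theorem coeff_le {σ : Type} [Fintype σ] (P : MvPolynomial σ ℂ) (ρ : σ → ℝ) (hρ : ∀ i, 0 < ρ i)
    {B : ℝ} (h : ∀ x : σ → ℂ, (∀ i, ‖x i‖ ≤ ρ i) → ‖eval x P‖ ≤ B) (m : σ →₀ ℕ) :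
    ‖coeff m P‖ * ∏ i, ρ i ^ m i ≤ B := by
  classical
  by_cases hm : m ∈ P.support
  swap
  · rw [notMem_support_iff.1 hm, norm_zero, zero_mul]
    exact (norm_nonneg _).trans (h 0 fun i => by simpa using (hρ i).le)
  set K := P.totalDegree + 1 with hK
  have hlt : ∀ n ∈ P.support, ∀ i, n i < K := fun n hn i =>
    Nat.lt_succ_of_le ((monomial_le_degreeOf i hn).trans (degreeOf_le_totalDegree P i))
  obtain ⟨ζ, hζ⟩ : ∃ ζ : ℂ, IsPrimitiveRoot ζ K := ⟨_, Complex.isPrimitiveRoot_exp K (by omega)⟩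
  have hn1 : ‖ζ‖ = 1 := hζ.norm'_eq_one (by omega)
  set T := Fintype.piFinset fun _ : σ => Finset.range K with hT
  have key : ∑ j ∈ T, (∏ i, ((ζ ^ m i)⁻¹) ^ j i) * eval (fun i => (ρ i : ℂ) * ζ ^ j i) P =
      (K : ℂ) ^ Fintype.card σ * (coeff m P * ∏ i, (ρ i : ℂ) ^ m i) := by
    have e1 : ∀ j : σ → ℕ, (∏ i, ((ζ ^ m i)⁻¹) ^ j i) * eval (fun i => (ρ i : ℂ) * ζ ^ j i) P =
        ∑ n ∈ P.support, (coeff n P * ∏ i, (ρ i : ℂ) ^ n i) *
          ∏ i, (ζ ^ n i * (ζ ^ m i)⁻¹) ^ j i := fun j => by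
      rw [eval_eq', Finset.mul_sum]
      refine Finset.sum_congr rfl fun n _ => ?_
      simp only [mul_pow, Finset.prod_mul_distrib, ← pow_mul, mul_comm (j _)]
      ring
    simp only [e1]
    rw [Finset.sum_comm, Finset.sum_eq_single_of_mem m hm]
    · rw [← Finset.mul_sum, hT, ← Finset.prod_univ_sum (fun _ : σ => Finset.range K)
        fun i j => (ζ ^ m i * (ζ ^ m i)⁻¹) ^ j]
      simp only [DetAux.geom hζ (hlt m hm _) (hlt m hm _), if_true, Finset.prod_const,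
        Finset.card_univ]
      ring
    · intro n hn hne
      rw [← Finset.mul_sum, hT, ← Finset.prod_univ_sum (fun _ : σ => Finset.range K)
        fun i j => (ζ ^ n i * (ζ ^ m i)⁻¹) ^ j]
      obtain ⟨i, hi⟩ : ∃ i, n i ≠ m i := by
        by_contra hc
        push Not at hc
        exact hne (Finsupp.ext hc)
      exact mul_eq_zero_of_right _ (Finset.prod_eq_zero (Finset.mem_univ i)
        (by rw [DetAux.geom hζ (hlt n hn _) (hlt m hm _), if_neg hi]))
  have hb : ‖∑ j ∈ T, (∏ i, ((ζ ^ m i)⁻¹) ^ j i) * eval (fun i => (ρ i : ℂ) * ζ ^ j i) P‖ ≤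
      (K : ℝ) ^ Fintype.card σ * B := by
    refine (norm_sum_le _ _).trans ((Finset.sum_le_card_nsmul _ _ B fun j _ => ?_).trans_eq ?_)
    · rw [norm_mul, norm_prod]
      simp only [norm_pow, norm_inv, hn1, one_pow, inv_one, Finset.prod_const_one, one_mul]
      exact h _ fun i => by simp [hn1, abs_of_pos (hρ i)]
    · simp [hT]
  rw [key, norm_mul, norm_mul, norm_pow, norm_prod, Complex.norm_natCast] at hb
  simp only [norm_pow, Complex.norm_real, Real.norm_eq_abs, abs_of_pos (hρ _)] at hb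
  exact le_of_mul_le_mul_left hb (by positivity)

namespace DetAux

lemma norm_det_le {ι : Type} [Fintype ι] [DecidableEq ι] (A : Matrix ι ι ℂ) (w : ι → ℝ)
    (h : ∀ a n, ‖A a n‖ ≤ w n) : ‖A.det‖ ≤ (Fintype.card ι).factorial * ∏ n, w n := by
  rw [Matrix.det_apply]
  refine (norm_sum_le _ _).trans
    ((Finset.sum_le_card_nsmul _ _ (∏ n, w n) fun e _ => ?_).trans_eq ?_)
  · have : ‖Equiv.Perm.sign e • ∏ i, A (e i) i‖ = ‖∏ i, A (e i) i‖ := by
      rcases Int.units_eq_one_or (Equiv.Perm.sign e) with h1 | h1 <;> simp [h1]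
    rw [this, norm_prod]
    exact Finset.prod_le_prod (fun _ _ => norm_nonneg _) fun i _ => h _ i
  · simp [Fintype.card_perm]

lemma exists_det {K ι κ : Type} [Field K] [Fintype ι] [DecidableEq ι] (col : κ → ι → K)
    (hspan : Submodule.span K (Set.range col) = ⊤) :
    ∃ s : ι → κ, (Matrix.of fun a n => col (s a) n).det ≠ 0 := by
  obtain ⟨κ', a, -, hsp, hli⟩ := exists_linearIndependent' K col
  let b : Module.Basis κ' K (ι → K) := Module.Basis.mk hli (by rw [hsp, hspan])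
  have : Finite κ' := Module.Finite.finite_basis b
  have := Fintype.ofFinite κ'
  have hcard : Fintype.card ι = Fintype.card κ' := by
    rw [← Module.finrank_eq_card_basis b, Module.finrank_fintype_fun_eq_card]
  let e : ι ≃ κ' := Fintype.equivOfCardEq hcard
  refine ⟨a ∘ e, ?_⟩
  have h2 : LinearIndependent K (Matrix.of fun i n => col ((a ∘ e) i) n).row :=
    hli.comp e e.injective
  rw [Matrix.linearIndependent_rows_iff_isUnit, Matrix.isUnit_iff_isUnit_det] at h2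
  exact h2.ne_zero

lemma hc_mul {σ : Type} (Q : MvPolynomial σ ℚ) {R : MvPolynomial σ ℚ} {N : ℕ}
    (hR : R.IsHomogeneous N) (m : ℕ) :
    homogeneousComponent (m + N) (Q * R) = homogeneousComponent m Q * R := by
  induction Q using MvPolynomial.induction_on' with
  | monomial n a =>
    have h1 : (monomial n a).IsHomogeneous n.degree := isHomogeneous_monomial a rfl
    rw [homogeneousComponent_of_mem (h1.mul hR), homogeneousComponent_of_mem h1]
    by_cases h : m = n.degree <;> simp [h]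
  | add p q hp hq => rw [add_mul, map_add, map_add, add_mul, hp, hq]

lemma hom_le {σ R : Type} [CommRing R] {m : ℕ} {W : Submodule R (MvPolynomial σ R)}
    (h : ∀ n : σ →₀ ℕ, n.degree = m → monomial n (1 : R) ∈ W) :
    homogeneousSubmodule σ R m ≤ W := by
  intro F hF
  rw [F.as_sum]
  refine W.sum_mem fun n hn => ?_
  have h1 : n.degree = m := by
    by_contra hne
    exact mem_support_iff.1 hn (IsHomogeneous.coeff_eq_zero hF hne)
  have h2 := W.smul_mem (coeff n F) (h n h1)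
  rwa [smul_monomial, smul_eq_mul, mul_one] at h2

lemma null {σ : Type} [Fintype σ] [Nonempty σ] {N : ℕ} (𝒢 : Set (MvPolynomial σ ℤ))
    (hom : ∀ R ∈ 𝒢, R.IsHomogeneous N)
    (hz : ∀ x : σ → AlgebraicClosure ℚ, x ≠ 0 → ∃ R ∈ 𝒢, aeval x R ≠ 0) :
    ∃ s₁ : ℕ, ∀ m, s₁ ≤ m → homogeneousSubmodule σ ℚ (m + N) ≤
      homogeneousSubmodule σ ℚ m * Submodule.span ℚ (MvPolynomial.map (Int.castRingHom ℚ) '' 𝒢) := by
  classical
  set I : Ideal (MvPolynomial σ ℚ) := Ideal.span (MvPolynomial.map (Int.castRingHom ℚ) '' 𝒢) with hI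
  have h1 : ∀ i, ∃ s : ℕ, X i ^ s ∈ I := fun i => by
    have : (X i : MvPolynomial σ ℚ) ∈ I.radical := by
      rw [← vanishingIdeal_zeroLocus_eq_radical (K := AlgebraicClosure ℚ),
        mem_vanishingIdeal_iff]
      intro x hx
      by_contra hne
      obtain ⟨R, hR, h2⟩ := hz x (fun e => hne (by simp [e]))
      have h3 := hx _ (Ideal.subset_span ⟨R, hR, rfl⟩)
      exact h2 ((aeval_map_algebraMap ℚ x R).symm.trans h3)
    exact this
  choose s hs using h1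
  refine ⟨∑ i, s i, fun m hm => hom_le fun n hn => ?_⟩
  obtain ⟨i, hi⟩ : ∃ i, s i ≤ n i := by
    by_contra hc
    push Not at hc
    have := Finset.sum_lt_sum_of_nonempty Finset.univ_nonempty fun i _ => hc i
    rw [← Finsupp.degree_eq_sum, hn] at this
    omega
  have h2 : monomial n (1 : ℚ) ∈ I := by
    have e : monomial n (1 : ℚ) = monomial (n - Finsupp.single i (s i)) 1 * X i ^ s i := by
      rw [X_pow_eq_monomial, monomial_mul, tsub_add_cancel_of_le (Finsupp.single_le_iff.2 hi),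
        mul_one]
    rw [e]
    exact I.mul_mem_left _ (hs i)
  obtain ⟨k, c, g, e⟩ := Submodule.mem_span_set'.1 h2
  have e2 := homogeneousComponent_of_mem (m := m + N) (isHomogeneous_monomial (1 : ℚ) hn)
  rw [if_pos rfl] at e2
  rw [← e2, ← e, map_sum]
  refine Submodule.sum_mem _ fun j _ => ?_
  obtain ⟨R, hR, e3⟩ := (g j).2
  rw [smul_eq_mul, hc_mul _ (N := N) (e3 ▸ (hom R hR).map _)]
  exact Submodule.mul_mem_mul (homogeneousComponent_mem _ _) (Submodule.subset_span (g j).2)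

lemma span_all {σ : Type} {N s₁ : ℕ} {𝒢 : Set (MvPolynomial σ ℤ)}
    (h : ∀ m, s₁ ≤ m → homogeneousSubmodule σ ℚ (m + N) ≤
      homogeneousSubmodule σ ℚ m * Submodule.span ℚ (MvPolynomial.map (Int.castRingHom ℚ) '' 𝒢))
    (Ps : ℕ → Set (MvPolynomial σ ℤ)) (h0 : ∀ n : σ →₀ ℕ, n.degree = s₁ → monomial n 1 ∈ Ps 0)
    (h1 : ∀ k, ∀ P ∈ Ps k, ∀ R ∈ 𝒢, P * R ∈ Ps (k + 1)) (k : ℕ) :
    homogeneousSubmodule σ ℚ (s₁ + N * k) ≤
      Submodule.span ℚ (MvPolynomial.map (Int.castRingHom ℚ) '' Ps k) := by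
  induction k with
  | zero => exact hom_le fun n hn => Submodule.subset_span ⟨_, h0 n hn, by simp⟩
  | succ k ih =>
    rw [Nat.mul_succ, ← add_assoc]
    refine (h _ (Nat.le_add_right _ _)).trans ((mul_le_mul_left ih _).trans ?_)
    rw [Submodule.span_mul_span]
    refine Submodule.span_mono ?_
    rintro _ ⟨_, ⟨P, hP, rfl⟩, _, ⟨R, hR, rfl⟩, rfl⟩
    exact ⟨P * R, h1 k P hP R hR, map_mul _ _ _⟩

/-- the exponents of total degree `m` -/
abbrev Ex (σ : Type) [Fintype σ] [DecidableEq σ] (m : ℕ) : Type :=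
  ↥(Finset.finsuppAntidiag (Finset.univ : Finset σ) m)

lemma mem_Ex {σ : Type} [Fintype σ] [DecidableEq σ] {m : ℕ} {n : σ →₀ ℕ} :
    n ∈ Finset.finsuppAntidiag (Finset.univ : Finset σ) m ↔ n.degree = m := by
  simp [Finsupp.degree_eq_sum]

lemma exists_mat {σ : Type} [Fintype σ] [DecidableEq σ] {m : ℕ} {Ps : Set (MvPolynomial σ ℤ)}
    (h : homogeneousSubmodule σ ℚ m ≤ Submodule.span ℚ (MvPolynomial.map (Int.castRingHom ℚ) '' Ps)) :
    ∃ F : Ex σ m → MvPolynomial σ ℤ, (∀ a, F a ∈ Ps) ∧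
      1 ≤ ‖(Matrix.of fun a n : Ex σ m => coeff n.1 (MvPolynomial.map (Int.castRingHom ℂ) (F a))).det‖ := by
  let co : MvPolynomial σ ℚ →ₗ[ℚ] (Ex σ m → ℚ) := LinearMap.pi fun n => lcoeff ℚ n.1
  obtain ⟨s, hs⟩ := exists_det (fun P : Ps => co (MvPolynomial.map (Int.castRingHom ℚ) P.1)) (by
    rw [eq_top_iff, ← (Pi.basisFun ℚ (Ex σ m)).span_eq, Submodule.span_le]
    rintro _ ⟨n, rfl⟩
    have h1 := Submodule.mem_map_of_mem (f := co)
      (h (isHomogeneous_monomial (1 : ℚ) (mem_Ex.1 n.2)))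
    rw [Submodule.map_span] at h1
    have e : co (monomial n.1 1) = Pi.basisFun ℚ (Ex σ m) n := by
      ext n'
      rw [Pi.basisFun_apply, Pi.single_apply]
      exact (coeff_monomial _ _ _).trans (if_congr (Subtype.ext_iff.symm.trans eq_comm) rfl rfl)
    rw [← e]
    refine Submodule.span_mono ?_ h1
    rintro _ ⟨_, ⟨P, hP, rfl⟩, rfl⟩
    exact ⟨⟨P, hP⟩, rfl⟩)
  refine ⟨fun a => (s a).1, fun a => (s a).2, ?_⟩
  let A : Matrix (Ex σ m) (Ex σ m) ℤ := Matrix.of fun a n => coeff n.1 (s a).1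
  have e1 : (Matrix.of fun a n => co (MvPolynomial.map (Int.castRingHom ℚ) (s a).1) n) =
      (Int.castRingHom ℚ).mapMatrix A := by
    ext a n
    simp [co, A, coeff_map]
  have e2 : (Matrix.of fun a n : Ex σ m => coeff n.1 (MvPolynomial.map (Int.castRingHom ℂ) (s a).1)) =
      (Int.castRingHom ℂ).mapMatrix A := by
    ext a n
    simp [A, coeff_map]
  rw [e1, ← RingHom.map_det] at hs
  rw [e2, ← RingHom.map_det, eq_intCast, Complex.norm_intCast]
  have h3 : A.det ≠ 0 := fun e => hs (by rw [e, map_zero])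
  exact_mod_cast Int.one_le_abs h3

lemma aeval_eq {σ : Type} (x : σ → ℂ) (R : MvPolynomial σ ℤ) :
    aeval x R = eval x (MvPolynomial.map (Int.castRingHom ℂ) R) := by
  rw [eval_map, aeval_def, algebraMap_int_eq]

lemma bound_ball {σ : Type} [Fintype σ] {R : MvPolynomial σ ℤ} {N : ℕ} {B c : ℝ} (hc : 0 < c)
    (hR : R.IsHomogeneous N) (hB : ∀ x : σ → ℂ, ‖x‖ ≤ 1 → ‖aeval x R‖ ≤ B) {z : σ → ℂ}
    (hz : ‖z‖ ≤ c) : ‖aeval z R‖ ≤ c ^ N * B := by
  have e : z = (c : ℂ) • ((c : ℂ)⁻¹ • z) := by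
    rw [smul_inv_smul₀ (Complex.ofReal_ne_zero.2 hc.ne')]
  rw [e, aeval_smul_of_hom hR, norm_mul, norm_pow, Complex.norm_real, Real.norm_of_nonneg hc.le]
  refine mul_le_mul_of_nonneg_left (hB _ ?_) (by positivity)
  rw [norm_smul, norm_inv, Complex.norm_real, Real.norm_of_nonneg hc.le]
  exact inv_mul_le_one_of_le₀ hz hc.le

lemma bound_near {σ : Type} [Fintype σ] {η : σ → ℂ} {R : MvPolynomial σ ℤ} {N : ℕ} {B ε : ℝ}
    (hB : 1 ≤ B) (h0 : 0 < ε) (h1 : ε ≤ 1) (hR : Good η N B ε R) {a : ℂ} {y : σ → ℂ}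
    (ha : ‖a‖ ≤ 1) (hy : ‖y‖ ≤ ε) : ‖aeval (a • η + y) R‖ ≤ 2 * ((‖η‖ + 2) ^ N * B) * ε := by
  set c := ‖η‖ + 2 with hc
  have hc1 : 1 ≤ c := by have := norm_nonneg η; linarith
  have hK : 1 ≤ c ^ N * B := one_le_mul_of_one_le_of_one_le (one_le_pow₀ hc1) hB
  let g : ℂ → ℂ := fun τ => aeval (a • η + τ • ((ε : ℂ)⁻¹ • y)) R
  have hy' : ‖(ε : ℂ)⁻¹ • y‖ ≤ 1 := by
    rw [norm_smul, norm_inv, Complex.norm_real, Real.norm_of_nonneg h0.le]
    exact inv_mul_le_one_of_le₀ hy h0.le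
  have hg : ∀ τ : ℂ, ‖τ‖ ≤ 2 → ‖g τ‖ ≤ c ^ N * B := fun τ hτ => by
    refine bound_ball (by linarith) hR.1 hR.2.1 ((norm_add_le _ _).trans ?_)
    rw [norm_smul, norm_smul τ]
    nlinarith [norm_nonneg η, norm_nonneg τ, norm_nonneg ((ε : ℂ)⁻¹ • y)]
  have hd : Differentiable ℂ g := by
    simp only [g, aeval_eq]
    have hl : Differentiable ℂ fun τ : ℂ => a • η + τ • ((ε : ℂ)⁻¹ • y) := by fun_prop
    exact (differentiable_eval (MvPolynomial.map (Int.castRingHom ℂ) R)).comp hl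
  have hs := Complex.dist_le_div_mul_dist_of_mapsTo_ball (R₁ := 2) (R₂ := 2 * (c ^ N * B))
    (c := 0) (z := (ε : ℂ)) hd.differentiableOn (fun τ hτ => by
      rw [Metric.mem_closedBall, dist_eq_norm]
      have a1 := hg τ (mem_ball_zero_iff.1 hτ).le
      have a2 := hg 0 (by simp)
      linarith [norm_sub_le (g τ) (g 0)])
    (by rw [mem_ball_zero_iff, Complex.norm_real, Real.norm_of_nonneg h0.le]; linarith)
  have e1 : g ε = aeval (a • η + y) R := by
    simp only [g, smul_inv_smul₀ (Complex.ofReal_ne_zero.2 h0.ne')]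
  have e2 : ‖g 0‖ ≤ ε := by
    simp only [g, zero_smul, add_zero]
    rw [aeval_smul_of_hom hR.1, norm_mul, norm_pow]
    exact (mul_le_of_le_one_left (norm_nonneg _) (pow_le_one₀ (norm_nonneg _) ha)).trans hR.2.2
  rw [dist_eq_norm, dist_zero_right, Complex.norm_real, Real.norm_of_nonneg h0.le, e1] at hs
  have := norm_le_norm_sub_add (aeval (a • η + y) R) (g 0)
  nlinarith

lemma bound_monomial {σ R : Type} [Fintype σ] [CommRing R] [Algebra R ℂ] {n : σ →₀ ℕ} {c : ℝ}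
    {z : σ → ℂ} (hz : ‖z‖ ≤ c) : ‖aeval z (monomial n (1 : R))‖ ≤ c ^ n.degree := by
  rw [aeval_monomial, map_one, one_mul, Finsupp.prod_fintype _ _ (fun _ => pow_zero _), norm_prod,
    Finsupp.degree_eq_sum, ← Finset.prod_pow_eq_pow_sum]
  refine Finset.prod_le_prod (fun _ _ => norm_nonneg _) fun i _ => ?_
  rw [norm_pow]
  exact pow_le_pow_left₀ (norm_nonneg _) ((norm_le_pi_norm z i).trans hz) _

lemma eval_sub {σ : Type} (x : σ → ℂ) (f : σ → MvPolynomial σ ℂ) (F : MvPolynomial σ ℂ) :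
    eval x (aeval f F) = eval (fun i => eval x (f i)) F := by
  induction F using MvPolynomial.induction_on with
  | C a => simp
  | add p q hp hq => simp only [map_add, hp, hq]
  | mul_X p i hp => simp only [map_mul, hp, aeval_X, eval_X]

lemma det_le {σ : Type} [Fintype σ] [DecidableEq σ] {η : σ → ℂ} {i₀ : σ} (hη : η i₀ ≠ 0) {m : ℕ}
    (F : Ex σ m → MvPolynomial σ ℂ) (hF : ∀ a, (F a).IsHomogeneous m) {β ε : ℝ} (s : ℕ)
    (h0 : 0 < ε) (hb : ∀ a z, ‖z‖ ≤ ‖η‖ + 2 → ‖eval z (F a)‖ ≤ β)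
    (hn : ∀ a (x : ℂ) y, ‖x‖ ≤ 1 → ‖y‖ ≤ ε → ‖eval (x • η + y) (F a)‖ ≤ β * ε ^ s) :
    ‖(Matrix.of fun a n : Ex σ m => coeff n.1 (F a)).det‖ ≤
      ((Fintype.card (Ex σ m)).factorial *
        ∏ n : Ex σ m, β * ε ^ (s - ∑ i ∈ Finset.univ.erase i₀, n.1 i)) *
      ((Fintype.card (Ex σ m)).factorial * ∏ _n : Ex σ m, (1 + (‖η‖ + 1) / ‖η i₀‖) ^ m) := by
  let f : σ → MvPolynomial σ ℂ := fun i => (if i = i₀ then 0 else X i) + C (η i) * X i₀
  let g : σ → MvPolynomial σ ℂ := fun i =>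
    if i = i₀ then C (η i₀)⁻¹ * X i₀ else X i - C (η i * (η i₀)⁻¹) * X i₀
  have hf : ∀ x : σ → ℂ, (fun i => eval x (f i)) = x i₀ • η + Function.update x i₀ 0 := by
    intro x
    ext i
    by_cases h : i = i₀ <;> simp [f, h, mul_comm, add_comm]
  have hfh : ∀ i, (f i).IsHomogeneous 1 := fun i => by
    refine IsHomogeneous.add ?_ ((isHomogeneous_X _ _).C_mul _)
    split_ifs
    · exact isHomogeneous_zero _ _ _
    · exact isHomogeneous_X _ _
  have hgf : ∀ G : MvPolynomial σ ℂ, aeval g (aeval f G) = G := fun G => by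
    refine MvPolynomial.funext fun x => ?_
    rw [eval_sub, eval_sub, hf]
    congr 2
    ext i
    by_cases h : i = i₀
    · simp [g, h, hη, mul_comm]
    · simp [g, h]
      ring
  have hu : ∀ (x : σ → ℂ) (r : ℝ), 0 ≤ r → (∀ i, i ≠ i₀ → ‖x i‖ ≤ r) →
      ‖Function.update x i₀ 0‖ ≤ r := fun x r hr h =>
    (pi_norm_le_iff_of_nonneg hr).2 fun i => by
      by_cases hi : i = i₀
      · simp [hi, hr]
      · simpa [hi] using h i hi
  have e : (Matrix.of fun a n : Ex σ m => coeff n.1 (F a)) =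
      (Matrix.of fun a n : Ex σ m => coeff n.1 (aeval f (F a))) *
        Matrix.of fun a n : Ex σ m => coeff n.1 (aeval g (monomial a.1 (1 : ℂ))) := by
    ext a n
    have h1 : (aeval f (F a)).IsHomogeneous m := by simpa using (hF a).aeval f hfh
    have h2 : aeval f (F a) = ∑ b : Ex σ m, coeff b.1 (aeval f (F a)) • monomial b.1 (1 : ℂ) := by
      rw [Finset.sum_coe_sort (Finset.finsuppAntidiag Finset.univ m)
        fun b => coeff b (aeval f (F a)) • monomial b (1 : ℂ)]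
      conv_lhs => rw [(aeval f (F a)).as_sum]
      simp only [smul_monomial, smul_eq_mul, mul_one]
      refine Finset.sum_subset (fun b hb => mem_Ex.2 ?_) fun b _ hb => ?_
      · by_contra hne
        exact mem_support_iff.1 hb (h1.coeff_eq_zero hne)
      · rw [notMem_support_iff.1 hb, monomial_zero]
    rw [Matrix.mul_apply, Matrix.of_apply]
    conv_lhs => rw [← hgf (F a), h2]
    simp only [map_sum, map_smul, coeff_sum, coeff_smul, smul_eq_mul, Matrix.of_apply]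
  rw [e, Matrix.det_mul, norm_mul]
  refine (fun h1 h2 => mul_le_mul h1 h2 (norm_nonneg _) ((norm_nonneg _).trans h1))
    (norm_det_le _ _ fun a n => ?_) (norm_det_le _ _ fun a n => ?_)
  swap
  · have h1 := coeff_le (aeval g (monomial a.1 (1 : ℂ))) (fun _ => 1) (fun _ => one_pos)
      (B := (1 + (‖η‖ + 1) / ‖η i₀‖) ^ m) (fun x hx => by
        rw [eval_sub]
        refine (bound_monomial (R := ℂ) (c := 1 + (‖η‖ + 1) / ‖η i₀‖)
          ((pi_norm_le_iff_of_nonneg (by positivity)).2 fun i => ?_)).trans_eq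
          (by rw [mem_Ex.1 a.2])
        have p1 : 0 < ‖η i₀‖ := norm_pos_iff.2 hη
        have p2 : ‖(η i₀)⁻¹ * x i₀‖ ≤ 1 / ‖η i₀‖ := by
          rw [norm_mul, norm_inv, one_div]
          exact mul_le_of_le_one_right (by positivity) (hx i₀)
        have p3 : (‖η‖ + 1) / ‖η i₀‖ = ‖η‖ * (1 / ‖η i₀‖) + 1 / ‖η i₀‖ := by ring
        have p4 : 0 ≤ ‖η‖ * (1 / ‖η i₀‖) := by positivity
        by_cases h : i = i₀
        · simp only [g, h, if_true, map_mul, eval_C, eval_X]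
          linarith
        · simp only [g, h, if_false, map_sub, map_mul, eval_C, eval_X]
          refine (norm_sub_le _ _).trans ?_
          rw [mul_assoc, norm_mul]
          have p5 := mul_le_mul (norm_le_pi_norm η i) p2 (norm_nonneg _) (norm_nonneg _)
          have p6 : 0 ≤ 1 / ‖η i₀‖ := by positivity
          linarith [hx i]) n.1
    simpa using h1
  · rw [Matrix.of_apply]
    set D := ∑ i ∈ Finset.univ.erase i₀, n.1 i with hD
    by_cases hs : D ≤ s
    · have h1 := coeff_le (aeval f (F a)) (fun i => if i = i₀ then 1 else ε)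
        (fun i => by split_ifs <;> positivity) (B := β * ε ^ s) (fun x hx => by
          rw [eval_sub, hf]
          exact hn a _ _ (by simpa using hx i₀)
            (hu x ε h0.le fun i hi => by simpa [hi] using hx i)) n.1
      have h2 : ∏ i, (if i = i₀ then (1 : ℝ) else ε) ^ n.1 i = ε ^ D := by
        rw [← Finset.mul_prod_erase _ _ (Finset.mem_univ i₀), if_pos rfl, one_pow, one_mul, hD,
          ← Finset.prod_pow_eq_pow_sum]
        exact Finset.prod_congr rfl fun i hi => by rw [if_neg (Finset.ne_of_mem_erase hi)]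
      rw [h2, ← Nat.sub_add_cancel hs, pow_add, ← mul_assoc] at h1
      exact le_of_mul_le_mul_right h1 (pow_pos h0 _)
    · have h1 := coeff_le (aeval f (F a)) (fun _ => 1) (fun _ => one_pos) (B := β) (fun x hx => by
        rw [eval_sub, hf]
        refine hb a _ ((norm_add_le _ _).trans ?_)
        have p1 := hu x 1 zero_le_one fun i _ => hx i
        have p2 := mul_le_of_le_one_left (norm_nonneg η) (hx i₀)
        rw [norm_smul]
        linarith) n.1
      rw [Nat.sub_eq_zero_of_le (not_le.1 hs).le]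
      simpa using h1

lemma card_le {σ : Type} [Fintype σ] [DecidableEq σ] (i₀ : σ) (m : ℕ) :
    Fintype.card (Ex σ m) ≤ (m + 1) ^ (Fintype.card σ - 1) := by
  have hs : ∀ n : Ex σ m, n.1 i₀ + ∑ i ∈ Finset.univ.erase i₀, n.1 i = m := fun n => by
    rw [Finset.add_sum_erase _ _ (Finset.mem_univ i₀), ← Finsupp.degree_eq_sum, mem_Ex.1 n.2]
  have hl : ∀ (n : Ex σ m) i, n.1 i < m + 1 := fun n i => by
    have := Finset.single_le_sum (f := fun i => n.1 i) (fun _ _ => Nat.zero_le _)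
      (Finset.mem_univ i)
    rw [← Finsupp.degree_eq_sum, mem_Ex.1 n.2] at this
    omega
  refine (Fintype.card_le_of_injective
    (fun (n : Ex σ m) (i : Finset.univ.erase i₀) => (⟨n.1 i, hl n i⟩ : Fin (m + 1)))
    fun n n' e => ?_).trans_eq (by simp)
  have h1 : ∀ i ∈ Finset.univ.erase i₀, n.1 i = n'.1 i := fun i hi =>
    congrArg Fin.val (congrFun e ⟨i, hi⟩)
  refine Subtype.ext (Finsupp.ext fun i => ?_)
  by_cases hi : i = i₀
  · have h2 := hs n
    rw [Finset.sum_congr rfl h1] at h2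
    rw [hi]
    exact Nat.add_right_cancel (h2.trans (hs n').symm)
  · exact h1 i (by simp [hi])

lemma sum_ge {σ : Type} [Fintype σ] [DecidableEq σ] (i₀ : σ) {m s₀ : ℕ}
    (hm : Fintype.card σ * s₀ ≤ m) : s₀ ^ (Fintype.card σ - 1) * s₀ ≤
      ∑ n : Ex σ m, (Fintype.card σ * s₀ - ∑ i ∈ Finset.univ.erase i₀, n.1 i) := by
  have hc : Fintype.card σ * s₀ = (Fintype.card σ - 1) * s₀ + s₀ := by
    rw [← Nat.succ_mul, Nat.succ_eq_add_one,
      Nat.sub_add_cancel (Fintype.card_pos_iff.2 ⟨i₀⟩)]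
  have hg : ∀ g : Finset.univ.erase i₀ → Fin s₀, ∑ j, (g j : ℕ) ≤ (Fintype.card σ - 1) * s₀ :=
    fun g => (Finset.sum_le_card_nsmul _ _ s₀ fun j _ => (g j).2.le).trans_eq (by simp)
  let v : (Finset.univ.erase i₀ → Fin s₀) → σ →₀ ℕ := fun g =>
    Finsupp.equivFunOnFinite.symm fun i =>
      if h : i ∈ Finset.univ.erase i₀ then (g ⟨i, h⟩ : ℕ) else m - ∑ j, (g j : ℕ)
  have hv : ∀ g (i : Finset.univ.erase i₀), v g i = g i := fun g i => dif_pos i.2
  have hv' : ∀ g, ∑ i ∈ Finset.univ.erase i₀, v g i = ∑ j, (g j : ℕ) := fun g => by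
    rw [← Finset.sum_coe_sort]
    exact Finset.sum_congr rfl fun i _ => hv g i
  have hd : ∀ g, (v g).degree = m := fun g => by
    have h0 : v g i₀ = m - ∑ j, (g j : ℕ) := dif_neg (by simp)
    have := hg g
    rw [Finsupp.degree_eq_sum, ← Finset.add_sum_erase _ _ (Finset.mem_univ i₀), hv', h0]
    omega
  let e : (Finset.univ.erase i₀ → Fin s₀) ↪ Ex σ m := ⟨fun g => ⟨v g, mem_Ex.2 (hd g)⟩,
    fun g g' h => _root_.funext fun i => Fin.ext (by
      rw [← hv, ← hv, show v g = v g' from congrArg Subtype.val h])⟩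
  refine le_trans ?_ (Finset.sum_le_sum_of_subset (Finset.subset_univ (Finset.univ.map e)))
  rw [Finset.sum_map]
  refine le_trans (le_of_eq (by simp)) (Finset.card_nsmul_le_sum _ _ s₀ fun g _ => ?_)
  have := hg g
  change s₀ ≤ _ - ∑ i ∈ Finset.univ.erase i₀, v g i
  rw [hv']
  omega

lemma pow_le_exp {x y : ℝ} (hx : 0 ≤ x) (n : ℕ) (h : x * n ≤ y) : x ^ n ≤ Real.exp y := by
  refine le_trans ?_ (Real.exp_le_exp.2 h)
  rw [mul_comm, Real.exp_nat_mul]
  exact pow_le_pow_left₀ hx (by linarith [Real.add_one_le_exp x]) n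

end DetAux

theorem det_bound {σ : Type} [Fintype σ] {η : σ → ℂ} (hη : η ≠ 0) :
    ∃ C : ℝ, 0 < C ∧ ∀ (N : ℕ) (τ V : ℝ), 1 ≤ N → 0 ≤ τ →
      NZ η N (Real.exp τ) (Real.exp (-V)) →
      V ≤ C * (τ + N) * (N : ℝ) ^ (Fintype.card σ - 1) := by
  classical
  obtain ⟨i₀, hi⟩ : ∃ i, η i ≠ 0 := Function.ne_iff.1 hη
  have : Nonempty σ := ⟨i₀⟩
  obtain ⟨c, hc⟩ : ∃ c, c = ‖η‖ + 2 := ⟨_, rfl⟩
  obtain ⟨c', hc'⟩ : ∃ c', c' = 1 + (‖η‖ + 1) / ‖η i₀‖ := ⟨_, rfl⟩
  obtain ⟨k, hk⟩ : ∃ k, k = Fintype.card σ := ⟨_, rfl⟩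
  obtain ⟨t, ht⟩ : ∃ t, t = Fintype.card σ - 1 := ⟨_, rfl⟩
  have hc1 : 1 ≤ c := by have := norm_nonneg η; linarith
  have hc0 : 0 ≤ c' := by rw [hc']; positivity
  obtain ⟨A, hA⟩ : ∃ A : ℝ, A = 2 * (t * (k + 1)) + (c + (1 + c) * k) + c' * (k + 1) := ⟨_, rfl⟩
  have hA0 : 0 < A := by rw [hA]; positivity
  rw [← ht]
  refine ⟨A * (k + 1) ^ t, by positivity, fun N τ V hN hτ hz => ?_⟩
  have hN' : (1 : ℝ) ≤ N := by exact_mod_cast hN
  by_cases hV : V ≤ 0
  · exact hV.trans (by positivity)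
  have h0 : 0 < Real.exp (-V) := Real.exp_pos _
  have h1 : Real.exp (-V) ≤ 1 := Real.exp_le_one_iff.2 (by linarith)
  have hB : 1 ≤ Real.exp τ := Real.one_le_exp hτ
  obtain ⟨s₁, hs₁⟩ := DetAux.null {R | Good η N (Real.exp τ) (Real.exp (-V)) R}
    (fun R hR => hR.1) hz
  obtain ⟨K, hK⟩ : ∃ K, K = 2 * (c ^ N * Real.exp τ) := ⟨_, rfl⟩
  have hK0 : 0 < c ^ N * Real.exp τ := by positivity
  have hK1 : 0 ≤ K := by rw [hK]; positivity
  obtain ⟨s₀, hs₀⟩ : ∃ s₀, s₀ = s₁ + 1 := ⟨_, rfl⟩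
  obtain ⟨F, hF, hdet⟩ := DetAux.exists_mat (DetAux.span_all hs₁
    (fun j => {P | P.IsHomogeneous (s₁ + N * j) ∧
      (∀ z : σ → ℂ, ‖z‖ ≤ c → ‖aeval z P‖ ≤ c ^ s₁ * K ^ j) ∧
      ∀ (a : ℂ) (y : σ → ℂ), ‖a‖ ≤ 1 → ‖y‖ ≤ Real.exp (-V) →
        ‖aeval (a • η + y) P‖ ≤ c ^ s₁ * K ^ j * Real.exp (-V) ^ j})
    (fun n hn => ⟨isHomogeneous_monomial _ hn, fun z hz => by
      simpa [hn] using DetAux.bound_monomial (R := ℤ) (n := n) hz, fun a y ha hy => by
      have h2 : ‖a • η + y‖ ≤ c := by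
        have p2 := mul_le_of_le_one_left (norm_nonneg η) ha
        have p3 := norm_add_le (a • η) y
        rw [norm_smul] at p3
        linarith
      simpa [hn] using DetAux.bound_monomial (R := ℤ) (n := n) h2⟩)
    (fun j P hP R hR => ⟨by rw [Nat.mul_succ, ← add_assoc]; exact hP.1.mul hR.1, fun z hz => by
      rw [map_mul, norm_mul, pow_succ, ← mul_assoc]
      refine mul_le_mul (hP.2.1 z hz) ?_ (norm_nonneg _) (by positivity)
      have := DetAux.bound_ball (by linarith) hR.1 hR.2.1 hz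
      linarith, fun a y ha hy => by
      have := DetAux.bound_near hB h0 h1 hR ha hy
      rw [← hc, ← hK] at this
      rw [map_mul, norm_mul]
      refine (mul_le_mul (hP.2.2 a y ha hy) this (norm_nonneg _) (by positivity)).trans_eq ?_
      ring⟩) (k * s₀))
  obtain ⟨m, hm⟩ : ∃ m, m = s₁ + N * (k * s₀) := ⟨_, rfl⟩
  have h2 := hdet.trans (DetAux.det_le hi (fun a => MvPolynomial.map (Int.castRingHom ℂ) (F a))
    (fun a => (hF a).1.map _) (β := c ^ s₁ * K ^ (k * s₀)) (k * s₀) h0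
    (fun a z hz => by rw [← DetAux.aeval_eq]; exact (hF a).2.1 z (hc ▸ hz))
    fun a x y hx hy => by rw [← DetAux.aeval_eq]; exact (hF a).2.2 x y hx hy)
  have h3 := DetAux.card_le i₀ (s₁ + N * (k * s₀))
  have h4 := DetAux.sum_ge i₀ (m := s₁ + N * (k * s₀)) (s₀ := s₀) (by rw [← hk]; nlinarith)
  rw [Finset.prod_mul_distrib, Finset.prod_pow_eq_pow_sum, Finset.prod_const, Finset.prod_const,
    Finset.card_univ, ← hc'] at h2
  rw [← hk] at h4
  rw [hk, ← ht, ← hk] at h4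
  rw [← ht] at h3
  generalize ∑ n : DetAux.Ex σ (s₁ + N * (k * s₀)),
    (k * s₀ - ∑ i ∈ Finset.univ.erase i₀, n.1 i) = W at h2 h4
  generalize Fintype.card (DetAux.Ex σ (s₁ + N * (k * s₀))) = L at h2 h3
  rw [← hm] at h2 h3
  have hs1 : (1 : ℝ) ≤ s₀ := by rw [hs₀]; push_cast; linarith [Nat.cast_nonneg (α := ℝ) s₁]
  have hs2 : (s₁ : ℝ) ≤ s₀ := by rw [hs₀]; push_cast; linarith
  obtain ⟨u, hu⟩ : ∃ u : ℝ, u = s₀ * (τ + N) := ⟨_, rfl⟩
  have hu1 : (s₀ : ℝ) * N ≤ u := by rw [hu]; nlinarith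
  have hu2 : (s₀ : ℝ) ≤ s₀ * N := by nlinarith
  have hk0 : (0 : ℝ) ≤ k := Nat.cast_nonneg k
  have hm1 : (m : ℝ) + 1 ≤ (k + 1) * (s₀ * N) := by
    have : (m : ℝ) + 1 = s₀ + k * (s₀ * N) := by rw [hm, hs₀]; push_cast; ring
    linarith
  have hm2 : (m : ℝ) + 1 ≤ (k + 1) * u := hm1.trans (by gcongr)
  have hL : (L : ℝ) ≤ ((m : ℝ) + 1) ^ t := by exact_mod_cast h3
  have a1 : (L.factorial : ℝ) ≤ Real.exp (t * (k + 1) * u) ^ L := by
    refine le_trans (by exact_mod_cast L.factorial_le_pow) (pow_le_pow_left₀ (Nat.cast_nonneg L)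
      (hL.trans (DetAux.pow_le_exp (by positivity) t ?_)) L)
    nlinarith [Nat.cast_nonneg (α := ℝ) t]
  have a2 : c ^ s₁ * K ^ (k * s₀) ≤ Real.exp ((c + (1 + c) * k) * u) := by
    have b1 : c ^ s₁ ≤ Real.exp (c * u) :=
      DetAux.pow_le_exp (by linarith) _ (by gcongr; linarith)
    have b2 : K ≤ Real.exp ((1 + c) * (τ + N)) := by
      have b3 : c ^ N ≤ Real.exp (c * N) := DetAux.pow_le_exp (by linarith) _ le_rfl
      have b4 : 2 ≤ Real.exp 1 := by linarith [Real.add_one_le_exp 1]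
      calc K ≤ Real.exp 1 * (Real.exp (c * N) * Real.exp τ) := by rw [hK]; gcongr
        _ = Real.exp (1 + (c * N + τ)) := by rw [Real.exp_add, Real.exp_add]
        _ ≤ _ := Real.exp_le_exp.2 (by nlinarith)
    calc c ^ s₁ * K ^ (k * s₀) ≤ Real.exp (c * u) * Real.exp ((1 + c) * (τ + N)) ^ (k * s₀) := by
          gcongr
      _ = _ := by
          rw [← Real.exp_nat_mul, ← Real.exp_add, hu]
          push_cast
          congr 1
          ring
  have a3 : c' ^ m ≤ Real.exp (c' * (k + 1) * u) :=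
    DetAux.pow_le_exp hc0 _ (by rw [mul_assoc]; gcongr; linarith)
  have a4 : Real.exp (-V) ^ W ≤ Real.exp (-V) ^ (s₀ ^ t * s₀) := pow_le_pow_of_le_one h0.le h1 h4
  have h5 : 1 ≤ Real.exp (L * (A * u) - (s₀ ^ t * s₀) * V) := by
    refine h2.trans (le_of_le_of_eq (b := (Real.exp (t * (k + 1) * u) ^ L *
      (Real.exp ((c + (1 + c) * k) * u) ^ L * Real.exp (-V) ^ (s₀ ^ t * s₀))) *
      (Real.exp (t * (k + 1) * u) ^ L * Real.exp (c' * (k + 1) * u) ^ L)) (by gcongr) ?_)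
    simp only [← Real.exp_nat_mul, ← Real.exp_add]
    rw [hA]
    push_cast
    congr 1
    ring
  have h6 : (s₀ ^ t * s₀ : ℝ) * V ≤ L * (A * u) := by
    have := Real.one_le_exp_iff.1 h5
    linarith
  have h7 : (L : ℝ) * (A * u) ≤ ((k + 1) * (s₀ * N)) ^ t * (A * u) := by
    have : 0 ≤ u := by linarith
    gcongr
    exact hL.trans (by gcongr)
  refine le_of_mul_le_mul_left ((h6.trans h7).trans_eq ?_) (by positivity)
  rw [hu, mul_pow, mul_pow]
  ring

end Pool.Agent.Lib.MP_caab05_ag.LT
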