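import Mathlib
import Pool.Agent.Lib.MP_caab05_ag.LT.Defs4
import Pool.Agent.Lib.MP_caab05_ag.LT.Det

/-! Algebraic and analytic lemmas for the affine Liouville inequality. -/

namespace Pool.Agent.Lib.MP_caab05_ag.LT

open MvPolynomial

namespace DetAAux

lemma exists_prime {A B : Type} [CommRing A] [IsDomain A] [UniqueFactorizationMonoid A]
    [CommRing B] [IsDomain B] (ψ : A →+* B) (W : A) :
    W ≠ 0 → ψ W = 0 → ∃ P Q, Prime P ∧ W = P * Q ∧ ψ P = 0 := by
  induction W using UniqueFactorizationMonoid.induction_on_prime with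
  | h₁ => exact fun h => absurd rfl h
  | h₂ x hx => exact fun _ h => absurd h (hx.map ψ).ne_zero
  | h₃ a p ha hp ih =>
    intro _ h
    rw [map_mul] at h
    rcases mul_eq_zero.1 h with h | h
    · exact ⟨p, a, hp, rfl, h⟩
    · obtain ⟨P, Q, h1, h2, h3⟩ := ih ha h
      exact ⟨P, p * Q, h1, by rw [h2]; ring, h3⟩

lemma clear_den {σ : Type} (p : MvPolynomial σ ℚ) :
    ∃ d : ℤ, d ≠ 0 ∧ ∃ p' : MvPolynomial σ ℤ, map (Int.castRingHom ℚ) p' = C (d : ℚ) * p := by
  induction p using MvPolynomial.induction_on with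
  | C a =>
    refine ⟨a.den, by exact_mod_cast a.den_ne_zero, C a.num, ?_⟩
    rw [map_C, ← C_mul]
    congr 1
    simp
  | add p q hp hq =>
    obtain ⟨d, hd, p', hp'⟩ := hp
    obtain ⟨e, he, q', hq'⟩ := hq
    refine ⟨d * e, mul_ne_zero hd he, C e * p' + C d * q', ?_⟩
    simp only [map_add, map_mul, map_intCast, hp', hq', eq_intCast, Int.cast_mul]
    ring
  | mul_X p i hp =>
    obtain ⟨d, hd, p', hp'⟩ := hp
    exact ⟨d, hd, p' * X i, by rw [map_mul, hp', map_X, mul_assoc]⟩

lemma clear_den' {σ : Type} (p : Polynomial (MvPolynomial σ ℚ)) :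
    ∃ d : ℤ, d ≠ 0 ∧ ∃ p' : Polynomial (MvPolynomial σ ℤ),
      p'.map (map (Int.castRingHom ℚ)) = Polynomial.C (C (d : ℚ)) * p := by
  induction p using Polynomial.induction_on' with
  | monomial n a =>
    obtain ⟨d, hd, a', ha⟩ := clear_den a
    exact ⟨d, hd, Polynomial.monomial n a', by
      rw [Polynomial.map_monomial, ha, Polynomial.C_mul_monomial]⟩
  | add p q hp hq =>
    obtain ⟨d, hd, p', hp'⟩ := hp
    obtain ⟨e, he, q', hq'⟩ := hq
    refine ⟨d * e, mul_ne_zero hd he, Polynomial.C (C e) * p' + Polynomial.C (C d) * q', ?_⟩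
    simp only [Polynomial.map_add, Polynomial.map_mul, Polynomial.map_intCast, map_intCast, hp',
      hq', eq_intCast, Int.cast_mul, map_mul]
    ring

lemma lead {ι B : Type} [CommRing B] [IsDomain B] [Algebra ℚ B] (T : ι → B) (z : B)
    (hT : AlgebraicIndependent ℚ T) (hz : IsIntegral (Algebra.adjoin ℚ (Set.range T)) z)
    (P : MvPolynomial (Option ι) ℤ) (hP : Prime P)
    (h0 : aeval (fun o : Option ι => o.elim z T) P = 0) :
    ∃ (a : ℤ) (k : ℕ), a ≠ 0 ∧ (optionEquivLeft ℤ ι P).coeff k = C a := by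
  let : Algebra (MvPolynomial ι ℚ) B :=
    (aeval T : MvPolynomial ι ℚ →ₐ[ℚ] B).toRingHom.toAlgebra
  have halg : ∀ s : MvPolynomial ι ℚ, algebraMap (MvPolynomial ι ℚ) B s = aeval T s := fun _ => rfl
  have hinj : Function.Injective (algebraMap (MvPolynomial ι ℚ) B) := hT
  have : Module.IsTorsionFree (MvPolynomial ι ℚ) B :=
    (Module.isTorsionFree_iff_algebraMap_injective).2 hinj
  have hz' : IsIntegral (MvPolynomial ι ℚ) z := by
    obtain ⟨p, hp, hp0⟩ := hz
    refine ⟨p.map (hT.aevalEquiv.symm : Algebra.adjoin ℚ (Set.range T) →+* MvPolynomial ι ℚ),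
      hp.map _, ?_⟩
    rw [Polynomial.eval₂_map, ← hp0]
    congr 1
    ext s
    simp only [RingHom.coe_comp, Function.comp_apply, RingHom.coe_coe, halg]
    rw [← hT.algebraMap_aevalEquiv, AlgEquiv.apply_symm_apply]
  have hmap : Function.Injective (map (σ := ι) (Int.castRingHom ℚ)) :=
    map_injective _ (RingHom.injective_int _)
  set P' := optionEquivLeft ℤ ι P with hP'
  have hP1 : Prime P' := (MulEquiv.prime_iff (optionEquivLeft ℤ ι)).2 hP
  have h1 : Polynomial.aeval z (P'.map (map (Int.castRingHom ℚ))) = 0 := by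
    rw [← h0, hP']
    clear h0 hP hP1 hP' P'
    induction P using MvPolynomial.induction_on with
    | C a => simp
    | add p q hp hq => simp only [map_add, Polynomial.map_add, hp, hq]
    | mul_X p i hp =>
      simp only [map_mul, Polynomial.map_mul, hp]
      cases i <;> simp [halg]
  obtain ⟨g, hg⟩ := minpoly.isIntegrallyClosed_dvd hz' h1
  set μ := minpoly (MvPolynomial ι ℚ) z with hμ
  have hmon : μ.Monic := minpoly.monic hz'
  have hpos : 0 < μ.natDegree := minpoly.natDegree_pos hz'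
  obtain ⟨d, hd, μ', hμ'⟩ := clear_den' μ
  obtain ⟨e, he, g', hg'⟩ := clear_den' g
  have h2 : μ' * g' = Polynomial.C (C (d * e)) * P' := by
    apply Polynomial.map_injective _ hmap
    simp only [Polynomial.map_mul, hμ', hg', hg, Polynomial.map_intCast, map_intCast, eq_intCast,
      map_mul]
    ring
  have hde : (Polynomial.C (C ((d * e : ℤ) : ℚ)) : Polynomial (MvPolynomial ι ℚ)) ≠ 0 := by
    simp [hd, he]
  rcases hP1.dvd_or_dvd (a := μ') (b := g') ⟨_, by rw [h2, mul_comm]⟩ with h | ⟨h, hh⟩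
  · have h3 : μ'.leadingCoeff = C d := by
      apply hmap
      rw [← Polynomial.leadingCoeff_map_of_injective hmap, hμ', Polynomial.leadingCoeff_mul,
        hmon.leadingCoeff, Polynomial.leadingCoeff_C, map_C, mul_one, eq_intCast]
    have h4 := Polynomial.leadingCoeff_dvd_leadingCoeff h
    rw [h3, dvd_C_iff_exists hd] at h4
    obtain ⟨b, hb, h5⟩ := h4
    exact ⟨b, P'.natDegree, ne_zero_of_dvd_ne_zero hd hb, h5⟩
  · have h3 : μ' * h = Polynomial.C (C (d * e)) := by
      apply mul_right_cancel₀ hP1.ne_zero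
      rw [← h2, hh]
      ring
    have h4 := congrArg (Polynomial.map (map (σ := ι) (Int.castRingHom ℚ))) h3
    rw [Polynomial.map_mul, hμ', Polynomial.map_C, map_C, eq_intCast] at h4
    have h5 : μ ∣ Polynomial.C (C ((d * e : ℤ) : ℚ)) :=
      ⟨Polynomial.C (C (d : ℚ)) * h.map (map (Int.castRingHom ℚ)), by rw [← h4]; ring⟩
    have h6 := Polynomial.natDegree_le_of_dvd h5 hde
    rw [Polynomial.natDegree_C] at h6
    omega

lemma bound_poly {σ : Type} [Fintype σ] (P : MvPolynomial σ ℂ) {B ρ : ℝ} {δ : ℕ}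
    (hδ : P.totalDegree ≤ δ) (hρ : 1 ≤ ρ) (hB : ∀ y : σ → ℂ, ‖y‖ ≤ 1 → ‖eval y P‖ ≤ B)
    {y : σ → ℂ} (hy : ‖y‖ ≤ ρ) :
    ‖eval y P‖ ≤ ((δ : ℝ) + 1) ^ Fintype.card σ * (ρ ^ δ * B) := by
  classical
  have hB0 : 0 ≤ B := (norm_nonneg _).trans (hB 0 (by simp))
  have hc : ∀ m, ‖coeff m P‖ ≤ B := fun m => by
    simpa using coeff_le P (fun _ => 1) (fun _ => one_pos)
      (fun x hx => hB x ((pi_norm_le_iff_of_nonneg zero_le_one).2 hx)) m
  have hcard : P.support.card ≤ (δ + 1) ^ Fintype.card σ := by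
    have := Finset.card_le_card_of_injOn (s := P.support)
      (t := Fintype.piFinset fun _ : σ => Finset.range (δ + 1)) (fun m => ⇑m)
      (fun m hm => by
        simp only [Finset.mem_coe, Fintype.mem_piFinset, Finset.mem_range]
        exact fun i => Nat.lt_succ_of_le
          (((monomial_le_degreeOf i hm).trans (degreeOf_le_totalDegree P i)).trans hδ))
      (fun m _ m' _ h => DFunLike.coe_injective h)
    simpa using this
  rw [eval_eq']
  refine (norm_sum_le _ _).trans ((Finset.sum_le_card_nsmul _ _ (ρ ^ δ * B) fun m hm => ?_).trans ?_)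
  · rw [norm_mul, mul_comm]
    refine mul_le_mul ?_ (hc m) (norm_nonneg _) (by positivity)
    rw [norm_prod]
    calc ∏ i, ‖y i ^ m i‖ ≤ ∏ i, ρ ^ m i := Finset.prod_le_prod (fun _ _ => norm_nonneg _)
          fun i _ => by
            rw [norm_pow]
            exact pow_le_pow_left₀ (norm_nonneg _) ((norm_le_pi_norm y i).trans hy) _
      _ = ρ ^ ∑ i, m i := Finset.prod_pow_eq_pow_sum _ _ _
      _ ≤ ρ ^ δ := pow_le_pow_right₀ hρ (by
          have := (le_totalDegree hm).trans hδ
          rwa [Finsupp.sum_fintype _ _ (fun _ => rfl)] at this)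
  · rw [nsmul_eq_mul]
    refine mul_le_mul_of_nonneg_right ?_ (by positivity)
    exact_mod_cast hcard

lemma coeff1 (p : Polynomial ℂ) {B : ℝ} (h : ∀ z : ℂ, ‖z‖ ≤ 1 → ‖p.eval z‖ ≤ B) (k : ℕ) :
    ‖p.coeff k‖ ≤ B := by
  have := coeff_le ((uniqueAlgEquiv ℂ Unit).symm p) (fun _ => 1) (fun _ => one_pos) (B := B)
    (fun x hx => by
      rw [← eval₂_id, eval₂_uniqueAlgEquiv_symm]
      exact h _ (hx _)) (Finsupp.single () k)
  rw [coeff_uniqueAlgEquiv_symm] at this
  simpa using this

lemma analytic {ι : Type} [Fintype ι] (P : MvPolynomial (Option ι) ℤ) {B ρ : ℝ} {δ k : ℕ} {a : ℤ}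
    (ha : a ≠ 0) (hk : (optionEquivLeft ℤ ι P).coeff k = C a) (hδ : P.totalDegree ≤ δ)
    (hB : ∀ y : Option ι → ℂ, ‖y‖ ≤ 1 → ‖aeval y P‖ ≤ B) (L r : ι → ℂ) (hL : ‖L‖ + 2 ≤ ρ)
    (hr : ‖r‖ < 1) (h0 : ∀ z : ℂ, aeval (fun o : Option ι => o.elim z (L + z • r)) P = 0) :
    1 ≤ 2 * (((δ : ℝ) + 1) ^ (Fintype.card ι + 1) * (ρ ^ δ * B)) * ‖r‖ := by
  set M := ((δ : ℝ) + 1) ^ (Fintype.card ι + 1) * (ρ ^ δ * B) with hM
  set F := map (Int.castRingHom ℂ) P with hF
  have hρ : 1 ≤ ρ := by linarith [norm_nonneg L]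
  have hb : ∀ y : Option ι → ℂ, ‖y‖ ≤ ρ → ‖eval y F‖ ≤ M := fun y hy => by
    have := bound_poly F (δ := δ) ((Finset.sup_mono (support_map_subset _ _)).trans hδ) hρ
      (fun y hy => by rw [← DetAux.aeval_eq]; exact hB y hy) hy
    rwa [Fintype.card_option] at this
  have hM0 : 0 ≤ M := (norm_nonneg _).trans (hb 0 (by simp; linarith))
  have h1 : ∀ z : ℂ, ‖z‖ ≤ 1 → ‖eval (fun o : Option ι => o.elim z L) F‖ ≤ 2 * M * ‖r‖ := by
    intro z hz
    set c : Option ι → ℂ := fun o => o.elim z L with hc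
    have hc1 : ‖c‖ ≤ ‖L‖ + 1 := (pi_norm_le_iff_of_nonneg (by positivity)).2 fun o => by
      cases o with
      | none => simp only [hc, Option.elim_none]; linarith [norm_nonneg L]
      | some i => simp only [hc, Option.elim_some]; linarith [norm_le_pi_norm L i]
    have hd : dist (fun o : Option ι => o.elim z (L + z • r)) c ≤ ‖r‖ :=
      (dist_pi_le_iff (norm_nonneg _)).2 fun o => by
        cases o with
        | none => simp [hc]
        | some i =>
          simp only [hc, Option.elim_some, Pi.add_apply, Pi.smul_apply, smul_eq_mul,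
            dist_self_add_left, norm_mul]
          exact (mul_le_of_le_one_left (norm_nonneg _) hz).trans (norm_le_pi_norm r i)
    have hs := Complex.dist_le_div_mul_dist_of_mapsTo_ball (f := fun y => eval y F) (R₁ := 1)
      (R₂ := 2 * M) (c := c) (z := fun o : Option ι => o.elim z (L + z • r))
      (differentiable_eval F).differentiableOn (fun y hy => by
        rw [Metric.mem_closedBall, dist_eq_norm]
        have a0 : ‖y‖ ≤ ρ := by
          have := norm_le_norm_add_norm_sub' y c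
          rw [Metric.mem_ball, dist_eq_norm] at hy
          linarith
        have a1 := hb y a0
        have a2 := hb c (by linarith)
        linarith [norm_sub_le (eval y F) (eval c F)])
      (by rw [Metric.mem_ball]; linarith)
    rw [← DetAux.aeval_eq, h0, dist_zero_left, div_one] at hs
    exact hs.trans (by gcongr)
  have h2 := coeff1 ((optionEquivLeft ℂ ι F).map (eval L)) (B := 2 * M * ‖r‖)
    (fun z hz => by rw [← optionEquivLeft_elim_eval]; exact h1 z hz) k
  have h3 : optionEquivLeft ℂ ι F = (optionEquivLeft ℤ ι P).map (map (Int.castRingHom ℂ)) := by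
    rw [hF]
    clear h2 h1 hb hF F h0 hB hδ hk
    induction P using MvPolynomial.induction_on with
    | C a => simp
    | add p q hp hq => simp only [map_add, Polynomial.map_add, hp, hq]
    | mul_X p i hp =>
      simp only [map_mul, Polynomial.map_mul, hp]
      cases i <;> simp
  rw [h3, Polynomial.coeff_map, Polynomial.coeff_map, hk, map_C, eval_C, eq_intCast,
    Complex.norm_intCast] at h2
  exact le_trans (by exact_mod_cast Int.one_le_abs ha) h2

end DetAAux

end Pool.Agent.Lib.MP_caab05_ag.LT
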