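import Mathlib
import Pool.Agent.Lib.MP_caab05_ag.LT.Defs4
import Pool.Agent.Lib.MP_caab05_ag.LT.DetA1

/-! The affine Liouville inequality for polynomials without common zero. -/

namespace Pool.Agent.Lib.MP_caab05_ag.LT

open MvPolynomial

namespace DetAAux

lemma hom_aeval {σ A B : Type} [CommRing A] [CommRing B] [Algebra ℤ A] [Algebra ℤ B]
    (χ : A →+* B) (f : σ → A) (P : MvPolynomial σ ℤ) :
    χ (aeval f P) = aeval (fun i => χ (f i)) P := by
  induction P using MvPolynomial.induction_on with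
  | C a => rw [aeval_C, aeval_C, eq_intCast, eq_intCast, map_intCast]
  | add p q hp hq => simp only [map_add, hp, hq]
  | mul_X p i hp => simp only [map_mul, hp, aeval_X]

lemma factor {κ : Type} [Fintype κ] (a b : Option κ → MvPolynomial κ ℤ)
    (hint : Algebra.IsIntegral (Algebra.adjoin ℚ (Set.range fun i : Option κ =>
      (Polynomial.C (map (Int.castRingHom ℚ) (a i)) +
        Polynomial.C (map (Int.castRingHom ℚ) (b i)) * Polynomial.X :
          Polynomial (MvPolynomial κ ℚ)))) (Polynomial (MvPolynomial κ ℚ)))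
    (W : MvPolynomial (Option (Option κ)) ℤ) (hW : W ≠ 0)
    (h0 : aeval (fun i : Option (Option κ) =>
      (Polynomial.C (i.elim 0 a) + Polynomial.C (i.elim 1 b) * Polynomial.X :
        Polynomial (MvPolynomial κ ℤ))) W = 0) :
    ∃ P Q, W = P * Q ∧ (∃ (c : ℤ) (k : ℕ), c ≠ 0 ∧ (optionEquivLeft ℤ _ P).coeff k = C c) ∧
      ∀ (x : κ → ℂ) (z : ℂ), aeval (fun o : Option (Option κ) => o.elim z
        ((fun i => aeval x (a i)) + z • fun i => aeval x (b i))) P = 0 := by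
  obtain ⟨P, Q, hP, hPQ, hP0⟩ := exists_prime (aeval (fun i : Option (Option κ) =>
      (Polynomial.C (i.elim 0 a) + Polynomial.C (i.elim 1 b) * Polynomial.X :
        Polynomial (MvPolynomial κ ℤ))) : MvPolynomial (Option (Option κ)) ℤ →ₐ[ℤ] _).toRingHom
      W hW h0
  replace hP0 : aeval (fun i : Option (Option κ) =>
      (Polynomial.C (i.elim 0 a) + Polynomial.C (i.elim 1 b) * Polynomial.X :
        Polynomial (MvPolynomial κ ℤ))) P = 0 := hP0
  refine ⟨P, Q, hPQ, ?_, fun x z => ?_⟩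
  · set T : Option κ → Polynomial (MvPolynomial κ ℚ) := fun i =>
      Polynomial.C (map (Int.castRingHom ℚ) (a i)) +
        Polynomial.C (map (Int.castRingHom ℚ) (b i)) * Polynomial.X with hT
    have hI : AlgebraicIndependent ℚ T :=
      (Algebra.IsAlgebraic.isTranscendenceBasis_of_le_trdeg_of_finite ℚ T (by
        rw [← (optionEquivLeft ℚ κ).trdeg_eq, MvPolynomial.trdeg_of_isDomain,
          Cardinal.lift_id])).1
    refine lead T Polynomial.X hI (Algebra.IsIntegral.isIntegral _) P hP ?_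
    have h1 := congrArg (Polynomial.mapRingHom (map (σ := κ) (Int.castRingHom ℚ))) hP0
    rw [map_zero, @hom_aeval _ _ _ _ _ _ (Ring.toIntAlgebra _)] at h1
    rw [← h1]
    congr 2
    funext o
    cases o <;> simp [hT]
  · have h1 := congrArg
      (Polynomial.eval₂RingHom (aeval x : MvPolynomial κ ℤ →ₐ[ℤ] ℂ).toRingHom z) hP0
    rw [map_zero, hom_aeval] at h1
    rw [← h1]
    congr 2
    funext o
    cases o with
    | none => simp
    | some i =>
      simp only [Option.elim_some, Pi.add_apply, Pi.smul_apply, smul_eq_mul,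
        Polynomial.coe_eval₂RingHom, Polynomial.eval₂_add, Polynomial.eval₂_mul,
        Polynomial.eval₂_C, Polynomial.eval₂_X]
      rw [mul_comm]
      rfl

lemma comb {κ ι : Type} [Fintype ι] (c : ι → ℤ) (v : ι → MvPolynomial κ ℤ) (x : κ → ℂ)
    {Δ s : ℝ} (hc : ∀ j, |(c j : ℝ)| ≤ Δ) (hv : ∀ j, ‖aeval x (v j)‖ ≤ s) :
    ‖aeval x (∑ j, c j • v j)‖ ≤ Fintype.card ι * (Δ * s) := by
  rw [map_sum]
  refine (norm_sum_le _ _).trans ((Finset.sum_le_card_nsmul _ _ (Δ * s) fun j _ => ?_).trans_eq ?_)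
  · rw [map_zsmul, zsmul_eq_mul, norm_mul, Complex.norm_intCast]
    exact mul_le_mul (hc j) (hv j) (norm_nonneg _) ((abs_nonneg _).trans (hc j))
  · simp

lemma core (h1 : PerS) (h2 : FacBdS) (h3 : NormS) (κ : Type) [Fintype κ] (ξ : κ → ℂ) :
    ∃ C : ℝ, 0 < C ∧ ∀ (N m : ℕ) (τ ε : ℝ) (R : Fin m → MvPolynomial κ ℤ), 1 ≤ N → 0 ≤ τ →
      m ≤ (N + 1) ^ (Fintype.card κ + 1) → (∀ k, (R k).totalDegree ≤ N) →
      (∀ k (x : κ → ℂ), ‖x‖ ≤ 1 → ‖aeval x (R k)‖ ≤ Real.exp τ) →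
      (∀ x : κ → AlgebraicClosure ℚ, ∃ k, aeval x (R k) ≠ 0) →
      (∀ k, ‖aeval ξ (R k)‖ ≤ ε) →
      1 ≤ ε * Real.exp (C * (τ + N) * (N : ℝ) ^ Fintype.card κ) := by
  obtain ⟨C₁, -, h1⟩ := h1 κ
  obtain ⟨C₃, -, h3⟩ := h3 κ
  obtain ⟨t, ht⟩ : ∃ t, t = Fintype.card κ := ⟨_, rfl⟩
  obtain ⟨c₁, hc₁⟩ : ∃ c₁ : ℝ, c₁ = (t + 1) + (C₃ + t) := ⟨_, rfl⟩
  obtain ⟨c₂, hc₂⟩ : ∃ c₂ : ℝ, c₂ = c₁ + (‖ξ‖ + 2) := ⟨_, rfl⟩
  have hc1 : 0 < c₁ := by rw [hc₁]; positivity
  have hc2 : 0 < c₂ := by rw [hc₂]; positivity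
  rw [← ht] at h1 h3 ⊢
  refine ⟨1 + ((t + 2) * C₁ + (c₂ * C₁ + (100 * C₁ + C₁ * (c₁ + 1)))) + c₁, by positivity,
    fun N m τ ε R hN hτ hm hdeg hB hz hε => ?_⟩
  have hN' : (1 : ℝ) ≤ N := by exact_mod_cast hN
  have hε0 : 0 ≤ ε := by
    obtain ⟨k, -⟩ := hz 0
    exact (norm_nonneg _).trans (hε k)
  obtain ⟨l, r, hl, hr, hint⟩ := h3 N m R hN hdeg hz
  have hΔ : (C₃ : ℝ) * (N : ℝ) ^ t ≤ Real.exp ((C₃ + t) * N) := by
    rw [add_mul, Real.exp_add]
    refine mul_le_mul ?_ (DetAux.pow_le_exp (by positivity) _ (mul_comm _ _).le) (by positivity)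
      (by positivity)
    have := Real.add_one_le_exp ((C₃ : ℝ) * N)
    nlinarith [Nat.cast_nonneg (α := ℝ) C₃]
  have hl' : ∀ i j, |(l i j : ℝ)| ≤ Real.exp ((C₃ + t) * N) := fun i j =>
    le_trans (by exact_mod_cast hl i j) hΔ
  have hr' : ∀ i k, |(r i k : ℝ)| ≤ Real.exp ((C₃ + t) * N) := fun i k =>
    le_trans (by exact_mod_cast hr i k) hΔ
  have hm' : (m : ℝ) ≤ Real.exp ((t + 1) * N) := by
    calc (m : ℝ) ≤ ((N : ℝ) + 1) ^ (t + 1) := by exact_mod_cast hm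
      _ ≤ Real.exp N ^ (t + 1) := pow_le_pow_left₀ (by positivity) (Real.add_one_le_exp _) _
      _ = _ := by rw [← Real.exp_nat_mul]; push_cast; rfl
  have ht' : (t : ℝ) ≤ Real.exp ((t + 1) * N) := by
    have := Real.add_one_le_exp (((t : ℝ) + 1) * N)
    nlinarith [Nat.cast_nonneg (α := ℝ) t]
  obtain ⟨D, hD⟩ : ∃ D, D = Real.exp (c₁ * N) := ⟨_, rfl⟩
  have hD1 : 1 ≤ D := hD ▸ Real.one_le_exp (by positivity)
  have hD2 : D = Real.exp ((t + 1) * N) * Real.exp ((C₃ + t) * N) := by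
    rw [hD, hc₁, add_mul, Real.exp_add]
  have ha : ∀ i (x : κ → ℂ), ‖aeval x (∑ j, l i j • X j : MvPolynomial κ ℤ)‖ ≤ D * ‖x‖ :=
    fun i x => by
      refine (comb (l i) X x (hl' i) (s := ‖x‖) fun j => by
        simpa using norm_le_pi_norm x j).trans ?_
      rw [← ht, hD2, mul_assoc]
      gcongr
  have hb : ∀ i (x : κ → ℂ) (s : ℝ), 0 ≤ s → (∀ k, ‖aeval x (R k)‖ ≤ s) →
      ‖aeval x (∑ k, r i k • R k)‖ ≤ D * s := fun i x s hs h => by
    refine (comb (r i) R x (hr' i) h).trans ?_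
    rw [Fintype.card_fin, hD2, mul_assoc]
    gcongr
  have hτ1 : 1 ≤ Real.exp τ := Real.one_le_exp hτ
  have hβ : Real.exp (τ + c₁ * N) = D * Real.exp τ := by rw [Real.exp_add, hD, mul_comm]
  obtain ⟨W, hW, hWd, hWb, hW0⟩ := h1 N (τ + c₁ * N)
    (fun i => i.elim 0 fun i => ∑ j, l i j • X j) (fun i => i.elim 1 fun i => ∑ k, r i k • R k)
    hN (by positivity)
    (fun i => by
      cases i with
      | none => simp
      | some i =>
        exact ⟨totalDegree_finsetSum_le fun j _ =>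
            (totalDegree_smul_le _ _).trans ((totalDegree_X j).le.trans hN),
          totalDegree_finsetSum_le fun k _ => (totalDegree_smul_le _ _).trans (hdeg k)⟩)
    (fun i x hx => by
      rw [hβ]
      cases i with
      | none =>
        simp only [Option.elim_none, map_zero, norm_zero, map_one, norm_one]
        exact ⟨by positivity, one_le_mul_of_one_le_of_one_le hD1 hτ1⟩
      | some i =>
        exact ⟨(ha i x).trans (by gcongr; linarith),
          hb i x _ (by positivity) fun k => hB k x hx⟩)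
  obtain ⟨P, Q, rfl, ⟨c, k, hc, hk⟩, hP0⟩ := factor _ _ hint W hW hW0
  have hPb := h2 _ P Q _ hW hWb
  have hPd : P.totalDegree ≤ C₁ * N ^ t :=
    (totalDegree_le_of_dvd_of_isDomain (dvd_mul_right P Q) hW).trans hWd
  obtain ⟨u, hu⟩ : ∃ u : ℝ, u = (τ + N) * (N : ℝ) ^ t := ⟨_, rfl⟩
  have hNt : (1 : ℝ) ≤ (N : ℝ) ^ t := one_le_pow₀ hN'
  have hu1 : (N : ℝ) * (N : ℝ) ^ t ≤ u := by rw [hu]; gcongr; linarith
  have hu2 : (N : ℝ) ^ t ≤ u := le_trans (by nlinarith) hu1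
  have hu3 : (N : ℝ) ≤ u := le_trans (by nlinarith) hu1
  have hu0 : 0 ≤ u := by linarith
  have hC₁ : (0 : ℝ) ≤ C₁ := Nat.cast_nonneg _
  have hDu : D ≤ Real.exp (c₁ * u) := by rw [hD]; gcongr
  have hrr : ‖fun i => aeval ξ (∑ k, r i k • R k)‖ ≤ D * ε :=
    (pi_norm_le_iff_of_nonneg (by positivity)).2 fun i => hb i ξ ε hε0 hε
  rw [mul_assoc, ← hu]
  by_cases hlt : ‖fun i => aeval ξ (∑ k, r i k • R k)‖ < 1
  swap
  · calc 1 ≤ D * ε := (not_lt.1 hlt).trans hrr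
      _ ≤ Real.exp (c₁ * u) * ε := by gcongr
      _ ≤ _ := by
        rw [mul_comm]
        gcongr
        have : 0 ≤ 1 + ((t + 2) * C₁ + (c₂ * C₁ + (100 * C₁ + C₁ * (c₁ + 1)))) := by positivity
        linarith
  have hL : ‖fun i => aeval ξ (∑ j, l i j • X j : MvPolynomial κ ℤ)‖ + 2 ≤
      Real.exp (c₂ * N) := by
    have e1 : ‖fun i => aeval ξ (∑ j, l i j • X j : MvPolynomial κ ℤ)‖ ≤ D * ‖ξ‖ :=
      (pi_norm_le_iff_of_nonneg (by positivity)).2 fun i => ha i ξ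
    have e2 : ‖ξ‖ + 2 ≤ Real.exp ((‖ξ‖ + 2) * N) := by
      have := Real.add_one_le_exp ((‖ξ‖ + 2) * N)
      nlinarith [norm_nonneg ξ]
    rw [hc₂, add_mul, Real.exp_add, ← hD]
    calc _ ≤ D * (‖ξ‖ + 2) := by linarith
      _ ≤ _ := by gcongr
  have key := analytic P hc hk hPd hPb _ _ hL hlt (hP0 ξ)
  rw [Fintype.card_option, ← ht] at key
  have a1 : (((C₁ * N ^ t : ℕ) : ℝ) + 1) ^ (t + 1 + 1) ≤ Real.exp ((t + 2) * C₁ * u) := by
    calc _ ≤ Real.exp ((C₁ * N ^ t : ℕ) : ℝ) ^ (t + 1 + 1) :=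
          pow_le_pow_left₀ (by positivity) (Real.add_one_le_exp _) _
      _ = Real.exp ((t + 2) * C₁ * (N : ℝ) ^ t) := by
          rw [← Real.exp_nat_mul]; push_cast; congr 1; ring
      _ ≤ _ := by gcongr
  have a2 : Real.exp (c₂ * N) ^ (C₁ * N ^ t) ≤ Real.exp (c₂ * C₁ * u) := by
    calc _ = Real.exp (c₂ * C₁ * (N * (N : ℝ) ^ t)) := by
          rw [← Real.exp_nat_mul]; push_cast; congr 1; ring
      _ ≤ _ := by gcongr
  have a3 : (100 : ℝ) ^ (P * Q).totalDegree ≤ Real.exp (100 * C₁ * u) := by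
    refine DetAux.pow_le_exp (by norm_num) _ ?_
    have : ((P * Q).totalDegree : ℝ) ≤ C₁ * (N : ℝ) ^ t := by exact_mod_cast hWd
    have : C₁ * (N : ℝ) ^ t ≤ C₁ * u := by gcongr
    linarith
  have a4 : Real.exp (C₁ * (τ + c₁ * N + N) * (N : ℝ) ^ t) ≤ Real.exp (C₁ * (c₁ + 1) * u) := by
    rw [hu, ← mul_assoc, mul_assoc (C₁ : ℝ) (c₁ + 1)]
    gcongr
    nlinarith
  have a5 : (2 : ℝ) ≤ Real.exp u := by linarith [Real.add_one_le_exp u]
  refine key.trans (le_of_le_of_eq (b := Real.exp u * (Real.exp ((t + 2) * C₁ * u) *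
    (Real.exp (c₂ * C₁ * u) * (Real.exp (100 * C₁ * u) * Real.exp (C₁ * (c₁ + 1) * u)))) *
      (Real.exp (c₁ * u) * ε)) ?_ ?_)
  · have := hrr.trans (mul_le_mul_of_nonneg_right hDu hε0)
    gcongr
  · rw [← mul_assoc, mul_comm _ ε]
    simp only [← Real.exp_add]
    congr 2
    ring

lemma deg_aeval {σ κ : Type} (f : σ → MvPolynomial κ ℤ) (hf : ∀ i, (f i).totalDegree ≤ 1)
    (R : MvPolynomial σ ℤ) : (aeval f R).totalDegree ≤ R.totalDegree := by
  rw [aeval_def, eval₂_eq]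
  refine totalDegree_finsetSum_le fun n hn => (totalDegree_mul _ _).trans ?_
  rw [algebraMap_eq, totalDegree_C, zero_add]
  refine (totalDegree_finsetProd _ _).trans (le_trans ?_ (le_totalDegree hn))
  exact Finset.sum_le_sum fun i _ =>
    (totalDegree_pow _ _).trans (by simpa using Nat.mul_le_mul_left (n i) (hf i))

lemma subfamily {σ : Type} [Fintype σ] (N : ℕ) (G : Set (MvPolynomial σ ℤ))
    (hG : ∀ R ∈ G, R.totalDegree ≤ N) :
    ∃ (m : ℕ) (R : Fin m → MvPolynomial σ ℤ), m ≤ (N + 1) ^ Fintype.card σ ∧ (∀ k, R k ∈ G) ∧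
      ∀ x : σ → AlgebraicClosure ℚ, (∀ k, aeval x (R k) = 0) → ∀ S ∈ G, aeval x S = 0 := by
  classical
  let e : (σ → Fin (N + 1)) → σ →₀ ℕ := fun n => Finsupp.equivFunOnFinite.symm fun i => n i
  let col : G → (σ → Fin (N + 1)) → ℚ := fun S n => (coeff (e n) S.1 : ℤ)
  obtain ⟨ι, a, -, hsp, hli⟩ := exists_linearIndependent' ℚ col
  have : Finite ι := hli.finite
  have := Fintype.ofFinite ι
  refine ⟨Fintype.card ι, fun k => (a ((Fintype.equivFin ι).symm k)).1, ?_,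
    fun k => (a _).2, fun x hx S hS => ?_⟩
  · simpa using hli.fintype_card_le_finrank
  · let φ : ((σ → Fin (N + 1)) → ℚ) →ₗ[ℚ] AlgebraicClosure ℚ :=
      Fintype.linearCombination ℚ fun n => ∏ i, x i ^ (n i : ℕ)
    have hφ : ∀ S : G, φ (col S) = aeval x S.1 := fun S => by
      rw [aeval_def, eval₂_eq', Fintype.linearCombination_apply]
      have he : Function.Injective e := fun n n' h => _root_.funext fun i =>
        Fin.ext (congrArg (fun m : σ →₀ ℕ => m i) h)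
      have hs : S.1.support ⊆ Finset.univ.image e := fun n hn =>
        Finset.mem_image.2 ⟨fun i => ⟨n i, Nat.lt_succ_of_le (((monomial_le_degreeOf i hn).trans
          (degreeOf_le_totalDegree _ i)).trans (hG _ S.2))⟩, Finset.mem_univ _, by ext i; rfl⟩
      rw [Finset.sum_subset hs (fun n _ hn => by rw [notMem_support_iff.1 hn]; simp),
        Finset.sum_image fun n _ n' _ h => he h]
      refine Finset.sum_congr rfl fun n _ => ?_
      simp [col, e, Algebra.smul_def]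
    have h0 : Submodule.span ℚ (Set.range (col ∘ a)) ≤ LinearMap.ker φ := by
      rw [Submodule.span_le]
      rintro _ ⟨j, rfl⟩
      have := hx (Fintype.equivFin ι j)
      simp only [Equiv.symm_apply_apply] at this
      exact (hφ (a j)).trans this
    rw [hsp] at h0
    rw [← hφ ⟨S, hS⟩]
    exact h0 (Submodule.subset_span ⟨_, rfl⟩)

end DetAAux

theorem detA (h1 : PerS) (h2 : FacBdS) (h3 : NormS) : DetAS := by
  classical
  intro σ _ i₀ η hη
  obtain ⟨C₀, hC₀, h⟩ := DetAAux.core h1 h2 h3 {i // i ≠ i₀} fun i => (η i₀)⁻¹ * η i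
  have hcard : Fintype.card {i // i ≠ i₀} = Fintype.card σ - 1 := by
    simp
  have hpos : 0 < Fintype.card σ := Fintype.card_pos_iff.2 ⟨i₀⟩
  rw [hcard] at h
  refine ⟨C₀ + ‖(η i₀)⁻¹‖, by positivity, fun N τ V hN hτ hz => ?_⟩
  obtain ⟨m, R, hm, hR, hR0⟩ := DetAAux.subfamily N {R | Good η N (Real.exp τ) (Real.exp (-V)) R}
    fun R hR => hR.1.totalDegree_le
  let f : σ → MvPolynomial {i // i ≠ i₀} ℤ := fun i => if h : i = i₀ then 1 else X ⟨i, h⟩
  have hf : ∀ (K : Type) [CommRing K] [Algebra ℤ K] (x : {i // i ≠ i₀} → K) (S : MvPolynomial σ ℤ),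
      aeval x (aeval f S) = aeval (fun i => if h : i = i₀ then 1 else x ⟨i, h⟩) S := by
    intro K _ _ x S
    rw [← AlgHom.comp_apply, comp_aeval]
    congr 2
    funext i
    simp only [f]
    split_ifs <;> simp
  have key := h N m τ (‖(η i₀)⁻¹‖ ^ N * Real.exp (-V)) (fun k => aeval f (R k)) hN hτ
    (by rwa [Nat.sub_add_cancel hpos])
    (fun k => (DetAAux.deg_aeval f (fun i => by
      simp only [f]
      split_ifs <;> simp) _).trans (hR k).1.totalDegree_le)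
    (fun k x hx => by
      rw [hf]
      refine (hR k).2.1 _ ((pi_norm_le_iff_of_nonneg zero_le_one).2 fun i => ?_)
      split_ifs
      · simp
      · exact (norm_le_pi_norm x _).trans hx)
    (fun x => by
      by_contra hne
      push Not at hne
      obtain ⟨S, hS, hS0⟩ := hz (fun i => if h : i = i₀ then 1 else x ⟨i, h⟩) (by simp)
      exact hS0 (hR0 _ (fun k => by rw [← hf]; exact hne k) S hS))
    (fun k => by
      have e : (fun i => if h : i = i₀ then (1 : ℂ) else (η i₀)⁻¹ * η i) = (η i₀)⁻¹ • η := by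
        funext i
        split_ifs with hi
        · simp [hi, hη]
        · simp
      rw [hf, e, aeval_smul_of_hom (hR k).1, norm_mul, norm_pow]
      exact mul_le_mul_of_nonneg_left (hR k).2.2 (by positivity))
  have hN' : (1 : ℝ) ≤ N := by exact_mod_cast hN
  have hNt : (1 : ℝ) ≤ (N : ℝ) ^ (Fintype.card σ - 1) := one_le_pow₀ hN'
  have a1 : ‖(η i₀)⁻¹‖ ^ N ≤
      Real.exp (‖(η i₀)⁻¹‖ * (τ + N) * (N : ℝ) ^ (Fintype.card σ - 1)) := by
    refine DetAux.pow_le_exp (norm_nonneg _) _ ?_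
    rw [mul_assoc]
    gcongr
    nlinarith
  have a2 := key.trans (mul_le_mul_of_nonneg_right
    (mul_le_mul_of_nonneg_right a1 (Real.exp_pos _).le) (Real.exp_pos _).le)
  rw [← Real.exp_add, ← Real.exp_add, Real.one_le_exp_iff] at a2
  linarith

end Pool.Agent.Lib.MP_caab05_ag.LT
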