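import Mathlib
import Pool.Agent.Lib.MP_caab05_ag.LT.Base

/-! Elimination of one variable by a resultant. -/

namespace Pool.Agent.Lib.MP_caab05_ag.LT

open MvPolynomial Filter Topology Asymptotics

variable {d M : ℕ}

namespace ElimAAux

/-- one combination of good objects which is nonzero at finitely many points -/
lemma comb {A K ι : Type} [AddCommMonoid A] [Field K] [CharZero K] (good : ℕ → A → Prop)
    (h0 : good 0 0) (hmono : ∀ s t R, s ≤ t → good s R → good t R)
    (hadd : ∀ s R R', good s R → good 1 R' → good (s + 1) (R + R'))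
    (φ : ι → A → K) (hφ : ∀ j R R', φ j (R + R') = φ j R + φ j R') (s : Finset ι)
    (h : ∀ j ∈ s, ∃ R, good 1 R ∧ φ j R ≠ 0) :
    ∃ R, good (s.card ^ 2) R ∧ ∀ j ∈ s, φ j R ≠ 0 := by
  classical
  induction s using Finset.induction_on with
  | empty => exact ⟨0, by simpa using h0, by simp⟩
  | insert a s ha ih =>
    obtain ⟨R, hR, hRs⟩ := ih fun j hj => h j (Finset.mem_insert_of_mem hj)
    obtain ⟨R', hR', hRa⟩ := h a (Finset.mem_insert_self _ _)
    have hg : ∀ l : ℕ, good (s.card ^ 2 + l) (R + l • R') := by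
      intro l
      induction l with
      | zero => simpa using hR
      | succ l ihl =>
        rw [succ_nsmul, ← add_assoc, ← add_assoc]
        exact hadd _ _ _ ihl hR'
    have hv : ∀ j (l : ℕ), φ j (R + l • R') = φ j R + l * φ j R' := by
      intro j l
      induction l with
      | zero => simp
      | succ l ihl => rw [succ_nsmul, ← add_assoc, hφ, ihl]; push_cast; ring
    let bad : Finset K := (insert a s).image fun j => -φ j R / φ j R'
    have hb : bad.card < ((Finset.range (s.card + 2)).image (Nat.cast : ℕ → K)).card := by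
      rw [Finset.card_image_of_injective _ Nat.cast_injective, Finset.card_range]
      refine lt_of_le_of_lt Finset.card_image_le ?_
      rw [Finset.card_insert_of_notMem ha]
      omega
    obtain ⟨y, hy, hyb⟩ := Finset.exists_mem_notMem_of_card_lt_card hb
    obtain ⟨l, hl, rfl⟩ := Finset.mem_image.1 hy
    rw [Finset.mem_range] at hl
    refine ⟨R + l • R', hmono _ _ _ ?_ (hg l), fun j hj => ?_⟩
    · rw [Finset.card_insert_of_notMem ha]
      nlinarith
    · rw [hv]
      intro hz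
      by_cases hj0 : φ j R' = 0
      · rcases Finset.mem_insert.1 hj with rfl | hj'
        · exact hRa hj0
        · rw [hj0, mul_zero, add_zero] at hz
          exact hRs j hj' hz
      · apply hyb
        refine Finset.mem_image.2 ⟨j, hj, ?_⟩
        rw [div_eq_iff hj0]
        linear_combination -hz

/-- specialisation of the coefficients -/
noncomputable def sp {σ L : Type} [CommRing L] (Q : Polynomial (MvPolynomial σ ℤ)) (x : σ → L) :
    Polynomial L :=
  Q.map (eval₂Hom (Int.castRingHom L) x)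

lemma eval_sp {σ L : Type} [CommRing L] (Q : Polynomial (MvPolynomial σ ℤ)) (x : σ → L) (T : L) :
    (sp Q x).eval T = val Q T x := by
  rw [sp, val, Polynomial.eval_map]

lemma aeval_eq {σ L : Type} [CommRing L] [Algebra ℤ L] (R : MvPolynomial σ ℤ) (x : σ → L) :
    aeval x R = eval₂Hom (Int.castRingHom L) x R := by
  rw [aeval_def, coe_eval₂Hom, RingHom.ext_int (algebraMap ℤ L) (Int.castRingHom L)]

lemma sp_deg {σ L : Type} [Field L] [CharZero L] {g : Polynomial (MvPolynomial σ ℤ)} {e : ℕ}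
    {h0 : ℤ} (hh0 : h0 ≠ 0) (hg : g.natDegree ≤ e) (hc : g.coeff e = C h0) (x : σ → L) :
    (sp g x).natDegree = e ∧ (sp g x).leadingCoeff = h0 := by
  have h1 : (sp g x).coeff e = h0 := by
    rw [sp, Polynomial.coeff_map, hc]
    simp
  have h2 : (sp g x).natDegree = e :=
    Polynomial.natDegree_eq_of_le_of_coeff_ne_zero (Polynomial.natDegree_map_le.trans hg)
      (by rw [h1]; exact_mod_cast hh0)
  exact ⟨h2, by rw [Polynomial.leadingCoeff, h2, h1]⟩

lemma res_eval {σ L : Type} [Field L] [IsAlgClosed L] [CharZero L] [Algebra ℤ L]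
    {g : Polynomial (MvPolynomial σ ℤ)} {e : ℕ}
    {h0 : ℤ} (hh0 : h0 ≠ 0) (hg : g.natDegree ≤ e) (hc : g.coeff e = C h0)
    {Q : Polynomial (MvPolynomial σ ℤ)} {n : ℕ} (hQ : Q.natDegree ≤ n) (x : σ → L) :
    aeval x (Polynomial.resultant g Q e n) =
      (h0 : L) ^ n * ((sp g x).roots.map fun T => val Q T x).prod := by
  obtain ⟨h1, h2⟩ := sp_deg hh0 hg hc x
  have h3 := Polynomial.resultant_eq_prod_eval (sp g x) (sp Q x) n
    (Polynomial.natDegree_map_le.trans hQ) (IsAlgClosed.splits _)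
  rw [h1, h2] at h3
  rw [aeval_eq, ← Polynomial.resultant_map_map]
  change Polynomial.resultant (sp g x) (sp Q x) e n = _
  rw [h3]
  congr 3
  funext T
  exact eval_sp Q x T

lemma card_roots {σ L : Type} [Field L] [IsAlgClosed L] [CharZero L]
    {g : Polynomial (MvPolynomial σ ℤ)} {e : ℕ}
    {h0 : ℤ} (hh0 : h0 ≠ 0) (hg : g.natDegree ≤ e) (hc : g.coeff e = C h0) (x : σ → L) :
    Multiset.card (sp g x).roots = e := by
  rw [← (IsAlgClosed.splits (sp g x)).natDegree_eq_card_roots, (sp_deg hh0 hg hc x).1]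

lemma mem_roots_sp {σ L : Type} [Field L] [CharZero L]
    {g : Polynomial (MvPolynomial σ ℤ)} {e : ℕ}
    {h0 : ℤ} (hh0 : h0 ≠ 0) (hg : g.natDegree ≤ e) (hc : g.coeff e = C h0) (x : σ → L) (T : L) :
    T ∈ (sp g x).roots ↔ val g T x = 0 := by
  have h1 : sp g x ≠ 0 := by
    rw [← Polynomial.leadingCoeff_ne_zero, (sp_deg hh0 hg hc x).2]
    exact_mod_cast hh0
  rw [Polynomial.mem_roots h1, Polynomial.IsRoot.def, eval_sp]

lemma norm_prod_le (m : Multiset ℂ) (f : ℂ → ℂ) {K : ℝ} (hK : 0 ≤ K)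
    (h : ∀ t ∈ m, ‖f t‖ ≤ K) : ‖(m.map f).prod‖ ≤ K ^ Multiset.card m := by
  induction m using Multiset.induction_on with
  | empty => simp
  | cons a m ih =>
    rw [Multiset.map_cons, Multiset.prod_cons, norm_mul, Multiset.card_cons, pow_succ']
    exact mul_le_mul (h a (Multiset.mem_cons_self _ _))
      (ih fun t ht => h t (Multiset.mem_cons_of_mem ht)) (norm_nonneg _) hK

lemma norm_prod_le' (m : Multiset ℂ) (f : ℂ → ℂ) {K ε : ℝ} (hK : 0 ≤ K) (hε : 0 ≤ ε)
    (h : ∀ t ∈ m, ‖f t‖ ≤ K) {a : ℂ} (ha : a ∈ m) (hfa : ‖f a‖ ≤ ε * K) :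
    ‖(m.map f).prod‖ ≤ ε * K ^ Multiset.card m := by
  obtain ⟨m', rfl⟩ := Multiset.exists_cons_of_mem ha
  rw [Multiset.map_cons, Multiset.prod_cons, norm_mul, Multiset.card_cons, pow_succ',
    ← mul_assoc]
  exact mul_le_mul hfa
    (norm_prod_le m' f hK fun t ht => h t (Multiset.mem_cons_of_mem ht))
    (norm_nonneg _) (by positivity)

lemma scale_bound {σ : Type} [Fintype σ] {f : (σ → ℂ) → ℂ} {N : ℕ} {B ρ : ℝ}
    (hf : ∀ (l : ℂ) x, f (l • x) = l ^ N * f x) (hB : ∀ x, ‖x‖ ≤ 1 → ‖f x‖ ≤ B) (hρ : 1 ≤ ρ)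
    {y : σ → ℂ} (hy : ‖y‖ ≤ ρ) : ‖f y‖ ≤ ρ ^ N * B := by
  have h0 : (0 : ℝ) < ρ := by linarith
  have h1 : y = (ρ : ℂ) • ((ρ : ℂ)⁻¹ • y) := by
    rw [smul_smul, mul_inv_cancel₀ (by exact_mod_cast h0.ne'), one_smul]
  rw [h1, hf, norm_mul, norm_pow, Complex.norm_real, Real.norm_of_nonneg h0.le]
  refine mul_le_mul_of_nonneg_left (hB _ ?_) (by positivity)
  rw [norm_smul, norm_inv, Complex.norm_real, Real.norm_of_nonneg h0.le, inv_mul_le_iff₀ h0]
  simpa using hy

lemma numeric (e : ℕ) {A ρ S : ℝ} (hA : 0 ≤ A) (hρ : 0 ≤ ρ) (hS : 0 ≤ S) :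
    ∃ C : ℝ, 0 < C ∧ ∀ (N : ℕ) (τ : ℝ), 1 ≤ N → 0 ≤ τ →
      A ^ N * (ρ ^ N * (S * Real.exp τ)) ^ e ≤ Real.exp (C * (τ + N)) := by
  refine ⟨A + e * (ρ + S + 1) + 1, by positivity, fun N τ hN hτ => ?_⟩
  have hexp : ∀ y : ℝ, y ≤ Real.exp y := fun y => by linarith [Real.add_one_le_exp y]
  have hN' : (1 : ℝ) ≤ N := by exact_mod_cast hN
  have h1 : A ^ N ≤ Real.exp (N * A) := by
    rw [Real.exp_nat_mul]
    exact pow_le_pow_left₀ hA (hexp A) N
  have h2 : ρ ^ N ≤ Real.exp (N * ρ) := by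
    rw [Real.exp_nat_mul]
    exact pow_le_pow_left₀ hρ (hexp ρ) N
  have h3 : ρ ^ N * (S * Real.exp τ) ≤ Real.exp (N * ρ + (S + τ)) := by
    rw [Real.exp_add, Real.exp_add]
    exact mul_le_mul h2 (mul_le_mul_of_nonneg_right (hexp S) (Real.exp_pos _).le)
      (by positivity) (Real.exp_pos _).le
  have h4 : (ρ ^ N * (S * Real.exp τ)) ^ e ≤ Real.exp (e * (N * ρ + (S + τ))) := by
    rw [Real.exp_nat_mul]
    exact pow_le_pow_left₀ (by positivity) h3 e
  refine (mul_le_mul h1 h4 (by positivity) (Real.exp_pos _).le).trans ?_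
  rw [← Real.exp_add, Real.exp_le_exp]
  have he : (0 : ℝ) ≤ e := Nat.cast_nonneg e
  have h5 : N * ρ + (S + τ) ≤ (ρ + S + 1) * (τ + N) := by
    nlinarith [mul_nonneg hρ hτ, mul_nonneg hS hτ, mul_le_mul_of_nonneg_left hN' hS]
  have h6 := mul_le_mul_of_nonneg_left h5 he
  nlinarith [mul_nonneg hA hτ]

lemma exp_shift (V D : ℝ) : Real.exp (-(V - D)) = Real.exp (-V) * Real.exp D := by
  rw [← Real.exp_add]
  congr 1
  ring

/-- degree at most `n` with prescribed top coefficient -/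
def Top {S : Type} [CommRing S] (n : ℕ) (q : Polynomial S) (c : S) : Prop :=
  q.natDegree ≤ n ∧ q.coeff n = c

lemma Top.mul {S : Type} [CommRing S] {n m : ℕ} {q q' : Polynomial S} {c c' : S}
    (h : Top n q c) (h' : Top m q' c') : Top (n + m) (q * q') (c * c') :=
  ⟨Polynomial.natDegree_mul_le.trans (add_le_add h.1 h'.1), by
    rw [Polynomial.coeff_mul_add_eq_of_natDegree_le h.1 h'.1, h.2, h'.2]⟩

lemma Top.pow {S : Type} [CommRing S] {q : Polynomial S} {c : S} (h : Top 1 q c) (k : ℕ) :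
    Top k (q ^ k) (c ^ k) := by
  induction k with
  | zero => exact ⟨by simp, by simp⟩
  | succ k ih => rw [pow_succ, pow_succ]; exact ih.mul h

lemma Top.prod {S ι : Type} [CommRing S] (s : Finset ι) (n : ι → ℕ) (q : ι → Polynomial S)
    (c : ι → S) (h : ∀ i ∈ s, Top (n i) (q i) (c i)) :
    Top (∑ i ∈ s, n i) (∏ i ∈ s, q i) (∏ i ∈ s, c i) := by
  classical
  induction s using Finset.induction_on with
  | empty => exact ⟨by simp, by simp⟩
  | insert a s ha ih =>
    rw [Finset.sum_insert ha, Finset.prod_insert ha, Finset.prod_insert ha]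
    exact (h a (Finset.mem_insert_self _ _)).mul (ih fun i hi => h i (Finset.mem_insert_of_mem hi))

lemma Top.sum {S ι : Type} [CommRing S] (s : Finset ι) (n : ℕ) (q : ι → Polynomial S)
    (c : ι → S) (h : ∀ i ∈ s, Top n (q i) (c i)) :
    Top n (∑ i ∈ s, q i) (∑ i ∈ s, c i) :=
  ⟨Polynomial.natDegree_sum_le_of_forall_le _ _ fun i hi => (h i hi).1, by
    rw [Polynomial.finsetSum_coeff]
    exact Finset.sum_congr rfl fun i hi => (h i hi).2⟩

/-- the point `(0,x) + T p` -/
def pt {σ L : Type} [CommRing L] (p : Option σ → ℤ) (x : σ → L) (T : L) : Option σ → L :=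
  fun o => Option.elim o 0 x + T * p o

/-- the substitution `(0,x) + T p` -/
noncomputable def sub {σ : Type} (p : Option σ → ℤ) (R : MvPolynomial (Option σ) ℤ) :
    Polynomial (MvPolynomial σ ℤ) :=
  aeval (fun o => Polynomial.C (C (p o)) * Polynomial.X +
    Polynomial.C (Option.elim o 0 X : MvPolynomial σ ℤ)) R

lemma val_sub {σ L : Type} [CommRing L] [Algebra ℤ L] (p : Option σ → ℤ)
    (R : MvPolynomial (Option σ) ℤ)
    (x : σ → L) (T : L) : val (sub p R) T x = aeval (pt p x T) R := by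
  unfold val sub
  induction R using MvPolynomial.induction_on with
  | C a =>
    rw [aeval_C, aeval_C, eq_intCast, eq_intCast, ← Polynomial.coe_eval₂RingHom, map_intCast]
  | add P Q hP hQ => rw [map_add, map_add, Polynomial.eval₂_add, hP, hQ]
  | mul_X P o hP =>
    rw [map_mul, map_mul, Polynomial.eval₂_mul, hP, aeval_X, aeval_X, Polynomial.eval₂_add,
      Polynomial.eval₂_mul, Polynomial.eval₂_C, Polynomial.eval₂_C, Polynomial.eval₂_X,
      eval₂Hom_C, eq_intCast]
    congr 1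
    cases o <;> simp [pt] <;> ring

lemma top_sub {σ : Type} (p : Option σ → ℤ) {R : MvPolynomial (Option σ) ℤ} {N : ℕ}
    (hR : R.IsHomogeneous N) : Top N (sub p R) (C (eval p R)) := by
  unfold sub
  rw [aeval_def, eval₂_eq, eval_eq, map_sum]
  refine Top.sum _ _ _ _ fun m hm => ?_
  have h1 : ∑ i ∈ m.support, m i = N := by
    have h := hR (mem_support_iff.1 hm)
    rw [Finsupp.weight_apply, Finsupp.sum] at h
    simpa using h
  have h2 := Top.prod m.support (fun i => m i)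
    (fun o => (Polynomial.C (C (p o)) * Polynomial.X +
      Polynomial.C (Option.elim o 0 X : MvPolynomial σ ℤ)) ^ m o) (fun o => C (p o) ^ m o)
    (fun o _ => Top.pow ⟨Polynomial.natDegree_linear_le, by
      rw [Polynomial.coeff_add, Polynomial.coeff_C_mul_X, if_pos rfl,
        Polynomial.coeff_C_succ, add_zero]⟩ _)
  rw [h1] at h2
  have h3 : Top 0 (algebraMap ℤ (Polynomial (MvPolynomial σ ℤ)) (coeff m R))
      (C (coeff m R)) := by
    rw [Polynomial.algebraMap_apply, algebraMap_eq]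
    exact ⟨by rw [Polynomial.natDegree_C], Polynomial.coeff_C_zero⟩
  have h4 := h3.mul h2
  rw [zero_add] at h4
  rw [map_mul, map_prod]
  simp only [map_pow]
  exact h4

lemma pt_smul {σ L : Type} [CommRing L] (p : Option σ → ℤ) (x : σ → L) (T l : L) :
    pt p (l • x) (l * T) = l • pt p x T := by
  funext o
  cases o <;> simp [pt] <;> ring

lemma pt_ne_zero {σ L : Type} [Field L] [CharZero L] {p : Option σ → ℤ} (hp : p none ≠ 0)
    {x : σ → L} (hx : x ≠ 0) (T : L) : pt p x T ≠ 0 := by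
  intro h
  have h1 := congrFun h none
  simp only [pt, Option.elim_none, zero_add, Pi.zero_apply, mul_eq_zero, Int.cast_eq_zero, hp,
    or_false] at h1
  apply hx
  funext i
  have h2 := congrFun h (some i)
  simpa [pt, h1] using h2

lemma roots_smul {σ : Type} {g : Polynomial (MvPolynomial σ ℤ)} {e : ℕ}
    {h0 : ℤ} (hh0 : h0 ≠ 0) (hg : g.natDegree ≤ e) (hc : g.coeff e = C h0)
    {x : σ → ℂ} {l : ℂ} (hl : l ≠ 0)
    (hs : ∀ T, val g (l * T) (l • x) = l ^ e * val g T x) :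
    (sp g (l • x)).roots = (sp g x).roots.map fun T => l * T := by
  have h1 : sp g (l • x) = Polynomial.C (h0 : ℂ) *
      (((sp g x).roots.map fun T => l * T).map fun a => Polynomial.X - Polynomial.C a).prod := by
    apply Polynomial.funext
    intro T
    obtain ⟨T, rfl⟩ : ∃ T', T = l * T' := ⟨l⁻¹ * T, by rw [mul_inv_cancel_left₀ hl]⟩
    rw [eval_sp, hs, ← eval_sp, (IsAlgClosed.splits (sp g x)).eval_eq_prod_roots,
      (sp_deg hh0 hg hc x).2, Polynomial.eval_mul, Polynomial.eval_C,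
      Polynomial.eval_multiset_prod, Multiset.map_map, Multiset.map_map]
    have h2 : (((sp g x).roots.map
        (((Polynomial.eval (l * T)) ∘ fun a => Polynomial.X - Polynomial.C a) ∘
          fun T => l * T))).prod = ((sp g x).roots.map fun a => l * (T - a)).prod := by
      congr 2
      funext a
      simp [mul_sub]
    rw [h2, Multiset.prod_map_mul, Multiset.map_const', Multiset.prod_replicate,
      card_roots hh0 hg hc]
    ring
  rw [h1, Polynomial.roots_C_mul _ (by exact_mod_cast hh0),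
    Polynomial.roots_multiset_prod_X_sub_C]

lemma aeval_cast {σ : Type} (p : σ → ℤ) (h : MvPolynomial σ ℤ) :
    aeval (fun o => (p o : ℂ)) h = ((eval p h : ℤ) : ℂ) := by
  induction h using MvPolynomial.induction_on with
  | C a => simp
  | add P Q hP hQ => rw [map_add, map_add, hP, hQ, Int.cast_add]
  | mul_X P o hP => rw [map_mul, map_mul, hP, aeval_X, eval_X, Int.cast_mul]

lemma pt_bound {σ : Type} [Fintype σ] (p : Option σ → ℤ) {h : MvPolynomial (Option σ) ℤ} {e : ℕ}
    (hh : h.IsHomogeneous e) (hp : eval p h ≠ 0) :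
    ∃ κ : ℝ, 1 ≤ κ ∧ ∀ (x : σ → ℂ) (T : ℂ), aeval (pt p x T) h = 0 → ‖pt p x T‖ ≤ κ * ‖x‖ := by
  let q : Option σ → ℂ := fun o => p o
  have hc : Continuous fun y : Option σ → ℂ => aeval y h := by
    have := (differentiable_eval (map (algebraMap ℤ ℂ) h)).continuous
    simpa only [eval_map, ← aeval_def] using this
  have hq : aeval q h ≠ 0 := by
    rw [aeval_cast]
    exact_mod_cast hp
  obtain ⟨δ, hδ, hb⟩ := Metric.eventually_nhds_iff.1 (hc.continuousAt.eventually_ne hq)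
  refine ⟨1 + ‖q‖ / δ, by have := div_nonneg (norm_nonneg q) hδ.le; linarith, fun x T hT => ?_⟩
  let x' : Option σ → ℂ := fun o => Option.elim o 0 x
  have hx' : ‖x'‖ ≤ ‖x‖ := by
    refine (pi_norm_le_iff_of_nonneg (norm_nonneg _)).2 fun o => ?_
    cases o with
    | none => simp [x']
    | some i => exact norm_le_pi_norm x i
  have hpt : pt p x T = x' + T • q := by
    funext o
    simp [pt, x', q]
  have hT' : ‖T‖ ≤ ‖x‖ / δ := by
    by_cases hT0 : T = 0
    · rw [hT0, norm_zero]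
      positivity
    by_contra hlt
    push Not at hlt
    have hTp : 0 < ‖T‖ := norm_pos_iff.2 hT0
    apply hb (y := T⁻¹ • pt p x T)
    · rw [hpt, smul_add, smul_smul, inv_mul_cancel₀ hT0, one_smul, dist_eq_norm,
        add_sub_cancel_right, norm_smul, norm_inv, inv_mul_lt_iff₀ hTp]
      rw [div_lt_iff₀ hδ] at hlt
      linarith
    · rw [aeval_smul_of_hom hh, hT, mul_zero]
  rw [hpt]
  refine (norm_add_le _ _).trans ?_
  rw [norm_smul, add_mul, one_mul]
  refine add_le_add hx' ?_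
  calc ‖T‖ * ‖q‖ ≤ ‖x‖ / δ * ‖q‖ := mul_le_mul_of_nonneg_right hT' (norm_nonneg _)
    _ = ‖q‖ / δ * ‖x‖ := by ring

lemma comb_good {σ K ι : Type} [Fintype σ] [Field K] [CharZero K] [Algebra ℤ K] {η : σ → ℂ}
    {N : ℕ} {B ε : ℝ}
    (hB : 0 ≤ B) (hε : 0 ≤ ε) (y : ι → σ → K) (s : Finset ι) {e : ℕ} (hs : s.card ≤ e)
    (h : ∀ j ∈ s, ∃ R, Good η N B ε R ∧ aeval (y j) R ≠ 0) :
    ∃ R, Good η N ((e : ℝ) ^ 2 * B) ((e : ℝ) ^ 2 * ε) R ∧ ∀ j ∈ s, aeval (y j) R ≠ 0 := by
  have hmono : ∀ (s t : ℕ) R, s ≤ t → Good η N (s * B) (s * ε) R → Good η N (t * B) (t * ε) R := by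
    intro s t R hst hR
    have hst' : (s : ℝ) ≤ t := by exact_mod_cast hst
    exact ⟨hR.1, fun x hx => (hR.2.1 x hx).trans (mul_le_mul_of_nonneg_right hst' hB),
      hR.2.2.trans (mul_le_mul_of_nonneg_right hst' hε)⟩
  obtain ⟨R, hR, hR'⟩ := comb (fun (s : ℕ) R => Good η N (s * B) (s * ε) R)
    ⟨isHomogeneous_zero _ _ _, by simp, by simp⟩ hmono
    (fun s R R' hR hR' => ⟨hR.1.add hR'.1, fun x hx => by
      rw [map_add]
      refine (norm_add_le _ _).trans ?_
      have h1 := hR.2.1 x hx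
      have h2 := hR'.2.1 x hx
      push_cast at h2 ⊢
      linarith, by
      rw [map_add]
      refine (norm_add_le _ _).trans ?_
      have h1 := hR.2.2
      have h2 := hR'.2.2
      push_cast at h2 ⊢
      linarith⟩)
    (fun j R => aeval (y j) R) (fun j R R' => map_add _ _ _) s (by simpa using h)
  refine ⟨R, ?_, hR'⟩
  have := hmono _ (e ^ 2) R (Nat.pow_le_pow_left hs 2) hR
  simpa using this

lemma val_add {σ K : Type} [CommRing K] (Q Q' : Polynomial (MvPolynomial σ ℤ)) (c : K)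
    (x : σ → K) : val (Q + Q') c x = val Q c x + val Q' c x := Polynomial.eval₂_add _ _

lemma comb_goodC {σ K ι : Type} [Fintype σ] [Field K] [CharZero K] {c : ℂ} {η : σ → ℂ} {N : ℕ}
    {B ε : ℝ} (hB : 0 ≤ B) (hε : 0 ≤ ε) (t : ι → K) (x : σ → K) (s : Finset ι) {e : ℕ}
    (hs : s.card ≤ e) (h : ∀ j ∈ s, ∃ Q, GoodC c η N B ε Q ∧ val Q (t j) x ≠ 0) :
    ∃ Q, GoodC c η N ((e : ℝ) ^ 2 * B) ((e : ℝ) ^ 2 * ε) Q ∧ ∀ j ∈ s, val Q (t j) x ≠ 0 := by
  have hmono : ∀ (s t : ℕ) R, s ≤ t → GoodC c η N (s * B) (s * ε) R →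
      GoodC c η N (t * B) (t * ε) R := by
    intro s t R hst hR
    have hst' : (s : ℝ) ≤ t := by exact_mod_cast hst
    exact ⟨hR.1, fun c' hc' x hx => (hR.2.1 c' hc' x hx).trans (mul_le_mul_of_nonneg_right hst' hB),
      hR.2.2.trans (mul_le_mul_of_nonneg_right hst' hε)⟩
  obtain ⟨R, hR, hR'⟩ := comb (fun (s : ℕ) R => GoodC c η N (s * B) (s * ε) R)
    ⟨by simp [val], by simp [val], by simp [val]⟩ hmono
    (fun s R R' hR hR' => ⟨fun c' l x => by rw [val_add, val_add, hR.1, hR'.1, mul_add],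
      fun c' hc' x hx => by
      rw [val_add]
      refine (norm_add_le _ _).trans ?_
      have h1 := hR.2.1 c' hc' x hx
      have h2 := hR'.2.1 c' hc' x hx
      push_cast at h2 ⊢
      linarith, by
      rw [val_add]
      refine (norm_add_le _ _).trans ?_
      have h1 := hR.2.2
      have h2 := hR'.2.2
      push_cast at h2 ⊢
      linarith⟩)
    (fun j R => val R (t j) x) (fun j R R' => val_add _ _ _ _) s (by simpa using h)
  refine ⟨R, ?_, hR'⟩
  have := hmono _ (e ^ 2) R (Nat.pow_le_pow_left hs 2) hR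
  simpa using this

lemma val_map {σ K L : Type} [CommRing K] [CommRing L] (f : K →+* L)
    (Q : Polynomial (MvPolynomial σ ℤ)) (c : K) (x : σ → K) :
    val Q (f c) (fun i => f (x i)) = f (val Q c x) := by
  unfold val
  rw [Polynomial.hom_eval₂]
  congr 1
  refine ringHom_ext' (RingHom.ext_int _ _) fun i => ?_
  rw [RingHom.comp_apply, eval₂Hom_X', eval₂Hom_X']

lemma val_const {σ K : Type} [CommRing K] [Algebra ℤ K] (g : Polynomial ℤ) (c : K) (x : σ → K) :
    val (g.map (C : ℤ →+* MvPolynomial σ ℤ)) c x = Polynomial.aeval c g := by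
  unfold val
  rw [Polynomial.eval₂_map, Polynomial.aeval_def]
  congr 1
  exact RingHom.ext_int _ _

lemma sp_const {σ K : Type} [CommRing K] (g : Polynomial ℤ) (x y : σ → K) :
    sp (g.map (C : ℤ →+* MvPolynomial σ ℤ)) x = sp (g.map (C : ℤ →+* MvPolynomial σ ℤ)) y := by
  unfold sp
  rw [Polynomial.map_map, Polynomial.map_map]
  congr 1
  exact RingHom.ext_int _ _

lemma exists_emb {c : ℂ} (hc : IsIntegral ℤ c) {t : AlgebraicClosure ℚ}
    (ht : Polynomial.aeval t (minpoly ℤ c) = 0) :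
    ∃ f : AlgebraicClosure ℚ →+* ℂ, f t = c := by
  have h1 : minpoly ℚ c = (minpoly ℤ c).map (algebraMap ℤ ℚ) :=
    minpoly.isIntegrallyClosed_eq_field_fractions' ℚ hc
  have hc' : IsIntegral ℚ c := hc.tower_top
  have h2 : minpoly ℚ c = minpoly ℚ t :=
    minpoly.eq_of_irreducible_of_monic (minpoly.irreducible hc')
      (by rw [h1, Polynomial.aeval_map_algebraMap, ht]) (minpoly.monic hc')
  obtain ⟨f, hf⟩ := IntermediateField.exists_algHom_of_splits_of_aeval (F := ℚ)
    (E := AlgebraicClosure ℚ) (K := ℂ) (x := t) (y := c)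
    (fun s => ⟨((AlgebraicClosure.isAlgebraic ℚ).isAlgebraic s).isIntegral, IsAlgClosed.splits _⟩)
    ((congrArg (Polynomial.aeval c) h2.symm).trans (minpoly.aeval ℚ c))
  exact ⟨f.toRingHom, hf⟩

lemma small_le {e N : ℕ} {ρ τ V : ℝ} (hρ : 1 ≤ ρ) (hτ : 0 ≤ τ) :
    (e : ℝ) ^ 2 * Real.exp (-V) ≤ Real.exp (-V) * (ρ ^ N * ((e : ℝ) ^ 2 * Real.exp τ)) := by
  rw [mul_comm]
  refine mul_le_mul_of_nonneg_left ?_ (Real.exp_pos _).le
  have h1 : 1 ≤ ρ ^ N := one_le_pow₀ hρ
  have h2 : 1 ≤ Real.exp τ := Real.one_le_exp hτ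
  have h3 : (e : ℝ) ^ 2 ≤ (e : ℝ) ^ 2 * Real.exp τ := le_mul_of_one_le_right (by positivity) h2
  exact h3.trans (le_mul_of_one_le_left (by positivity) h1)

end ElimAAux

open ElimAAux

theorem elim_step {σ : Type} [Fintype σ] {η : Option σ → ℂ} (hη : η ≠ 0)
    {h : MvPolynomial (Option σ) ℤ} {e : ℕ} (hh : h.IsHomogeneous e) (h0 : h ≠ 0)
    (hz : aeval η h = 0) :
    ∃ (η' : σ → ℂ) (C : ℝ), η' ≠ 0 ∧
      (∀ F : IntermediateField ℚ ℂ, (∀ i, η i ∈ F) → ∀ i, η' i ∈ F) ∧ 1 ≤ e ∧ 0 < C ∧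
      ∀ (N : ℕ) (τ V : ℝ), 1 ≤ N → 0 ≤ τ → NZ η N (Real.exp τ) (Real.exp (-V)) →
        NZ η' (e * N) (Real.exp (C * (τ + N))) (Real.exp (-(V - C * (τ + N)))) := by
  classical
  have he : 1 ≤ e := by
    by_contra hlt
    have he0 : e = 0 := by omega
    subst he0
    have h1 := totalDegree_eq_zero_iff_eq_C.1 (hh.totalDegree h0)
    rw [h1, aeval_C, eq_intCast, Int.cast_eq_zero] at hz
    rw [hz, C_0] at h1
    exact h0 h1
  obtain ⟨p, hp⟩ : ∃ p : Option σ → ℤ, eval p (X none * h) ≠ 0 := by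
    by_contra hcon
    push Not at hcon
    exact mul_ne_zero (X_ne_zero none) h0 (MvPolynomial.funext (by simpa using hcon))
  rw [map_mul, eval_X] at hp
  have hp0 : p none ≠ 0 := left_ne_zero_of_mul hp
  have hp1 : eval p h ≠ 0 := right_ne_zero_of_mul hp
  obtain ⟨hg, hc⟩ := top_sub p hh
  set T0 : ℂ := η none / p none with hT0
  set η' : σ → ℂ := fun i => η (some i) - T0 * p (some i) with hη'
  have hp0' : (p none : ℂ) ≠ 0 := by exact_mod_cast hp0
  have hpt : pt p η' T0 = η := by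
    funext o
    cases o with
    | none => simp [pt, hT0, hp0']
    | some i => simp [pt, hη']
  obtain ⟨κ, hκ, hκb⟩ := pt_bound p hh hp1
  set ρ : ℝ := κ * max 1 ‖η'‖ with hρ
  have hρ1 : 1 ≤ ρ := one_le_mul_of_one_le_of_one_le hκ (le_max_left _ _)
  obtain ⟨C, hC, hCb⟩ := numeric e (A := ‖((eval p h : ℤ) : ℂ)‖) (ρ := ρ) (S := (e : ℝ) ^ 2)
    (norm_nonneg _) (by linarith) (by positivity)
  refine ⟨η', C, ?_, ?_, he, hC, ?_⟩
  · intro h1
    have h2 := hκb η' T0 (by rw [hpt, hz])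
    rw [hpt, h1, norm_zero, mul_zero] at h2
    exact hη (norm_le_zero_iff.1 h2)
  · intro F hF i
    exact F.sub_mem (hF _) (F.mul_mem (F.div_mem (hF _) (intCast_mem F _)) (intCast_mem F _))
  intro N τ V hN hτ hNZ x hx
  obtain ⟨R, hR, hRx⟩ := comb_good (Real.exp_pos τ).le (Real.exp_pos (-V)).le (pt p x)
    (sp (sub p h) x).roots.toFinset (e := e)
    ((Multiset.toFinset_card_le _).trans (card_roots hp1 hg hc x).le)
    (fun T _ => hNZ _ (pt_ne_zero hp0 hx T))
  have hQ := (top_sub p hR.1).1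
  have hroot : ∀ y : σ → ℂ, ‖y‖ ≤ max 1 ‖η'‖ → ∀ T ∈ (sp (sub p h) y).roots,
      ‖val (sub p R) T y‖ ≤ ρ ^ N * ((e : ℝ) ^ 2 * Real.exp τ) := by
    intro y hy T hT
    rw [mem_roots_sp hp1 hg hc, val_sub] at hT
    rw [val_sub]
    exact scale_bound (f := fun z => aeval z R) (fun l z => aeval_smul_of_hom hR.1 l z) hR.2.1 hρ1
      ((hκb y T hT).trans (mul_le_mul_of_nonneg_left hy (by linarith)))
  refine ⟨Polynomial.resultant (sub p h) (sub p R) e N, ⟨?_, fun y hy => ?_, ?_⟩, ?_⟩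
  · refine isHomogeneous_of_scaling fun l y hl => ?_
    rw [res_eval hp1 hg hc hQ, res_eval hp1 hg hc hQ, roots_smul hp1 hg hc hl fun T => by
      rw [val_sub, val_sub, pt_smul, aeval_smul_of_hom hh], Multiset.map_map]
    have h2 : ((fun T => val (sub p R) T (l • y)) ∘ fun T => l * T) =
        fun T => l ^ N * val (sub p R) T y := by
      funext T
      rw [Function.comp_apply, val_sub, val_sub, pt_smul, aeval_smul_of_hom hR.1]
    rw [h2, Multiset.prod_map_mul, Multiset.map_const', Multiset.prod_replicate,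
      card_roots hp1 hg hc]
    ring
  · rw [res_eval hp1 hg hc hQ, norm_mul, norm_pow]
    refine le_trans ?_ (hCb N τ hN hτ)
    refine mul_le_mul_of_nonneg_left ?_ (by positivity)
    have := norm_prod_le _ _ (by positivity) (hroot y (hy.trans (le_max_left _ _)))
    rwa [card_roots hp1 hg hc] at this
  · rw [res_eval hp1 hg hc hQ, norm_mul, norm_pow, exp_shift]
    refine le_trans ?_ (mul_le_mul_of_nonneg_left (hCb N τ hN hτ) (Real.exp_pos _).le)
    rw [mul_left_comm]
    refine mul_le_mul_of_nonneg_left ?_ (by positivity)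
    have := norm_prod_le' _ _ (by positivity) (Real.exp_pos (-V)).le
      (hroot η' (le_max_right _ _)) (a := T0)
      (by rw [mem_roots_sp hp1 hg hc, val_sub, hpt, hz])
      (by rw [val_sub, hpt]; exact hR.2.2.trans (small_le hρ1 hτ))
    rwa [card_roots hp1 hg hc] at this
  · rw [res_eval hp1 hg hc hQ]
    refine mul_ne_zero (pow_ne_zero _ (by exact_mod_cast hp1)) (Multiset.prod_ne_zero ?_)
    intro h1
    obtain ⟨T, hT, hT0⟩ := Multiset.mem_map.1 h1
    rw [val_sub] at hT0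
    exact hRx T (Multiset.mem_toFinset.2 hT) hT0

theorem elim_const {σ : Type} [Fintype σ] (η : σ → ℂ) {c : ℂ} (hc : IsIntegral ℤ c) :
    ∃ (e : ℕ) (C : ℝ), 1 ≤ e ∧ 0 < C ∧ ∀ (N : ℕ) (τ V : ℝ), 1 ≤ N → 0 ≤ τ →
      (∀ x : σ → ℂ, x ≠ 0 →
        ∃ Q, GoodC c η N (Real.exp τ) (Real.exp (-V)) Q ∧ val Q c x ≠ 0) →
      NZ η (e * N) (Real.exp (C * (τ + N))) (Real.exp (-(V - C * (τ + N)))) := by
  classical
  set e := (minpoly ℤ c).natDegree with he
  set g : Polynomial (MvPolynomial σ ℤ) := (minpoly ℤ c).map C with hgdef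
  have hg : g.natDegree ≤ e := Polynomial.natDegree_map_le
  have hgc : g.coeff e = C 1 := by
    rw [hgdef, Polynomial.coeff_map, he, (minpoly.monic hc).coeff_natDegree]
  set ρ : ℝ := max 1 ‖η‖ with hρ
  have hρ1 : 1 ≤ ρ := le_max_left _ _
  obtain ⟨C, hC, hCb⟩ := numeric e (A := 1) (ρ := ρ) (S := (e : ℝ) ^ 2)
    zero_le_one (by linarith) (by positivity)
  refine ⟨e, C, minpoly.natDegree_pos hc, hC, fun N τ V hN hτ hNZ x hx => ?_⟩
  have hCb' := hCb N τ hN hτ
  rw [one_pow, one_mul] at hCb'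
  obtain ⟨Q, hQ, hQx⟩ := comb_goodC (c := c) (η := η) (N := N) (Real.exp_pos τ).le
    (Real.exp_pos (-V)).le id x (sp g x).roots.toFinset (e := e)
    ((Multiset.toFinset_card_le _).trans (card_roots one_ne_zero hg hgc x).le)
    (fun t ht => by
      rw [Multiset.mem_toFinset, mem_roots_sp one_ne_zero hg hgc, hgdef, val_const] at ht
      obtain ⟨f, hf⟩ := exists_emb hc ht
      obtain ⟨Q, hQ, hQ0⟩ := hNZ (fun i => f (x i)) (fun h1 => hx (funext fun i => by
        simpa using congrFun h1 i))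
      refine ⟨Q, hQ, fun h1 => hQ0 ?_⟩
      rw [← hf, val_map]
      exact (congrArg f h1).trans (map_zero f))
  have hroot : ∀ y : σ → ℂ, ‖y‖ ≤ ρ → ∀ T ∈ (sp g y).roots,
      ‖val Q T y‖ ≤ ρ ^ N * ((e : ℝ) ^ 2 * Real.exp τ) := by
    intro y hy T hT
    rw [mem_roots_sp one_ne_zero hg hgc, hgdef, val_const] at hT
    exact scale_bound (f := fun z => val Q T z) (hQ.1 T) (hQ.2.1 T hT) hρ1 hy
  refine ⟨Polynomial.resultant g Q e Q.natDegree, ⟨?_, fun y hy => ?_, ?_⟩, ?_⟩
  · refine isHomogeneous_of_scaling fun l y _ => ?_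
    rw [res_eval one_ne_zero hg hgc le_rfl, res_eval one_ne_zero hg hgc le_rfl, hgdef,
      sp_const _ (l • y) y, ← hgdef]
    simp only [hQ.1]
    rw [Multiset.prod_map_mul, Multiset.map_const', Multiset.prod_replicate,
      card_roots one_ne_zero hg hgc]
    ring
  · rw [res_eval one_ne_zero hg hgc le_rfl, Int.cast_one, one_pow, one_mul]
    refine le_trans ?_ hCb'
    have := norm_prod_le _ _ (by positivity) (hroot y (hy.trans hρ1))
    rwa [card_roots one_ne_zero hg hgc] at this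
  · rw [res_eval one_ne_zero hg hgc le_rfl, Int.cast_one, one_pow, one_mul, exp_shift]
    refine le_trans ?_ (mul_le_mul_of_nonneg_left hCb' (Real.exp_pos _).le)
    have := norm_prod_le' _ _ (by positivity) (Real.exp_pos (-V)).le
      (hroot η (le_max_right _ _)) (a := c)
      (by rw [mem_roots_sp one_ne_zero hg hgc, hgdef, val_const, minpoly.aeval])
      (hQ.2.2.trans (small_le hρ1 hτ))
    rwa [card_roots one_ne_zero hg hgc] at this
  · rw [res_eval one_ne_zero hg hgc le_rfl, Int.cast_one, one_pow, one_mul]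
    refine Multiset.prod_ne_zero ?_
    intro h1
    obtain ⟨T, hT, hT0⟩ := Multiset.mem_map.1 h1
    exact hQx T (Multiset.mem_toFinset.2 hT) hT0

end Pool.Agent.Lib.MP_caab05_ag.LT
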