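import Mathlib
import Pool.Agent.Lib.MP_caab05_ag.LT.Det
import Pool.Agent.Lib.MP_caab05_ag.LT.ElimA

/-! The Liouville type inequality in transcendence degree t. -/

namespace Pool.Agent.Lib.MP_caab05_ag.LT

open MvPolynomial Filter Topology Asymptotics

variable {d M : ℕ}

namespace ElimBAux

/-- more than `t` elements of a field of transcendence degree at most `t` satisfy a polynomial
relation over the integers -/
lemma exists_rel {t : ℕ} {F : IntermediateField ℚ ℂ} (hF : Algebra.trdeg ℚ F ≤ t)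
    {σ : Type} [Fintype σ] (hσ : t < Fintype.card σ) {y : σ → ℂ} (hy : ∀ i, y i ∈ F) :
    ∃ P : MvPolynomial σ ℤ, P ≠ 0 ∧ aeval y P = 0 := by
  by_contra hcon
  push Not at hcon
  have h1 : AlgebraicIndependent ℤ y := by
    rw [algebraicIndependent_iff]
    intro P hP
    by_contra h
    exact hcon P h hP
  have : Algebra.IsAlgebraic ℤ ℚ := IsLocalization.isAlgebraic ℚ (nonZeroDivisors ℤ)
  have h2 : AlgebraicIndependent ℚ y := h1.extendScalars ℚ
  have h3 : AlgebraicIndependent ℚ (fun i => (⟨y i, hy i⟩ : F)) :=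
    AlgebraicIndependent.of_comp F.val h2
  have h4 := h3.cardinalMk_le_trdeg.trans hF
  rw [Cardinal.mk_fintype] at h4
  have h5 : Fintype.card σ ≤ t := by exact_mod_cast h4
  omega

/-- homogenisation -/
noncomputable def homog {σ : Type} (P : MvPolynomial σ ℤ) : MvPolynomial (Option σ) ℤ :=
  ∑ k ∈ Finset.range (P.totalDegree + 1),
    X none ^ (P.totalDegree - k) * rename some (homogeneousComponent k P)

lemma homog_hom {σ : Type} (P : MvPolynomial σ ℤ) : (homog P).IsHomogeneous P.totalDegree := by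
  refine IsHomogeneous.sum _ _ _ fun k hk => ?_
  have hk' : k ≤ P.totalDegree := Nat.lt_succ_iff.1 (Finset.mem_range.1 hk)
  have h1 : (X none ^ (P.totalDegree - k) : MvPolynomial (Option σ) ℤ).IsHomogeneous
      (P.totalDegree - k) := isHomogeneous_X_pow _ _
  have h2 := h1.mul ((homogeneousComponent_isHomogeneous k P).rename_isHomogeneous
    (f := (some : σ → Option σ)))
  rwa [Nat.sub_add_cancel hk'] at h2

lemma aeval_homog {σ K : Type} [CommRing K] (P : MvPolynomial σ ℤ) (x : Option σ → K)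
    (hx : x none = 1) : aeval x (homog P) = aeval (fun i => x (some i)) P := by
  conv_rhs => rw [← sum_homogeneousComponent P]
  rw [homog, map_sum, map_sum]
  refine Finset.sum_congr rfl fun k _ => ?_
  rw [map_mul, map_pow, aeval_X, hx, one_pow, one_mul, aeval_rename]
  rfl

lemma homog_ne {σ : Type} {P : MvPolynomial σ ℤ} (hP : P ≠ 0) : homog P ≠ 0 := by
  intro h
  have := aeval_homog (K := MvPolynomial σ ℤ) P (fun o => o.elim 1 X) rfl
  rw [h, map_zero] at this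
  apply hP
  rw [← aeval_X_left_apply P]
  exact this.symm

lemma exists_form {t : ℕ} {F : IntermediateField ℚ ℂ} (hF : Algebra.trdeg ℚ F ≤ t)
    {σ : Type} [Fintype σ] (hσ : t < Fintype.card σ) {η : Option σ → ℂ} (h0 : η none ≠ 0)
    (hη : ∀ i, η i ∈ F) :
    ∃ (h : MvPolynomial (Option σ) ℤ) (e : ℕ), h.IsHomogeneous e ∧ h ≠ 0 ∧ aeval η h = 0 := by
  obtain ⟨P, hP, hP0⟩ := exists_rel hF hσ (y := fun i => (η none)⁻¹ * η (some i))
    (fun i => F.mul_mem (F.inv_mem (hη none)) (hη (some i)))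
  refine ⟨homog P, _, homog_hom P, homog_ne hP, ?_⟩
  have h1 := aeval_smul_of_hom (homog_hom P) (η none)⁻¹ η
  rw [aeval_homog P _ (by simp [h0])] at h1
  have h2 : (fun i => ((η none)⁻¹ • η) (some i)) = fun i => (η none)⁻¹ * η (some i) := rfl
  rw [h2, hP0] at h1
  exact (mul_eq_zero.1 h1.symm).resolve_left (pow_ne_zero _ (inv_ne_zero h0))

lemma nz_equiv {σ σ' : Type} [Fintype σ] [Fintype σ'] (e : σ' ≃ σ) {η : σ → ℂ} {N : ℕ}
    {B ε : ℝ} (h : NZ η N B ε) : NZ (η ∘ e) N B ε := by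
  intro x hx
  obtain ⟨R, ⟨hR1, hR2, hR3⟩, hR4⟩ := h (x ∘ e.symm) (by
    intro h0
    apply hx
    ext i
    simpa using congrFun h0 (e i))
  refine ⟨rename e.symm R, ⟨hR1.rename_isHomogeneous, fun z hz => ?_, ?_⟩, ?_⟩
  · rw [aeval_rename]
    apply hR2
    rw [pi_norm_le_iff_of_nonneg zero_le_one] at hz ⊢
    exact fun i => hz _
  · rw [aeval_rename]
    have : (η ∘ e) ∘ e.symm = η := by ext i; simp
    rwa [this]
  · rwa [aeval_rename]

lemma combine {t e N : ℕ} {C C' τ V : ℝ} (hC : 0 < C) (hC' : 0 < C') (hN : 1 ≤ N) (hτ : 0 ≤ τ)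
    (h : V - C * (τ + N) ≤ C' * (C * (τ + N) + ((e * N : ℕ) : ℝ)) * ((e * N : ℕ) : ℝ) ^ t) :
    V ≤ (C + C' * (C + e) * (e : ℝ) ^ t) * (τ + N) * (N : ℝ) ^ t := by
  have hN' : (1 : ℝ) ≤ N := by exact_mod_cast hN
  have h1 : (1 : ℝ) ≤ (N : ℝ) ^ t := one_le_pow₀ hN'
  have he : (0 : ℝ) ≤ e := Nat.cast_nonneg e
  have h2 : C * (τ + N) ≤ C * (τ + N) * (N : ℝ) ^ t :=
    le_mul_of_one_le_right (by positivity) h1
  have h3 : C * (τ + N) + (e : ℝ) * N ≤ (C + e) * (τ + N) := by nlinarith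
  have h4 : C' * (C * (τ + N) + (e : ℝ) * N) * ((e : ℝ) * N) ^ t ≤
      C' * ((C + e) * (τ + N)) * ((e : ℝ) * N) ^ t := by gcongr
  push_cast at h
  rw [mul_pow] at h4 h
  nlinarith

lemma main {t : ℕ} {F : IntermediateField ℚ ℂ} (hF : Algebra.trdeg ℚ F ≤ t) (n : ℕ) :
    ∀ (σ : Type) [Fintype σ] (η : σ → ℂ), Fintype.card σ = n → η ≠ 0 → (∀ i, η i ∈ F) →
    ∃ C : ℝ, 0 < C ∧ ∀ (N : ℕ) (τ V : ℝ), 1 ≤ N → 0 ≤ τ →
      NZ η N (Real.exp τ) (Real.exp (-V)) → V ≤ C * (τ + N) * (N : ℝ) ^ t := by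
  induction n with
  | zero =>
    intro σ _ η hn h0 _
    have := Fintype.card_eq_zero_iff.1 hn
    exact absurd (Subsingleton.elim _ _) h0
  | succ n ih =>
    intro σ _ η hn h0 hη
    classical
    by_cases hnt : n ≤ t
    · obtain ⟨C, hC, h⟩ := det_bound h0
      refine ⟨C, hC, fun N τ V hN hτ hz => (h N τ V hN hτ hz).trans ?_⟩
      have hN' : (1 : ℝ) ≤ N := by exact_mod_cast hN
      have : (N : ℝ) ^ (Fintype.card σ - 1) ≤ (N : ℝ) ^ t :=
        pow_le_pow_right₀ hN' (by omega)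
      gcongr
    · obtain ⟨i0, hi0⟩ := Function.ne_iff.1 h0
      have hcard : Fintype.card {b // b ≠ i0} = n := by
        have := Fintype.card_congr (Equiv.optionSubtypeNe i0)
        rw [Fintype.card_option] at this
        omega
      set η1 : Option {b // b ≠ i0} → ℂ := η ∘ Equiv.optionSubtypeNe i0 with hη1
      have h1 : η1 none ≠ 0 := hi0
      obtain ⟨h, e, hh, hh0, hz⟩ := exists_form hF (σ := {b // b ≠ i0}) (by omega) h1
        (fun i => hη _)
      obtain ⟨η', C, hη', hF', he, hC, hstep⟩ :=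
        elim_step (η := η1) (Function.ne_iff.2 ⟨none, h1⟩) hh hh0 hz
      obtain ⟨C', hC', hih⟩ := ih _ η' hcard hη' (hF' F fun i => hη _)
      refine ⟨C + C' * (C + e) * (e : ℝ) ^ t, by positivity, fun N τ V hN hτ hnz => ?_⟩
      refine combine hC hC' hN hτ ?_
      exact hih (e * N) _ _ (Nat.mul_pos he hN) (by positivity)
        (hstep N τ V hN hτ (nz_equiv _ hnz))

end ElimBAux

theorem elim_zero {t : ℕ} {F : IntermediateField ℚ ℂ} (hF : Algebra.trdeg ℚ F ≤ t)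
    {σ : Type} [Fintype σ] {η : σ → ℂ} (h0 : η ≠ 0) (hη : ∀ i, η i ∈ F) :
    ∃ C : ℝ, 0 < C ∧ ∀ (N : ℕ) (τ V : ℝ), 1 ≤ N → 0 ≤ τ →
      NZ η N (Real.exp τ) (Real.exp (-V)) → V ≤ C * (τ + N) * (N : ℝ) ^ t :=
  ElimBAux.main hF _ σ η rfl h0 hη

theorem elim {t : ℕ} {F : IntermediateField ℚ ℂ} (hF : Algebra.trdeg ℚ F ≤ t)
    {σ : Type} [Fintype σ] {η : σ → ℂ} (h0 : η ≠ 0) (hη : ∀ i, η i ∈ F) {c : ℂ}
    (hc : IsIntegral ℤ c) :
    ∃ C : ℝ, 0 < C ∧ ∀ (N : ℕ) (τ V : ℝ), 1 ≤ N → 0 ≤ τ →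
      (∀ x : σ → ℂ, x ≠ 0 →
        ∃ Q, GoodC c η N (Real.exp τ) (Real.exp (-V)) Q ∧ val Q c x ≠ 0) →
      V ≤ C * (τ + N) * (N : ℝ) ^ t := by
  obtain ⟨e, C, he, hC, hstep⟩ := elim_const η hc
  obtain ⟨C', hC', hih⟩ := elim_zero hF h0 hη
  refine ⟨C + C' * (C + e) * (e : ℝ) ^ t, by positivity, fun N τ V hN hτ hnz => ?_⟩
  refine ElimBAux.combine hC hC' hN hτ ?_
  exact hih (e * N) _ _ (Nat.mul_pos he hN) (by positivity) (hstep N τ V hN hτ hnz)

end Pool.Agent.Lib.MP_caab05_ag.LT
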