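import Mathlib
import Pool.Agent.Lib.MP_caab05_ag.LT.Defs4
import Pool.Agent.Lib.MP_caab05_ag.LT.ElimA
import Pool.Agent.Lib.MP_caab05_ag.LT.ElimB

/-! The Liouville type inequality in transcendence degree t, affine form. -/

namespace Pool.Agent.Lib.MP_caab05_ag.LT

open MvPolynomial Filter Topology Asymptotics

namespace ElimAffAux

open ElimAAux ElimBAux

lemma step {σ : Type} [Fintype σ] {i₀ : σ} {η : Option σ → ℂ} (hη : η (some i₀) ≠ 0)
    {h : MvPolynomial (Option σ) ℤ} {e : ℕ} (hh : h.IsHomogeneous e)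
    (hz : aeval η h = 0) {p : Option σ → ℤ} (hpi : p (some i₀) = 0) (hp0 : p none ≠ 0)
    (hp1 : eval p h ≠ 0) :
    ∃ (η' : σ → ℂ) (C : ℝ), η' i₀ ≠ 0 ∧
      (∀ F : IntermediateField ℚ ℂ, (∀ i, η i ∈ F) → ∀ i, η' i ∈ F) ∧ 1 ≤ e ∧ 0 < C ∧
      ∀ (N : ℕ) (τ V : ℝ), 1 ≤ N → 0 ≤ τ → NZ0 (some i₀) η N (Real.exp τ) (Real.exp (-V)) →
        NZ0 i₀ η' (e * N) (Real.exp (C * (τ + N))) (Real.exp (-(V - C * (τ + N)))) := by
  classical
  have h0 : h ≠ 0 := by
    rintro rfl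
    exact hp1 (map_zero _)
  have he : 1 ≤ e := by
    by_contra hlt
    have he0 : e = 0 := by omega
    subst he0
    have h1 := totalDegree_eq_zero_iff_eq_C.1 (hh.totalDegree h0)
    rw [h1, aeval_C, eq_intCast, Int.cast_eq_zero] at hz
    rw [hz, C_0] at h1
    exact h0 h1
  obtain ⟨hg, hc⟩ := top_sub p hh
  set T0 : ℂ := η none / p none with hT0
  set η' : σ → ℂ := fun i => η (some i) - T0 * p (some i) with hη'
  have hp0' : (p none : ℂ) ≠ 0 := by exact_mod_cast hp0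
  have hpt : pt p η' T0 = η := by
    funext o
    cases o with
    | none => simp [pt, hT0, hp0']
    | some i => simp [pt, hη']
  obtain ⟨κ, hκ, hκb⟩ := pt_bound p hh hp1
  set ρ : ℝ := κ * max 1 ‖η'‖ with hρ
  have hρ1 : 1 ≤ ρ := one_le_mul_of_one_le_of_one_le hκ (le_max_left _ _)
  obtain ⟨C, hC, hCb⟩ := numeric e (A := ‖((eval p h : ℤ) : ℂ)‖) (ρ := ρ) (S := (e : ℝ) ^ 2)
    (norm_nonneg _) (by linarith) (by positivity)
  refine ⟨η', C, ?_, ?_, he, hC, ?_⟩
  · simpa [hη', hpi] using hη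
  · intro F hF i
    exact F.sub_mem (hF _) (F.mul_mem (F.div_mem (hF _) (intCast_mem F _)) (intCast_mem F _))
  intro N τ V hN hτ hNZ x hx
  obtain ⟨R, hR, hRx⟩ := comb_good (Real.exp_pos τ).le (Real.exp_pos (-V)).le (pt p x)
    (sp (sub p h) x).roots.toFinset (e := e)
    ((Multiset.toFinset_card_le _).trans (card_roots hp1 hg hc x).le)
    (fun T _ => hNZ _ (by simpa [pt, hpi] using hx))
  have hQ := (top_sub p hR.1).1
  have hroot : ∀ y : σ → ℂ, ‖y‖ ≤ max 1 ‖η'‖ → ∀ T ∈ (sp (sub p h) y).roots,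
      ‖val (sub p R) T y‖ ≤ ρ ^ N * ((e : ℝ) ^ 2 * Real.exp τ) := by
    intro y hy T hT
    rw [mem_roots_sp hp1 hg hc, val_sub] at hT
    rw [val_sub]
    exact scale_bound (f := fun z => aeval z R) (fun l z => aeval_smul_of_hom hR.1 l z) hR.2.1 hρ1
      ((hκb y T hT).trans (mul_le_mul_of_nonneg_left hy (by linarith)))
  refine ⟨Polynomial.resultant (sub p h) (sub p R) e N, ⟨?_, fun y hy => ?_, ?_⟩, ?_⟩
  · refine isHomogeneous_of_scaling fun l y hl => ?_
    rw [res_eval hp1 hg hc hQ, res_eval hp1 hg hc hQ, roots_smul hp1 hg hc hl fun T => by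
      rw [val_sub, val_sub, pt_smul, aeval_smul_of_hom hh], Multiset.map_map]
    have h2 : ((fun T => val (sub p R) T (l • y)) ∘ fun T => l * T) =
        fun T => l ^ N * val (sub p R) T y := by
      funext T
      rw [Function.comp_apply, val_sub, val_sub, pt_smul, aeval_smul_of_hom hR.1]
    rw [h2, Multiset.prod_map_mul, Multiset.map_const', Multiset.prod_replicate,
      card_roots hp1 hg hc]
    ring
  · rw [res_eval hp1 hg hc hQ, norm_mul, norm_pow]
    refine le_trans ?_ (hCb N τ hN hτ)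
    refine mul_le_mul_of_nonneg_left ?_ (by positivity)
    have := norm_prod_le _ _ (by positivity) (hroot y (hy.trans (le_max_left _ _)))
    rwa [card_roots hp1 hg hc] at this
  · rw [res_eval hp1 hg hc hQ, norm_mul, norm_pow, exp_shift]
    refine le_trans ?_ (mul_le_mul_of_nonneg_left (hCb N τ hN hτ) (Real.exp_pos _).le)
    rw [mul_left_comm]
    refine mul_le_mul_of_nonneg_left ?_ (by positivity)
    have := norm_prod_le' _ _ (by positivity) (Real.exp_pos (-V)).le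
      (hroot η' (le_max_right _ _)) (a := T0)
      (by rw [mem_roots_sp hp1 hg hc, val_sub, hpt, hz])
      (by rw [val_sub, hpt]; exact hR.2.2.trans (small_le hρ1 hτ))
    rwa [card_roots hp1 hg hc] at this
  · rw [res_eval hp1 hg hc hQ]
    refine mul_ne_zero (pow_ne_zero _ (by exact_mod_cast hp1)) (Multiset.prod_ne_zero ?_)
    intro h1
    obtain ⟨T, hT, hT0⟩ := Multiset.mem_map.1 h1
    rw [val_sub] at hT0
    exact hRx T (Multiset.mem_toFinset.2 hT) hT0

lemma const {σ : Type} [Fintype σ] (i₀ : σ) (η : σ → ℂ) {c : ℂ} (hc : IsIntegral ℤ c) :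
    ∃ (e : ℕ) (C : ℝ), 1 ≤ e ∧ 0 < C ∧ ∀ (N : ℕ) (τ V : ℝ), 1 ≤ N → 0 ≤ τ →
      (∀ x : σ → ℂ, x i₀ ≠ 0 →
        ∃ Q, GoodC c η N (Real.exp τ) (Real.exp (-V)) Q ∧ val Q c x ≠ 0) →
      NZ0 i₀ η (e * N) (Real.exp (C * (τ + N))) (Real.exp (-(V - C * (τ + N)))) := by
  classical
  set e := (minpoly ℤ c).natDegree with he
  set g : Polynomial (MvPolynomial σ ℤ) := (minpoly ℤ c).map C with hgdef
  have hg : g.natDegree ≤ e := Polynomial.natDegree_map_le
  have hgc : g.coeff e = C 1 := by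
    rw [hgdef, Polynomial.coeff_map, he, (minpoly.monic hc).coeff_natDegree]
  set ρ : ℝ := max 1 ‖η‖ with hρ
  have hρ1 : 1 ≤ ρ := le_max_left _ _
  obtain ⟨C, hC, hCb⟩ := numeric e (A := 1) (ρ := ρ) (S := (e : ℝ) ^ 2)
    zero_le_one (by linarith) (by positivity)
  refine ⟨e, C, minpoly.natDegree_pos hc, hC, fun N τ V hN hτ hNZ x hx => ?_⟩
  have hCb' := hCb N τ hN hτ
  rw [one_pow, one_mul] at hCb'
  obtain ⟨Q, hQ, hQx⟩ := comb_goodC (c := c) (η := η) (N := N) (Real.exp_pos τ).le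
    (Real.exp_pos (-V)).le id x (sp g x).roots.toFinset (e := e)
    ((Multiset.toFinset_card_le _).trans (card_roots one_ne_zero hg hgc x).le)
    (fun t ht => by
      rw [Multiset.mem_toFinset, mem_roots_sp one_ne_zero hg hgc, hgdef, val_const] at ht
      obtain ⟨f, hf⟩ := exists_emb hc ht
      obtain ⟨Q, hQ, hQ0⟩ := hNZ (fun i => f (x i)) (fun h1 => hx (by simpa using h1))
      refine ⟨Q, hQ, fun h1 => hQ0 ?_⟩
      rw [← hf, val_map]
      exact (congrArg f h1).trans (map_zero f))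
  have hroot : ∀ y : σ → ℂ, ‖y‖ ≤ ρ → ∀ T ∈ (sp g y).roots,
      ‖val Q T y‖ ≤ ρ ^ N * ((e : ℝ) ^ 2 * Real.exp τ) := by
    intro y hy T hT
    rw [mem_roots_sp one_ne_zero hg hgc, hgdef, val_const] at hT
    exact scale_bound (f := fun z => val Q T z) (hQ.1 T) (hQ.2.1 T hT) hρ1 hy
  refine ⟨Polynomial.resultant g Q e Q.natDegree, ⟨?_, fun y hy => ?_, ?_⟩, ?_⟩
  · refine isHomogeneous_of_scaling fun l y _ => ?_
    rw [res_eval one_ne_zero hg hgc le_rfl, res_eval one_ne_zero hg hgc le_rfl, hgdef,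
      sp_const _ (l • y) y, ← hgdef]
    simp only [hQ.1]
    rw [Multiset.prod_map_mul, Multiset.map_const', Multiset.prod_replicate,
      card_roots one_ne_zero hg hgc]
    ring
  · rw [res_eval one_ne_zero hg hgc le_rfl, Int.cast_one, one_pow, one_mul]
    refine le_trans ?_ hCb'
    have := norm_prod_le _ _ (by positivity) (hroot y (hy.trans hρ1))
    rwa [card_roots one_ne_zero hg hgc] at this
  · rw [res_eval one_ne_zero hg hgc le_rfl, Int.cast_one, one_pow, one_mul, exp_shift]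
    refine le_trans ?_ (mul_le_mul_of_nonneg_left hCb' (Real.exp_pos _).le)
    have := norm_prod_le' _ _ (by positivity) (Real.exp_pos (-V)).le
      (hroot η (le_max_right _ _)) (a := c)
      (by rw [mem_roots_sp one_ne_zero hg hgc, hgdef, val_const, minpoly.aeval])
      (hQ.2.2.trans (small_le hρ1 hτ))
    rwa [card_roots one_ne_zero hg hgc] at this
  · rw [res_eval one_ne_zero hg hgc le_rfl, Int.cast_one, one_pow, one_mul]
    refine Multiset.prod_ne_zero ?_
    intro h1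
    obtain ⟨T, hT, hT0⟩ := Multiset.mem_map.1 h1
    exact hQx T (Multiset.mem_toFinset.2 hT) hT0

lemma top_ne {σ : Type} {P : MvPolynomial σ ℤ} (hP : P ≠ 0) :
    homogeneousComponent P.totalDegree P ≠ 0 := by
  classical
  obtain ⟨m, hm, hd⟩ := Finset.exists_mem_eq_sup P.support (support_nonempty.2 hP)
    (fun s : σ →₀ ℕ => s.sum fun _ e => e)
  intro h
  have h1 := coeff_homogeneousComponent P.totalDegree P m
  rw [h, coeff_zero, if_pos] at h1
  · exact mem_support_iff.1 hm h1.symm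
  · rw [totalDegree, hd]
    rfl

lemma eval_homog {σ : Type} (P : MvPolynomial σ ℤ) (x : Option σ → ℤ) (hx : x none = 0) :
    eval x (homog P) = eval (fun i => x (some i)) (homogeneousComponent P.totalDegree P) := by
  rw [homog, map_sum, Finset.sum_range_succ, Finset.sum_eq_zero, zero_add, Nat.sub_self, pow_zero,
    one_mul, eval_rename]
  · rfl
  · intro k hk
    rw [map_mul, map_pow, eval_X, hx, zero_pow (by have := Finset.mem_range.1 hk; omega), zero_mul]

lemma exists_form0 {t : ℕ} {F : IntermediateField ℚ ℂ} (hF : Algebra.trdeg ℚ F ≤ t)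
    {σ : Type} [Fintype σ] (hσ : t + 1 < Fintype.card σ) {i₀ i₁ : σ} (hi : i₁ ≠ i₀) {η : σ → ℂ}
    (h0 : η i₀ ≠ 0) (hη : ∀ i, η i ∈ F) :
    ∃ (h : MvPolynomial σ ℤ) (e : ℕ) (p : σ → ℤ), h.IsHomogeneous e ∧ aeval η h = 0 ∧
      p i₀ = 0 ∧ p i₁ ≠ 0 ∧ eval p h ≠ 0 := by
  classical
  have hcard : t < Fintype.card {b // b ≠ i₀} := by
    have := Fintype.card_congr (Equiv.optionSubtypeNe i₀)
    rw [Fintype.card_option] at this
    omega
  obtain ⟨P, hP, hP0⟩ := exists_rel hF hcard (y := fun i => (η i₀)⁻¹ * η i.1)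
    (fun i => F.mul_mem (F.inv_mem (hη i₀)) (hη i.1))
  obtain ⟨q, hq⟩ : ∃ q : {b // b ≠ i₀} → ℤ,
      eval q (X ⟨i₁, hi⟩ * homogeneousComponent P.totalDegree P) ≠ 0 := by
    by_contra hcon
    push Not at hcon
    exact mul_ne_zero (X_ne_zero _) (top_ne hP) (MvPolynomial.funext (by simpa using hcon))
  rw [map_mul, eval_X] at hq
  refine ⟨rename (Equiv.optionSubtypeNe i₀) (homog P), P.totalDegree,
    fun b => if h : b = i₀ then 0 else q ⟨b, h⟩, (homog_hom P).rename_isHomogeneous, ?_,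
    dif_pos rfl, ?_, ?_⟩
  · rw [aeval_rename]
    have h1 := aeval_smul_of_hom (homog_hom P) (η i₀)⁻¹ (η ∘ Equiv.optionSubtypeNe i₀)
    rw [aeval_homog P _ (by simp [h0])] at h1
    have h2 : (fun i => ((η i₀)⁻¹ • (η ∘ Equiv.optionSubtypeNe i₀)) (some i)) =
        fun i : {b // b ≠ i₀} => (η i₀)⁻¹ * η i.1 := rfl
    rw [h2, hP0] at h1
    exact (mul_eq_zero.1 h1.symm).resolve_left (pow_ne_zero _ (inv_ne_zero h0))
  · simp only [dif_neg hi]
    exact left_ne_zero_of_mul hq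
  · rw [eval_rename, eval_homog P _ (by simp)]
    have h2 : (fun i => ((fun b => if h : b = i₀ then 0 else q ⟨b, h⟩) ∘
        Equiv.optionSubtypeNe i₀) (some i)) = q := by
      funext i
      simp [i.2]
    rw [h2]
    exact right_ne_zero_of_mul hq

lemma nz0_equiv {σ σ' : Type} [Fintype σ] [Fintype σ'] (e : σ' ≃ σ) {i : σ'} {η : σ → ℂ} {N : ℕ}
    {B ε : ℝ} (h : NZ0 (e i) η N B ε) : NZ0 i (η ∘ e) N B ε := by
  intro x hx
  obtain ⟨R, ⟨hR1, hR2, hR3⟩, hR4⟩ := h (x ∘ e.symm) (by simpa using hx)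
  refine ⟨rename e.symm R, ⟨hR1.rename_isHomogeneous, fun z hz => ?_, ?_⟩, ?_⟩
  · rw [aeval_rename]
    apply hR2
    rw [pi_norm_le_iff_of_nonneg zero_le_one] at hz ⊢
    exact fun i => hz _
  · rw [aeval_rename]
    have : (η ∘ e) ∘ e.symm = η := by ext i; simp
    rwa [this]
  · rwa [aeval_rename]

lemma main (hD : DetAS) {t : ℕ} {F : IntermediateField ℚ ℂ} (hF : Algebra.trdeg ℚ F ≤ t) (n : ℕ) :
    ∀ (σ : Type) [Fintype σ] (i₀ : σ) (η : σ → ℂ), Fintype.card σ = n → η i₀ ≠ 0 →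
    (∀ i, η i ∈ F) → ∃ C : ℝ, 0 < C ∧ ∀ (N : ℕ) (τ V : ℝ), 1 ≤ N → 0 ≤ τ →
      NZ0 i₀ η N (Real.exp τ) (Real.exp (-V)) → V ≤ C * (τ + N) * (N : ℝ) ^ t := by
  induction n with
  | zero =>
    intro σ _ i₀ η hn _ _
    exact ((Fintype.card_eq_zero_iff.1 hn).false i₀).elim
  | succ n ih =>
    intro σ _ i₀ η hn h0 hη
    classical
    by_cases hnt : n ≤ t
    · obtain ⟨C, hC, h⟩ := hD σ i₀ η h0
      refine ⟨C, hC, fun N τ V hN hτ hz => (h N τ V hN hτ hz).trans ?_⟩
      have hN' : (1 : ℝ) ≤ N := by exact_mod_cast hN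
      have : (N : ℝ) ^ (Fintype.card σ - 1) ≤ (N : ℝ) ^ t :=
        pow_le_pow_right₀ hN' (by omega)
      gcongr
    · obtain ⟨i₁, hi₁⟩ := Fintype.exists_ne_of_one_lt_card (α := σ) (by omega) i₀
      have hcard : Fintype.card {b // b ≠ i₁} = n := by
        have := Fintype.card_congr (Equiv.optionSubtypeNe i₁)
        rw [Fintype.card_option] at this
        omega
      set η1 : Option {b // b ≠ i₁} → ℂ := η ∘ Equiv.optionSubtypeNe i₁ with hη1
      have h1 : η1 (some ⟨i₀, hi₁.symm⟩) ≠ 0 := h0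
      obtain ⟨h, e, p, hh, hz, hpi, hp0, hp1⟩ := exists_form0 hF (σ := Option {b // b ≠ i₁})
        (by rw [Fintype.card_option]; omega) (i₁ := none) (Option.some_ne_none _).symm h1
        (fun i => hη _)
      obtain ⟨η', C, hη', hF', he, hC, hstep⟩ := step h1 hh hz hpi hp0 hp1
      obtain ⟨C', hC', hih⟩ := ih _ _ η' hcard hη' (hF' F fun i => hη _)
      refine ⟨C + C' * (C + e) * (e : ℝ) ^ t, by positivity, fun N τ V hN hτ hnz => ?_⟩
      refine combine hC hC' hN hτ ?_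
      exact hih (e * N) _ _ (Nat.mul_pos he hN) (by positivity)
        (hstep N τ V hN hτ (nz0_equiv (Equiv.optionSubtypeNe i₁) (i := some ⟨i₀, hi₁.symm⟩) hnz))

end ElimAffAux

theorem elimA (h : DetAS) : ElimAS := by
  intro t F hF σ _ i₀ η h0 hη c hc
  obtain ⟨e, C, he, hC, hstep⟩ := ElimAffAux.const i₀ η hc
  obtain ⟨C', hC', hih⟩ := ElimAffAux.main h hF _ σ i₀ η rfl h0 hη
  refine ⟨C + C' * (C + e) * (e : ℝ) ^ t, by positivity, fun N τ V hN hτ hnz => ?_⟩
  refine ElimBAux.combine hC hC' hN hτ ?_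
  exact hih (e * N) _ _ (Nat.mul_pos he hN) (by positivity) (hstep N τ V hN hτ hnz)

end Pool.Agent.Lib.MP_caab05_ag.LT
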