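import Mathlib
import Pool.Agent.Lib.MP_caab05_ag.LT.Defs4
import Pool.Agent.Lib.MP_caab05_ag.LT.Det

/-! The size of a factor of an integer polynomial. -/

namespace Pool.Agent.Lib.MP_caab05_ag.LT

open MvPolynomial

namespace FacBdAux

lemma coef1 (r : Polynomial ℂ) {B : ℝ} (h : ∀ s : ℂ, ‖s‖ ≤ 1 → ‖r.eval s‖ ≤ B) (j : ℕ) :
    ‖r.coeff j‖ ≤ B := by
  classical
  set P : MvPolynomial Unit ℂ :=
    ∑ i ∈ r.support, monomial (Finsupp.single () i) (r.coeff i) with hP
  have h1 : ∀ x : Unit → ℂ, eval x P = r.eval (x ()) := fun x => by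
    rw [hP, map_sum, Polynomial.eval_eq_sum, Polynomial.sum_def]
    refine Finset.sum_congr rfl fun i _ => ?_
    rw [eval_monomial, Finsupp.prod_single_index (by simp)]
  have h2 : coeff (Finsupp.single () j) P = r.coeff j := by
    rw [hP, coeff_sum]
    simp only [coeff_monomial, (Finsupp.single_injective ()).eq_iff]
    rw [Finset.sum_ite_eq']
    split_ifs with hj
    · rfl
    · exact (Polynomial.notMem_support_iff.1 hj).symm
  have h3 := coeff_le P (fun _ => 1) (fun _ => one_pos) (B := B)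
    (fun x hx => by rw [h1]; exact h _ (hx ())) (Finsupp.single () j)
  simpa [h2] using h3

/-- restriction to the line `s ↦ a + s b` -/
noncomputable def line {σ : Type} (R : MvPolynomial σ ℂ) (a b : σ → ℂ) : Polynomial ℂ :=
  aeval (fun i => Polynomial.C (a i) + Polynomial.C (b i) * Polynomial.X) R

lemma line_eval {σ : Type} (R : MvPolynomial σ ℂ) (a b : σ → ℂ) (s : ℂ) :
    (line R a b).eval s = eval (fun i => a i + b i * s) R := by
  unfold line
  induction R using MvPolynomial.induction_on with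
  | C c => simp
  | add p q hp hq => simp [hp, hq]
  | mul_X p i hp => simp [hp]

lemma line_mul {σ : Type} (P Q : MvPolynomial σ ℂ) (a b : σ → ℂ) :
    line (P * Q) a b = line P a b * line Q a b := by
  unfold line
  rw [map_mul]

lemma line_deg {σ : Type} (R : MvPolynomial σ ℂ) (a b : σ → ℂ) :
    (line R a b).natDegree ≤ R.totalDegree := by
  have h := MvPolynomial.aeval_natDegree_le R le_rfl
    (fun i => Polynomial.C (a i) + Polynomial.C (b i) * Polynomial.X) (n := 1) fun i => by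
      compute_degree
  simpa [line] using h

lemma eval_le (r : Polynomial ℂ) {B : ℝ} {n : ℕ} (hn : r.natDegree ≤ n)
    (h : ∀ j, ‖r.coeff j‖ ≤ B) : ‖r.eval 3‖ ≤ 6 ^ n * B := by
  have hB : 0 ≤ B := (norm_nonneg _).trans (h 0)
  rw [Polynomial.eval_eq_sum_range' (Nat.lt_succ_of_le hn)]
  refine (norm_sum_le _ _).trans ?_
  have h1 : ∀ j ∈ Finset.range (n + 1), ‖r.coeff j * 3 ^ j‖ ≤ 3 ^ n * B := fun j hj => by
    rw [norm_mul, norm_pow, mul_comm]
    have h3 : ‖(3 : ℂ)‖ = 3 := by simp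
    rw [h3]
    exact mul_le_mul (pow_le_pow_right₀ (by norm_num) (Nat.lt_succ_iff.1 (Finset.mem_range.1 hj)))
      (h j) (norm_nonneg _) (by positivity)
  refine (Finset.sum_le_sum h1).trans ?_
  rw [Finset.sum_const, Finset.card_range, nsmul_eq_mul, ← mul_assoc,
    show (6 : ℝ) = 2 * 3 by norm_num, mul_pow]
  have h2 : ((n + 1 : ℕ) : ℝ) ≤ 2 ^ n := by exact_mod_cast Nat.lt_two_pow_self
  gcongr

lemma big {σ : Type} [Fintype σ] (R : MvPolynomial σ ℂ) {B : ℝ}
    (h : ∀ y : σ → ℂ, ‖y‖ ≤ 1 → ‖eval y R‖ ≤ B) (x : σ → ℂ) (hx : ‖x‖ ≤ 3) :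
    ‖eval x R‖ ≤ 6 ^ R.totalDegree * B := by
  have h1 := eval_le (line R 0 fun i => x i / 3) (line_deg _ _ _) (B := B) (coef1 _ fun s hs => by
    rw [line_eval]
    refine h _ ((pi_norm_le_iff_of_nonneg zero_le_one).2 fun i => ?_)
    have h2 : ‖x i‖ ≤ 3 := (norm_le_pi_norm x i).trans hx
    have h3 : ‖(3 : ℂ)‖ = 3 := by simp
    rw [Pi.zero_apply, zero_add, norm_mul, norm_div, h3]
    exact mul_le_one₀ (by linarith) (norm_nonneg _) hs)
  rw [line_eval] at h1
  simpa using h1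

lemma one_le (r : Polynomial ℂ) : ‖r.eval 1‖ ≤ 2 ^ r.natDegree * r.mahlerMeasure := by
  rw [Polynomial.eval_eq_sum_range]
  refine (norm_sum_le _ _).trans ?_
  have h1 : ∀ j ∈ Finset.range (r.natDegree + 1),
      ‖r.coeff j * 1 ^ j‖ ≤ (r.natDegree.choose j : ℝ) * r.mahlerMeasure := fun j _ => by
    simpa using Polynomial.norm_coeff_le_choose_mul_mahlerMeasure j r
  refine (Finset.sum_le_sum h1).trans_eq ?_
  rw [← Finset.sum_mul, ← Nat.cast_sum, Nat.sum_range_choose]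
  simp

lemma mahler_le (r : Polynomial ℂ) {B : ℝ} {n : ℕ} (hn : r.natDegree ≤ n)
    (h : ∀ j, ‖r.coeff j‖ ≤ B) : r.mahlerMeasure ≤ 2 ^ n * B := by
  have hB : 0 ≤ B := (norm_nonneg _).trans (h 0)
  refine r.mahlerMeasure_le_sum_norm_coeff.trans ?_
  rw [Polynomial.sum_over_range' _ (by simp) (n + 1) (Nat.lt_succ_of_le hn)]
  refine (Finset.sum_le_sum fun j _ => h j).trans ?_
  rw [Finset.sum_const, Finset.card_range, nsmul_eq_mul]
  have h2 : ((n + 1 : ℕ) : ℝ) ≤ 2 ^ n := by exact_mod_cast Nat.lt_two_pow_self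
  gcongr

lemma main {σ : Type} [Fintype σ] (P Q : MvPolynomial σ ℂ) {B : ℝ}
    (h : ∀ y : σ → ℂ, ‖y‖ ≤ 1 → ‖eval y (P * Q)‖ ≤ B) (q : σ → ℂ) (hq : ‖q‖ ≤ 1)
    (hQ : 1 ≤ ‖eval q Q‖) (y : σ → ℂ) (hy : ‖y‖ ≤ 1) :
    ‖eval y P‖ ≤ 100 ^ (P * Q).totalDegree * B := by
  have hB : 0 ≤ B := (norm_nonneg _).trans (h 0 (by simp))
  set n := (P * Q).totalDegree with hn
  set p := line P y (q - y) with hp
  set r := line Q y (q - y) with hr
  have e0 : p.coeff 0 = eval y P := by
    rw [Polynomial.coeff_zero_eq_eval_zero, hp, line_eval]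
    simp
  have e1 : r.eval 1 = eval q Q := by
    rw [hr, line_eval]
    simp
  by_cases p0 : p = 0
  · rw [← e0, p0, Polynomial.coeff_zero, norm_zero]
    positivity
  have r0 : r ≠ 0 := fun e => by
    rw [← e1, e, Polynomial.eval_zero, norm_zero] at hQ
    linarith
  have d1 : (p * r).natDegree ≤ n := by
    rw [hp, hr, ← line_mul]
    exact line_deg _ _ _
  have d2 : r.natDegree ≤ n := by
    rw [Polynomial.natDegree_mul p0 r0] at d1
    omega
  have m1 : ‖eval y P‖ ≤ p.mahlerMeasure := by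
    simpa [e0] using Polynomial.norm_coeff_le_choose_mul_mahlerMeasure 0 p
  have m2 : 1 ≤ 2 ^ n * r.mahlerMeasure := by
    refine hQ.trans ?_
    rw [← e1]
    refine (one_le r).trans ?_
    have := r.mahlerMeasure_nonneg
    gcongr
    norm_num
  have m3 : (p * r).mahlerMeasure ≤ 2 ^ n * (6 ^ n * B) := by
    refine mahler_le _ d1 (coef1 _ fun s hs => ?_)
    rw [hp, hr, ← line_mul, line_eval]
    refine big _ h _ ((pi_norm_le_iff_of_nonneg (by norm_num)).2 fun i => ?_)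
    have a1 : ‖y i‖ ≤ 1 := (norm_le_pi_norm y i).trans hy
    have a2 : ‖q i‖ ≤ 1 := (norm_le_pi_norm q i).trans hq
    have a3 : ‖(q - y) i‖ ≤ 2 := by
      rw [Pi.sub_apply]
      linarith [norm_sub_le (q i) (y i)]
    have a4 : ‖(q - y) i * s‖ ≤ 2 := by
      rw [norm_mul]
      nlinarith [norm_nonneg ((q - y) i), norm_nonneg s]
    linarith [norm_add_le (y i) ((q - y) i * s)]
  rw [Polynomial.mahlerMeasure_mul] at m3
  have m4 := p.mahlerMeasure_nonneg
  calc ‖eval y P‖ ≤ p.mahlerMeasure * (2 ^ n * r.mahlerMeasure) :=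
        m1.trans (le_mul_of_one_le_right m4 m2)
    _ = 2 ^ n * (p.mahlerMeasure * r.mahlerMeasure) := by ring
    _ ≤ 2 ^ n * (2 ^ n * (6 ^ n * B)) := by gcongr
    _ = (2 * 2 * 6) ^ n * B := by rw [mul_pow, mul_pow]; ring
    _ ≤ 100 ^ n * B := by gcongr; norm_num

end FacBdAux

theorem facBd : FacBdS := by
  intro σ _ P Q B h0 h y hy
  have ev : ∀ (R : MvPolynomial σ ℤ) (x : σ → ℂ),
      eval x (map (Int.castRingHom ℂ) R) = aeval x R := fun R x => by
    rw [eval_map, aeval_def]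
    rfl
  have hQ : Q ≠ 0 := right_ne_zero_of_mul h0
  obtain ⟨m, hm⟩ := ne_zero_iff.1 hQ
  obtain ⟨q, hq, hmax⟩ := (isCompact_closedBall (0 : σ → ℂ) 1).exists_isMaxOn
    ⟨0, by simp⟩ (f := fun x => ‖eval x (map (Int.castRingHom ℂ) Q)‖)
    (continuous_eval _).norm.continuousOn
  have h1 := coeff_le (map (Int.castRingHom ℂ) Q) (fun _ => 1) (fun _ => one_pos)
    (B := ‖eval q (map (Int.castRingHom ℂ) Q)‖) (fun x hx => hmax (by
      simpa using (pi_norm_le_iff_of_nonneg zero_le_one).2 hx)) m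
  have h2 : (1 : ℝ) ≤ ‖coeff m (map (Int.castRingHom ℂ) Q)‖ := by
    rw [coeff_map, eq_intCast, Complex.norm_intCast]
    exact_mod_cast Int.one_le_abs hm
  have h3 := FacBdAux.main (map (Int.castRingHom ℂ) P) (map (Int.castRingHom ℂ) Q) (B := B)
    (fun x hx => by rw [← map_mul, ev]; exact h x hx) q (by simpa using hq)
    (h2.trans (by simpa using h1)) y hy
  rw [ev, ← map_mul] at h3
  refine h3.trans ?_
  have hB : 0 ≤ B := (norm_nonneg _).trans (h 0 (by simp))
  have h4 : (map (Int.castRingHom ℂ) (P * Q)).totalDegree ≤ (P * Q).totalDegree :=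
    Finset.sup_mono (support_map_subset _ _)
  gcongr
  norm_num

end Pool.Agent.Lib.MP_caab05_ag.LT
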