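import Pool.Agent.Lib.MP_caab05_ag.LT.Defs4

/-! Noether normalisation with small coefficients. -/

namespace Pool.Agent.Lib.MP_caab05_ag.LT

open MvPolynomial

namespace NormAux

lemma trans {B : Type} [CommRing B] [Algebra ℚ B] (S S' : Subalgebra ℚ B)
    (h : S ≤ (integralClosure S' B).restrictScalars ℚ) {x : B} (hx : IsIntegral S x) :
    IsIntegral S' x := by
  obtain ⟨p, hm, hp⟩ := hx
  let φ : S →+* integralClosure S' B :=
    RingHom.codRestrict S.val.toRingHom (integralClosure S' B) fun s => h s.2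
  have : IsIntegral (integralClosure S' B) x :=
    ⟨p.map φ, hm.map φ, by rw [Polynomial.eval₂_map]; exact hp⟩
  exact isIntegral_trans x this

/-- the top form of `W` at the point `(1, l)` -/
noncomputable def top {σ : Type} [Fintype σ] (W : MvPolynomial (Option σ) ℤ) (l : σ → ℤ) : ℤ :=
  ∑ e ∈ W.support with ∑ i, e i = W.totalDegree, coeff e W * ∏ i, l i ^ e (some i)

lemma sum_le {τ : Type} [Fintype τ] {W : MvPolynomial τ ℤ} {e : τ →₀ ℕ} (he : e ∈ W.support) :
    ∑ i, e i ≤ W.totalDegree := by
  have := le_totalDegree he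
  rwa [Finsupp.sum_fintype _ _ fun _ => rfl] at this

lemma exists_top {σ : Type} [Fintype σ] (W : MvPolynomial (Option σ) ℤ) (hW : W ≠ 0) :
    ∃ l : σ → ℤ, (∀ i, |l i| ≤ W.totalDegree) ∧ top W l ≠ 0 := by
  classical
  by_contra hn
  push Not at hn
  let G : MvPolynomial σ ℤ :=
    ∑ e ∈ W.support with ∑ i, e i = W.totalDegree, monomial e.some (coeff e W)
  have hG : G = 0 := by
    refine eq_zero_of_eval_zero_at_prod_finset G (fun _ => Finset.Icc 0 W.totalDegree)
      (fun i => ?_) fun x hx => ?_
    · have : G.totalDegree ≤ W.totalDegree := totalDegree_finsetSum_le fun e he => by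
        refine (totalDegree_monomial_le _ _).trans ?_
        rw [Finsupp.sum_fintype _ _ fun _ => rfl, ← (Finset.mem_filter.1 he).2, Fintype.sum_option]
        exact Nat.le_add_left _ _
      have h2 := degreeOf_le_totalDegree G i
      simp only [Int.card_Icc, sub_zero, Int.toNat_natCast_add_one]
      omega
    · rw [← hn x fun i => by
        have := Finset.mem_Icc.1 (hx i)
        rw [abs_of_nonneg this.1]
        exact this.2]
      simp only [G, map_sum, eval_monomial, top]
      exact Finset.sum_congr rfl fun e _ => by rw [Finsupp.prod_fintype _ _ (by simp)]; rfl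
  obtain ⟨e, he, hd⟩ := Finset.exists_mem_eq_sup W.support (support_nonempty.2 hW)
    fun s => s.sum fun _ e => e
  have hd' : ∑ i, e i = W.totalDegree := by
    rw [totalDegree, hd, Finsupp.sum_fintype _ _ fun _ => rfl]
  have h1 : coeff e.some G = coeff e W := by
    simp only [G, coeff_sum, coeff_monomial]
    rw [Finset.sum_eq_single_of_mem e (Finset.mem_filter.2 ⟨he, hd'⟩) fun e' he' hne => ?_,
      if_pos rfl]
    refine if_neg fun h => hne ?_
    have h2 : ∀ i, e' (some i) = e (some i) := fun i => DFunLike.congr_fun h i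
    have h3 := (Finset.mem_filter.1 he').2.trans hd'.symm
    simp only [Fintype.sum_option, h2, add_left_inj] at h3
    ext i
    cases i with
    | none => exact h3
    | some i => exact h2 i
  rw [hG, coeff_zero] at h1
  exact mem_support_iff.1 he h1.symm

lemma prod_pow {A τ : Type} [CommRing A] (p : τ → Polynomial A) (hp : ∀ i, (p i).natDegree ≤ 1)
    (e : τ → ℕ) (s : Finset τ) : (∏ i ∈ s, p i ^ e i).natDegree ≤ ∑ i ∈ s, e i ∧
      (∏ i ∈ s, p i ^ e i).coeff (∑ i ∈ s, e i) = ∏ i ∈ s, (p i).coeff 1 ^ e i := by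
  induction s using Finset.cons_induction with
  | empty => simp
  | cons a s ha ih =>
    have h1 : (p a ^ e a).natDegree ≤ e a := by
      simpa using Polynomial.natDegree_pow_le_of_le (e a) (hp a)
    have h2 := Polynomial.coeff_pow_of_natDegree_le (m := e a) (hp a)
    rw [mul_one] at h2
    simp only [Finset.prod_cons, Finset.sum_cons]
    exact ⟨Polynomial.natDegree_mul_le_of_le h1 ih.1, by
      rw [Polynomial.coeff_mul_add_eq_of_natDegree_le h1 ih.1, h2, ih.2]⟩

/-- the absorbed generator is integral over the new ring -/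
lemma absorb {B σ : Type} [CommRing B] [Algebra ℚ B] [Fintype σ] (T : σ → B) (y : B)
    (W : MvPolynomial (Option σ) ℤ) (l : σ → ℤ) (hl : top W l ≠ 0)
    (h : eval₂ (Int.castRingHom B) (fun o => o.elim y fun i => T i + l i • y) W = 0) :
    IsIntegral (Algebra.adjoin ℚ (Set.range T)) y := by
  let A := Algebra.adjoin ℚ (Set.range T)
  let p : Option σ → Polynomial A := fun o => o.elim Polynomial.X fun i =>
    Polynomial.C (l i : A) * Polynomial.X +
      Polynomial.C ⟨T i, Algebra.subset_adjoin ⟨i, rfl⟩⟩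
  have hp : ∀ o, (p o).natDegree ≤ 1 := by
    rintro (_ | i)
    · exact Polynomial.natDegree_X_le
    · exact Polynomial.natDegree_linear_le
  let P := eval₂ (Int.castRingHom _) p W
  have h1 : P.natDegree ≤ W.totalDegree := by
    simp only [P, eval₂_eq']
    refine Polynomial.natDegree_sum_le_of_forall_le _ _ fun e he => ?_
    rw [eq_intCast, ← Polynomial.C_eq_intCast]
    exact (Polynomial.natDegree_C_mul_le _ _).trans ((prod_pow p hp e _).1.trans (sum_le he))
  have h2 : P.coeff W.totalDegree = (top W l : A) := by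
    simp only [P, eval₂_eq', top, Polynomial.finsetSum_coeff, Finset.sum_filter, Int.cast_sum]
    refine Finset.sum_congr rfl fun e he => ?_
    rw [eq_intCast, ← Polynomial.C_eq_intCast, Polynomial.coeff_C_mul]
    split_ifs with hd
    · rw [← hd, (prod_pow p hp e _).2]
      simp [p, Polynomial.coeff_C]
    · rw [Polynomial.coeff_eq_zero_of_natDegree_lt
        ((prod_pow p hp e _).1.trans_lt ((sum_le he).lt_of_ne hd)), mul_zero, Int.cast_zero]
  have h3 : Polynomial.eval₂ (algebraMap A B) y P = 0 := by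
    rw [← Polynomial.coe_eval₂RingHom, eval₂_comp_left, RingHom.ext_int (RingHom.comp _ _)
      (Int.castRingHom B), ← h]
    congr 1
    funext o
    cases o with
    | none => simp [p]
    | some i =>
      change Polynomial.eval₂ _ _ (_ + _) = T i + l i • y
      rw [Polynomial.eval₂_add, Polynomial.eval₂_mul, Polynomial.eval₂_C, Polynomial.eval₂_X,
        Polynomial.eval₂_C, map_intCast, zsmul_eq_mul, add_comm]
      rfl
  refine ⟨Polynomial.C (algebraMap ℚ A (top W l : ℚ)⁻¹) * P,
    Polynomial.monic_of_natDegree_le_of_coeff_eq_one _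
      ((Polynomial.natDegree_C_mul_le _ _).trans h1) ?_, ?_⟩
  · rw [Polynomial.coeff_C_mul, h2, ← map_intCast (algebraMap ℚ A), ← map_mul,
      inv_mul_cancel₀ (Int.cast_ne_zero.2 hl), map_one]
  · rw [Polynomial.eval₂_mul, h3, mul_zero]

lemma exists_bd {κ ι : Type} [Fintype κ] [Fintype ι] (a : ι → MvPolynomial κ ℤ) :
    ∃ β : ℝ, 0 ≤ β ∧ ∀ i (x : κ → ℂ), ‖x‖ ≤ 1 → ‖aeval x (a i)‖ ≤ Real.exp β := by
  have hc : Continuous fun (x : κ → ℂ) i => aeval x (a i) := continuous_pi fun i => by
    simpa only [aeval_def, eval₂_eq_eval_map] using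
      (differentiable_eval (map (algebraMap ℤ ℂ) (a i))).continuous
  obtain ⟨C, hC⟩ := (isCompact_closedBall (0 : κ → ℂ) 1).exists_bound_of_continuousOn
    hc.continuousOn
  refine ⟨|C|, abs_nonneg _, fun i x hx => ?_⟩
  have h1 := (norm_le_pi_norm _ i).trans (hC x (by simpa using hx))
  linarith [le_abs_self C, Real.add_one_le_exp |C|]

variable {κ : Type} [Fintype κ] [DecidableEq κ]

/-- the linear part -/
def lin (i : Option κ) (j : κ) : ℤ := if i = some j then 1 else 0

/-- the normalising family -/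
noncomputable def fam {m : ℕ} (R : Fin m → MvPolynomial κ ℤ) (r : Option κ → Fin m → ℤ)
    (i : Option κ) : Polynomial (MvPolynomial κ ℚ) :=
  Polynomial.C (map (Int.castRingHom ℚ) (∑ j, lin i j • X j)) +
    Polynomial.C (map (Int.castRingHom ℚ) (∑ k, r i k • R k)) * Polynomial.X

lemma step {C N m : ℕ} (hC : ∀ (β : ℝ) (a b : Option (Option κ) → MvPolynomial κ ℤ), 0 ≤ β →
      (∀ i, (a i).totalDegree ≤ N ∧ (b i).totalDegree ≤ N) →
      (∀ i (x : κ → ℂ), ‖x‖ ≤ 1 → ‖aeval x (a i)‖ ≤ Real.exp β ∧ ‖aeval x (b i)‖ ≤ Real.exp β) →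
      ∃ W : MvPolynomial (Option (Option κ)) ℤ, W ≠ 0 ∧ W.totalDegree ≤ C ∧
        aeval (fun i => (Polynomial.C (a i) + Polynomial.C (b i) * Polynomial.X :
          Polynomial (MvPolynomial κ ℤ))) W = 0) (hN : 1 ≤ N) (R : Fin m → MvPolynomial κ ℤ)
    (hR : ∀ k, (R k).totalDegree ≤ N) (r : Option κ → Fin m → ℤ) (k₀ : Fin m) :
    ∃ l : Option κ → ℤ, (∀ i, |l i| ≤ C) ∧
      IsIntegral (Algebra.adjoin ℚ (Set.range fun i => fam R r i -
        l i • (Polynomial.C (map (Int.castRingHom ℚ) (R k₀)) * Polynomial.X)))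
        (Polynomial.C (map (Int.castRingHom ℚ) (R k₀)) * Polynomial.X) := by
  let a : Option (Option κ) → MvPolynomial κ ℤ := fun o => o.elim 0 fun i => ∑ j, lin i j • X j
  let b : Option (Option κ) → MvPolynomial κ ℤ := fun o => o.elim (R k₀) fun i => ∑ k, r i k • R k
  obtain ⟨β, hβ, hb⟩ := exists_bd (Sum.elim a b)
  obtain ⟨W, hW, hd, h0⟩ := hC β a b hβ (by
    rintro (_ | i)
    · exact ⟨by simp [a], hR k₀⟩
    · exact ⟨totalDegree_finsetSum_le fun j _ => (totalDegree_smul_le _ _).trans
        ((totalDegree_X j).le.trans hN),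
        totalDegree_finsetSum_le fun k _ => (totalDegree_smul_le _ _).trans (hR k)⟩)
    fun i x hx => ⟨hb (Sum.inl i) x hx, hb (Sum.inr i) x hx⟩
  obtain ⟨l, hl, ht⟩ := exists_top W hW
  refine ⟨l, fun i => (hl i).trans (by exact_mod_cast hd), absorb _ _ W l ht ?_⟩
  have h1 := congrArg (Polynomial.mapRingHom (map (σ := κ) (Int.castRingHom ℚ))) h0
  rw [aeval_def, eval₂_comp_left, map_zero, RingHom.ext_int (RingHom.comp _ _)
    (Int.castRingHom _)] at h1
  rw [← h1]
  congr 1
  funext o
  cases o with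
  | none => simp [a, b]
  | some i =>
    simp only [Option.elim_some, sub_add_cancel, fam, a, b, Function.comp_apply,
      Polynomial.coe_mapRingHom, Polynomial.map_add, Polynomial.map_mul, Polynomial.map_C,
      Polynomial.map_X]

end NormAux

open NormAux in
theorem normS (h : PerS) : NormS := by
  intro κ _
  classical
  obtain ⟨C, hC0, hC⟩ := h κ
  refine ⟨C, hC0, fun N m R hN hR hz => ?_⟩
  let y : Fin m → Polynomial (MvPolynomial κ ℚ) := fun k =>
    Polynomial.C (map (Int.castRingHom ℚ) (R k)) * Polynomial.X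
  have hD : (1 : ℤ) ≤ C * N ^ Fintype.card κ := by
    exact_mod_cast Nat.mul_pos hC0 (Nat.pow_pos hN)
  have key : ∀ s : Finset (Fin m), ∃ r : Option κ → Fin m → ℤ,
      (∀ i k, |r i k| ≤ C * N ^ Fintype.card κ) ∧ (∀ i k, k ∉ s → r i k = 0) ∧
      (∀ j, IsIntegral (Algebra.adjoin ℚ (Set.range (fam R r)))
        (Polynomial.C (X j) : Polynomial (MvPolynomial κ ℚ))) ∧
      ∀ k ∈ s, IsIntegral (Algebra.adjoin ℚ (Set.range (fam R r))) (y k) := by
    intro s
    induction s using Finset.induction_on with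
    | empty =>
      refine ⟨0, fun _ _ => by simpa using zero_le_one.trans hD, fun _ _ _ => rfl, fun j => ?_,
        by simp⟩
      have : (Polynomial.C (X j) : Polynomial (MvPolynomial κ ℚ)) ∈
          Algebra.adjoin ℚ (Set.range (fam R 0)) :=
        Algebra.subset_adjoin ⟨some j, by simp [fam, lin]⟩
      exact isIntegral_algebraMap (x := (⟨_, this⟩ : Algebra.adjoin ℚ (Set.range (fam R 0))))
    | insert k₀ s hk ih =>
      obtain ⟨r, h1, h2, h3, h4⟩ := ih
      obtain ⟨l, hl, hy⟩ := step (C := C * N ^ Fintype.card κ) (fun β a b hβ ha hb =>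
        let ⟨W, w1, w2, _, w3⟩ := hC N β a b hN hβ ha hb; ⟨W, w1, w2, w3⟩) hN R hR r k₀
      let r' : Option κ → Fin m → ℤ := fun i k => r i k - if k = k₀ then l i else 0
      have e : (fun i => fam R r i - l i • y k₀) = fam R r' := by
        funext i
        simp only [fam, r', y, sub_smul, Finset.sum_sub_distrib, ite_smul, zero_smul,
          Finset.sum_ite_eq', Finset.mem_univ, if_true, map_sub, map_zsmul, sub_mul, smul_mul_assoc]
        ring
      replace hy : IsIntegral (Algebra.adjoin ℚ (Set.range (fam R r'))) (y k₀) := e ▸ hy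
      have hle : Algebra.adjoin ℚ (Set.range (fam R r)) ≤
          (integralClosure (Algebra.adjoin ℚ (Set.range (fam R r'))) _).restrictScalars ℚ := by
        refine Algebra.adjoin_le ?_
        rintro _ ⟨i, rfl⟩
        have e2 : fam R r i = fam R r' i + l i • y k₀ := by rw [← e, sub_add_cancel]
        have h5 : IsIntegral (Algebra.adjoin ℚ (Set.range (fam R r'))) (fam R r' i) :=
          isIntegral_algebraMap (x := (⟨_, Algebra.subset_adjoin ⟨i, rfl⟩⟩ :
            Algebra.adjoin ℚ (Set.range (fam R r'))))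
        rw [e2]
        exact h5.add (hy.zsmul _)
      refine ⟨r', fun i k => ?_, fun i k hk' => ?_, fun j => trans _ _ hle (h3 j), fun k hk' => ?_⟩
      · by_cases hkk : k = k₀
        · simpa [r', hkk, h2 i k₀ hk] using hl i
        · simpa [r', hkk] using h1 i k
      · rw [Finset.mem_insert, not_or] at hk'
        simp [r', hk'.1, h2 i k hk'.2]
      · rcases Finset.mem_insert.1 hk' with rfl | hk'
        · exact hy
        · exact trans _ _ hle (h4 k hk')
  obtain ⟨r, h1, -, h3, h4⟩ := key Finset.univ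
  refine ⟨lin, r, fun i j => ?_, h1, ⟨fun b => ?_⟩⟩
  · unfold lin
    split_ifs
    · simpa using hD
    · simpa using zero_le_one.trans hD
  let J := (integralClosure (Algebra.adjoin ℚ (Set.range (fam R r)))
    (Polynomial (MvPolynomial κ ℚ))).restrictScalars ℚ
  have hc : ∀ q : MvPolynomial κ ℚ, Polynomial.C q ∈ J := fun q => by
    induction q using MvPolynomial.induction_on with
    | C a => exact J.algebraMap_mem a
    | add p q hp hq => rw [map_add]; exact J.add_mem hp hq
    | mul_X p i hp => rw [map_mul]; exact J.mul_mem hp (h3 i)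
  have hI : Ideal.span (Set.range fun k => map (Int.castRingHom ℚ) (R k)) = ⊤ := by
    rw [← Ideal.radical_eq_top, ← vanishingIdeal_zeroLocus_eq_radical (K := AlgebraicClosure ℚ),
      eq_top_iff]
    intro p _ x hx
    obtain ⟨k, hk⟩ := hz x
    have := hx _ (Ideal.subset_span ⟨k, rfl⟩)
    rw [aeval_def, eval₂_map, RingHom.ext_int (RingHom.comp _ _) (algebraMap ℤ _)] at this
    exact absurd this hk
  obtain ⟨c, hc1⟩ := Ideal.mem_span_range_iff_exists_fun.1 ((Ideal.eq_top_iff_one _).1 hI)
  have hX : (Polynomial.X : Polynomial (MvPolynomial κ ℚ)) ∈ J := by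
    have : (Polynomial.X : Polynomial (MvPolynomial κ ℚ)) = ∑ k, Polynomial.C (c k) * y k := by
      simp only [y, ← mul_assoc, ← map_mul, ← Finset.sum_mul, ← map_sum, hc1, map_one, one_mul]
    rw [this]
    exact J.sum_mem fun k _ => J.mul_mem (hc _) (h4 k (Finset.mem_univ _))
  change b ∈ J
  induction b using Polynomial.induction_on' with
  | add p q hp hq => exact J.add_mem hp hq
  | monomial n a => rw [← Polynomial.C_mul_X_pow_eq_monomial]; exact J.mul_mem (hc a) (J.pow_mem hX n)

end Pool.Agent.Lib.MP_caab05_ag.LT
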