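import Mathlib
import Pool.Agent.Lib.MP_caab05_ag.LT.Defs4
import Pool.Agent.Lib.MP_caab05_ag.LT.Det

/-! Siegel's lemma for polynomial relations. -/

namespace Pool.Agent.Lib.MP_caab05_ag.LT

open MvPolynomial

namespace PerAux

attribute [local instance] Matrix.seminormedAddCommGroup

/-- Siegel's lemma with twice as many unknowns as equations -/
lemma siegel {α β : Type} [Fintype α] [Fintype β] (A : Matrix α β ℤ) {B : ℝ} (hB : 1 ≤ B)
    (hA : ∀ i j, ‖A i j‖ ≤ B) (hm : 0 < Fintype.card α)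
    (hn : Fintype.card β = 2 * Fintype.card α) :
    ∃ w : β → ℤ, w ≠ 0 ∧ A.mulVec w = 0 ∧ ∀ j, ‖w j‖ ≤ Fintype.card β * B := by
  obtain ⟨w, h0, h1, h2⟩ := Int.Matrix.exists_ne_zero_int_vec_norm_le A (by omega) hm
  refine ⟨w, h0, h1, fun j => (norm_le_pi_norm w j).trans (h2.trans ?_)⟩
  have hm' : (0 : ℝ) < Fintype.card α := by exact_mod_cast hm
  have e : (Fintype.card α : ℝ) / ((Fintype.card β : ℝ) - Fintype.card α) = 1 := by
    rw [hn, div_eq_one_iff_eq] <;> push_cast <;> linarith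
  rw [e, Real.rpow_one]
  refine mul_le_mul_of_nonneg_left (max_le hB ?_) (Nat.cast_nonneg _)
  exact (Matrix.norm_le_iff (by linarith)).2 hA

/-- the exponent attached to a function with values in `Fin` -/
noncomputable def ex {σ : Type} [Fintype σ] {D : σ → ℕ} (γ : ∀ s, Fin (D s)) : σ →₀ ℕ :=
  Finsupp.equivFunOnFinite.symm fun s => (γ s : ℕ)

@[simp] lemma ex_apply {σ : Type} [Fintype σ] {D : σ → ℕ} (γ : ∀ s, Fin (D s)) (s : σ) :
    ex γ s = γ s := rfl

lemma ex_inj {σ : Type} [Fintype σ] {D : σ → ℕ} {γ γ' : ∀ s, Fin (D s)} (h : ex γ = ex γ') :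
    γ = γ' := funext fun s => Fin.ext (by rw [← ex_apply, h, ex_apply])

lemma int_coeff_le {σ : Type} [Fintype σ] (P : MvPolynomial σ ℤ) {B : ℝ}
    (h : ∀ x : σ → ℂ, ‖x‖ ≤ 1 → ‖aeval x P‖ ≤ B) (m : σ →₀ ℕ) : ‖coeff m P‖ ≤ B := by
  have h1 := coeff_le (MvPolynomial.map (Int.castRingHom ℂ) P) (fun _ => 1) (fun _ => one_pos)
    (B := B) (fun x hx => by
      rw [← DetAux.aeval_eq]
      exact h x ((pi_norm_le_iff_of_nonneg zero_le_one).2 hx)) m
  rw [Int.norm_eq_abs]
  simpa [coeff_map] using h1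

/-- a small relation between integer polynomials -/
lemma rel {σ τ : Type} [Fintype σ] [Fintype τ] (c : τ → MvPolynomial σ ℤ) (d : σ → ℕ) (k : ℕ)
    {B : ℝ} (hB : 1 ≤ B) (hk : 0 < k) (hτ : 0 < Fintype.card τ) (hd : ∀ s, 0 < d s)
    (hc : ∀ i s, degreeOf s (c i) ≤ d s) (hb : ∀ i (x : σ → ℂ), ‖x‖ ≤ 1 → ‖aeval x (c i)‖ ≤ B)
    (hcard : k ^ Fintype.card τ = 2 * ∏ s, (Fintype.card τ * k * d s)) :
    ∃ W : MvPolynomial τ ℤ, W ≠ 0 ∧ W.totalDegree ≤ Fintype.card τ * k ∧
      (∀ y : τ → ℂ, ‖y‖ ≤ 1 → ‖aeval y W‖ ≤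
        (k : ℝ) ^ Fintype.card τ * ((k : ℝ) ^ Fintype.card τ * B ^ (Fintype.card τ * k))) ∧
      aeval c W = 0 := by
  classical
  let D : σ → ℕ := fun s => Fintype.card τ * k * d s
  have hD : ∀ s, 0 < D s := fun s => Nat.mul_pos (Nat.mul_pos hτ hk) (hd s)
  let P : (τ → Fin k) → MvPolynomial σ ℤ := fun α => ∏ i, c i ^ (α i : ℕ)
  let A : Matrix (∀ s, Fin (D s)) (τ → Fin k) ℤ := fun γ α => coeff (ex γ) (P α)
  have hsum : ∀ α : τ → Fin k, ∑ i, (α i : ℕ) < Fintype.card τ * k := fun α => by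
    have : Nonempty τ := Fintype.card_pos_iff.1 hτ
    have h1 := Finset.sum_lt_sum_of_nonempty (Finset.univ_nonempty (α := τ))
      (f := fun i => (α i : ℕ)) (g := fun _ => k) fun i _ => (α i).2
    simpa using h1
  have hP : ∀ α (x : σ → ℂ), ‖x‖ ≤ 1 → ‖aeval x (P α)‖ ≤ B ^ (Fintype.card τ * k) := by
    intro α x hx
    refine le_trans ?_ (pow_le_pow_right₀ hB (hsum α).le)
    rw [map_prod, norm_prod, ← Finset.prod_pow_eq_pow_sum]
    refine Finset.prod_le_prod (fun _ _ => norm_nonneg _) fun i _ => ?_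
    rw [map_pow, norm_pow]
    exact pow_le_pow_left₀ (norm_nonneg _) (hb i x hx) _
  have hdeg : ∀ α s, degreeOf s (P α) < D s := by
    intro α s
    refine lt_of_le_of_lt (degreeOf_prod_le s _ _) (lt_of_le_of_lt
      (Finset.sum_le_sum (g := fun i => (α i : ℕ) * d s) fun i _ => ?_) ?_)
    · exact (degreeOf_pow_le s _ _).trans (Nat.mul_le_mul_left _ (hc i s))
    · rw [← Finset.sum_mul]
      exact Nat.mul_lt_mul_of_pos_right (hsum α) (hd s)
  have c1 : Fintype.card (∀ s, Fin (D s)) = ∏ s, D s := by simp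
  have c2 : Fintype.card (τ → Fin k) = k ^ Fintype.card τ := by simp
  obtain ⟨w, h0, h1, h2⟩ := siegel A (one_le_pow₀ hB) (fun γ α => int_coeff_le _ (hP α) _)
    (by rw [c1]; exact Finset.prod_pos fun s _ => hD s) (by rw [c1, c2, hcard])
  rw [c2] at h2
  refine ⟨∑ α, monomial (ex (D := fun _ => k) α) (w α), ?_, ?_, ?_, ?_⟩
  · obtain ⟨α, hα⟩ := Function.ne_iff.1 h0
    intro e
    apply hα
    have h3 := congrArg (coeff (ex (D := fun _ => k) α)) e
    rw [coeff_sum, Finset.sum_eq_single α, coeff_monomial, if_pos rfl] at h3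
    · exact h3
    · intro α' _ hne
      rw [coeff_monomial, if_neg fun e => hne (ex_inj e)]
    · exact fun h => absurd (Finset.mem_univ _) h
  · refine totalDegree_finsetSum_le fun α _ => (totalDegree_monomial_le _ _).trans ?_
    rw [Finsupp.sum_fintype _ _ fun _ => rfl]
    exact (hsum α).le
  · intro y hy
    rw [map_sum]
    refine (norm_sum_le _ _).trans ((Finset.sum_le_card_nsmul _ _
      ((k : ℝ) ^ Fintype.card τ * B ^ (Fintype.card τ * k)) fun α _ => ?_).trans_eq ?_)
    · rw [aeval_monomial, norm_mul, Finsupp.prod_fintype _ _ (fun _ => pow_zero _), norm_prod]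
      have h3 : ∏ i, ‖y i ^ ex (D := fun _ => k) α i‖ ≤ 1 :=
        Finset.prod_le_one (fun _ _ => norm_nonneg _) fun i _ => by
          rw [norm_pow]
          exact pow_le_one₀ (norm_nonneg _) ((norm_le_pi_norm y i).trans hy)
      refine (mul_le_of_le_one_right (norm_nonneg _) h3).trans ?_
      have h4 := h2 α
      push_cast at h4
      rw [Int.norm_eq_abs] at h4
      simpa using h4
    · rw [Finset.card_univ, c2, nsmul_eq_mul, Nat.cast_pow]
  · have e : aeval c (∑ α : τ → Fin k, monomial (ex (D := fun _ => k) α) (w α)) =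
        ∑ α, w α • P α := by
      rw [map_sum]
      refine Finset.sum_congr rfl fun α _ => ?_
      rw [aeval_monomial, Finsupp.prod_fintype _ _ (fun _ => pow_zero _), Algebra.smul_def]
      rfl
    rw [e]
    ext m
    rw [coeff_sum, coeff_zero]
    by_cases hm : ∀ s, m s < D s
    · have e2 : ex (fun s => (⟨m s, hm s⟩ : Fin (D s))) = m := Finsupp.ext fun _ => rfl
      have h3 := congrFun h1 fun s => ⟨m s, hm s⟩
      simp only [Matrix.mulVec, dotProduct, A, e2, Pi.zero_apply] at h3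
      rw [← h3]
      exact Finset.sum_congr rfl fun α _ => by rw [coeff_smul, smul_eq_mul, mul_comm]
    · push Not at hm
      obtain ⟨s, hs⟩ := hm
      refine Finset.sum_eq_zero fun α _ => ?_
      have h3 : coeff m (P α) = 0 := by
        by_contra hne
        exact absurd ((monomial_le_degreeOf s (mem_support_iff.2 hne)).trans_lt (hdeg α s))
          (not_lt.2 hs)
      rw [coeff_smul, h3, smul_zero]

lemma num {t k : ℕ} {β N : ℝ} (hβ : 0 ≤ β) (hN : 1 ≤ N) :
    (k : ℝ) ^ t * ((k : ℝ) ^ t * (2 * Real.exp β) ^ (t * k)) ≤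
      Real.exp (3 * (t * k) * (β + N)) := by
  have h1 : (k : ℝ) ^ t ≤ Real.exp (t * k) := by
    rw [Real.exp_nat_mul]
    exact pow_le_pow_left₀ (Nat.cast_nonneg _) (by linarith [Real.add_one_le_exp (k : ℝ)]) _
  have h2 : (2 * Real.exp β) ^ (t * k) ≤ Real.exp ((t * k : ℕ) * (1 + β)) := by
    rw [Real.exp_nat_mul, Real.exp_add]
    refine pow_le_pow_left₀ (by positivity) ?_ _
    exact mul_le_mul_of_nonneg_right (by linarith [Real.add_one_le_exp (1 : ℝ)]) (Real.exp_pos _).le
  refine (mul_le_mul h1 (mul_le_mul h1 h2 (by positivity) (by positivity)) (by positivity)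
    (by positivity)).trans ?_
  rw [← Real.exp_add, ← Real.exp_add]
  refine Real.exp_le_exp.2 ?_
  have h3 : (0 : ℝ) ≤ t * k := by positivity
  push_cast
  nlinarith [mul_nonneg h3 hβ, mul_nonneg h3 (sub_nonneg.2 hN)]

end PerAux

open PerAux in
theorem per : PerS := by
  intro κ _
  classical
  set t := Fintype.card κ with ht
  refine ⟨6 * (t + 2) ^ (t + 2), by positivity, fun N β a b hN hβ hd hb => ?_⟩
  let c : Option (Option κ) → MvPolynomial (Option κ) ℤ := fun i =>
    rename some (a i) + rename some (b i) * X none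
  have c1 : Fintype.card (Option (Option κ)) = t + 2 := by simp [ht]
  have hren : ∀ (P : MvPolynomial κ ℤ), P.totalDegree ≤ N → ∀ s : Option κ,
      degreeOf s (rename some P) ≤ s.elim 0 fun _ => N := by
    rintro P hP (_ | s)
    · refine degreeOf_le_iff.2 fun m hm => ?_
      obtain ⟨u, rfl, -⟩ := coeff_rename_ne_zero _ _ _ (mem_support_iff.1 hm)
      rw [Finsupp.mapDomain_of_notMem_range _ _ (by simp)]
      exact le_rfl
    · exact (degreeOf_le_totalDegree _ _).trans ((totalDegree_rename_le _ _).trans hP)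
  have h1 : (1 : ℝ) ≤ Real.exp β := Real.one_le_exp hβ
  obtain ⟨W, h0, h2, h3, h4⟩ := rel c (fun s => s.elim 1 fun _ => N) (2 * (t + 2) ^ (t + 1) * N ^ t)
    (B := 2 * Real.exp β) (by linarith) (by positivity) (by omega)
    (by rintro (_ | s); exacts [one_pos, hN])
    (fun i s => by
      refine (degreeOf_add_le _ _ _).trans (max_le ((hren _ (hd i).1 s).trans ?_)
        ((degreeOf_mul_le _ _ _).trans ((Nat.add_le_add_right (hren _ (hd i).2 s) _).trans ?_)))
      · rcases s with _ | s <;> simp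
      · rcases s with _ | s <;> simp [degreeOf_X])
    (fun i x hx => by
      have hx' : ‖x ∘ some‖ ≤ 1 :=
        (pi_norm_le_iff_of_nonneg zero_le_one).2 fun s => (norm_le_pi_norm x _).trans hx
      simp only [c, map_add, map_mul, aeval_rename, aeval_X]
      refine (norm_add_le _ _).trans ?_
      rw [norm_mul]
      have h5 := mul_le_mul (hb i _ hx').2 ((norm_le_pi_norm x none).trans hx) (norm_nonneg _)
        (Real.exp_pos β).le
      linarith [(hb i _ hx').1])
    (by
      rw [c1, Fintype.prod_option]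
      simp only [Option.elim_none, Option.elim_some, Finset.prod_const, Finset.card_univ, ← ht]
      generalize hk : 2 * (t + 2) ^ (t + 1) * N ^ t = k
      calc k ^ (t + 2) = k ^ (t + 1) * (2 * (t + 2) ^ (t + 1) * N ^ t) := by rw [hk, ← pow_succ]
        _ = _ := by rw [mul_pow, mul_pow]; ring)
  rw [c1] at h2 h3
  refine ⟨W, h0, h2.trans ?_, fun y hy => (h3 y hy).trans ((num hβ (N := N)
    (by exact_mod_cast hN)).trans_eq ?_), ?_⟩
  · calc (t + 2) * (2 * (t + 2) ^ (t + 1) * N ^ t) = 2 * (t + 2) ^ (t + 2) * N ^ t := by ring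
      _ ≤ _ := by gcongr; norm_num
  · congr 1
    push_cast
    ring
  · have h5 := congrArg (optionEquivLeft ℤ κ).toAlgHom h4
    rw [map_zero, ← AlgHom.comp_apply, comp_aeval] at h5
    rw [← h5]
    congr 2
    funext i
    have e : ∀ P : MvPolynomial κ ℤ, optionEquivLeft ℤ κ (rename some P) = Polynomial.C P := by
      intro P
      induction P using MvPolynomial.induction_on with
      | C a => rw [rename_C, optionEquivLeft_C]
      | add p q hp hq => simp only [map_add, hp, hq]
      | mul_X p i hp => simp only [map_mul, hp, rename_X, optionEquivLeft_X_some]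
    show _ = optionEquivLeft ℤ κ (c i)
    simp only [c, map_add, map_mul, e, optionEquivLeft_X_none]

end Pool.Agent.Lib.MP_caab05_ag.LT
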