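import Mathlib
import Pool.Agent.Lib.MP_caab05_ag.LT.Base

/-! Adapted coordinates, the box principle, local coordinates. -/

namespace Pool.Agent.Lib.MP_caab05_ag.LT

open MvPolynomial Filter Topology Asymptotics

variable {d M : ℕ}

namespace CoordAux

lemma smul_decomp (c : ℂ) (x : E d) : c • x = c.re • x + c.im • (Complex.I • x) := by
  conv_lhs => rw [← Complex.re_add_im c]
  rw [add_smul, mul_smul, Complex.coe_smul, Complex.coe_smul]

/-- the largest complex subspace contained in a real subspace -/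
def core (V : Submodule ℝ (E d)) : Submodule ℂ (E d) where
  carrier := {x | x ∈ V ∧ Complex.I • x ∈ V}
  add_mem' ha hb := ⟨V.add_mem ha.1 hb.1, by rw [smul_add]; exact V.add_mem ha.2 hb.2⟩
  zero_mem' := ⟨V.zero_mem, by rw [smul_zero]; exact V.zero_mem⟩
  smul_mem' c x hx := by
    have key : ∀ a : ℂ, a • x ∈ V := fun a => by
      rw [smul_decomp]
      exact V.add_mem (V.smul_mem _ hx.1) (V.smul_mem _ hx.2)
    exact ⟨key c, by rw [smul_smul]; exact key _⟩

lemma exists_family (V : Submodule ℝ (E d)) : ∃ (m b : ℕ) (w : Fin m ⊕ Fin b → E d),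
    LinearIndependent ℂ w ∧ Module.finrank ℝ V = 2 * m + b ∧ (∀ i, w i ∈ V) ∧
    (∀ x ∈ V, x ∈ Submodule.span ℂ (Set.range w)) ∧
    ∀ u : Fin m ⊕ Fin b → ℂ, (∀ k, (u (Sum.inr k)).im = 0) ↔ ∑ i, u i • w i ∈ V := by
  have hle : (core V).restrictScalars ℝ ≤ V := fun x hx => hx.1
  obtain ⟨V₁, hd, hs⟩ := IsModularLattice.exists_disjoint_and_sup_eq hle
  have hV₁ : V₁ ≤ V := hs ▸ le_sup_right
  let e := Module.finBasis ℂ (core V)
  let v := Module.finBasis ℝ V₁
  let w : Fin (Module.finrank ℂ (core V)) ⊕ Fin (Module.finrank ℝ V₁) → E d :=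
    Sum.elim (fun i => (e i : E d)) fun k => (v k : E d)
  have hL : ∀ a : Fin (Module.finrank ℂ (core V)) → ℂ, ∑ i, a i • (e i : E d) ∈ core V := fun a =>
    Submodule.sum_mem _ fun i _ => Submodule.smul_mem _ _ (e i).2
  have hR : ∀ a : Fin (Module.finrank ℝ V₁) → ℝ, ∑ k, a k • (v k : E d) ∈ V₁ := fun a =>
    Submodule.sum_mem _ fun k _ => Submodule.smul_mem _ _ (v k).2
  have hsum : ∀ u : Fin (Module.finrank ℂ (core V)) ⊕ Fin (Module.finrank ℝ V₁) → ℂ,
      ∑ i, u i • w i = ∑ i, u (Sum.inl i) • (e i : E d) +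
        (∑ k, (u (Sum.inr k)).re • (v k : E d) +
          Complex.I • ∑ k, (u (Sum.inr k)).im • (v k : E d)) := fun u => by
    rw [Fintype.sum_sum_type, Finset.smul_sum, ← Finset.sum_add_distrib]
    congr 1
    refine Finset.sum_congr rfl fun k _ => ?_
    rw [smul_comm Complex.I]
    exact smul_decomp _ _
  have key : ∀ u : Fin (Module.finrank ℂ (core V)) ⊕ Fin (Module.finrank ℝ V₁) → ℂ,
      (∀ k, (u (Sum.inr k)).im = 0) ↔ ∑ i, u i • w i ∈ V := fun u => by
    rw [hsum]
    constructor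
    · intro h
      simp only [h, zero_smul, Finset.sum_const_zero, smul_zero, add_zero]
      exact V.add_mem (hL _).1 (hV₁ (hR _))
    · intro h
      rw [V.add_mem_iff_right (hL _).1, V.add_mem_iff_right (hV₁ (hR _))] at h
      have h0 : ∑ k, (u (Sum.inr k)).im • (v k : E d) = 0 :=
        (Submodule.disjoint_def.1 hd) _ ⟨hV₁ (hR _), h⟩ (hR _)
      have h1 : LinearIndependent ℝ fun k => (v k : E d) :=
        v.linearIndependent.map' V₁.subtype V₁.ker_subtype
      exact Fintype.linearIndependent_iff.1 h1 _ h0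
  refine ⟨_, _, w, ?_, ?_, ?_, ?_, key⟩
  · rw [Fintype.linearIndependent_iff]
    intro u hu
    have h1 := (key u).2 (hu ▸ V.zero_mem)
    have h2 := (key fun i => Complex.I * u i).2 (by
      simp only [mul_smul]
      rw [← Finset.smul_sum, hu, smul_zero]
      exact V.zero_mem)
    have h3 : ∀ k, u (Sum.inr k) = 0 := fun k => Complex.ext (by simpa using h2 k) (h1 k)
    rw [hsum] at hu
    simp only [h3, Complex.zero_re, Complex.zero_im, zero_smul, Finset.sum_const_zero, smul_zero,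
      add_zero] at hu
    have h4 : LinearIndependent ℂ fun i => (e i : E d) :=
      e.linearIndependent.map' (core V).subtype (core V).ker_subtype
    rintro (i | k)
    · exact Fintype.linearIndependent_iff.1 h4 _ hu i
    · exact h3 k
  · have h1 := Submodule.finrank_sup_add_finrank_inf_eq ((core V).restrictScalars ℝ) V₁
    rw [hs, hd.eq_bot, finrank_bot, add_zero] at h1
    have h2 : Module.finrank ℝ ((core V).restrictScalars ℝ) = 2 * Module.finrank ℂ (core V) := by
      rw [← Complex.finrank_real_complex, Module.finrank_mul_finrank ℝ ℂ (core V)]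
      rfl
    rw [h1, h2]
  · rintro (i | k)
    · exact (e i).2.1
    · exact hV₁ (v k).2
  · intro x hx
    rw [← hs] at hx
    obtain ⟨a, ha, b, hb, rfl⟩ := Submodule.mem_sup.1 hx
    refine Submodule.add_mem _ ?_ ?_
    · have h := congrArg Subtype.val (e.sum_repr ⟨a, ha⟩)
      rw [Submodule.coe_sum] at h
      rw [show a = _ from h.symm]
      exact Submodule.sum_mem _ fun i _ =>
        Submodule.smul_mem _ _ (Submodule.subset_span ⟨Sum.inl i, rfl⟩)
    · have h := congrArg Subtype.val (v.sum_repr ⟨b, hb⟩)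
      rw [Submodule.coe_sum] at h
      rw [show b = _ from h.symm]
      exact Submodule.sum_mem _ fun k _ =>
        Submodule.smul_of_tower_mem _ _ (Submodule.subset_span ⟨Sum.inr k, rfl⟩)

/-- A map which is complex differentiable near a point has a derivative continuous there. -/
lemma continuousAt_fderiv {X Y : Type*} [NormedAddCommGroup X] [NormedSpace ℂ X]
    [NormedAddCommGroup Y] [NormedSpace ℂ Y] {f : X → Y} {c : X}
    (hf : ∀ᶠ x in 𝓝 c, DifferentiableAt ℂ f x) : ContinuousAt (fderiv ℂ f) c := by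
  rw [Metric.continuousAt_iff]
  intro ε hε
  have h0 := hf.self_of_nhds.hasFDerivAt
  have h1 := (hasFDerivAt_iff_isLittleO.1 h0).def (c := ε / 8) (by positivity)
  obtain ⟨δ, hδ, hb⟩ := Metric.eventually_nhds_iff_ball.1 (hf.and h1)
  refine ⟨δ / 2, by positivity, fun y hy => ?_⟩
  set g : X → Y := fun x => f x - f c - fderiv ℂ f c (x - c) with hg
  have hsub : Metric.ball y (δ / 2) ⊆ Metric.ball c δ := fun x hx => by
    rw [Metric.mem_ball] at hx ⊢
    linarith [dist_triangle x y c]
  have hD : ∀ x ∈ Metric.ball c δ, HasFDerivAt g (fderiv ℂ f x - fderiv ℂ f c) x := fun x hx => by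
    have h2 := ((hb x hx).1.hasFDerivAt.sub_const (f c)).sub
      ((fderiv ℂ f c).hasFDerivAt.comp x ((hasFDerivAt_id x).sub_const c))
    rw [ContinuousLinearMap.comp_id] at h2
    exact h2
  have hn : ∀ x ∈ Metric.ball c δ, ‖g x‖ ≤ ε / 8 * δ := fun x hx =>
    (hb x hx).2.trans (mul_le_mul_of_nonneg_left (mem_ball_iff_norm.1 hx).le (by positivity))
  have hy' : y ∈ Metric.ball c δ := hsub (Metric.mem_ball_self (by positivity))
  have h3 := Complex.norm_fderiv_le_div_of_mapsTo_ball (f := g) (c := y) (R₁ := δ / 2)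
    (R₂ := ε / 4 * δ) (fun x hx => (hD x (hsub hx)).differentiableAt.differentiableWithinAt)
    (fun x hx => by
      rw [mem_closedBall_iff_norm]
      linarith [norm_sub_le (g x) (g y), hn x (hsub hx), hn y hy']) (by positivity)
  rw [(hD y hy').fderiv] at h3
  rw [dist_eq_norm]
  have h4 : ε / 4 * δ / (δ / 2) = ε / 2 := by field_simp; ring
  linarith

/-- A map which is complex differentiable near a point is strictly differentiable there. -/
lemma hasStrictFDerivAt_of_eventually {X Y : Type*} [NormedAddCommGroup X] [NormedSpace ℂ X]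
    [NormedAddCommGroup Y] [NormedSpace ℂ Y] {f : X → Y} {c : X}
    (hf : ∀ᶠ x in 𝓝 c, DifferentiableAt ℂ f x) : HasStrictFDerivAt f (fderiv ℂ f c) c :=
  hasStrictFDerivAt_of_hasFDerivAt_of_continuousAt (hf.mono fun _ h => h.hasFDerivAt)
    (continuousAt_fderiv hf)

/-- The affine coordinates are complex differentiable near the origin. -/
lemma eventually_differentiableAt (A : AbVar d M) :
    ∀ᶠ z in 𝓝 (0 : E d), DifferentiableAt ℂ (fun z i => A.θ z i / A.θ z 0) z := by
  have h : ∀ i, Differentiable ℂ fun z => A.θ z i := fun i => differentiable_pi.1 A.holo i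
  filter_upwards [(h 0).continuous.continuousAt.eventually_ne A.origin] with z hz
  refine differentiableAt_pi.2 fun i => ?_
  simp only [div_eq_mul_inv]
  exact (h i z).mul ((differentiableAt_inv (𝕜 := ℂ) hz).comp z (h 0 z))

end CoordAux

open CoordAux

theorem coords {l n : ℕ} {y : Fin l → E d} (hy : LinearIndependent ℝ y)
    (hn : Module.finrank ℂ (Submodule.span ℂ (Set.range y)) = n) :
    ∃ (r : Finset (Fin n)) (j : (Fin n → ℂ) →L[ℂ] E d), r.card + l = 2 * n ∧
      Function.Injective j ∧ (∀ z ∈ Submodule.span ℂ (Set.range y), ∃ u, j u = z) ∧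
      ∀ u, u ∈ Ur r ↔ j u ∈ Submodule.span ℝ (Set.range y) := by
  classical
  obtain ⟨m, b, w, hw, hl, hV, hsp, key⟩ := exists_family (Submodule.span ℝ (Set.range y))
  rw [finrank_span_eq_card hy, Fintype.card_fin] at hl
  have hW : Submodule.span ℂ (Set.range y) = Submodule.span ℂ (Set.range w) := by
    apply le_antisymm
    · rw [Submodule.span_le]
      exact fun x hx => hsp x (Submodule.subset_span hx)
    · rw [Submodule.span_le]
      rintro _ ⟨i, rfl⟩
      exact Submodule.span_le_restrictScalars ℝ ℂ _ (hV i)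
  rw [hW, finrank_span_eq_card hw] at hn
  let σ : Fin m ⊕ Fin b ≃ Fin n := Fintype.equivFinOfCardEq hn
  rw [Fintype.card_sum, Fintype.card_fin, Fintype.card_fin] at hn
  let j : (Fin n → ℂ) →ₗ[ℂ] E d := Fintype.linearCombination ℂ fun k => w (σ.symm k)
  have hj : ∀ u, j u = ∑ i, u (σ i) • w i := fun u => by
    simp only [j, Fintype.linearCombination_apply]
    rw [← σ.sum_comp]
    simp
  refine ⟨Finset.univ.image fun k => σ (Sum.inr k), LinearMap.toContinuousLinearMap j, ?_, ?_,
    fun z hz => ?_, fun u => ?_⟩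
  · have hi : Function.Injective fun k : Fin b => σ (Sum.inr k) :=
      σ.injective.comp Sum.inr_injective
    rw [Finset.card_image_of_injective _ hi, Finset.card_univ, Fintype.card_fin]
    omega
  · exact (hw.comp _ σ.symm.injective).fintypeLinearCombination_injective
  · rw [hW, Submodule.mem_span_range_iff_exists_fun] at hz
    obtain ⟨c, rfl⟩ := hz
    refine ⟨fun k => c (σ.symm k), ?_⟩
    simp [hj]
  · rw [LinearMap.coe_toContinuousLinearMap', hj, ← key fun i => u (σ i)]
    simp [Ur]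

theorem box {ι κ : Type} [Fintype ι] [Fintype κ] (a : κ → ι → ℂ) {B ε : ℝ} (hB : 0 ≤ B)
    (hε : 0 < ε) (ha : ∀ k i, ‖a k i‖ ≤ B) (H : ℕ)
    (h : (4 * Fintype.card ι * H * B / ε + 3) ^ (2 * Fintype.card κ) <
      ((H : ℝ) + 1) ^ Fintype.card ι) :
    ∃ p : ι → ℤ, p ≠ 0 ∧ (∀ i, |p i| ≤ H) ∧ ∀ k, ‖∑ i, (p i : ℂ) * a k i‖ ≤ ε := by
  classical
  set R : ℝ := Fintype.card ι * H * B with hR
  have hR0 : 0 ≤ R := by positivity
  set K : ℕ := ⌈R / (ε / 2)⌉₊ with hK
  let S : (ι → ℤ) → κ → ℂ := fun p k => ∑ i, (p i : ℂ) * a k i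
  let s : Finset (ι → ℤ) := Fintype.piFinset fun _ => Finset.Icc (0 : ℤ) H
  let t : Finset (κ → ℤ × ℤ) :=
    Fintype.piFinset fun _ => Finset.Icc (-K : ℤ) K ×ˢ Finset.Icc (-K : ℤ) K
  let f : (ι → ℤ) → κ → ℤ × ℤ := fun p k => (⌊(S p k).re / (ε / 2)⌋, ⌊(S p k).im / (ε / 2)⌋)
  have hs : ∀ p ∈ s, ∀ i, 0 ≤ p i ∧ p i ≤ H := fun p hp i =>
    Finset.mem_Icc.1 (Fintype.mem_piFinset.1 hp i)
  have hS : ∀ p ∈ s, ∀ k, ‖S p k‖ ≤ R := fun p hp k => by
    refine (norm_sum_le _ _).trans ?_
    have h1 : ∀ i ∈ Finset.univ, ‖(p i : ℂ) * a k i‖ ≤ H * B := fun i _ => by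
      rw [norm_mul, Complex.norm_intCast]
      refine mul_le_mul ?_ (ha k i) (norm_nonneg _) (Nat.cast_nonneg _)
      rw [abs_of_nonneg (by exact_mod_cast (hs p hp i).1)]
      exact_mod_cast (hs p hp i).2
    refine (Finset.sum_le_card_nsmul _ _ _ h1).trans_eq ?_
    rw [Finset.card_univ, nsmul_eq_mul, hR, mul_assoc]
  have hfl : ∀ x : ℝ, |x| ≤ R → ⌊x / (ε / 2)⌋ ∈ Finset.Icc (-K : ℤ) K := fun x hx => by
    have h1 : R / (ε / 2) ≤ K := Nat.le_ceil _
    have h2 : x / (ε / 2) ≤ R / (ε / 2) :=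
      div_le_div_of_nonneg_right (abs_le.1 hx).2 (by positivity)
    have h3 : -R / (ε / 2) ≤ x / (ε / 2) :=
      div_le_div_of_nonneg_right (abs_le.1 hx).1 (by positivity)
    rw [neg_div] at h3
    rw [Finset.mem_Icc]
    constructor
    · rw [Int.le_floor]
      push_cast
      linarith
    · have h4 : (⌊x / (ε / 2)⌋ : ℝ) ≤ (K : ℤ) := by
        push_cast
        linarith [Int.floor_le (x / (ε / 2))]
      exact_mod_cast h4
  have hmaps : Set.MapsTo f s t := fun p hp => by
    refine Finset.mem_coe.2 (Fintype.mem_piFinset.2 fun k => Finset.mem_product.2 ⟨?_, ?_⟩)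
    · exact hfl _ ((Complex.abs_re_le_norm _).trans (hS p hp k))
    · exact hfl _ ((Complex.abs_im_le_norm _).trans (hS p hp k))
  have hcard : t.card < s.card := by
    have h1 : s.card = (H + 1) ^ Fintype.card ι := by
      simp [s, Fintype.card_piFinset]
    have h2 : (Finset.Icc (-K : ℤ) K).card = 2 * K + 1 := by
      rw [Int.card_Icc]
      omega
    have h3 : t.card = (2 * K + 1) ^ (2 * Fintype.card κ) := by
      simp only [t, Fintype.card_piFinset, Finset.card_product, h2, Finset.prod_const,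
        Finset.card_univ]
      rw [pow_mul, sq]
    have h4 : (K : ℝ) < R / (ε / 2) + 1 := Nat.ceil_lt_add_one (by positivity)
    have h5 : 4 * Fintype.card ι * H * B / ε = 2 * (R / (ε / 2)) := by
      rw [hR]
      field_simp
      ring
    have h6 : ((2 * K + 1 : ℕ) : ℝ) ≤ 4 * Fintype.card ι * H * B / ε + 3 := by
      rw [h5]
      push_cast
      linarith
    have h7 := (pow_le_pow_left₀ (Nat.cast_nonneg _) h6 (2 * Fintype.card κ)).trans_lt h
    rw [h1, h3]
    exact_mod_cast h7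
  obtain ⟨p, hp, q, hq, hne, he⟩ := Finset.exists_ne_map_eq_of_card_lt_of_maps_to hcard hmaps
  refine ⟨p - q, sub_ne_zero.2 hne, fun i => ?_, fun k => ?_⟩
  · have h1 := hs p hp i
    have h2 := hs q hq i
    rw [Pi.sub_apply, abs_le]
    omega
  · have h1 : ∑ i, ((p - q) i : ℂ) * a k i = S p k - S q k := by
      simp only [S, Pi.sub_apply, Int.cast_sub, sub_mul, Finset.sum_sub_distrib]
    have h2 : ∀ x y : ℝ, ⌊x / (ε / 2)⌋ = ⌊y / (ε / 2)⌋ → |x - y| ≤ ε / 2 := fun x y hxy => by
      have h3 := (Int.abs_sub_lt_one_of_floor_eq_floor hxy).le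
      rwa [← sub_div, abs_div, abs_of_pos (half_pos hε), div_le_one (half_pos hε)] at h3
    have h4 := h2 _ _ (congrArg Prod.fst (congrFun he k))
    have h5 := h2 _ _ (congrArg Prod.snd (congrFun he k))
    rw [h1]
    refine (Complex.norm_le_abs_re_add_abs_im _).trans ?_
    rw [Complex.sub_re, Complex.sub_im]
    linarith

theorem alg_indep (A : AbVar d M) : ∃ s : Fin d → Fin (M + 1), ∀ π : MvPolynomial (Fin d) ℂ,
    (∀ᶠ z in 𝓝 (0 : E d), eval (fun k => A.θ z (s k) / A.θ z 0) π = 0) → π = 0 := by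
  classical
  set L := fderiv ℂ (fun z i => A.θ z i / A.θ z 0) (0 : E d) with hL
  have hst := hasStrictFDerivAt_of_eventually (eventually_differentiableAt A)
  have hli : LinearIndependent ℂ fun i : Fin d => L (Pi.single i 1) :=
    (Pi.linearIndependent_single_one (Fin d) ℂ).map' L.toLinearMap
      (LinearMap.ker_eq_bot.2 A.immersion)
  obtain ⟨s, -, hdet⟩ := exists_minor hli
  refine ⟨s, fun π hπ => ?_⟩
  let T : (Fin (M + 1) → ℂ) →L[ℂ] (Fin d → ℂ) :=
    ContinuousLinearMap.pi fun k => ContinuousLinearMap.proj (s k)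
  have hg : HasStrictFDerivAt (fun z k => A.θ z (s k) / A.θ z 0) (T.comp L) (0 : E d) :=
    T.hasStrictFDerivAt.comp 0 hst
  have hsurj : (T.comp L).range = ⊤ := by
    rw [LinearMap.range_eq_top]
    intro x
    obtain ⟨z, rfl⟩ := Matrix.vecMul_surjective_iff_isUnit.2
      ((Matrix.isUnit_iff_isUnit_det _).2 (Ne.isUnit hdet)) x
    refine ⟨z, funext fun k => ?_⟩
    have h1 : z = ∑ i, z i • Pi.single i (1 : ℂ) := by
      ext i
      simp [Pi.single_apply]
    change L z (s k) = ∑ i, z i * L (Pi.single i 1) (s k)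
    conv_lhs => rw [h1]
    simp only [map_sum, map_smul, Finset.sum_apply, Pi.smul_apply, smul_eq_mul]
  have h2 : ∀ᶠ x in 𝓝 fun k => A.θ 0 (s k) / A.θ 0 0, eval x π = 0 := by
    rw [← hg.map_nhds_eq_of_surj hsurj]
    exact hπ
  obtain ⟨δ, hδ, hb⟩ := Metric.eventually_nhds_iff_ball.1 h2
  refine MvPolynomial.funext_set (fun k => Metric.ball (A.θ 0 (s k) / A.θ 0 0) δ)
    (fun k => infinite_of_mem_nhds _ (Metric.ball_mem_nhds _ hδ)) fun x hx => ?_
  rw [map_zero]
  exact hb x (by rwa [ball_pi _ hδ])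

end Pool.Agent.Lib.MP_caab05_ag.LT
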