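import Mathlib
import Pool.Agent.Lib.MP_caab05_ag.LT.Base

/-! Minors of a basis, grids, and the Cauchy estimate at the origin. -/

namespace Pool.Agent.Lib.MP_caab05_ag.LT

open MvPolynomial Filter Topology Asymptotics

variable {d M : ℕ}

namespace Pluck

/-- vectors attached to a point of the space of minors -/
def vec {n : ℕ} {K : Type} (x : (Fin n → Fin d) → K) (i : Fin n → Fin d) (k : Fin n) : Fin d → K :=
  fun j => x (Function.update i k j)

/-- the minors of a family of vectors -/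
noncomputable def minor {n : ℕ} (u : Fin n → E d) (i : Fin n → Fin d) : ℂ :=
  (Matrix.of fun k m => u k (i m)).det

lemma minor_ne_zero {n : ℕ} {u : Fin n → E d} (hu : LinearIndependent ℂ u) : minor u ≠ 0 := by
  obtain ⟨s, -, hs⟩ := exists_minor hu
  exact fun h => hs (congrFun h s)

lemma minor_mem {n : ℕ} {u : Fin n → E d} {F : IntermediateField ℚ ℂ} (h : ∀ k j, u k j ∈ F)
    (i : Fin n → Fin d) : minor u i ∈ F := by
  rw [minor, Matrix.det_apply']
  exact sum_mem fun s _ => mul_mem (intCast_mem F _) (prod_mem fun k _ => h _ _)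

lemma minor_zero {n : ℕ} (u : Fin n → E d) {i : Fin n → Fin d} (hi : ¬ Function.Injective i) :
    minor u i = 0 := by
  simp only [Function.Injective, not_forall] at hi
  obtain ⟨a, b, h1, h2⟩ := hi
  exact Matrix.det_zero_of_column_eq h2 fun k => by simp [h1]

lemma vec_minor_mem {n : ℕ} (u : Fin n → E d) (i : Fin n → Fin d) (k : Fin n) :
    vec (minor u) i k ∈ Submodule.span ℂ (Set.range u) := by
  rw [Submodule.mem_span_range_iff_exists_fun]
  refine ⟨fun k' => (Matrix.of fun k m => u k (i m)).adjugate k k', funext fun j => ?_⟩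
  have h := congrFun (Matrix.cramer_eq_adjugate_mulVec (Matrix.of fun k m => u k (i m))
    (fun k' => u k' j)) k
  rw [Matrix.cramer_apply] at h
  have h2 : (Matrix.of fun k m => u k (i m)).updateCol k (fun k' => u k' j) =
      Matrix.of fun k' m => u k' (Function.update i k j m) := by
    ext a b
    by_cases hb : b = k
    · subst hb; simp
    · simp [Matrix.updateCol_ne hb, Function.update_of_ne hb]
  rw [h2] at h
  simp only [vec, minor, h, Finset.sum_apply, Pi.smul_apply, smul_eq_mul]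
  rfl

lemma vec_indep {n : ℕ} {x : (Fin n → Fin d) → ℂ} {i : Fin n → Fin d} (hx : x i ≠ 0)
    (h0 : ∀ i', ¬ Function.Injective i' → x i' = 0) : LinearIndependent ℂ (vec x i) := by
  rw [Fintype.linearIndependent_iff]
  intro g hg k
  have h := congrFun hg (i k)
  simp only [Finset.sum_apply, Pi.smul_apply, smul_eq_mul, Pi.zero_apply] at h
  rw [Finset.sum_eq_single k] at h
  · simpa [vec, hx] using h
  · intro k' _ hk
    rw [vec, h0, mul_zero]
    intro hinj
    exact hk (hinj (by simp [Function.update_of_ne (Ne.symm hk)]))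
  · simp

lemma norm_vec_le {n : ℕ} (x : (Fin n → Fin d) → ℂ) (i : Fin n → Fin d) {N : ℕ} {a : Fin n → ℕ}
    (ha : ∀ k, a k ≤ N) : ‖∑ k, (a k : ℂ) • vec x i k‖ ≤ n * N * ‖x‖ := by
  refine (norm_sum_le _ _).trans ?_
  have : ∀ k ∈ Finset.univ, ‖(a k : ℂ) • vec x i k‖ ≤ N * ‖x‖ := fun k _ => by
    rw [norm_smul, Complex.norm_natCast]
    refine mul_le_mul (by exact_mod_cast ha k) ?_ (norm_nonneg _) (Nat.cast_nonneg _)
    exact (pi_norm_le_iff_of_nonneg (norm_nonneg _)).2 fun j => norm_le_pi_norm x _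
  refine (Finset.sum_le_card_nsmul _ _ _ this).trans (le_of_eq ?_)
  simp [mul_assoc]

lemma val_map {σ τ K : Type} [CommRing K] (Q : Polynomial (MvPolynomial σ ℤ))
    (g : σ → MvPolynomial τ ℤ) (c : K) (x : τ → K) :
    val (Q.map (eval₂Hom C g)) c x = val Q c fun s => aeval x (g s) := by
  unfold val
  rw [Polynomial.eval₂_map]
  congr 1
  ext s <;> simp [aeval_def]

lemma val_C_mul {σ K : Type} [CommRing K] (Q : Polynomial (MvPolynomial σ ℤ))
    (R : MvPolynomial σ ℤ) (c : K) (x : σ → K) :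
    val (Polynomial.C R * Q) c x = aeval x R * val Q c x := by
  unfold val
  rw [Polynomial.eval₂_mul, Polynomial.eval₂_C]
  rfl

lemma val_one {σ K : Type} [CommRing K] (c : K) (x : σ → K) : val 1 c x = 1 := by
  simp [val]

lemma grid {n j N : ℕ} (Q : Polynomial (MvPolynomial (Fin d) ℤ)) (c : ℂ) (w : Fin n → E d)
    (hQ : ∀ (l : ℂ) (w : E d), val Q c (l • w) = l ^ j * val Q c w) (hj : j ≤ N) {u : E d}
    (hu : u ∈ Submodule.span ℂ (Set.range w)) (h : val Q c u ≠ 0) :
    ∃ a : Fin n → ℕ, (∀ k, a k ≤ N) ∧ val Q c (∑ k, (a k : ℂ) • w k) ≠ 0 := by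
  classical
  let p : MvPolynomial (Fin n) ℂ := val Q (C c) fun m => ∑ k, X k * C (w k m)
  have hp : ∀ x : Fin n → ℂ, eval x p = val Q c (∑ k, x k • w k) := by
    intro x
    simp only [p, val, Polynomial.hom_eval₂, eval_C]
    congr 1
    refine ringHom_ext' (RingHom.ext_int _ _) fun s => ?_
    rw [RingHom.comp_apply, eval₂Hom_X', eval₂Hom_X']
    simp
  have hh : p.IsHomogeneous j := isHomogeneous_of_scaling fun l x _ => by
    rw [aeval_eq_eval, aeval_eq_eval]
    simp only [hp, ← hQ, Finset.smul_sum, Pi.smul_apply, smul_smul, smul_eq_mul]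
  by_contra hcon
  push Not at hcon
  have h0 : p = 0 := by
    refine eq_zero_of_eval_zero_at_prod_finset p
      (fun _ => (Finset.range (N + 1)).image (Nat.cast : ℕ → ℂ)) (fun i => ?_) fun x hx => ?_
    · rw [Finset.card_image_of_injective _ Nat.cast_injective, Finset.card_range]
      have := degreeOf_le_totalDegree p i
      have := hh.totalDegree_le
      omega
    · simp only [Finset.mem_image, Finset.mem_range] at hx
      choose a ha1 ha2 using hx
      rw [hp, ← funext ha2]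
      exact hcon a fun k => Nat.lt_succ_iff.1 (ha1 k)
  obtain ⟨x, rfl⟩ := (Submodule.mem_span_range_iff_exists_fun ℂ).1 hu
  exact h (by rw [← hp, h0, map_zero])

lemma small (A : AbVar d M) : ∃ C : ℝ, 1 ≤ C ∧ ∀ (G : E d → ℂ) (D j : ℕ) (w : E d) (ε : ℝ),
    Differentiable ℂ G → (∀ τ : ℂ, ‖τ • w‖ ≤ 1 → ‖G (τ • w)‖ ≤ ε) →
    ‖iteratedDeriv j (fun τ : ℂ => G (τ • w) / A.θ (τ • w) 0 ^ D) 0‖ ≤
      j.factorial * (C * (‖w‖ + 1)) ^ j * C ^ D * ε := by
  have hθ : Differentiable ℂ fun z => A.θ z 0 := differentiable_pi.1 A.holo 0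
  have h0 : 0 < ‖A.θ 0 0‖ := norm_pos_iff.2 A.origin
  have h1 : ∀ᶠ z in 𝓝 (0 : E d), ‖A.θ 0 0‖ / 2 < ‖A.θ z 0‖ :=
    hθ.continuous.norm.continuousAt.eventually (lt_mem_nhds (half_lt_self h0))
  obtain ⟨ρ, hρ, h2⟩ := Metric.nhds_basis_closedBall.eventually_iff.1 h1
  set δ := ‖A.θ 0 0‖ / 2 with hδ
  have hδ0 : 0 < δ := half_pos h0
  refine ⟨1 + ρ⁻¹ + δ⁻¹, by
    have := inv_pos.2 hρ
    have := inv_pos.2 hδ0
    linarith, fun G D j w ε hG hε => ?_⟩
  set C := 1 + ρ⁻¹ + δ⁻¹ with hC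
  have hC1 : 1 ≤ C := by
    have := inv_pos.2 hρ
    have := inv_pos.2 hδ0
    linarith
  have hC2 : ρ⁻¹ ≤ C := by
    have := inv_pos.2 hδ0
    linarith
  have hC3 : δ⁻¹ ≤ C := by
    have := inv_pos.2 hρ
    linarith
  have hw : 0 < C * (‖w‖ + 1) := by positivity
  have hin : ∀ τ ∈ Metric.closedBall (0 : ℂ) (C * (‖w‖ + 1))⁻¹, ‖τ • w‖ ≤ C⁻¹ := by
    intro τ hτ
    rw [mem_closedBall_zero_iff] at hτ
    rw [norm_smul]
    refine (mul_le_mul hτ (le_add_of_nonneg_right zero_le_one) (norm_nonneg _)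
      (by positivity)).trans (le_of_eq ?_)
    field_simp
  have hlow : ∀ τ ∈ Metric.closedBall (0 : ℂ) (C * (‖w‖ + 1))⁻¹, δ < ‖A.θ (τ • w) 0‖ :=
    fun τ hτ => h2 (mem_closedBall_zero_iff.2 ((hin τ hτ).trans (inv_le_of_inv_le₀ hρ hC2)))
  have hl : Differentiable ℂ fun τ : ℂ => τ • w := by fun_prop
  have hd : DiffContOnCl ℂ (fun τ : ℂ => G (τ • w) / A.θ (τ • w) 0 ^ D)
      (Metric.ball 0 (C * (‖w‖ + 1))⁻¹) := by
    apply DifferentiableOn.diffContOnCl
    rw [closure_ball _ (inv_pos.2 hw).ne']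
    refine (hG.comp hl).differentiableOn.div ((hθ.comp hl).pow D).differentiableOn fun τ hτ => ?_
    exact pow_ne_zero _ (norm_pos_iff.1 (hδ0.trans (hlow τ hτ)))
  have h3 := Complex.norm_iteratedDeriv_le_of_forall_mem_sphere_norm_le (C := C ^ D * ε) j
    (inv_pos.2 hw) hd fun τ hτ => by
      have hτ' := Metric.sphere_subset_closedBall hτ
      have h4 := hε τ ((hin τ hτ').trans (inv_le_one_of_one_le₀ hC1))
      rw [norm_div, norm_pow, div_eq_inv_mul, ← inv_pow]
      have h5 : ‖A.θ (τ • w) 0‖⁻¹ ≤ C := (inv_anti₀ hδ0 (hlow τ hτ').le).trans hC3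
      gcongr
  refine h3.trans (le_of_eq ?_)
  rw [inv_pow, div_inv_eq_mul]
  ring

end Pluck

end Pool.Agent.Lib.MP_caab05_ag.LT
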