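import Mathlib
import Pool.Agent.Lib.MP_caab05_ag.LT.JetA

/-! Arithmetic of the jets at the origin. -/

namespace Pool.Agent.Lib.MP_caab05_ag.LT

open MvPolynomial Filter Topology Asymptotics

variable {d M : ℕ}

namespace JetBAux

/-- chain rule for a polynomial along a curve -/
lemma hasDerivAt_eval₂ {σ R : Type} [Fintype σ] [CommRing R] (ψ : R →+* ℂ)
    (F : MvPolynomial σ R) {γ : ℂ → σ → ℂ} {v : σ → ℂ} {τ : ℂ} (hγ : HasDerivAt γ v τ) :
    HasDerivAt (fun s => eval₂ ψ (γ s) F) (∑ i, v i * eval₂ ψ (γ τ) (pderiv i F)) τ := by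
  classical
  induction F using MvPolynomial.induction_on with
  | C a => simpa using hasDerivAt_const τ (ψ a)
  | add p q hp hq =>
    have := hp.add hq
    simp only [map_add, eval₂_add, mul_add, Finset.sum_add_distrib]
    exact this
  | mul_X p i hp =>
    have h1 : HasDerivAt (fun s => γ s i) (v i) τ := (hasDerivAt_pi.1 hγ) i
    have h2 := hp.mul h1
    have h3 : ∑ k, v k * eval₂ ψ (γ τ) (pderiv k (p * X i)) =
        (∑ k, v k * eval₂ ψ (γ τ) (pderiv k p)) * γ τ i + eval₂ ψ (γ τ) p * v i := by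
      have h4 : ∀ k, v k * eval₂ ψ (γ τ) (pderiv k (p * X i)) =
          v k * eval₂ ψ (γ τ) (pderiv k p) * γ τ i +
            (if k = i then eval₂ ψ (γ τ) p * v i else 0) := by
        intro k
        rw [pderiv_mul, eval₂_add, eval₂_mul, eval₂_mul, eval₂_X]
        by_cases hk : k = i
        · subst hk
          rw [pderiv_X_self, eval₂_one, if_pos rfl]
          ring
        · rw [pderiv_X_of_ne (Ne.symm hk), eval₂_zero, if_neg hk]
          ring
      simp only [h4, Finset.sum_add_distrib, Finset.sum_mul, Finset.sum_ite_eq', Finset.mem_univ,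
        if_true]
    rw [h3]
    simp only [eval₂_mul, eval₂_X]
    exact h2

lemma hasDerivAt_line {σ : Type} [Fintype σ] (x v : σ → ℂ) (τ : ℂ) :
    HasDerivAt (fun s : ℂ => x + s • v) v τ := by
  have := ((hasDerivAt_id τ).smul_const v).const_add x
  simpa using this

lemma hasDerivAt_dir {σ R : Type} [Fintype σ] [CommRing R] (ψ : R →+* ℂ)
    (F : MvPolynomial σ R) (x v : σ → ℂ) :
    HasDerivAt (fun s : ℂ => eval₂ ψ (x + s • v) F) (∑ i, v i * eval₂ ψ x (pderiv i F)) 0 := by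
  have := hasDerivAt_eval₂ ψ F (hasDerivAt_line x v 0)
  simpa using this

/-- Cauchy estimate for a directional derivative -/
lemma cauchy_dir {σ R : Type} [Fintype σ] [CommRing R] (ψ : R →+* ℂ)
    (F : MvPolynomial σ R) {ρ η β L : ℝ} (hη : 0 < η)
    (hF : ∀ x : σ → ℂ, ‖x‖ ≤ ρ + η → ‖eval₂ ψ x F‖ ≤ β) {x v : σ → ℂ} (hx : ‖x‖ ≤ ρ)
    (hv : ‖v‖ ≤ L) : ‖∑ i, v i * eval₂ ψ x (pderiv i F)‖ ≤ β * (L / η) := by
  have hβ : 0 ≤ β := (norm_nonneg _).trans (hF x (by linarith))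
  have hL : 0 ≤ L := (norm_nonneg _).trans hv
  by_cases hv0 : v = 0
  · subst hv0
    simp only [Pi.zero_apply, zero_mul, Finset.sum_const_zero, norm_zero]
    positivity
  have hvp : 0 < ‖v‖ := norm_pos_iff.2 hv0
  have hd : Differentiable ℂ fun s : ℂ => eval₂ ψ (x + s • v) F := fun s =>
    (hasDerivAt_eval₂ ψ F (hasDerivAt_line x v s)).differentiableAt
  have h1 := Complex.norm_deriv_le_of_forall_mem_sphere_norm_le (c := 0) (R := η / ‖v‖) (C := β)
    (div_pos hη hvp) hd.diffContOnCl (fun s hs => hF _ (by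
      rw [mem_sphere_zero_iff_norm] at hs
      refine (norm_add_le _ _).trans ?_
      rw [norm_smul, hs, div_mul_cancel₀ _ hvp.ne']
      linarith))
  rw [(hasDerivAt_dir ψ F x v).deriv] at h1
  refine h1.trans ?_
  rw [div_div_eq_mul_div, mul_div_assoc]
  gcongr

/-- the coefficient ring -/
abbrev Rg (d : ℕ) : Type := Polynomial (MvPolynomial (Fin d) ℤ)

/-- specialisation of the coefficient ring -/
noncomputable def psi (c : ℂ) (w : E d) : Rg d →+* ℂ :=
  Polynomial.eval₂RingHom (eval₂Hom (Int.castRingHom ℂ) w) c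

/-- the inclusion of `ℤ[X]` -/
noncomputable def iota (d : ℕ) : Polynomial ℤ →+* Rg d := Polynomial.mapRingHom C

lemma psi_comp (c : ℂ) (w : E d) :
    (psi c w).comp (iota d) = Polynomial.eval₂RingHom (Int.castRingHom ℂ) c := by
  apply Polynomial.ringHom_ext
  · intro a
    simp only [eq_intCast, map_intCast]
  · simp [psi, iota]

lemma psi_iota (c : ℂ) (w : E d) (p : Polynomial ℤ) :
    psi c w (iota d p) = Polynomial.aeval c p := by
  have := congrArg (fun f : Polynomial ℤ →+* ℂ => f p) (psi_comp c w)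
  simpa [Polynomial.aeval_def] using this

lemma psi_X (c : ℂ) (w : E d) (j : Fin d) : psi c w (Polynomial.C (X j)) = w j := by
  simp [psi]

variable {σ : Type} [Fintype σ]

/-- the vector field -/
noncomputable def vf (G : σ → Fin d → MvPolynomial σ (Polynomial ℤ)) (c : ℂ) (w : E d)
    (x : σ → ℂ) : σ → ℂ := fun i =>
  ∑ j, w j * eval₂ (Polynomial.eval₂RingHom (Int.castRingHom ℂ) c) x (G i j)

/-- the derivation -/
noncomputable def del (G : σ → Fin d → MvPolynomial σ (Polynomial ℤ))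
    (F : MvPolynomial σ (Rg d)) : MvPolynomial σ (Rg d) :=
  ∑ i, (∑ j, C (Polynomial.C (X j)) * map (iota d) (G i j)) * pderiv i F

lemma eval_del (G : σ → Fin d → MvPolynomial σ (Polynomial ℤ)) (c : ℂ) (w : E d) (x : σ → ℂ)
    (F : MvPolynomial σ (Rg d)) :
    eval₂ (psi c w) x (del G F) = ∑ i, vf G c w x i * eval₂ (psi c w) x (pderiv i F) := by
  unfold del vf
  rw [eval₂_sum]
  refine Finset.sum_congr rfl fun i _ => ?_
  rw [eval₂_mul, eval₂_sum]
  congr 1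
  refine Finset.sum_congr rfl fun j _ => ?_
  rw [eval₂_mul, eval₂_C, psi_X, eval₂_map, psi_comp]

omit [Fintype σ] in
lemma eval_base (c : ℂ) (w : E d) (x : σ → ℂ) (P : MvPolynomial σ ℤ) :
    eval₂ (psi c w) x (map (Int.castRingHom (Rg d)) P) = aeval x P := by
  rw [eval₂_map, aeval_def]
  congr 1
  exact RingHom.ext_int _ _

omit [Fintype σ] in
lemma vf_smul (G : σ → Fin d → MvPolynomial σ (Polynomial ℤ)) (c l : ℂ) (w : E d)
    (x : σ → ℂ) (i : σ) : vf G c (l • w) x i = l * vf G c w x i := by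
  simp only [vf, Pi.smul_apply, smul_eq_mul, Finset.mul_sum, mul_assoc]

lemma scale (G : σ → Fin d → MvPolynomial σ (Polynomial ℤ)) (c l : ℂ) (w : E d)
    (P : MvPolynomial σ ℤ) (j : ℕ) (x : σ → ℂ) :
    eval₂ (psi c (l • w)) x ((del G)^[j] (map (Int.castRingHom (Rg d)) P)) =
      l ^ j * eval₂ (psi c w) x ((del G)^[j] (map (Int.castRingHom (Rg d)) P)) := by
  induction j generalizing x with
  | zero => simp only [Function.iterate_zero, id, eval_base, pow_zero, one_mul]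
  | succ j ih =>
    rw [Function.iterate_succ_apply', eval_del, eval_del]
    set F := (del G)^[j] (map (Int.castRingHom (Rg d)) P)
    have h1 := hasDerivAt_dir (psi c (l • w)) F x (vf G c w x)
    have h2 := (hasDerivAt_dir (psi c w) F x (vf G c w x)).const_mul (l ^ j)
    simp only [ih] at h1
    have h3 := h1.unique h2
    simp only [vf_smul, mul_assoc, ← Finset.mul_sum]
    rw [h3]
    ring

lemma jet_eq (G : σ → Fin d → MvPolynomial σ (Polynomial ℤ)) (c : ℂ) (a' : ℕ) (φ : E d → σ → ℂ)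
    (hφ : ∀ᶠ z in 𝓝 (0 : E d), DifferentiableAt ℂ φ z ∧ ∀ w i, (a' : ℂ) * fderiv ℂ φ z w i =
      ∑ j, w j * eval₂ (Polynomial.eval₂RingHom (Int.castRingHom ℂ) c) (φ z) (G i j))
    (w : E d) (P : MvPolynomial σ ℤ) (j : ℕ) :
    ∀ᶠ τ in 𝓝 (0 : ℂ), (a' : ℂ) ^ j * iteratedDeriv j (fun τ : ℂ => aeval (φ (τ • w)) P) τ =
      eval₂ (psi c w) (φ (τ • w)) ((del G)^[j] (map (Int.castRingHom (Rg d)) P)) := by
  have ht : Tendsto (fun τ : ℂ => τ • w) (𝓝 0) (𝓝 0) := by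
    have : Continuous fun τ : ℂ => τ • w := by fun_prop
    simpa using this.tendsto 0
  induction j with
  | zero =>
    refine Eventually.of_forall fun τ => ?_
    simp only [pow_zero, one_mul, iteratedDeriv_zero, Function.iterate_zero, id, eval_base]
  | succ j ih =>
    filter_upwards [ih.eventually_nhds, ht.eventually hφ] with τ h1 h2
    rw [Function.iterate_succ_apply', eval_del, iteratedDeriv_succ]
    set F := (del G)^[j] (map (Int.castRingHom (Rg d)) P)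
    have h3 : HasDerivAt (fun s : ℂ => s • w) w τ := by
      simpa using (hasDerivAt_id τ).smul_const w
    have h4 : HasDerivAt (fun s : ℂ => φ (s • w)) (fderiv ℂ φ (τ • w) w) τ :=
      h2.1.hasFDerivAt.comp_hasDerivAt τ h3
    have h5 := (hasDerivAt_eval₂ (psi c w) F h4).deriv
    have h6 := EventuallyEq.deriv_eq h1
    rw [h5, deriv_const_mul_field] at h6
    rw [pow_succ', mul_assoc, h6, Finset.mul_sum]
    refine Finset.sum_congr rfl fun i _ => ?_
    rw [← mul_assoc, h2.2 w i]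
    rfl

lemma bound (G : σ → Fin d → MvPolynomial σ (Polynomial ℤ)) (c : ℂ) (w : E d) {ρ L β : ℝ}
    (hL : ∀ x : σ → ℂ, ‖x‖ ≤ ρ + 1 → ‖vf G c w x‖ ≤ L) (F : MvPolynomial σ (Rg d))
    (hF : ∀ x : σ → ℂ, ‖x‖ ≤ ρ + 1 → ‖eval₂ (psi c w) x F‖ ≤ β) (J k : ℕ) (x : σ → ℂ)
    (hx : ‖x‖ ≤ ρ + 1 - k * (1 / ((J : ℝ) + 1))) :
    ‖eval₂ (psi c w) x ((del G)^[k] F)‖ ≤ β * (L * (J + 1)) ^ k := by
  have hη : (0 : ℝ) < 1 / ((J : ℝ) + 1) := by positivity
  induction k generalizing x with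
  | zero => simpa using hF x (by simpa using hx)
  | succ k ih =>
    rw [Function.iterate_succ_apply', eval_del]
    have h1 : ‖x‖ ≤ ρ + 1 := by
      have : (0 : ℝ) ≤ ((k + 1 : ℕ) : ℝ) * (1 / ((J : ℝ) + 1)) := by positivity
      linarith
    have h2 := cauchy_dir (psi c w) ((del G)^[k] F) hη
      (ρ := ρ + 1 - ((k + 1 : ℕ) : ℝ) * (1 / ((J : ℝ) + 1))) (β := β * (L * (J + 1)) ^ k)
      (fun y hy => ih y (by push_cast at hy; linarith)) hx (hL x h1)
    refine h2.trans (le_of_eq ?_)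
    rw [pow_succ, div_div_eq_mul_div, div_one, mul_assoc]

lemma exists_vf_bound (G : σ → Fin d → MvPolynomial σ (Polynomial ℤ)) (c : ℂ) (r : ℝ) :
    ∃ Γ : ℝ, 0 ≤ Γ ∧ ∀ (w : E d) (x : σ → ℂ), ‖x‖ ≤ r → ‖vf G c w x‖ ≤ Γ * ‖w‖ := by
  have hc : Continuous fun (x : σ → ℂ) (p : σ × Fin d) =>
      eval₂ (Polynomial.eval₂RingHom (Int.castRingHom ℂ) c) x (G p.1 p.2) := by
    refine continuous_pi fun p => ?_
    have := (differentiable_eval
      (map (Polynomial.eval₂RingHom (Int.castRingHom ℂ) c) (G p.1 p.2))).continuous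
    simpa only [eval_map] using this
  obtain ⟨K, hK⟩ := (isCompact_closedBall (0 : σ → ℂ) r).exists_bound_of_continuousOn
    hc.continuousOn
  refine ⟨d * max K 0, by positivity, fun w x hx => ?_⟩
  rw [pi_norm_le_iff_of_nonneg (by positivity)]
  intro i
  refine (norm_sum_le _ _).trans ?_
  have h1 : ∀ j ∈ (Finset.univ : Finset (Fin d)),
      ‖w j * eval₂ (Polynomial.eval₂RingHom (Int.castRingHom ℂ) c) x (G i j)‖ ≤
        max K 0 * ‖w‖ := by
    intro j _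
    rw [norm_mul, mul_comm]
    have h2 := (norm_le_pi_norm _ (i, j)).trans (hK x (mem_closedBall_zero_iff.2 hx))
    exact mul_le_mul (h2.trans (le_max_left _ _)) (norm_le_pi_norm w j) (norm_nonneg _)
      (le_max_right _ _)
  refine (Finset.sum_le_card_nsmul _ _ _ h1).trans (le_of_eq ?_)
  simp [mul_assoc]

omit [Fintype σ] in
lemma val_eq (c : ℂ) (w : E d) (e : σ → Polynomial ℤ) (F : MvPolynomial σ (Rg d)) :
    val (eval (fun i => iota d (e i)) F) c w =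
      eval₂ (psi c w) (fun i => Polynomial.aeval c (e i)) F := by
  have h1 : val (eval (fun i => iota d (e i)) F) c w =
      psi c w (eval (fun i => iota d (e i)) F) := rfl
  rw [h1, eval₂_comp]
  congr 1
  ext i
  exact psi_iota c w (e i)

lemma finite_roots {g : Polynomial ℤ} (hg : g ≠ 0) :
    {c' : ℂ | Polynomial.aeval c' g = 0}.Finite := by
  refine (Polynomial.rootSet_finite g ℂ).subset fun c' hc' => ?_
  exact (Polynomial.mem_rootSet_of_ne hg).2 hc'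

end JetBAux

open JetBAux in
theorem jets_abs {σ : Type} [Fintype σ] {g : Polynomial ℤ} (hg : g ≠ 0) (c : ℂ) (a' : ℕ)
    (φ : E d → σ → ℂ) (e : σ → Polynomial ℤ) (G : σ → Fin d → MvPolynomial σ (Polynomial ℤ))
    (h0 : ∀ i, φ 0 i = Polynomial.aeval c (e i))
    (hφ : ∀ᶠ z in 𝓝 (0 : E d), DifferentiableAt ℂ φ z ∧ ∀ w i, (a' : ℂ) * fderiv ℂ φ z w i =
      ∑ j, w j * eval₂ (Polynomial.eval₂RingHom (Int.castRingHom ℂ) c) (φ z) (G i j)) :
    ∃ C : ℝ, 1 ≤ C ∧ ∀ (D j : ℕ) (P : MvPolynomial σ ℤ) (B : ℝ), P.IsHomogeneous D →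
      (∀ x : σ → ℂ, ‖x‖ ≤ 1 → ‖aeval x P‖ ≤ B) →
      ∃ Q : Polynomial (MvPolynomial (Fin d) ℤ),
        (∀ w : E d, val Q c w =
          (a' : ℂ) ^ j * iteratedDeriv j (fun τ : ℂ => aeval (φ (τ • w)) P) 0) ∧
        (∀ c' : ℂ, Polynomial.aeval c' g = 0 → ∀ w : E d,
          ‖val Q c' w‖ ≤ B * C ^ D * (C * (j + 1)) ^ j * ‖w‖ ^ j) ∧
        ∀ (c' l : ℂ) (w : E d), val Q c' (l • w) = l ^ j * val Q c' w := by
  have hS := finite_roots hg
  obtain ⟨ρ₁, hρ₁⟩ := (hS.image fun c' : ℂ =>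
    ‖(fun i => Polynomial.aeval c' (e i) : σ → ℂ)‖).bddAbove
  set ρ : ℝ := max ρ₁ 0 with hρ
  have hρ0 : 0 ≤ ρ := le_max_right _ _
  choose Γ hΓ0 hΓ using fun c' : ℂ => exists_vf_bound G c' (ρ + 1)
  obtain ⟨Γ₁, hΓ₁⟩ := (hS.image Γ).bddAbove
  set Γ₂ : ℝ := max Γ₁ 0 with hΓ₂
  have hΓ2 : 0 ≤ Γ₂ := le_max_right _ _
  refine ⟨ρ + 1 + Γ₂, by linarith, fun D j P B hP hB => ?_⟩
  have hB0 : 0 ≤ B := (norm_nonneg _).trans (hB 0 (by simp))
  refine ⟨eval (fun i => iota d (e i)) ((del G)^[j] (map (Int.castRingHom (Rg d)) P)),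
    fun w => ?_, fun c' hc' w => ?_, fun c' l w => ?_⟩
  · rw [val_eq, (jet_eq G c a' φ hφ w P j).self_of_nhds, zero_smul]
    congr 1
    ext i
    exact (h0 i).symm
  · rw [val_eq]
    have h1 : ‖(fun i => Polynomial.aeval c' (e i) : σ → ℂ)‖ ≤ ρ :=
      (hρ₁ ⟨c', hc', rfl⟩).trans (le_max_left _ _)
    have h2 : Γ c' ≤ Γ₂ := (hΓ₁ ⟨c', hc', rfl⟩).trans (le_max_left _ _)
    have h3 : ∀ x : σ → ℂ, ‖x‖ ≤ ρ + 1 →
        ‖eval₂ (psi c' w) x (map (Int.castRingHom (Rg d)) P)‖ ≤ B * (ρ + 1) ^ D := by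
      intro x hx
      have hp : (0 : ℝ) < ρ + 1 := by linarith
      have hn : ‖((ρ + 1 : ℝ) : ℂ)‖ = ρ + 1 := by
        rw [Complex.norm_real, Real.norm_eq_abs, abs_of_pos hp]
      have hne : ((ρ + 1 : ℝ) : ℂ) ≠ 0 := by exact_mod_cast hp.ne'
      have h4 : x = ((ρ + 1 : ℝ) : ℂ) • (((ρ + 1 : ℝ) : ℂ)⁻¹ • x) := by
        rw [smul_smul, mul_inv_cancel₀ hne, one_smul]
      rw [eval_base, h4, aeval_smul_of_hom hP, norm_mul, norm_pow, hn, mul_comm]
      refine mul_le_mul_of_nonneg_right (hB _ ?_) (by positivity)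
      rw [norm_smul, norm_inv, hn, inv_mul_le_iff₀ hp]
      linarith
    have h5 := bound G c' w (ρ := ρ) (L := Γ₂ * ‖w‖)
      (fun x hx => (hΓ c' w x hx).trans (mul_le_mul_of_nonneg_right h2 (norm_nonneg _))) _ h3 j j
      (fun i => Polynomial.aeval c' (e i)) (by
        have : (j : ℝ) * (1 / ((j : ℝ) + 1)) ≤ 1 := by
          rw [mul_one_div, div_le_one (by positivity)]
          linarith
        linarith)
    refine h5.trans ?_
    have h6 : (Γ₂ * ‖w‖ * ((j : ℝ) + 1)) ^ j = (Γ₂ * ((j : ℝ) + 1)) ^ j * ‖w‖ ^ j := by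
      rw [← mul_pow]
      ring_nf
    have h7 : (ρ + 1) ^ D ≤ (ρ + 1 + Γ₂) ^ D := pow_le_pow_left₀ (by linarith) (by linarith) D
    have h8 : (Γ₂ * ((j : ℝ) + 1)) ^ j ≤ ((ρ + 1 + Γ₂) * ((j : ℝ) + 1)) ^ j :=
      pow_le_pow_left₀ (by positivity)
        (mul_le_mul_of_nonneg_right (by linarith) (by positivity)) j
    rw [h6, ← mul_assoc]
    gcongr
  · rw [val_eq, val_eq, scale]

theorem jets (A : AbVar d M) : ∃ (c : ℂ) (C : ℝ), IsIntegral ℤ c ∧ 1 ≤ C ∧
    ∀ (D j : ℕ) (P : MvPolynomial (Fin (M + 1)) ℤ) (B : ℝ), P.IsHomogeneous D →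
      (∀ x : Fin (M + 1) → ℂ, ‖x‖ ≤ 1 → ‖aeval x P‖ ≤ B) →
      ∃ (Q : Polynomial (MvPolynomial (Fin d) ℤ)) (κ : ℂ), κ ≠ 0 ∧ ‖κ‖ ≤ C ^ (D + j) ∧
        (∀ w : E d, val Q c w =
          κ * iteratedDeriv j (fun τ : ℂ => aeval (A.θ (τ • w)) P / A.θ (τ • w) 0 ^ D) 0) ∧
        (∀ c' : ℂ, Polynomial.aeval c' (minpoly ℤ c) = 0 → ∀ w : E d,
          ‖val Q c' w‖ ≤ B * C ^ D * (C * (j + 1)) ^ j * ‖w‖ ^ j) ∧
        ∀ (c' l : ℂ) (w : E d), val Q c' (l • w) = l ^ j * val Q c' w := by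
  obtain ⟨c, a, a', φ, e, G, hc, ha, ha', hφθ, h0, hφ⟩ := exists_ode A
  obtain ⟨C, hC, h⟩ := jets_abs (minpoly.ne_zero hc) c a' φ e G h0 hφ
  have ha0 : (0 : ℝ) ≤ a := Nat.cast_nonneg _
  have ha0' : (0 : ℝ) ≤ a' := Nat.cast_nonneg _
  refine ⟨c, C + a + a', hc, by linarith, fun D j P B hP hB => ?_⟩
  have hB0 : 0 ≤ B := (norm_nonneg _).trans (hB 0 (by simp))
  obtain ⟨Q, hQ1, hQ2, hQ3⟩ := h D j (rename some P) B hP.rename_isHomogeneous (fun x hx => by
    rw [aeval_rename]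
    refine hB _ ((pi_norm_le_iff_of_nonneg zero_le_one).2 fun i => ?_)
    exact (norm_le_pi_norm x (some i)).trans hx)
  refine ⟨Q, (a' : ℂ) ^ j * (a : ℂ) ^ D, ?_, ?_, fun w => ?_, fun c' hc' w => ?_, hQ3⟩
  · exact mul_ne_zero (pow_ne_zero _ (Nat.cast_ne_zero.2 ha'.ne'))
      (pow_ne_zero _ (Nat.cast_ne_zero.2 ha.ne'))
  · rw [norm_mul, norm_pow, norm_pow, Complex.norm_natCast, Complex.norm_natCast, pow_add,
      mul_comm]
    gcongr <;> linarith
  · rw [hQ1, mul_assoc, ← iteratedDeriv_const_mul_field ((a : ℂ) ^ D)]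
    congr 2
    ext τ
    have h1 : φ (τ • w) ∘ some = ((a : ℂ) / A.θ (τ • w) 0) • A.θ (τ • w) := by
      ext i
      simp only [Function.comp_apply, hφθ, Pi.smul_apply, smul_eq_mul]
      ring
    rw [aeval_rename, h1, aeval_smul_of_hom hP, div_pow]
    ring
  · refine (hQ2 c' hc' w).trans ?_
    gcongr <;> linarith

end Pool.Agent.Lib.MP_caab05_ag.LT
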