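import Mathlib
import Pool.Agent.Lib.MP_caab05_ag.LT.Base

/-! Three lines estimate and sampling on a net. -/

namespace Pool.Agent.Lib.MP_caab05_ag.LT

open MvPolynomial Filter Topology Asymptotics

variable {d M : ℕ}

namespace NetAux

/-- the normalised restriction of `G` to a complex line -/
lemma line {n : ℕ} {G : (Fin n → ℂ) → ℂ} {Q : (Fin n → ℂ) → ℝ} (hG : Differentiable ℂ G)
    (x w : Fin n → ℂ) {α β : ℂ} {γ : ℝ}
    (h : ∀ τ : ℂ, Q (x + τ • w) = Q x + (β * τ + α * τ ^ 2).re + γ * τ.im ^ 2) :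
    ∃ f : ℂ → ℂ, Differentiable ℂ f ∧ ∀ τ : ℂ,
      ‖f τ‖ = ‖G (x + τ • w)‖ * Real.exp (-Q (x + τ • w) + γ * τ.im ^ 2) := by
  refine ⟨fun τ => G (x + τ • w) * Complex.exp (-((Q x : ℂ) + (β * τ + α * τ ^ 2))), ?_, ?_⟩
  · have h1 : Differentiable ℂ fun τ : ℂ => G (x + τ • w) := hG.comp (by fun_prop)
    exact h1.mul (by fun_prop)
  · intro τ
    rw [norm_mul, Complex.norm_exp, h τ]
    congr 2
    rw [Complex.neg_re, Complex.add_re, Complex.ofReal_re]
    ring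

lemma grid1 {h R : ℝ} (hh : 0 < h) (hR : 0 ≤ R) :
    ∃ s : Finset ℝ, (s.card : ℝ) ≤ 2 * R / h + 5 ∧ ∀ x : ℝ, |x| ≤ R → ∃ y ∈ s, |x - y| ≤ h := by
  set N : ℕ := ⌈R / h⌉₊ + 1 with hN
  have hN1 : (N : ℝ) ≤ R / h + 2 := by
    have := Nat.ceil_lt_add_one (div_nonneg hR hh.le)
    rw [hN]; push_cast; linarith
  have hN2 : R / h + 1 ≤ (N : ℝ) := by
    have := Nat.le_ceil (R / h)
    rw [hN]; push_cast; linarith
  refine ⟨(Finset.Icc (-(N : ℤ)) N).image fun j : ℤ => (j : ℝ) * h, ?_, ?_⟩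
  · have h1 : (((Finset.Icc (-(N : ℤ)) N).image fun j : ℤ => (j : ℝ) * h).card : ℝ) ≤
        ((Finset.Icc (-(N : ℤ)) N).card : ℝ) := by exact_mod_cast Finset.card_image_le
    have h2 : (Finset.Icc (-(N : ℤ)) N).card = 2 * N + 1 := by
      rw [Int.card_Icc]; omega
    rw [h2] at h1
    push_cast at h1
    have : 2 * R / h = 2 * (R / h) := by ring
    linarith
  · intro x hx
    have h1 := Int.floor_le (x / h)
    have h2 := Int.lt_floor_add_one (x / h)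
    have h3 : |x / h| ≤ R / h := by
      rw [abs_div, abs_of_pos hh]; exact div_le_div_of_nonneg_right hx hh.le
    have h4 := abs_le.1 h3
    refine ⟨(⌊x / h⌋ : ℝ) * h, Finset.mem_image.2 ⟨⌊x / h⌋, Finset.mem_Icc.2 ⟨?_, ?_⟩, rfl⟩, ?_⟩
    · have : (-(N : ℝ)) ≤ (⌊x / h⌋ : ℝ) := by linarith [h4.1]
      exact_mod_cast this
    · have : (⌊x / h⌋ : ℝ) ≤ (N : ℝ) := by linarith [h4.2]
      exact_mod_cast this
    · have e : x - (⌊x / h⌋ : ℝ) * h = (x / h - ⌊x / h⌋) * h := by field_simp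
      rw [e, abs_mul, abs_of_pos hh]
      have : |x / h - ⌊x / h⌋| ≤ 1 := abs_le.2 ⟨by linarith, by linarith⟩
      nlinarith

lemma gridR {h R : ℝ} (hh : 0 < h) (hR : 0 ≤ R) :
    ∃ s : Finset ℂ, (∀ y ∈ s, y.im = 0) ∧ (s.card : ℝ) ≤ 2 * R / h + 5 ∧
      ∀ x : ℂ, x.im = 0 → ‖x‖ ≤ R → ∃ y ∈ s, ‖x - y‖ ≤ h := by
  obtain ⟨s, hs, hs'⟩ := grid1 hh hR
  refine ⟨s.image fun y : ℝ => (y : ℂ), ?_, ?_, ?_⟩
  · intro y hy
    obtain ⟨y', -, rfl⟩ := Finset.mem_image.1 hy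
    simp
  · refine le_trans ?_ hs
    exact_mod_cast Finset.card_image_le
  · intro x hx hxR
    obtain ⟨y, hy, hxy⟩ := hs' x.re ((Complex.abs_re_le_norm x).trans hxR)
    refine ⟨y, Finset.mem_image.2 ⟨y, hy, rfl⟩, ?_⟩
    have : x - y = ((x.re - y : ℝ) : ℂ) := by
      apply Complex.ext <;> simp [hx]
    rw [this, Complex.norm_real, Real.norm_eq_abs]
    exact hxy

lemma gridC {h R : ℝ} (hh : 0 < h) (hR : 0 ≤ R) :
    ∃ s : Finset ℂ, (s.card : ℝ) ≤ (2 * R / h + 5) ^ 2 ∧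
      ∀ x : ℂ, ‖x‖ ≤ R → ∃ y ∈ s, ‖x - y‖ ≤ 2 * h := by
  obtain ⟨s, hs, hs'⟩ := grid1 hh hR
  refine ⟨(s ×ˢ s).image fun y : ℝ × ℝ => (⟨y.1, y.2⟩ : ℂ), ?_, ?_⟩
  · have h1 : (((s ×ˢ s).image fun y : ℝ × ℝ => (⟨y.1, y.2⟩ : ℂ)).card : ℝ) ≤
        ((s ×ˢ s).card : ℝ) := by exact_mod_cast Finset.card_image_le
    rw [Finset.card_product] at h1
    push_cast at h1
    have h0 : (0 : ℝ) ≤ s.card := Nat.cast_nonneg _
    nlinarith
  · intro x hxR
    obtain ⟨y, hy, hxy⟩ := hs' x.re ((Complex.abs_re_le_norm x).trans hxR)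
    obtain ⟨y', hy', hxy'⟩ := hs' x.im ((Complex.abs_im_le_norm x).trans hxR)
    refine ⟨⟨y, y'⟩, Finset.mem_image.2 ⟨(y, y'), Finset.mem_product.2 ⟨hy, hy'⟩, rfl⟩, ?_⟩
    refine (Complex.norm_le_abs_re_add_abs_im _).trans ?_
    simp only [Complex.sub_re, Complex.sub_im]
    linarith

end NetAux

theorem tube {n : ℕ} (r : Finset (Fin n)) {c a v t μ : ℝ} (hc : 0 ≤ c) (ha : 0 < a) (hv : 0 < v)
    (ht0 : 0 ≤ t) (ht : t * a ≤ v) {G : (Fin n → ℂ) → ℂ} {Q : (Fin n → ℂ) → ℝ}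
    (hG : Differentiable ℂ G) (hQ : Quadr (c * a ^ 2) Q)
    (hb : ∀ z, ‖G z‖ ≤ Real.exp (Q z + v ^ 2)) (hμ : Real.exp (-v ^ 2) ≤ μ)
    (hU : ∀ u ∈ Ur r, ‖G u‖ ≤ μ * Real.exp (Q u)) (z : Fin n → ℂ)
    (hz : ∀ k ∈ r, |(z k).im| ≤ t) :
    ‖G z‖ ≤ μ * Real.exp (Q z + (2 + 2 * c) * (t * a * v)) := by
  have hμ0 : 0 < μ := (Real.exp_pos _).trans_le hμ
  rcases ht0.eq_or_lt with rfl | ht0
  · have hzU : z ∈ Ur r := fun k hk => abs_nonpos_iff.1 (hz k hk)
    simpa using hU z hzU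
  classical
  set e : Fin n → ℂ := fun k => if k ∈ r then (((z k).im / t : ℝ) : ℂ) else 0 with he
  have he1 : ‖e‖ ≤ 1 := by
    refine (pi_norm_le_iff_of_nonneg zero_le_one).2 fun k => ?_
    by_cases hk : k ∈ r
    · simp only [he, if_pos hk, Complex.norm_real, Real.norm_eq_abs, abs_div, abs_of_pos ht0]
      exact (div_le_one ht0).2 (hz k hk)
    · simp [he, hk]
  set x : Fin n → ℂ := z - (Complex.I * t) • e with hx
  have hxU : ∀ τ : ℂ, τ.im = 0 → x + τ • e ∈ Ur r := by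
    intro τ hτ k hk
    simp only [hx, he, Pi.add_apply, Pi.sub_apply, Pi.smul_apply, smul_eq_mul, if_pos hk,
      Complex.add_im, Complex.sub_im, Complex.mul_im, Complex.mul_re, Complex.I_re, Complex.I_im,
      Complex.ofReal_re, Complex.ofReal_im, hτ]
    field_simp
    ring
  obtain ⟨α, β, γ, -, hγ, hq⟩ := hQ x e
  have hγ' : |γ| ≤ c * a ^ 2 := by
    refine hγ.trans ?_
    have h1 : ‖e‖ ^ 2 ≤ 1 := pow_le_one₀ (norm_nonneg _) he1
    have h2 : 0 ≤ c * a ^ 2 := by positivity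
    nlinarith
  obtain ⟨f, hf, hfn⟩ := NetAux.line hG x e hq
  have hva : 0 < v / a := div_pos hv ha
  have him : ∀ σ : ℂ, (Complex.I * σ).im = σ.re := by intro σ; simp
  have hstrip : ∀ σ : ℂ, 0 ≤ σ.re → σ.re ≤ v / a →
      ‖f (Complex.I * σ)‖ ≤ Real.exp ((1 + c) * v ^ 2) := by
    intro σ h0 h1
    rw [hfn, him]
    refine (mul_le_mul_of_nonneg_right (hb _) (Real.exp_pos _).le).trans ?_
    rw [← Real.exp_add]
    apply Real.exp_le_exp.2
    have h2 : σ.re ^ 2 ≤ (v / a) ^ 2 := pow_le_pow_left₀ h0 h1 2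
    have h3 : γ * σ.re ^ 2 ≤ c * a ^ 2 * (v / a) ^ 2 :=
      mul_le_mul ((le_abs_self γ).trans hγ') h2 (sq_nonneg _) (by positivity)
    have h4 : c * a ^ 2 * (v / a) ^ 2 = c * v ^ 2 := by field_simp
    linarith
  have hleft : ∀ σ : ℂ, σ.re = 0 → ‖f (Complex.I * σ)‖ ≤ μ := by
    intro σ h0
    rw [hfn, him, h0]
    refine (mul_le_mul_of_nonneg_right (hU _ (hxU _ (by rw [him, h0]))) (Real.exp_pos _).le).trans ?_
    rw [mul_assoc, ← Real.exp_add]
    simp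
  have hta : t ≤ v / a := (le_div_iff₀ ha).2 ht
  have hd : Differentiable ℂ fun σ : ℂ => f (Complex.I * σ) := hf.comp (by fun_prop)
  have H := Complex.HadamardThreeLines.norm_le_interp_of_mem_verticalClosedStrip'
    (f := fun σ : ℂ => f (Complex.I * σ)) (z := (t : ℂ)) (a := μ)
    (b := Real.exp ((1 + c) * v ^ 2)) (l := 0) (u := v / a) hva
    (by
      show (t : ℂ).re ∈ Set.Icc 0 (v / a)
      rw [Complex.ofReal_re]; exact ⟨ht0.le, hta⟩)
    hd.diffContOnCl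
    ⟨Real.exp ((1 + c) * v ^ 2), by
      rintro _ ⟨σ, hσ, rfl⟩
      exact hstrip σ hσ.1 hσ.2⟩
    (fun σ hσ => hleft σ hσ)
    (fun σ hσ => hstrip σ (by rw [show σ.re = v / a from hσ]; exact hva.le)
      (by rw [show σ.re = v / a from hσ]))
  simp only [Complex.ofReal_re, sub_zero] at H
  set θ : ℝ := t / (v / a) with hθ
  have hθ0 : 0 ≤ θ := div_nonneg ht0.le hva.le
  have hθv : v ^ 2 * θ = t * a * v := by rw [hθ]; field_simp
  have hz' : x + (Complex.I * t) • e = z := by simp [hx]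
  rw [hfn, him, hz', Complex.ofReal_re] at H
  have h1 : μ ^ (1 - θ) ≤ μ * Real.exp (v ^ 2 * θ) := by
    rw [Real.rpow_sub hμ0, Real.rpow_one, div_le_iff₀ (Real.rpow_pos_of_pos hμ0 _), mul_assoc]
    refine le_mul_of_one_le_right hμ0.le ?_
    have h2 : Real.exp (-v ^ 2) ^ θ ≤ μ ^ θ := Real.rpow_le_rpow (Real.exp_pos _).le hμ hθ0
    rw [← Real.exp_mul] at h2
    calc (1 : ℝ) = Real.exp (v ^ 2 * θ) * Real.exp (-v ^ 2 * θ) := by
          rw [← Real.exp_add]; simp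
      _ ≤ _ := mul_le_mul_of_nonneg_left h2 (Real.exp_pos _).le
  rw [← Real.exp_mul] at H
  have h2 : ‖G z‖ * Real.exp (-Q z + γ * t ^ 2) ≤
      μ * Real.exp (v ^ 2 * θ) * Real.exp ((1 + c) * v ^ 2 * θ) :=
    H.trans (mul_le_mul_of_nonneg_right h1 (Real.exp_pos _).le)
  have h3 : -γ * t ^ 2 ≤ c * (t * a * v) := by
    have h4 : -γ * t ^ 2 ≤ c * a ^ 2 * t ^ 2 :=
      mul_le_mul_of_nonneg_right ((neg_le_abs γ).trans hγ') (sq_nonneg _)
    have h5 : t * a * (t * a) ≤ t * a * v := mul_le_mul_of_nonneg_left ht (by positivity)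
    have h6 := mul_le_mul_of_nonneg_left h5 hc
    nlinarith
  calc ‖G z‖ = ‖G z‖ * Real.exp (-Q z + γ * t ^ 2) * Real.exp (Q z - γ * t ^ 2) := by
        rw [mul_assoc, ← Real.exp_add]; simp
    _ ≤ μ * Real.exp (v ^ 2 * θ) * Real.exp ((1 + c) * v ^ 2 * θ) *
          Real.exp (Q z - γ * t ^ 2) := mul_le_mul_of_nonneg_right h2 (Real.exp_pos _).le
    _ = μ * Real.exp (v ^ 2 * θ + (1 + c) * v ^ 2 * θ + (Q z - γ * t ^ 2)) := by
        rw [Real.exp_add, Real.exp_add]; ring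
    _ ≤ _ := by
        refine mul_le_mul_of_nonneg_left (Real.exp_le_exp.2 ?_) hμ0.le
        have : (1 + c) * v ^ 2 * θ = (1 + c) * (t * a * v) := by rw [← hθv]; ring
        rw [this, hθv]
        linarith

namespace NetAux

/-- the Schwarz step: from a grid point to a near point -/
lemma near {n : ℕ} (r : Finset (Fin n)) {c a v μ ε : ℝ} (hc : 0 ≤ c) (ha : 1 ≤ a) (hv : a ≤ v)
    {G : (Fin n → ℂ) → ℂ} {Q : (Fin n → ℂ) → ℝ}
    (hG : Differentiable ℂ G) (hQ : Quadr (c * a ^ 2) Q)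
    (hb : ∀ z, ‖G z‖ ≤ Real.exp (Q z + v ^ 2)) (hμ : Real.exp (-v ^ 2) ≤ μ)
    (hU : ∀ u ∈ Ur r, ‖G u‖ ≤ μ * Real.exp (Q u)) {p u : Fin n → ℂ} (hp : p ∈ Ur r)
    {δ : ℝ} (hδ : δ = 1 / (4 * Real.exp (2 + 3 * c)))
    (h1 : ∀ k ∈ r, ‖u k - p k‖ ≤ δ / (a * v)) (h2 : ∀ k, ‖u k - p k‖ ≤ δ / a)
    (hε : ‖G p‖ ≤ ε / 4 * Real.exp (Q p)) :
    ‖G u‖ * Real.exp (-Q u) ≤ ε / 4 + μ / 2 := by
  have hμ0 : 0 < μ := (Real.exp_pos _).trans_le hμ
  have ha0 : 0 < a := by linarith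
  have hv1 : 1 ≤ v := ha.trans hv
  have hv0 : 0 < v := by linarith
  set K := Real.exp (2 + 3 * c) with hK
  have hK1 : 1 ≤ K := Real.one_le_exp (by positivity)
  have hδ0 : 0 < δ := by rw [hδ]; positivity
  have hδ1 : δ < 1 := by
    rw [hδ, div_lt_one (by positivity)]; linarith
  set w : Fin n → ℂ := ((δ⁻¹ : ℝ) : ℂ) • (u - p) with hw
  have hwk : ∀ k, ‖w k‖ = δ⁻¹ * ‖u k - p k‖ := by
    intro k
    simp only [hw, Pi.smul_apply, Pi.sub_apply, smul_eq_mul, norm_mul, Complex.norm_real,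
      Real.norm_eq_abs, abs_of_pos (inv_pos.2 hδ0)]
  have hw1 : ‖w‖ ≤ 1 / a := by
    refine (pi_norm_le_iff_of_nonneg (by positivity)).2 fun k => ?_
    rw [hwk]
    calc δ⁻¹ * ‖u k - p k‖ ≤ δ⁻¹ * (δ / a) :=
          mul_le_mul_of_nonneg_left (h2 k) (inv_pos.2 hδ0).le
      _ = 1 / a := by field_simp
  have hw2 : ∀ k ∈ r, ‖w k‖ ≤ 1 / (a * v) := by
    intro k hk
    rw [hwk]
    calc δ⁻¹ * ‖u k - p k‖ ≤ δ⁻¹ * (δ / (a * v)) :=
          mul_le_mul_of_nonneg_left (h1 k hk) (inv_pos.2 hδ0).le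
      _ = 1 / (a * v) := by field_simp
  obtain ⟨α, β, γ, -, hγ, hq⟩ := hQ p w
  have hγ' : |γ| ≤ c := by
    refine hγ.trans ?_
    have h3 : ‖w‖ ^ 2 ≤ (1 / a) ^ 2 := pow_le_pow_left₀ (norm_nonneg _) hw1 2
    calc c * a ^ 2 * ‖w‖ ^ 2 ≤ c * a ^ 2 * (1 / a) ^ 2 :=
          mul_le_mul_of_nonneg_left h3 (by positivity)
      _ = c := by field_simp
  obtain ⟨f, hf, hfn⟩ := line hG p w hq
  have hbd : ∀ τ : ℂ, ‖τ‖ ≤ 1 → ‖f τ‖ ≤ μ * K := by
    intro τ hτ
    have ht := tube r (t := 1 / (a * v)) hc ha0 hv0 (by positivity)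
      (by
        have : 1 / (a * v) * a = 1 / v := by field_simp
        rw [this, div_le_iff₀ hv0]; nlinarith) hG hQ hb hμ hU (p + τ • w)
      (by
        intro k hk
        have h3 : ((p + τ • w) k).im = (τ * w k).im := by
          simp only [Pi.add_apply, Pi.smul_apply, smul_eq_mul, Complex.add_im, hp k hk, zero_add]
        rw [h3]
        refine (Complex.abs_im_le_norm _).trans ?_
        rw [norm_mul]
        calc ‖τ‖ * ‖w k‖ ≤ 1 * (1 / (a * v)) :=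
              mul_le_mul hτ (hw2 k hk) (norm_nonneg _) zero_le_one
          _ = _ := one_mul _)
    have h3 : 1 / (a * v) * a * v = 1 := by field_simp
    rw [h3, mul_one] at ht
    rw [hfn]
    refine (mul_le_mul_of_nonneg_right ht (Real.exp_pos _).le).trans ?_
    rw [mul_assoc, ← Real.exp_add]
    refine mul_le_mul_of_nonneg_left (Real.exp_le_exp.2 ?_) hμ0.le
    have h4 : τ.im ^ 2 ≤ 1 := by
      have := (Complex.abs_im_le_norm τ).trans hτ
      rw [← sq_abs]; exact pow_le_one₀ (abs_nonneg _) this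
    have h5 : γ * τ.im ^ 2 ≤ c * 1 :=
      mul_le_mul ((le_abs_self γ).trans hγ') h4 (sq_nonneg _) hc
    linarith
  have hS := Complex.dist_le_div_mul_dist_of_mapsTo_ball (f := f) (c := 0) (R₁ := 1)
    (R₂ := 2 * (μ * K)) (z := (δ : ℂ)) hf.differentiableOn
    (by
      intro τ hτ
      rw [Metric.mem_closedBall, dist_eq_norm]
      have h3 := hbd τ (mem_ball_zero_iff.1 hτ).le
      have h4 := hbd 0 (by simp)
      linarith [norm_sub_le (f τ) (f 0)])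
    (by rw [mem_ball_zero_iff, Complex.norm_real, Real.norm_eq_abs, abs_of_pos hδ0]; exact hδ1)
  rw [dist_eq_norm, dist_zero_right, Complex.norm_real, Real.norm_eq_abs, abs_of_pos hδ0] at hS
  have h3 : 2 * (μ * K) / 1 * δ = μ / 2 := by rw [hδ]; field_simp; norm_num
  rw [h3] at hS
  have h4 : p + (δ : ℂ) • w = u := by
    rw [hw, smul_smul, ← Complex.ofReal_mul, mul_inv_cancel₀ hδ0.ne']
    simp
  have h5 := hfn δ
  rw [h4, Complex.ofReal_im] at h5
  have h6 := hfn 0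
  rw [zero_smul, add_zero, Complex.zero_im] at h6
  simp only [ne_eq, OfNat.ofNat_ne_zero, not_false_eq_true, zero_pow, mul_zero, add_zero] at h5 h6
  have h7 : ‖f 0‖ ≤ ε / 4 := by
    rw [h6]
    refine (mul_le_mul_of_nonneg_right hε (Real.exp_pos _).le).trans ?_
    rw [mul_assoc, ← Real.exp_add]
    simp
  rw [← h5]
  have h8 : ‖f δ‖ ≤ ‖f δ - f 0‖ + ‖f 0‖ := by
    simpa using norm_add_le (f δ - f 0) (f 0)
  linarith

end NetAux

theorem net {n : ℕ} (r : Finset (Fin n)) (c R : ℝ) (hc : 0 ≤ c) :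
    ∃ C : ℝ, 1 ≤ C ∧ ∀ a v : ℝ, 1 ≤ a → a ≤ v → ∃ s : Finset (Fin n → ℂ), (∀ p ∈ s, p ∈ Ur r) ∧
      (s.card : ℝ) ≤ C * a ^ (2 * n - r.card) * v ^ r.card ∧
      ∀ (G : (Fin n → ℂ) → ℂ) (Q : (Fin n → ℂ) → ℝ) (ε : ℝ), Differentiable ℂ G →
        Quadr (c * a ^ 2) Q → (∀ z, ‖G z‖ ≤ Real.exp (Q z + v ^ 2)) →
        (∀ u ∈ Ur r, ∃ u' ∈ Ur r, ‖u'‖ ≤ R ∧
          ‖G u‖ * Real.exp (-Q u) = ‖G u'‖ * Real.exp (-Q u')) →
        Real.exp (-v ^ 2) ≤ ε → (∀ p ∈ s, ‖G p‖ ≤ ε / 4 * Real.exp (Q p)) →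
        ∀ u ∈ Ur r, ‖G u‖ ≤ ε * Real.exp (Q u) := by
  classical
  set δ : ℝ := 1 / (4 * Real.exp (2 + 3 * c)) with hδ
  have hδ0 : 0 < δ := by rw [hδ]; positivity
  set C1 : ℝ := 4 * |R| / δ + 5 with hC1
  have hC0 : 0 ≤ 4 * |R| / δ := by positivity
  have hC11 : 1 ≤ C1 := by linarith
  refine ⟨C1 ^ (2 * n), one_le_pow₀ hC11, fun a v ha hv => ?_⟩
  have ha0 : 0 < a := by linarith
  have hv1 : 1 ≤ v := ha.trans hv
  have hv0 : 0 < v := by linarith
  have hav : 1 ≤ a * v := by nlinarith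
  obtain ⟨sR, hR0, hR1, hR2⟩ := NetAux.gridR (h := δ / (a * v)) (R := |R|) (by positivity)
    (abs_nonneg R)
  obtain ⟨sC, hC2, hC3⟩ := NetAux.gridC (h := δ / (2 * a)) (R := |R|) (by positivity)
    (abs_nonneg R)
  have hR1' : (sR.card : ℝ) ≤ C1 * (a * v) := by
    refine hR1.trans ?_
    have e : 2 * |R| / (δ / (a * v)) = 2 * |R| / δ * (a * v) := by field_simp
    have h0 : 0 ≤ 2 * |R| / δ := by positivity
    have e2 : 4 * |R| / δ = 2 * (2 * |R| / δ) := by ring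
    rw [e, hC1, e2]
    nlinarith
  have hC2' : (sC.card : ℝ) ≤ (C1 * a) ^ 2 := by
    refine hC2.trans (pow_le_pow_left₀ (by positivity) ?_ 2)
    have e : 2 * |R| / (δ / (2 * a)) = 4 * |R| / δ * a := by field_simp; ring
    rw [e, hC1]
    nlinarith
  refine ⟨Fintype.piFinset fun k => if k ∈ r then sR else sC, ?_, ?_, ?_⟩
  · intro p hp k hk
    have := Fintype.mem_piFinset.1 hp k
    rw [if_pos hk] at this
    exact hR0 _ this
  · rw [Fintype.card_piFinset]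
    push_cast
    have hr : r.card ≤ n := by simpa using r.card_le_univ
    calc ∏ k : Fin n, (((if k ∈ r then sR else sC).card : ℕ) : ℝ)
        ≤ ∏ k : Fin n, (if k ∈ r then C1 ^ 2 * (a * v) else C1 ^ 2 * a ^ 2) := by
          refine Finset.prod_le_prod (fun k _ => Nat.cast_nonneg _) fun k _ => ?_
          split_ifs
          · refine hR1'.trans (mul_le_mul_of_nonneg_right ?_ (by positivity))
            nlinarith
          · rw [← mul_pow]; exact hC2'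
      _ = (C1 ^ 2 * (a * v)) ^ r.card * (C1 ^ 2 * a ^ 2) ^ (n - r.card) := by
          rw [Finset.prod_ite, Finset.prod_const, Finset.prod_const]
          congr 2
          · congr 1; ext k; simp
          · have : (Finset.univ.filter fun k => k ∉ r) = rᶜ := by ext k; simp
            rw [this, Finset.card_compl, Fintype.card_fin]
      _ = C1 ^ (2 * n) * a ^ (2 * n - r.card) * v ^ r.card := by
          obtain ⟨m, hm⟩ := Nat.exists_eq_add_of_le hr
          have e1 : n - r.card = m := by omega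
          have e2 : 2 * n - r.card = r.card + 2 * m := by omega
          have e3 : 2 * n = 2 * r.card + 2 * m := by omega
          rw [e1, e2, e3]
          simp only [mul_pow, pow_add, pow_mul]
          ring
  · intro G Q ε hG hQ hb hper hε hs
    set S : Set ℝ := (fun u => ‖G u‖ * Real.exp (-Q u)) '' Ur r with hS
    have hSb : BddAbove S := by
      refine ⟨Real.exp (v ^ 2), ?_⟩
      rintro _ ⟨u, -, rfl⟩
      refine (mul_le_mul_of_nonneg_right (hb u) (Real.exp_pos _).le).trans ?_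
      rw [← Real.exp_add]
      apply le_of_eq; congr 1; ring
    have hSn : S.Nonempty := ⟨_, 0, fun k _ => by simp, rfl⟩
    have hconv : ∀ (m : ℝ) (u : Fin n → ℂ), ‖G u‖ * Real.exp (-Q u) ≤ m →
        ‖G u‖ ≤ m * Real.exp (Q u) := by
      intro m u h
      calc ‖G u‖ = ‖G u‖ * Real.exp (-Q u) * Real.exp (Q u) := by
            rw [mul_assoc, ← Real.exp_add]; simp
        _ ≤ _ := mul_le_mul_of_nonneg_right h (Real.exp_pos _).le
    have hle : ∀ u ∈ Ur r, ‖G u‖ * Real.exp (-Q u) ≤ sSup S :=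
      fun u hu => le_csSup hSb ⟨u, hu, rfl⟩
    have hε0 : 0 < ε := (Real.exp_pos _).trans_le hε
    have key : sSup S ≤ ε / 4 + max (sSup S) ε / 2 := by
      refine csSup_le hSn ?_
      rintro _ ⟨u, hu, rfl⟩
      obtain ⟨u', hu', hR, he⟩ := hper u hu
      show ‖G u‖ * Real.exp (-Q u) ≤ _
      rw [he]
      have hk : ∀ k, ∃ y ∈ (if k ∈ r then sR else sC),
          (k ∈ r → ‖u' k - y‖ ≤ δ / (a * v)) ∧ ‖u' k - y‖ ≤ δ / a := by
        intro k
        have h1 : ‖u' k‖ ≤ |R| := ((norm_le_pi_norm u' k).trans hR).trans (le_abs_self R)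
        by_cases hk : k ∈ r
        · obtain ⟨y, hy, hy'⟩ := hR2 (u' k) (hu' k hk) h1
          refine ⟨y, by rwa [if_pos hk], fun _ => hy', hy'.trans ?_⟩
          apply div_le_div_of_nonneg_left hδ0.le ha0
          nlinarith
        · obtain ⟨y, hy, hy'⟩ := hC3 (u' k) h1
          refine ⟨y, by rwa [if_neg hk], fun h => absurd h hk, hy'.trans (le_of_eq ?_)⟩
          field_simp
      choose p hp hp1 hp2 using hk
      have hps : p ∈ Fintype.piFinset fun k => if k ∈ r then sR else sC :=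
        Fintype.mem_piFinset.2 hp
      have hpU : p ∈ Ur r := by
        intro k hk
        have := hp k
        rw [if_pos hk] at this
        exact hR0 _ this
      exact NetAux.near r hc ha hv hG hQ hb (hε.trans (le_max_right _ _))
        (fun u hu => hconv _ u ((hle u hu).trans (le_max_left _ _))) hpU hδ
        (fun k hk => hp1 k hk) hp2 (hs p hps)
    have hfin : sSup S ≤ ε := by
      rcases le_total (sSup S) ε with h | h
      · exact h
      · rw [max_eq_left h] at key; linarith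
    intro u hu
    exact hconv _ u ((hle u hu).trans hfin)

end Pool.Agent.Lib.MP_caab05_ag.LT
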