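import Mathlib
import Pool.Agent.Lib.MP_caab05_ag.LT.Defs5

/-! The multiplicity estimate on a power, by induction on the number of factors. -/

namespace Pool.Agent.Lib.MP_caab05_ag.LT

open MvPolynomial Filter Topology Asymptotics

namespace PowZAux

/-- the mixed Taylor coefficients of a sum of products -/
lemma leib {ι : Type} [Fintype ι] (a b : ι → ℂ → ℂ) (ha : ∀ i, Differentiable ℂ (a i))
    (hb : ∀ i, Differentiable ℂ (b i)) (N : ℕ)
    (h : ∀ t : ℂ, (fun l : ℂ => ∑ i, a i (t * l) * b i l) =O[𝓝 0] fun l : ℂ => l ^ (N + 1))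
    (j r : ℕ) (hjr : j + r ≤ N) :
    ∑ i, iteratedDeriv j (a i) 0 * iteratedDeriv r (b i) 0 = 0 := by
  set n := j + r with hn
  set c : ℕ → ℂ := fun m => (n.choose m : ℂ) *
    ∑ i, iteratedDeriv m (a i) 0 * iteratedDeriv (n - m) (b i) 0 with hc
  have key : ∀ t : ℂ, ∑ m ∈ Finset.range (n + 1), c m * t ^ m = 0 := by
    intro t
    have hat : ∀ i, Differentiable ℂ fun l : ℂ => a i (t * l) := fun i =>
      (ha i).comp (differentiable_id.const_mul t)
    have hd : Differentiable ℂ fun l : ℂ => ∑ i, a i (t * l) * b i l :=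
      Differentiable.fun_sum fun i _ => (hat i).mul (hb i)
    have h1 := (isBigO_pow_iff (hd.analyticAt 0) (N + 1)).1 (h t) n (by omega)
    rw [iteratedDeriv_fun_sum fun i _ => ((hat i).fun_mul (hb i)).contDiff.contDiffAt] at h1
    have h2 : ∀ i, iteratedDeriv n (fun l : ℂ => a i (t * l) * b i l) 0 =
        ∑ m ∈ Finset.range (n + 1), (n.choose m : ℂ) * (t ^ m * iteratedDeriv m (a i) 0) *
          iteratedDeriv (n - m) (b i) 0 := by
      intro i
      rw [iteratedDeriv_fun_mul (hat i).contDiff.contDiffAt (hb i).contDiff.contDiffAt]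
      refine Finset.sum_congr rfl fun m _ => ?_
      rw [iteratedDeriv_comp_const_mul (ha i).contDiff t]
      simp
    simp only [h2] at h1
    rw [Finset.sum_comm] at h1
    rw [← h1]
    refine Finset.sum_congr rfl fun m _ => ?_
    simp only [hc, Finset.mul_sum, Finset.sum_mul]
    exact Finset.sum_congr rfl fun i _ => by ring
  have hp : (∑ m ∈ Finset.range (n + 1), Polynomial.monomial m (c m)) = 0 := by
    apply Polynomial.funext
    intro t
    simpa [Polynomial.eval_finsetSum] using key t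
  have hj : c j = 0 := by
    have := congrArg (fun q => Polynomial.coeff q j) hp
    simp only [Polynomial.finsetSum_coeff, Polynomial.coeff_monomial, Polynomial.coeff_zero,
      Finset.sum_ite_eq', Finset.mem_range] at this
    rwa [if_pos (by omega)] at this
  have hch : (n.choose j : ℂ) ≠ 0 := by
    exact_mod_cast (Nat.choose_pos (by omega : j ≤ n)).ne'
  have := (mul_eq_zero.1 hj).resolve_left hch
  rwa [show n - j = r by omega] at this

variable {d : ℕ}

/-- the span of the products of functions of the single blocks -/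
def Fp (V : Submodule ℂ (E d → ℂ)) (p : ℕ) : Submodule ℂ ((Fin p → E d) → ℂ) :=
  Submodule.span ℂ {f | ∃ P : Fin p → E d → ℂ, (∀ j, P j ∈ V) ∧ f = fun z => ∏ j, P j (z j)}

lemma diff_Fp {V : Submodule ℂ (E d → ℂ)} (hV : ∀ f ∈ V, Differentiable ℂ f) {p : ℕ}
    {f : (Fin p → E d) → ℂ} (hf : f ∈ Fp V p) (v : Fin p → E d) :
    Differentiable ℂ fun τ : ℂ => f (τ • v) := by
  induction hf using Submodule.span_induction with
  | mem f hf =>
    obtain ⟨P, hP, rfl⟩ := hf
    exact Differentiable.fun_finsetProd fun j _ =>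
      (hV _ (hP j)).comp (f := fun τ : ℂ => τ • v j) (differentiable_id.smul_const (v j))
  | zero => exact differentiable_const 0
  | add f g _ _ hf hg => exact hf.add hg
  | smul c f _ hf => exact hf.const_smul c

lemma sep {V : Submodule ℂ (E d → ℂ)} {p : ℕ} {f : (Fin (p + 1) → E d) → ℂ}
    (hf : f ∈ Fp V (p + 1)) : ∃ (n : ℕ) (a : Fin n → E d → ℂ) (g : Fin n → (Fin p → E d) → ℂ),
      (∀ i, a i ∈ V) ∧ (∀ i, g i ∈ Fp V p) ∧
      ∀ z₀ z', f (Fin.cons z₀ z') = ∑ i, a i z₀ * g i z' := by
  obtain ⟨n, c, G, rfl⟩ := Submodule.mem_span_set'.1 hf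
  choose P hP hG using fun i => (G i).2
  refine ⟨n, fun i => c i • P i 0, fun i z => ∏ j, P i (Fin.succ j) (z j),
    fun i => V.smul_mem _ (hP i 0), fun i => Submodule.subset_span ⟨_, fun j => hP i j.succ, rfl⟩,
    fun z₀ z' => ?_⟩
  simp only [Finset.sum_apply, Pi.smul_apply, smul_eq_mul, hG, Fin.prod_univ_succ, Fin.cons_zero,
    Fin.cons_succ, mul_assoc]

theorem main {V : Submodule ℂ (E d → ℂ)} (hV : ∀ f ∈ V, Differentiable ℂ f)
    (W : Submodule ℂ (E d)) (k : ℕ) (h0 : ∀ f ∈ V, Ord W f 0 (k + 1) → ∀ z, f z = 0) (p : ℕ) :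
    ∀ f ∈ Fp V p, (∀ v : Fin p → E d, (∀ j, v j ∈ W) →
      (fun τ : ℂ => f (τ • v)) =O[𝓝 0] fun τ : ℂ => τ ^ (p * k + 1)) → ∀ z, f z = 0 := by
  induction p with
  | zero =>
    intro f hf h z
    have h1 := (isBigO_pow_iff ((diff_Fp hV hf z).analyticAt 0) _).1 (h z fun j => j.elim0) 0
      (by omega)
    rw [iteratedDeriv_zero] at h1
    rw [← h1]
    exact congrArg f (Subsingleton.elim _ _)
  | succ p ih =>
    intro f hf h z
    obtain ⟨n, a, g, ha, hg, hfe⟩ := sep hf
    rw [← Fin.cons_self_tail z, hfe]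
    set z' := Fin.tail z
    have hm : (∑ i, g i z' • a i) ∈ V := V.sum_mem fun i _ => V.smul_mem _ (ha i)
    have hz := h0 _ hm ?_ (z 0)
    · rw [← hz]
      simp only [Finset.sum_apply, Pi.smul_apply, smul_eq_mul]
      exact Finset.sum_congr rfl fun i _ => mul_comm _ _
    intro u hu
    have hau : ∀ i, Differentiable ℂ fun τ : ℂ => a i (τ • u) := fun i =>
      (hV _ (ha i)).comp (differentiable_id.smul_const u)
    have e1 : (fun τ : ℂ => (∑ i, g i z' • a i) (0 + τ • u)) =
        fun τ : ℂ => ∑ i, g i z' * a i (τ • u) := by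
      funext τ
      simp only [Finset.sum_apply, Pi.smul_apply, smul_eq_mul, zero_add]
    rw [e1]
    have hd : ∀ i, Differentiable ℂ fun τ : ℂ => g i z' * a i (τ • u) := fun i =>
      (hau i).const_mul _
    rw [isBigO_pow_iff ((Differentiable.fun_sum fun i _ => hd i).analyticAt 0)]
    intro j hj
    rw [iteratedDeriv_fun_sum fun i _ => (hd i).contDiff.contDiffAt]
    simp only [iteratedDeriv_const_mul_field]
    set c : Fin n → ℂ := fun i => iteratedDeriv j (fun τ : ℂ => a i (τ • u)) 0 with hc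
    have hm' : (∑ i, c i • g i) ∈ Fp V p :=
      Submodule.sum_mem _ fun i _ => Submodule.smul_mem _ _ (hg i)
    have hz' := ih _ hm' ?_ z'
    · refine Eq.trans ?_ hz'
      simp only [Finset.sum_apply, Pi.smul_apply, smul_eq_mul]
      exact Finset.sum_congr rfl fun i _ => mul_comm _ _
    intro v hv
    have e2 : (fun τ : ℂ => (∑ i, c i • g i) (τ • v)) = fun τ : ℂ => ∑ i, c i * g i (τ • v) := by
      funext τ
      simp only [Finset.sum_apply, Pi.smul_apply, smul_eq_mul]
    rw [e2]
    have hgv : ∀ i, Differentiable ℂ fun τ : ℂ => g i (τ • v) := fun i => diff_Fp hV (hg i) v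
    have hd' : ∀ i, Differentiable ℂ fun τ : ℂ => c i * g i (τ • v) := fun i =>
      (hgv i).const_mul _
    rw [isBigO_pow_iff ((Differentiable.fun_sum fun i _ => hd' i).analyticAt 0)]
    intro r hr
    rw [iteratedDeriv_fun_sum fun i _ => (hd' i).contDiff.contDiffAt]
    simp only [iteratedDeriv_const_mul_field]
    refine leib _ _ hau hgv ((p + 1) * k) (fun t => ?_) j r (by nlinarith)
    have h1 := h (Fin.cons (t • u) v) (Fin.cases (W.smul_mem t hu) hv)
    refine h1.congr_left fun l => ?_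
    have e3 : l • (Fin.cons (t • u) v : Fin (p + 1) → E d) = Fin.cons ((t * l) • u) (l • v) := by
      funext m
      refine Fin.cases ?_ (fun m => ?_) m
      · simp [smul_smul, mul_comm]
      · simp
    rw [e3, hfe]

end PowZAux

open PowZAux in
theorem powZ : PowZS := by
  intro d M p d' M' A δ ε B hB W D k h0 Q hQ hO z
  classical
  let L : Pol M →ₗ[ℂ] (E d → ℂ) :=
    { toFun := fun P => ev A P
      map_add' := fun P R => by funext z; simp [ev]
      map_smul' := fun c P => by funext z; simp [ev, smul_eval] }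
  let V : Submodule ℂ (E d → ℂ) := (homogeneousSubmodule (Fin (M + 1)) ℂ D).map L
  have hV : ∀ f ∈ V, Differentiable ℂ f := by
    rintro f ⟨P, -, rfl⟩
    exact differentiable_ev A P
  have hV0 : ∀ f ∈ V, Ord W f 0 (k + 1) → ∀ z, f z = 0 := by
    rintro f ⟨P, hP, rfl⟩
    exact h0 P hP
  let f : (Fin p → E d) → ℂ := ∑ s ∈ Q.support, coeff s Q •
    fun y => ∏ j, ev A (∏ m ∈ s.support, X (ε m j) ^ s m) (y j)
  have hf : f ∈ Fp V p := by
    refine Submodule.sum_mem _ fun s hs => Submodule.smul_mem _ _ (Submodule.subset_span ?_)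
    refine ⟨fun j => ev A (∏ m ∈ s.support, X (ε m j) ^ s m), fun j => ⟨_, ?_, rfl⟩, rfl⟩
    have h1 : D = ∑ m ∈ s.support, s m := by
      rw [← hQ (mem_support_iff.1 hs)]
      simp [Finsupp.weight_apply, Finsupp.sum]
    rw [h1]
    exact IsHomogeneous.prod _ _ _ fun m _ => isHomogeneous_X_pow _ _
  have he : ∀ y, ev B Q y = f (sl δ y) := by
    intro y
    simp only [f, ev, Finset.sum_apply, Pi.smul_apply, smul_eq_mul, map_prod, map_pow, eval_X]
    rw [eval_eq]
    refine Finset.sum_congr rfl fun s _ => ?_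
    rw [Finset.prod_comm]
    simp only [hB, Finset.prod_pow]
  rw [he]
  refine main hV W k hV0 p f hf (fun v hv => ?_) _
  have hs : sl δ (fun i => v (δ.symm i).1 (δ.symm i).2) = v := by
    funext j i
    simp [sl]
  have h1 := hO (fun i => v (δ.symm i).1 (δ.symm i).2) (fun j => by rw [hs]; exact hv j)
  refine h1.congr_left fun τ => ?_
  rw [he, zero_add]
  congr 1
  funext j i
  simp [sl]

end Pool.Agent.Lib.MP_caab05_ag.LT
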