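import Mathlib
import Pool.Agent.Lib.MP_caab05_ag.LT.Coord
import Pool.Agent.Lib.MP_caab05_ag.LT.JetA

/-! Approximation of the linear coordinates by polynomials in the affine coordinates. -/

namespace Pool.Agent.Lib.MP_caab05_ag.LT

open MvPolynomial Filter Topology Asymptotics

variable {d M : ℕ}

namespace IsoAux

/-- `F` has leading term `c τ^m` -/
def Ld (F : ℂ → ℂ) (c : ℂ) (m : ℕ) : Prop :=
  (fun τ => F τ - c * τ ^ m) =o[𝓝 0] fun τ : ℂ => τ ^ m

lemma pow_isBigO {a b : ℕ} (h : a ≤ b) : (fun τ : ℂ => τ ^ b) =O[𝓝 0] fun τ : ℂ => τ ^ a := by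
  rcases h.eq_or_lt with rfl | h
  · exact isBigO_refl _ _
  · exact (isLittleO_pow_pow h).isBigO

variable {F G : ℂ → ℂ} {c c' : ℂ} {m m' : ℕ}

lemma Ld.isBigO (h : Ld F c m) : F =O[𝓝 0] fun τ : ℂ => τ ^ m :=
  (IsLittleO.isBigO h |>.add ((isBigO_refl (fun τ : ℂ => τ ^ m) _).const_mul_left c)).congr_left
    fun τ => by ring

lemma Ld.of_lt (h : F =O[𝓝 0] fun τ : ℂ => τ ^ m') (hm : m < m') : Ld F 0 m := by
  simpa [Ld] using h.trans_isLittleO (isLittleO_pow_pow hm)

lemma Ld.add (h : Ld F c m) (h' : Ld G c' m) : Ld (fun τ => F τ + G τ) (c + c') m :=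
  (IsLittleO.add h h').congr_left fun τ => by ring

lemma Ld.sub (h : Ld F c m) (h' : Ld G c' m) : Ld (fun τ => F τ - G τ) (c - c') m :=
  (IsLittleO.sub h h').congr_left fun τ => by ring

lemma Ld.const_mul (h : Ld F c m) (a : ℂ) : Ld (fun τ => a * F τ) (a * c) m :=
  (IsLittleO.const_mul_left h a).congr_left fun τ => by ring

lemma Ld.mul (h : Ld F c m) (h' : Ld G c' m') : Ld (fun τ => F τ * G τ) (c * c') (m + m') := by
  have h1 := IsLittleO.mul_isBigO h h'.isBigO
  have h2 := ((isBigO_refl (fun τ : ℂ => τ ^ m) (𝓝 0)).const_mul_left c).mul_isLittleO h'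
  exact (h1.add h2).congr (fun τ => by ring) fun τ => by ring

lemma Ld.one : Ld (fun _ => 1) 1 0 := by simp [Ld]

lemma Ld.zero : Ld (fun _ => 0) 0 m := by simp [Ld]

lemma Ld.pow (h : Ld F c m) (k : ℕ) : Ld (fun τ => F τ ^ k) (c ^ k) (k * m) := by
  induction k with
  | zero => simpa using Ld.one
  | succ k ih => simpa [pow_succ, add_mul] using ih.mul h

lemma Ld.prod {ι : Type} (s : Finset ι) {F : ι → ℂ → ℂ} {c : ι → ℂ} {m : ι → ℕ}
    (h : ∀ i ∈ s, Ld (F i) (c i) (m i)) :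
    Ld (fun τ => ∏ i ∈ s, F i τ) (∏ i ∈ s, c i) (∑ i ∈ s, m i) := by
  classical
  induction s using Finset.induction_on with
  | empty => simpa using Ld.one
  | insert a s ha ih =>
    simp only [Finset.prod_insert ha, Finset.sum_insert ha]
    exact (h a (by simp)).mul (ih fun i hi => h i (by simp [hi]))

lemma Ld.sum {ι : Type} (s : Finset ι) {F : ι → ℂ → ℂ} {c : ι → ℂ}
    (h : ∀ i ∈ s, Ld (F i) (c i) m) : Ld (fun τ => ∑ i ∈ s, F i τ) (∑ i ∈ s, c i) m := by
  classical
  induction s using Finset.induction_on with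
  | empty => simpa using Ld.zero
  | insert a s ha ih =>
    simp only [Finset.sum_insert ha]
    exact (h a (by simp)).add (ih fun i hi => h i (by simp [hi]))

lemma Ld.unique (h : Ld F c m) (h' : Ld F c' m) : c = c' := by
  by_contra hne
  have h1 : (fun τ : ℂ => (c' - c) * τ ^ m) =o[𝓝 0] fun τ : ℂ => τ ^ m :=
    (IsLittleO.sub h h').congr_left fun τ => by ring
  have h2 := (isLittleO_const_mul_left_iff (sub_ne_zero.2 (Ne.symm hne))).1 h1
  refine isLittleO_irrefl ?_ h2
  have h3 : ∀ᶠ τ in 𝓝[≠] (0 : ℂ), τ ^ m ≠ 0 := by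
    filter_upwards [self_mem_nhdsWithin] with τ hτ using pow_ne_zero _ hτ
  exact h3.frequently.filter_mono nhdsWithin_le_nhds

lemma Ld.scale (h : Ld F c m) (a : ℂ) : Ld (fun τ => F (a * τ)) (a ^ m * c) m := by
  have ht : Tendsto (fun τ : ℂ => a * τ) (𝓝 0) (𝓝 0) :=
    (continuous_const.mul continuous_id).tendsto' 0 0 (by simp)
  have h1 := IsLittleO.comp_tendsto h ht
  have h2 : (fun τ : ℂ => (a * τ) ^ m) =O[𝓝 0] fun τ : ℂ => τ ^ m :=
    ((isBigO_refl (fun τ : ℂ => τ ^ m) (𝓝 0)).const_mul_left (a ^ m)).congr_left fun τ => by ring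
  exact (h1.trans_isBigO h2).congr_left fun τ => by simp only [Function.comp]; ring

lemma ld_of_isBigO (hF : AnalyticAt ℂ F 0) (h : F =O[𝓝 0] fun τ : ℂ => τ ^ m) :
    Ld F (iteratedDeriv m F 0 / m.factorial) m := by
  obtain ⟨g, hg, hfg⟩ := hF.exists_eventuallyEq_sum_add_pow_mul (m + 1)
  have h0 := (isBigO_pow_iff hF m).1 h
  have h1 : (fun τ : ℂ => τ ^ (m + 1) * g τ) =O[𝓝 0] fun τ : ℂ => τ ^ (m + 1) :=
    ((isBigO_refl _ _).mul (hg.continuousAt.isBigO_one ℂ)).congr_right fun τ => mul_one _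
  refine (h1.trans_isLittleO (isLittleO_pow_pow (Nat.lt_succ_self m))).congr' ?_ EventuallyEq.rfl
  filter_upwards [hfg] with τ hτ
  rw [hτ, Finset.sum_range_succ, Finset.sum_eq_zero fun i hi => by
    rw [h0 i (Finset.mem_range.1 hi), smul_zero]]
  simp only [smul_eq_mul]; ring

lemma Ld.isBigO_succ (hF : AnalyticAt ℂ F 0) (h : Ld F 0 m) :
    F =O[𝓝 0] fun τ : ℂ => τ ^ (m + 1) := by
  refine (isBigO_pow_iff hF _).2 fun j hj => ?_
  rcases (Nat.lt_succ_iff.1 hj).eq_or_lt with rfl | hj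
  · have := (ld_of_isBigO hF h.isBigO).unique h
    simpa [Nat.factorial_ne_zero] using this
  · exact (isBigO_pow_iff hF _).1 h.isBigO j hj

lemma ld_of_hasDerivAt (h : HasDerivAt F c 0) (h0 : F 0 = 0) : Ld F c 1 :=
  h.isLittleO.congr (fun τ => by simp [h0, mul_comm]) fun τ => by simp

lemma eval_aeval' {σ κ : Type} (x : κ → ℂ) (g : σ → MvPolynomial κ ℂ) (P : MvPolynomial σ ℂ) :
    eval x (aeval g P) = eval (fun i => eval x (g i)) P := by
  induction P using MvPolynomial.induction_on with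
  | C a => simp
  | add p q hp hq => simp only [map_add, hp, hq]
  | mul_X p i hp => simp only [map_mul, hp, aeval_X, eval_X]

/-- the affine coordinates -/
noncomputable def f (A : AbVar d M) (z : E d) : Fin (M + 1) → ℂ := fun i => A.θ z i / A.θ z 0

/-- a polynomial in the affine coordinates -/
noncomputable def Fp (A : AbVar d M) (P : Pol M) (z : E d) : ℂ := eval (f A z) P

lemma f_eq (A : AbVar d M) (z : E d) : f A z = (A.θ z 0)⁻¹ • A.θ z := by
  ext i; simp [f, div_eq_inv_mul]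

lemma Fp_diff (A : AbVar d M) (P : Pol M) :
    ∀ᶠ z in 𝓝 (0 : E d), DifferentiableAt ℂ (Fp A P) z :=
  (CoordAux.eventually_differentiableAt A).mono fun z hz =>
    (differentiable_eval P (f A z)).comp z hz

lemma Fp_strict (A : AbVar d M) (P : Pol M) :
    HasStrictFDerivAt (Fp A P) (fderiv ℂ (Fp A P) 0) 0 :=
  CoordAux.hasStrictFDerivAt_of_eventually (Fp_diff A P)

lemma line_tendsto (u : E d) : Tendsto (fun τ : ℂ => τ • u) (𝓝 0) (𝓝 0) :=
  (continuous_id.smul continuous_const).tendsto' 0 0 (by simp)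

lemma line_deriv (u : E d) (τ : ℂ) : HasDerivAt (fun τ : ℂ => τ • u) u τ := by
  simpa using (hasDerivAt_id τ).smul_const u

lemma Fp_analytic (A : AbVar d M) (P : Pol M) (u : E d) :
    AnalyticAt ℂ (fun τ : ℂ => Fp A P (τ • u)) 0 :=
  Complex.analyticAt_iff_eventually_differentiableAt.2 <|
    ((line_tendsto u).eventually (Fp_diff A P)).mono fun τ h =>
      DifferentiableAt.comp (g := Fp A P) τ h (line_deriv u τ).differentiableAt

/-- the Taylor coefficients along lines are polynomials in the direction -/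
lemma poly_jet (A : AbVar d M) (P : Pol M) (j : ℕ) : ∃ H : MvPolynomial (Fin d) ℂ,
    ∀ u : E d, iteratedDeriv j (fun τ : ℂ => Fp A P (τ • u)) 0 = eval u H := by
  obtain ⟨c, a, a', φ, e, G, -, ha, ha', hφ, -, hd⟩ := exists_ode A
  have ha0 : (a : ℂ) ≠ 0 := by exact_mod_cast ha.ne'
  have ha0' : (a' : ℂ) ≠ 0 := by exact_mod_cast ha'.ne'
  let Fq : MvPolynomial (Option (Fin (M + 1)) ⊕ Fin d) ℂ → E d → ℂ → ℂ :=
    fun Q u τ => eval (Sum.elim (φ (τ • u)) u) Q
  have hX : ∀ i, ∃ Q', ∀ u, ∀ᶠ τ in 𝓝 (0 : ℂ), HasDerivAt (Fq (X i) u) (Fq Q' u τ) τ := by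
    rintro (i | i)
    · refine ⟨C ((a' : ℂ)⁻¹) * ∑ j, X (Sum.inr j) * rename Sum.inl
        (map (Polynomial.eval₂RingHom (Int.castRingHom ℂ) c) (G i j)), fun u => ?_⟩
      filter_upwards [(line_tendsto u).eventually hd] with τ h
      have h1 := (hasDerivAt_pi.1 (h.1.hasFDerivAt.comp_hasDerivAt τ (line_deriv u τ))) i
      have h2 := h.2 u i
      have h3 : Fq (X (Sum.inl i)) u = fun τ => φ (τ • u) i := by ext; simp [Fq]
      rw [h3]
      refine h1.congr_deriv ?_
      simp only [Fq, map_mul, map_sum, eval_C, eval_X, Sum.elim_inr, eval_rename,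
        Sum.elim_comp_inl, eval_map]
      rw [← h2]; field_simp
    · refine ⟨0, fun u => Eventually.of_forall fun τ => ?_⟩
      have h3 : Fq (X (Sum.inr i)) u = fun _ => u i := by ext; simp [Fq]
      rw [h3]
      simpa [Fq] using hasDerivAt_const τ (u i)
  have hD : ∀ Q, ∃ Q', ∀ u, ∀ᶠ τ in 𝓝 (0 : ℂ), HasDerivAt (Fq Q u) (Fq Q' u τ) τ := by
    intro Q
    induction Q using MvPolynomial.induction_on with
    | C b =>
      refine ⟨0, fun u => Eventually.of_forall fun τ => ?_⟩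
      have h3 : Fq (C b) u = fun _ => b := by ext; simp [Fq]
      rw [h3]
      simpa [Fq] using hasDerivAt_const τ b
    | add p q hp hq =>
      obtain ⟨p', hp⟩ := hp
      obtain ⟨q', hq⟩ := hq
      refine ⟨p' + q', fun u => ?_⟩
      filter_upwards [hp u, hq u] with τ h1 h2
      have h3 : Fq (p + q) u = fun τ => Fq p u τ + Fq q u τ := by ext; simp [Fq]
      rw [h3]
      exact (h1.add h2).congr_deriv (by simp [Fq])
    | mul_X p i hp =>
      obtain ⟨p', hp⟩ := hp
      obtain ⟨q', hq⟩ := hX i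
      refine ⟨p' * X i + p * q', fun u => ?_⟩
      filter_upwards [hp u, hq u] with τ h1 h2
      have h3 : Fq (p * X i) u = fun τ => Fq p u τ * Fq (X i) u τ := by ext; simp [Fq]
      rw [h3]
      exact (h1.mul h2).congr_deriv (by simp [Fq])
  have key : ∀ Q, ∃ H : MvPolynomial (Fin d) ℂ, ∀ u, iteratedDeriv j (Fq Q u) 0 = eval u H := by
    induction j with
    | zero =>
      intro Q
      refine ⟨aeval (Sum.elim (fun i => C (φ 0 i)) X) Q, fun u => ?_⟩
      rw [iteratedDeriv_zero, eval_aeval']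
      simp only [Fq, zero_smul]
      congr 2
      ext i; cases i <;> simp
    | succ j ih =>
      intro Q
      obtain ⟨Q', hQ'⟩ := hD Q
      obtain ⟨H, hH⟩ := ih Q'
      refine ⟨H, fun u => ?_⟩
      rw [iteratedDeriv_succ', ← hH u]
      exact EventuallyEq.iteratedDeriv_eq j ((hQ' u).mono fun τ h => h.deriv)
  obtain ⟨H, hH⟩ := key (aeval (fun i => C ((a : ℂ)⁻¹) * X (Sum.inl (some i))) P)
  refine ⟨H, fun u => ?_⟩
  rw [← hH u]
  congr 1
  ext τ
  simp only [Fq, Fp, eval_aeval']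
  congr 2
  ext i
  simp [hφ, f, ha0]

lemma approx_one (A : AbVar d M) (l : E d →ₗ[ℂ] ℂ) :
    ∃ g : Pol M, ∀ u : E d, Ld (fun τ => Fp A g (τ • u)) (l u) 1 := by
  have hf := (CoordAux.eventually_differentiableAt A).self_of_nhds
  obtain ⟨L, hL⟩ := (fderiv ℂ (f A) 0).toLinearMap.exists_leftInverse_of_injective
    (LinearMap.ker_eq_bot.2 A.immersion)
  let lL : (Fin (M + 1) → ℂ) →L[ℂ] ℂ := LinearMap.toContinuousLinearMap (l ∘ₗ L)
  refine ⟨∑ i, C (lL (Pi.single i 1)) * (X i - C (f A 0 i)), fun u => ?_⟩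
  have h1 : ∀ z, Fp A (∑ i, C (lL (Pi.single i 1)) * (X i - C (f A 0 i))) z
      = lL (f A z - f A 0) := fun z => by
    conv_rhs => rw [pi_eq_sum_univ' (f A z - f A 0), map_sum]
    simp [Fp, mul_comm]
  simp only [h1]
  refine ld_of_hasDerivAt ?_ (by simp)
  have h2 : HasFDerivAt (f A) (fderiv ℂ (f A) 0) ((0 : ℂ) • u) := by
    rw [zero_smul]; exact hf.hasFDerivAt
  have h3 := lL.hasFDerivAt.comp_hasDerivAt (0 : ℂ)
    ((h2.comp_hasDerivAt (0 : ℂ) (line_deriv u 0)).sub_const (f A 0))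
  refine h3.congr_deriv ?_
  exact congrArg l (LinearMap.congr_fun hL u)

lemma approx (A : AbVar d M) (l : E d →ₗ[ℂ] ℂ) (a : ℕ) :
    ∃ p : Pol M, ∀ u : E d, Ld (fun τ => Fp A p (τ • u) - l u * τ) 0 (a + 1) := by
  induction a with
  | zero =>
    obtain ⟨g, hg⟩ := approx_one A l
    exact ⟨g, fun u => by simpa [Ld] using hg u⟩
  | succ a ih =>
    obtain ⟨p, hp⟩ := ih
    choose g hg using fun j : Fin d => approx_one A (LinearMap.proj j)
    obtain ⟨H, hH⟩ := poly_jet A p (a + 2)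
    set H' : MvPolynomial (Fin d) ℂ := C (((a + 2).factorial : ℂ)⁻¹) * H with hH'
    have h1 : ∀ u : E d, Ld (fun τ => Fp A p (τ • u) - l u * τ) (eval u H') (a + 2) := fun u => by
      have hl : AnalyticAt ℂ (fun τ : ℂ => l u * τ) 0 := by fun_prop
      have han := (Fp_analytic A p u).sub hl
      have h2 := ld_of_isBigO han ((hp u).isBigO_succ han)
      rw [iteratedDeriv_sub (Fp_analytic A p u).contDiffAt hl.contDiffAt, hH u,
        iteratedDeriv_const_mul_field, iteratedDeriv_fun_id_zero, if_neg (by omega)] at h2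
      have h3 : eval u H' = (eval u H - l u * 0) / ((a + 1 + 1).factorial : ℂ) := by
        simp [hH', div_eq_inv_mul]
      rw [h3]; exact h2
    have hhom : H'.IsHomogeneous (a + 2) := isHomogeneous_of_scaling fun c x _ => by
      change eval (c • x) H' = c ^ (a + 2) * eval x H'
      refine (h1 (c • x)).unique ?_
      convert (h1 x).scale c using 2 with τ
      rw [smul_smul, map_smul, smul_eq_mul, mul_comm τ c]; ring
    refine ⟨p - aeval g H', fun u => ?_⟩
    have h2 : Ld (fun τ => Fp A (aeval g H') (τ • u)) (eval u H') (a + 2) := by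
      have h3 : ∀ z, Fp A (aeval g H') z = eval (fun j => Fp A (g j) z) H' := fun z =>
        eval_aeval' _ _ _
      simp only [h3, eval_eq']
      refine Ld.sum _ fun α hα => Ld.const_mul ?_ _
      have h4 : ∑ j, α j * 1 = a + 2 := by
        have := hhom (mem_support_iff.1 hα)
        rw [Finsupp.weight_apply, Finsupp.sum_fintype _ _ (by simp)] at this
        simpa using this
      rw [← h4]
      exact Ld.prod _ fun j _ => (hg j u).pow (α j)
    have h5 := (h1 u).sub h2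
    rw [sub_self] at h5
    convert h5 using 2 with τ
    simp only [Fp, map_sub]; ring

/-- the test curves -/
noncomputable def gam (T : ℕ) (u v : E d) (τ : ℂ) : E d := τ • u + τ ^ (T + 1) • v

lemma gam_tendsto (T : ℕ) (u v : E d) : Tendsto (gam T u v) (𝓝 0) (𝓝 0) :=
  Continuous.tendsto' (by unfold gam; fun_prop) 0 0 (by simp [gam])

lemma pair_tendsto (T : ℕ) (u v : E d) :
    Tendsto (fun τ : ℂ => (gam T u v τ, τ • u)) (𝓝 0) (𝓝 (0, 0)) :=
  (gam_tendsto T u v).prodMk_nhds (line_tendsto u)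

lemma smul_isBigO (k : ℕ) (v : E d) :
    (fun τ : ℂ => τ ^ k • v) =O[𝓝 0] fun τ : ℂ => τ ^ k :=
  IsBigO.of_bound ‖v‖ (Eventually.of_forall fun τ => by rw [norm_smul, mul_comm])

lemma gam_sub (T : ℕ) (u v : E d) :
    (fun τ : ℂ => gam T u v τ - τ • u) =O[𝓝 0] fun τ : ℂ => τ ^ (T + 1) :=
  (smul_isBigO (T + 1) v).congr_left fun τ => by simp [gam]

lemma gam_isBigO (T : ℕ) (u v : E d) : gam T u v =O[𝓝 0] fun τ : ℂ => τ ^ 1 :=
  ((smul_isBigO 1 u).add ((smul_isBigO (T + 1) v).trans (pow_isBigO (by omega)))).congr_left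
    fun τ => by simp [gam]

lemma approx_curve (A : AbVar d M) (l : E d →ₗ[ℂ] ℂ) (T : ℕ) :
    ∃ p : Pol M, ∀ u v : E d, Ld (fun τ => Fp A p (gam T u v τ) - l u * τ) (l v) (T + 1) := by
  obtain ⟨p, hp⟩ := approx A l T
  refine ⟨p, fun u v => ?_⟩
  have hD : ∀ u, fderiv ℂ (Fp A p) 0 u = l u := fun u => by
    have h0 : Fp A p 0 = 0 := by simpa using (hp u).isBigO.eq_zero_imp.self_of_nhds
    have h2 : HasFDerivAt (Fp A p) (fderiv ℂ (Fp A p) 0) ((0 : ℂ) • u) := by
      rw [zero_smul]; exact (Fp_strict A p).hasFDerivAt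
    have h3 := ld_of_hasDerivAt (h2.comp_hasDerivAt (0 : ℂ) (line_deriv u 0)) (by simpa using h0)
    refine h3.unique ?_
    exact ((IsLittleO.trans_isBigO (hp u) (pow_isBigO (show 1 ≤ T + 1 by omega))).congr_left
      fun τ => by simp)
  have h1 := ((Fp_strict A p).isLittleO.comp_tendsto (pair_tendsto T u v)).trans_isBigO
    (gam_sub T u v)
  refine (h1.add (hp u)).congr_left fun τ => ?_
  simp [hD, gam]
  ring

end IsoAux

end Pool.Agent.Lib.MP_caab05_ag.LT
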