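import Mathlib
import Pool.Agent.Lib.MP_caab05_ag.LT.Base

/-! Equations of bounded degree for the loci of high vanishing order. -/

namespace Pool.Agent.Lib.MP_caab05_ag.LT

open MvPolynomial Filter Topology Asymptotics

variable {d M : ℕ}

namespace EqsAux

/-- the value of an addition law at a pair of points -/
noncomputable def Bv (A : AbVar d M) (B : Fin (M + 1) → MvPolynomial (Fin (M + 1) ⊕ Fin (M + 1)) ℂ)
    (z w : E d) : Fin (M + 1) → ℂ :=
  fun i => eval (Sum.elim (A.θ z) (A.θ w)) (B i)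

/-- addition laws -/
def Law (A : AbVar d M) (k : ℕ × ℕ)
    (B : Fin (M + 1) → MvPolynomial (Fin (M + 1) ⊕ Fin (M + 1)) ℂ) : Prop :=
  (∀ i, (B i).IsWeightedHomogeneous (Sum.elim (fun _ => (1, 0)) (fun _ => (0, 1))) k) ∧
    ∀ z w, ∃ c : ℂ, Bv A B z w = c • A.θ (z + w)

lemma differentiable_Bv (A : AbVar d M)
    (B : Fin (M + 1) → MvPolynomial (Fin (M + 1) ⊕ Fin (M + 1)) ℂ) :
    Differentiable ℂ fun p : E d × E d => Bv A B p.1 p.2 := by
  refine differentiable_pi.2 fun i => ?_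
  refine (differentiable_eval (B i)).comp (f := fun p : E d × E d => Sum.elim (A.θ p.1) (A.θ p.2)) ?_
  refine differentiable_pi.2 fun s => ?_
  cases s with
  | inl s => exact (differentiable_pi.1 A.holo s).comp differentiable_fst
  | inr s => exact (differentiable_pi.1 A.holo s).comp differentiable_snd

lemma Bv_period (A : AbVar d M) {k : ℕ × ℕ}
    {B : Fin (M + 1) → MvPolynomial (Fin (M + 1) ⊕ Fin (M + 1)) ℂ} (hB : Law A k B)
    {l l' : E d} (hl : l ∈ A.Λ) (hl' : l' ∈ A.Λ) {z w : E d} (h : Bv A B z w ≠ 0) :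
    Bv A B (z + l) (w + l') ≠ 0 := by
  obtain ⟨a, b, e⟩ := A.theta l hl
  obtain ⟨a', b', e'⟩ := A.theta l' hl'
  intro h0
  apply h
  ext i
  have h1 := congrFun h0 i
  simp only [Bv, e, e', eval_bihom (hB.1 i), Pi.zero_apply, mul_eq_zero] at h1
  rcases h1 with (h1 | h1) | h1
  · exact absurd h1 (pow_ne_zero _ (Complex.exp_ne_zero _))
  · exact absurd h1 (pow_ne_zero _ (Complex.exp_ne_zero _))
  · exact h1

/-- laws of bounded degree cover everything -/
lemma exists_cover (A : AbVar d M) : ∃ κ : ℕ, ∀ z w : E d, ∃ k B, k.1 ≤ κ ∧ Law A k B ∧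
    Bv A B z w ≠ 0 := by
  obtain ⟨R, hR⟩ := exists_fund A
  let U : ℕ → Set (E d × E d) := fun n =>
    {p | ∃ k B, k.1 ≤ n ∧ Law A k B ∧ Bv A B p.1 p.2 ≠ 0}
  have hU : ∀ n, IsOpen (U n) := by
    intro n
    rw [isOpen_iff_mem_nhds]
    rintro p ⟨k, B, hk, hB, h⟩
    have h1 : IsOpen {q : E d × E d | Bv A B q.1 q.2 ≠ 0} :=
      isOpen_ne_fun (differentiable_Bv A B).continuous continuous_const
    filter_upwards [h1.mem_nhds h] with q hq
    exact ⟨k, B, hk, hB, hq⟩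
  have hK : IsCompact (Metric.closedBall (0 : E d) R ×ˢ Metric.closedBall (0 : E d) R) :=
    (isCompact_closedBall _ _).prod (isCompact_closedBall _ _)
  have hmono : Monotone U := by
    rintro m n hmn p ⟨k, B, hk, hB, h⟩
    exact ⟨k, B, hk.trans hmn, hB, h⟩
  obtain ⟨n, hn⟩ := hK.elim_directed_cover U hU (by
    intro p _
    obtain ⟨k, B, h1, h2, h3⟩ := A.add p.1 p.2
    exact Set.mem_iUnion.2 ⟨k.1, k, B, le_rfl, ⟨fun i => (h1 i).1, h3⟩, h2⟩)
    (hmono.directed_le)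
  refine ⟨n, fun z w => ?_⟩
  obtain ⟨l, hl, hz⟩ := hR z
  obtain ⟨l', hl', hw⟩ := hR w
  obtain ⟨k, B, hk, hB, h⟩ := hn (show (z - l, w - l') ∈ _ from
    ⟨mem_closedBall_zero_iff.2 hz, mem_closedBall_zero_iff.2 hw⟩)
  refine ⟨k, B, hk, hB, ?_⟩
  have := Bv_period A hB hl hl' h
  simpa using this

lemma differentiable_curve {σ : Type} [Fintype σ] (Q : MvPolynomial (σ ⊕ σ) ℂ) {γ : ℂ → σ → ℂ}
    (hγ : Differentiable ℂ γ) (x : σ → ℂ) :
    Differentiable ℂ fun τ => eval (Sum.elim x (γ τ)) Q := by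
  refine (differentiable_eval Q).comp (f := fun τ => Sum.elim x (γ τ)) ?_
  refine differentiable_pi.2 fun s => ?_
  cases s with
  | inl s => exact differentiable_const _
  | inr s => exact differentiable_pi.1 hγ s

/-- the derivatives along a curve in the second group of variables are polynomials in the first -/
lemma exists_deriv_poly {σ : Type} [Fintype σ] (Q : MvPolynomial (σ ⊕ σ) ℂ) {γ : ℂ → σ → ℂ}
    (hγ : Differentiable ℂ γ) (j : ℕ) : ∃ G : MvPolynomial σ ℂ,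
      ∀ x, eval x G = iteratedDeriv j (fun τ => eval (Sum.elim x (γ τ)) Q) 0 := by
  classical
  induction Q using MvPolynomial.induction_on' with
  | monomial m a =>
    refine ⟨C (a * iteratedDeriv j (fun τ => ∏ s, γ τ s ^ m (Sum.inr s)) 0) *
      ∏ s, X s ^ m (Sum.inl s), fun x => ?_⟩
    have : (fun τ => eval (Sum.elim x (γ τ)) (monomial m a)) =
        fun τ => (a * ∏ s, x s ^ m (Sum.inl s)) * ∏ s, γ τ s ^ m (Sum.inr s) := by
      funext τ
      rw [eval_monomial, Finsupp.prod_fintype _ _ (fun _ => pow_zero _), Fintype.prod_sum_type]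
      simp [mul_assoc]
    rw [this, iteratedDeriv_const_mul_field]
    simp only [map_mul, eval_C, map_prod, map_pow, eval_X]
    ring
  | add p q hp hq =>
    obtain ⟨G, hG⟩ := hp
    obtain ⟨H, hH⟩ := hq
    refine ⟨G + H, fun x => ?_⟩
    rw [map_add, hG, hH, ← iteratedDeriv_add
      ((differentiable_curve p hγ x).contDiff.contDiffAt)
      ((differentiable_curve q hγ x).contDiff.contDiffAt)]
    congr 1
    funext τ
    simp

/-- the polynomial composed with a law -/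
noncomputable def Ψ (A : AbVar d M)
    (B : Fin (M + 1) → MvPolynomial (Fin (M + 1) ⊕ Fin (M + 1)) ℂ) (P : Pol M) (z w : E d) : ℂ :=
  eval (Bv A B z w) P

lemma differentiable_Ψ (A : AbVar d M)
    (B : Fin (M + 1) → MvPolynomial (Fin (M + 1) ⊕ Fin (M + 1)) ℂ) (P : Pol M) :
    Differentiable ℂ fun p : E d × E d => Ψ A B P p.1 p.2 :=
  (differentiable_eval P).comp (differentiable_Bv A B)

lemma exists_G (A : AbVar d M) {k : ℕ × ℕ}
    {B : Fin (M + 1) → MvPolynomial (Fin (M + 1) ⊕ Fin (M + 1)) ℂ} (hB : Law A k B)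
    {D : ℕ} {P : Pol M} (hP : P.IsHomogeneous D) (v u : E d) (j : ℕ) :
    ∃ G : Pol M, G.IsHomogeneous (k.1 * D) ∧
      ∀ z, ev A G z = iteratedDeriv j (fun τ : ℂ => Ψ A B P z (v + τ • u)) 0 := by
  have hγ : Differentiable ℂ fun τ : ℂ => A.θ (v + τ • u) := A.holo.comp (by fun_prop)
  obtain ⟨G, hG⟩ := exists_deriv_poly (bind₁ B P) hγ j
  have hb : ∀ y : Fin (M + 1) ⊕ Fin (M + 1) → ℂ,
      eval y (bind₁ B P) = eval (fun i => eval y (B i)) P := by
    intro y
    rw [← coe_aeval_eq_eval, ← coe_aeval_eq_eval]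
    exact aeval_bind₁ y B P
  refine ⟨G, ?_, fun z => ?_⟩
  · refine isHomogeneous_of_scaling fun c x _ => ?_
    simp only [aeval_eq_eval]
    rw [hG, hG, ← iteratedDeriv_const_mul_field]
    congr 1
    funext τ
    rw [hb, hb]
    have : (fun i => eval (Sum.elim (c • x) (A.θ (v + τ • u))) (B i)) =
        c ^ k.1 • fun i => eval (Sum.elim x (A.θ (v + τ • u))) (B i) := by
      funext i
      have := eval_bihom (hB.1 i) c 1 x (A.θ (v + τ • u))
      simpa using this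
    rw [this, eval_smul_of_hom hP, pow_mul]
  · unfold ev
    rw [hG]
    congr 1
    funext τ
    rw [hb]
    rfl

/-- the ratio between the two sides of the addition law -/
noncomputable def ρ (A : AbVar d M)
    (B : Fin (M + 1) → MvPolynomial (Fin (M + 1) ⊕ Fin (M + 1)) ℂ) (D : ℕ) (z w : E d) : ℝ :=
  (‖Bv A B z w‖ / ‖A.θ (z + w)‖) ^ D

lemma continuous_ρ (A : AbVar d M)
    (B : Fin (M + 1) → MvPolynomial (Fin (M + 1) ⊕ Fin (M + 1)) ℂ) (D : ℕ) :
    Continuous fun p : E d × E d => ρ A B D p.1 p.2 := by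
  refine Continuous.pow (Continuous.div (differentiable_Bv A B).continuous.norm ?_ ?_) D
  · exact (A.holo.continuous.comp (continuous_fst.add continuous_snd)).norm
  · exact fun p => norm_ne_zero_iff.2 (A.ne_zero _)

lemma norm_Ψ (A : AbVar d M) {k : ℕ × ℕ}
    {B : Fin (M + 1) → MvPolynomial (Fin (M + 1) ⊕ Fin (M + 1)) ℂ} (hB : Law A k B)
    {D : ℕ} {P : Pol M} (hP : P.IsHomogeneous D) (z w : E d) :
    ‖Ψ A B P z w‖ = ρ A B D z w * ‖ev A P (z + w)‖ := by
  obtain ⟨c, hc⟩ := hB.2 z w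
  unfold Ψ ρ ev
  rw [hc, eval_smul_of_hom hP, norm_mul, norm_pow, norm_smul,
    mul_div_cancel_right₀ _ (norm_ne_zero_iff.2 (A.ne_zero _))]

/-- along continuous curves `Ψ` is dominated by `ev P` -/
lemma Ψ_isBigO (A : AbVar d M) {k : ℕ × ℕ}
    {B : Fin (M + 1) → MvPolynomial (Fin (M + 1) ⊕ Fin (M + 1)) ℂ} (hB : Law A k B)
    {D : ℕ} {P : Pol M} (hP : P.IsHomogeneous D) {a b : ℂ → E d} (ha : Continuous a)
    (hb : Continuous b) :
    (fun τ => Ψ A B P (a τ) (b τ)) =O[𝓝 0] fun τ => ev A P (a τ + b τ) := by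
  have h1 : Continuous fun τ => ρ A B D (a τ) (b τ) :=
    (continuous_ρ A B D).comp (f := fun τ => (a τ, b τ)) (ha.prodMk hb)
  have h2 : (fun τ => ρ A B D (a τ) (b τ)) =O[𝓝 0] fun _ => (1 : ℝ) :=
    h1.continuousAt.isBigO_one ℝ
  have h3 := h2.mul (isBigO_refl (fun τ => ‖ev A P (a τ + b τ)‖) (𝓝 0))
  simp only [one_mul] at h3
  rw [← isBigO_norm_norm]
  simpa only [norm_Ψ A hB hP] using h3

lemma isBigO_Ψ (A : AbVar d M) {k : ℕ × ℕ}
    {B : Fin (M + 1) → MvPolynomial (Fin (M + 1) ⊕ Fin (M + 1)) ℂ} (hB : Law A k B)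
    {D : ℕ} {P : Pol M} (hP : P.IsHomogeneous D) {a b : ℂ → E d} (ha : Continuous a)
    (hb : Continuous b) (h0 : Bv A B (a 0) (b 0) ≠ 0) :
    (fun τ => ev A P (a τ + b τ)) =O[𝓝 0] fun τ => Ψ A B P (a τ) (b τ) := by
  have h1 : Continuous fun τ => ρ A B D (a τ) (b τ) :=
    (continuous_ρ A B D).comp (f := fun τ => (a τ, b τ)) (ha.prodMk hb)
  have hpos : ρ A B D (a 0) (b 0) ≠ 0 :=
    pow_ne_zero _ (div_ne_zero (norm_ne_zero_iff.2 h0) (norm_ne_zero_iff.2 (A.ne_zero _)))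
  have h2 : (fun τ => (ρ A B D (a τ) (b τ))⁻¹) =O[𝓝 0] fun _ => (1 : ℝ) :=
    (h1.continuousAt.inv₀ hpos).isBigO_one ℝ
  have h3 := h2.mul (isBigO_refl (fun τ => ‖Ψ A B P (a τ) (b τ)‖) (𝓝 0))
  simp only [one_mul] at h3
  rw [← isBigO_norm_norm]
  refine h3.congr' ?_ EventuallyEq.rfl
  filter_upwards [h1.continuousAt.eventually_ne hpos] with τ hτ
  rw [norm_Ψ A hB hP, inv_mul_cancel_left₀ hτ]

/-- Schwarz lemma with multiplicity -/
lemma schwarz {g : ℂ → ℂ} (hg : Differentiable ℂ g) {n : ℕ}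
    (hO : g =O[𝓝 0] fun τ : ℂ => τ ^ (n + 1)) {K : ℝ} (hK : ∀ s : ℂ, ‖s‖ ≤ 1 → ‖g s‖ ≤ K)
    {s : ℂ} (hs : ‖s‖ < 1) : ‖g s‖ ≤ K * ‖s‖ ^ (n + 1) := by
  have h0 : g 0 = 0 := by
    have := (isBigO_pow_iff (hg.analyticAt 0) (n + 1)).1 hO 0 (Nat.succ_pos n)
    simpa using this
  have h1 := Complex.dist_le_mul_div_pow_of_mapsTo_ball_of_isLittleO (f := g) (c := 0) (z := s)
    (R₁ := 1) (R₂ := K) (n := n) hg.differentiableOn
    (fun w hw => by
      rw [h0, mem_closedBall_zero_iff]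
      exact hK w (mem_ball_zero_iff.1 hw).le)
    (by
      simp only [h0, sub_zero]
      refine hO.trans_isLittleO ?_
      have := isLittleO_pow_pow (𝕜 := ℂ) (Nat.lt_succ_self n)
      simpa only [← norm_pow, isLittleO_norm_right] using this)
    (mem_ball_zero_iff.2 hs)
  simpa [h0] using h1

/-- derivatives in the second variable of a function of two variables vanishing to a high order
on all lines -/
lemma deriv_isBigO {H : ℂ × ℂ → ℂ} (hH : Differentiable ℂ H) {j T : ℕ} {n : ℕ} (hn : j + T + 1 ≤ n)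
    (hO : ∀ a b : ℂ, (fun s : ℂ => H (s * a, s * b)) =O[𝓝 0] fun s : ℂ => s ^ n) :
    (fun σ : ℂ => iteratedDeriv j (fun τ => H (σ, τ)) 0) =O[𝓝 0] fun σ : ℂ => σ ^ (T + 1) := by
  obtain ⟨n, rfl⟩ : ∃ m, n = m + 1 := ⟨n - 1, by omega⟩
  obtain ⟨K, hK⟩ := (isCompact_closedBall (0 : ℂ × ℂ) 1).exists_bound_of_continuousOn
    hH.continuous.continuousOn
  have hK0 : 0 ≤ K := (norm_nonneg _).trans (hK 0 (by simp))
  have hd : ∀ σ : ℂ, Differentiable ℂ fun τ => H (σ, τ) := fun σ => hH.comp (by fun_prop)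
  refine IsBigO.of_bound (j.factorial * K) ?_
  filter_upwards [Metric.ball_mem_nhds (0 : ℂ) one_pos] with σ hσ
  rw [mem_ball_zero_iff] at hσ
  rcases eq_or_ne σ 0 with rfl | hσ0
  · have h1 := hO 0 1
    simp only [mul_zero, mul_one] at h1
    rw [(isBigO_pow_iff ((hd 0).analyticAt 0) (n + 1)).1 h1 j (by omega)]
    simp
  have hpos : 0 < ‖σ‖ := norm_pos_iff.2 hσ0
  have h1 : ∀ τ ∈ Metric.sphere (0 : ℂ) ‖σ‖, ‖H (σ, τ)‖ ≤ K * ‖σ‖ ^ (n + 1) := by
    intro τ hτ
    rw [mem_sphere_zero_iff_norm] at hτ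
    have h2 := schwarz (g := fun s : ℂ => H (s * 1, s * (τ / σ))) (hH.comp (by fun_prop))
      (hO 1 (τ / σ)) (K := K) (fun s hs => hK _ (by
        rw [mem_closedBall_zero_iff, Prod.norm_def]
        simp only [mul_one, norm_mul, norm_div, hτ, div_self hpos.ne', max_self]
        exact hs)) hσ
    simpa only [mul_one, mul_div_cancel₀ _ hσ0] using h2
  have h3 := Complex.norm_iteratedDeriv_le_of_forall_mem_sphere_norm_le j hpos
    (hd σ).diffContOnCl h1
  refine h3.trans ?_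
  rw [div_le_iff₀ (pow_pos hpos j), norm_pow, mul_assoc, mul_assoc, ← pow_add]
  gcongr ?_ * (K * ?_)
  exact pow_le_pow_of_le_one hpos.le hσ.le (by omega)

end EqsAux

open EqsAux in
theorem exists_eqs (A : AbVar d M) : ∃ κ : ℕ, ∀ (D : ℕ) (P : Pol M), P.IsHomogeneous D →
    ∀ (W : Submodule ℂ (E d)) (v : E d) (N : ℕ), ∃ 𝒢 : Set (Pol M),
      (∀ G ∈ 𝒢, ∃ k ≤ κ * D, G.IsHomogeneous k) ∧
      (∀ z, (∀ G ∈ 𝒢, ev A G z = 0) ↔ Ord W (ev A P) (z + v) N) ∧
      ∀ T : ℕ, Ord W (ev A P) v (N + T) → ∀ G ∈ 𝒢, Ord W (ev A G) 0 (T + 1) := by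
  obtain ⟨κ, hκ⟩ := exists_cover A
  refine ⟨κ, fun D P hP W v N => ?_⟩
  have hdiff : ∀ B z (u : E d), Differentiable ℂ fun τ : ℂ => Ψ A B P z (v + τ • u) :=
    fun B z u => (differentiable_Ψ A B P).comp (f := fun τ : ℂ => (z, v + τ • u)) (by fun_prop)
  refine ⟨{G | ∃ k B u j, k.1 ≤ κ ∧ Law A k B ∧ u ∈ W ∧ j < N ∧ G.IsHomogeneous (k.1 * D) ∧
      ∀ z, ev A G z = iteratedDeriv j (fun τ : ℂ => Ψ A B P z (v + τ • u)) 0}, ?_, ?_, ?_⟩
  · rintro G ⟨k, B, u, j, hk, -, -, -, hG, -⟩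
    exact ⟨_, Nat.mul_le_mul_right D hk, hG⟩
  · intro z
    constructor
    · intro h u hu
      obtain ⟨k, B, hk, hB, h0⟩ := hκ z v
      have h1 : (fun τ : ℂ => Ψ A B P z (v + τ • u)) =O[𝓝 0] fun τ : ℂ => τ ^ N := by
        refine (isBigO_pow_iff ((hdiff B z u).analyticAt 0) N).2 fun j hj => ?_
        obtain ⟨G, hG, hG'⟩ := exists_G A hB hP v u j
        rw [← hG' z]
        exact h G ⟨k, B, u, j, hk, hB, hu, hj, hG, hG'⟩
      have h2 := isBigO_Ψ A hB hP (a := fun _ => z) (b := fun τ : ℂ => v + τ • u)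
        continuous_const (by fun_prop) (by simpa using h0)
      simpa only [add_assoc] using h2.trans h1
    · rintro h G ⟨k, B, u, j, -, hB, hu, hj, -, hG⟩
      rw [hG z]
      refine (isBigO_pow_iff ((hdiff B z u).analyticAt 0) N).1 ?_ j hj
      have h2 := Ψ_isBigO A hB hP (a := fun _ => z) (b := fun τ : ℂ => v + τ • u)
        continuous_const (by fun_prop)
      refine h2.trans ?_
      simpa only [add_assoc] using h u hu
  · rintro T h G ⟨k, B, u, j, -, hB, hu, hj, -, hG⟩ u' hu'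
    simp only [hG, zero_add]
    refine deriv_isBigO (H := fun p : ℂ × ℂ => Ψ A B P (p.1 • u') (v + p.2 • u))
      ((differentiable_Ψ A B P).comp (f := fun p : ℂ × ℂ => (p.1 • u', v + p.2 • u))
        (by fun_prop)) (n := N + T) (by omega) fun a b => ?_
    have h2 := Ψ_isBigO A hB hP (a := fun s : ℂ => (s * a) • u')
      (b := fun s : ℂ => v + (s * b) • u) (by fun_prop) (by fun_prop)
    refine h2.trans ?_
    have h3 := h (a • u' + b • u) (W.add_mem (W.smul_mem a hu') (W.smul_mem b hu))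
    refine h3.congr_left fun s => ?_
    congr 1
    module

end Pool.Agent.Lib.MP_caab05_ag.LT
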