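import Mathlib
import Pool.Agent.Lib.MP_caab05_ag.LT.Base

/-! Irreducible subsets of the abelian variety. -/

namespace Pool.Agent.Lib.MP_caab05_ag.LT

open MvPolynomial Filter Topology Asymptotics

variable {d M : ℕ}

open scoped Pointwise

theorem transl (A : AbVar d M) {P : Pol M} {k : ℕ} (hP : P.IsHomogeneous k) (a z₀ : E d) :
    ∃ (P' : Pol M) (k' : ℕ), P'.IsHomogeneous k' ∧
      (∀ z, ev A P (z + a) = 0 → ev A P' z = 0) ∧ (ev A P (z₀ + a) ≠ 0 → ev A P' z₀ ≠ 0) := by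
  obtain ⟨k0, B, hB, hne, hc⟩ := A.add z₀ a
  let B' : Fin (M + 1) → Pol M := fun i => aeval (Sum.elim X fun j => C (A.θ a j)) (B i)
  have h1 : ∀ (x : Fin (M + 1) → ℂ) i, eval x (B' i) = eval (Sum.elim x (A.θ a)) (B i) := by
    intro x i
    rw [← coe_aeval_eq_eval, ← coe_aeval_eq_eval]
    simp only [B', RingHom.coe_coe]
    rw [← AlgHom.comp_apply, comp_aeval]
    congr 2
    ext j
    cases j <;> simp
  have h2 : ∀ x : Fin (M + 1) → ℂ, eval x (aeval B' P) =
      eval (fun i => eval (Sum.elim x (A.θ a)) (B i)) P := by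
    intro x
    rw [← coe_aeval_eq_eval x, ← coe_aeval_eq_eval fun i => eval (Sum.elim x (A.θ a)) (B i)]
    simp only [RingHom.coe_coe]
    rw [← AlgHom.comp_apply, comp_aeval]
    congr 2
    ext i
    rw [← h1, ← coe_aeval_eq_eval]
    rfl
  refine ⟨aeval B' P, k0.1 * k, ?_, ?_, ?_⟩
  · apply isHomogeneous_of_scaling
    intro c x _
    have h3 : (fun i => eval (Sum.elim (c • x) (A.θ a)) (B i)) =
        c ^ k0.1 • fun i => eval (Sum.elim x (A.θ a)) (B i) := by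
      ext i
      have := eval_bihom (hB i).1 c 1 x (A.θ a)
      simpa using this
    have h4 := h2 (c • x)
    rw [h3, eval_smul_of_hom hP, ← h2 x, ← pow_mul, ← coe_aeval_eq_eval, ← coe_aeval_eq_eval] at h4
    exact h4
  · intro z hz
    obtain ⟨c, hc⟩ := hc z a
    unfold ev at hz ⊢
    rw [h2, hc, eval_smul_of_hom hP, hz, mul_zero]
  · intro hz
    obtain ⟨c, hc⟩ := hc z₀ a
    unfold ev at hz ⊢
    rw [h2, hc, eval_smul_of_hom hP]
    refine mul_ne_zero (pow_ne_zero _ ?_) hz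
    rintro rfl
    exact hne (by rw [hc, zero_smul])

theorem irr_univ (A : AbVar d M) : Irr A Set.univ := by
  refine ⟨Set.univ_nonempty, fun P Q k l _ _ h => ?_⟩
  by_contra hcon
  push Not at hcon
  obtain ⟨⟨z, -, hz⟩, w, -, hw⟩ := hcon
  have han : ∀ R : Pol M, AnalyticOnNhd ℂ (fun τ : ℂ => ev A R (z + τ • (w - z))) Set.univ := by
    intro R
    rw [Complex.analyticOnNhd_univ_iff_differentiable]
    exact (differentiable_ev A R).comp (by fun_prop)
  rcases (han P).eq_zero_or_eq_zero_of_mul_eq_zero (han Q) (fun τ _ => h _ trivial)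
    isPreconnected_univ with h1 | h1
  · exact hz (by simpa using h1 0 trivial)
  · exact hw (by simpa using h1 1 trivial)

namespace ZarAux

lemma two (A : AbVar d M) {V : Set (E d)} (hV : Irr A V) {P Q : Pol M} {k l : ℕ}
    (hP : P.IsHomogeneous k) (hQ : Q.IsHomogeneous l) {a b v w : E d} (hv : v ∈ V) (hw : w ∈ V)
    (h1 : ev A P (v + a) ≠ 0) (h2 : ev A Q (w + b) ≠ 0) :
    ∃ u ∈ V, ev A P (u + a) ≠ 0 ∧ ev A Q (u + b) ≠ 0 := by
  obtain ⟨P', k', hP', h3, h4⟩ := transl A hP a v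
  obtain ⟨Q', l', hQ', h5, h6⟩ := transl A hQ b w
  by_contra hcon
  push Not at hcon
  rcases hV.2 P' Q' k' l' hP' hQ' (fun z hz => by
    by_cases h : ev A P (z + a) = 0
    · rw [h3 z h, zero_mul]
    · rw [h5 z (hcon z hz h), mul_zero]) with h | h
  · exact h4 h1 (h v hv)
  · exact h6 h2 (h w hw)

/-- the ideal of a set -/
def idl (A : AbVar d M) (T : Set (E d)) : Ideal (Pol M) where
  carrier := {P | ∀ z ∈ T, ev A P z = 0}
  add_mem' := fun hP hQ z hz => by rw [ev_add, hP z hz, hQ z hz, add_zero]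
  zero_mem' := fun z _ => ev_zero A z
  smul_mem' := fun c P hP z hz => by rw [smul_eq_mul, ev_mul, hP z hz, mul_zero]

lemma idl_lt (A : AbVar d M) {T : Set (E d)} {P : Pol M} (h : ¬ ∀ z ∈ T, ev A P z = 0) :
    idl A T < idl A {z ∈ T | ev A P z = 0} := by
  refine lt_of_le_of_ne (fun Q hQ z hz => hQ z hz.1) fun h1 => h ?_
  have h2 : P ∈ idl A {z ∈ T | ev A P z = 0} := fun z hz => hz.2
  rw [← h1] at h2
  exact h2

/-- there are `n` forms of degree `m` independent on `V` -/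
def Many (A : AbVar d M) (V : Set (E d)) (m n : ℕ) : Prop :=
  ∃ (ι : Type) (_ : Fintype ι) (P : ι → Pol M), Fintype.card ι = n ∧
    (∀ i, (P i).IsHomogeneous m) ∧
    ∀ a : ι → ℂ, (∀ z ∈ V, ∑ i, a i * ev A (P i) z = 0) → ∀ i, a i = 0

lemma exists_form (A : AbVar d M) (z : E d) (m : ℕ) :
    ∃ P : Pol M, P.IsHomogeneous m ∧ ev A P z ≠ 0 := by
  obtain ⟨i, hi⟩ := Function.ne_iff.1 (A.ne_zero z)
  exact ⟨X i ^ m, isHomogeneous_X_pow i m, by simpa using fun h => absurd h hi⟩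

lemma many_one (A : AbVar d M) {V : Set (E d)} (hV : V.Nonempty) (m : ℕ) : Many A V m 1 := by
  obtain ⟨z, hz⟩ := hV
  obtain ⟨P, hP, h⟩ := exists_form A z m
  refine ⟨Unit, inferInstance, fun _ => P, by simp, fun _ => hP, fun a ha i => ?_⟩
  have := ha z hz
  simpa [h] using this

lemma ev_sum (A : AbVar d M) {ι : Type} [Fintype ι] (a : ι → ℂ) (P : ι → Pol M) (z : E d) :
    ev A (∑ i, a i • P i) z = ∑ i, a i * ev A (P i) z := by
  simp [ev, smul_eval]

lemma many_step (A : AbVar d M) {V V' : Set (E d)} (hVV : V ⊆ V') (hV' : Irr A V') {Q : Pol M}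
    {q : ℕ} (hQ : Q.IsHomogeneous q) (h1 : ∀ z ∈ V, ev A Q z = 0) (h2 : ¬ ∀ z ∈ V', ev A Q z = 0)
    {m n n' : ℕ} (h3 : Many A V' m n) (h4 : Many A V (m + q) n') : Many A V' (m + q) (n + n') := by
  obtain ⟨ι, _, P, rfl, hP, hP'⟩ := h3
  obtain ⟨κ, _, R, rfl, hR, hR'⟩ := h4
  refine ⟨ι ⊕ κ, inferInstance, Sum.elim (fun i => P i * Q) R, by simp, ?_, fun a ha => ?_⟩
  · rintro (i | i)
    · exact (hP i).mul hQ
    · exact hR i
  · simp only [Fintype.sum_sum_type, Sum.elim_inl, Sum.elim_inr, ev_mul] at ha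
    have h5 : ∀ j, a (.inr j) = 0 := hR' (fun j => a (.inr j)) fun z hz => by
      simpa [h1 z hz] using ha z (hVV hz)
    have h6 : (∑ i, a (.inl i) • P i).IsHomogeneous m :=
      IsHomogeneous.sum _ _ _ fun i _ =>
        (homogeneousSubmodule _ ℂ m).smul_mem _ (hP i)
    have h7 := (hV'.2 _ Q m q h6 hQ fun z hz => by
      have := ha z hz
      simp only [h5, zero_mul, Finset.sum_const_zero, add_zero, ← mul_assoc] at this
      rwa [ev_sum, Finset.sum_mul]).resolve_right h2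
    have h8 : ∀ i, a (.inl i) = 0 := hP' (fun i => a (.inl i)) fun z hz => by
      rw [← ev_sum]
      exact h7 z hz
    rintro (i | i)
    · exact h8 i
    · exact h5 i

lemma many_le (A : AbVar d M) {C : ℝ} (hC : HilBd A C) {V : Set (E d)} {m n : ℕ}
    (h : Many A V m n) : (n : ℝ) ≤ C * ((m : ℝ) + 1) ^ d := by
  obtain ⟨ι, _, P, rfl, hP, hP'⟩ := h
  refine hC m ι P hP (Fintype.linearIndependent_iff.2 fun a ha => hP' a fun z _ => ?_)
  simpa using congrFun ha z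

end ZarAux

open ZarAux

theorem irr_add (A : AbVar d M) {V H : Set (E d)} (hV : Irr A V) (hH : Irr A H) :
    Irr A (V + H) := by
  refine ⟨hV.1.add hH.1, fun P Q k l hP hQ h => ?_⟩
  by_contra hcon
  push Not at hcon
  obtain ⟨⟨_, ⟨v, hv, x, hx, rfl⟩, h1⟩, _, ⟨w, hw, y, hy, rfl⟩, h2⟩ := hcon
  obtain ⟨u, hu, h3, h4⟩ := two A hV hP hQ hv hw h1 h2
  rw [add_comm] at h3 h4
  obtain ⟨t, ht, h5, h6⟩ := two A hH hP hQ hx hy h3 h4
  rw [add_comm] at h5 h6
  exact mul_ne_zero h5 h6 (h _ (Set.add_mem_add hu ht))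

theorem dichotomy (A : AbVar d M) {S : Set (E d)} (h0 : (0 : E d) ∈ S) :
    (∃ H ⊆ S, Irr A H ∧ (0 : E d) ∈ H ∧ ¬ H ⊆ (A.Λ : Set (E d))) ∨
      ∃ (U : Pol M) (k : ℕ), U.IsHomogeneous k ∧ ev A U 0 ≠ 0 ∧
        ∀ z ∈ S, z ∈ A.Λ ∨ ev A U z = 0 := by
  refine or_iff_not_imp_left.2 fun hno => ?_
  have key : ∀ T : Set (E d), T ⊆ S → ∃ (U : Pol M) (k : ℕ), U.IsHomogeneous k ∧ ev A U 0 ≠ 0 ∧
      ∀ z ∈ T, z ∈ A.Λ ∨ ev A U z = 0 := by
    intro T
    induction T using (InvImage.wf (idl A) (wellFounded_gt (α := Ideal (Pol M)))).induction with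
    | _ T ih =>
    intro hT
    by_cases hΛ : T ⊆ (A.Λ : Set (E d))
    · exact ⟨1, 0, isHomogeneous_one _ _, by simp, fun z hz => Or.inl (hΛ hz)⟩
    by_cases hI : Irr A T
    · by_cases hcl : (0 : E d) ∈ cl A T
      · refine (hno ⟨insert 0 T, Set.insert_subset h0 hT,
          ⟨Set.insert_nonempty _ _, fun P Q k l hP hQ h => ?_⟩, Set.mem_insert _ _,
          fun h => hΛ ((Set.subset_insert _ _).trans h)⟩).elim
        rcases hI.2 P Q k l hP hQ fun z hz => h z (Set.mem_insert_of_mem _ hz) with h1 | h1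
        · exact Or.inl (Set.forall_mem_insert.2 ⟨hcl P k hP h1, h1⟩)
        · exact Or.inr (Set.forall_mem_insert.2 ⟨hcl Q l hQ h1, h1⟩)
      · simp only [cl, Set.mem_ofPred_eq] at hcl
        push Not at hcl
        obtain ⟨U, k, hU, h1, h2⟩ := hcl
        exact ⟨U, k, hU, h2, fun z hz => Or.inr (h1 z hz)⟩
    · have hne : T.Nonempty := by
        rcases T.eq_empty_or_nonempty with rfl | h
        · exact (hΛ (Set.empty_subset _)).elim
        · exact h
      simp only [Irr, hne, true_and, not_forall, not_or] at hI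
      obtain ⟨P, Q, k, l, -, -, h1, h2, h3⟩ := hI
      obtain ⟨U, a, hU, h4, h5⟩ := ih _ (idl_lt A (P := P) (by simpa using h2))
        ((Set.sep_subset _ _).trans hT)
      obtain ⟨U', a', hU', h6, h7⟩ := ih _ (idl_lt A (P := Q) (by simpa using h3))
        ((Set.sep_subset _ _).trans hT)
      refine ⟨U * U', a + a', hU.mul hU', by simp [h4, h6], fun z hz => ?_⟩
      rcases mul_eq_zero.1 (h1 z hz) with h | h
      · exact (h5 z ⟨hz, h⟩).imp_right fun h' => by simp [h']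
      · exact (h7 z ⟨hz, h⟩).imp_right fun h' => by simp [h']
  exact key S subset_rfl

theorem chain (A : AbVar d M) {C : ℝ} (hC : HilBd A C) (V : ℕ → Set (E d))
    (hV : ∀ i ≤ d + 1, Irr A (V i)) (hm : ∀ i ≤ d, V i ⊆ V (i + 1))
    (hs : ∀ i ≤ d, ¬ V (i + 1) ⊆ cl A (V i)) : False := by
  have h1 : ∀ i, ∃ k : ℕ, i ≤ d → ∃ Q : Pol M, Q.IsHomogeneous k ∧ (∀ z ∈ V i, ev A Q z = 0) ∧
      ∃ z ∈ V (i + 1), ev A Q z ≠ 0 := by
    intro i
    by_cases hi : i ≤ d
    · obtain ⟨z, hz, h⟩ := Set.not_subset.1 (hs i hi)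
      simp only [cl, Set.mem_ofPred_eq] at h
      push Not at h
      obtain ⟨Q, k, hQ, h2, h3⟩ := h
      exact ⟨k, fun _ => ⟨Q, hQ, h2, z, hz, h3⟩⟩
    · exact ⟨0, fun h => (hi h).elim⟩
  choose k hk using h1
  obtain ⟨q, hq⟩ : ∃ q, ∀ i ≤ d, k i ≤ q :=
    ⟨(Finset.range (d + 1)).sup k, fun i hi => Finset.le_sup (Finset.mem_range.2 (by omega))⟩
  have h2 : ∀ i ≤ d, ∃ Q : Pol M, Q.IsHomogeneous q ∧ (∀ z ∈ V i, ev A Q z = 0) ∧
      ¬ ∀ z ∈ V (i + 1), ev A Q z = 0 := by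
    intro i hi
    obtain ⟨Q, hQ, h3, z, hz, h4⟩ := hk i hi
    obtain ⟨R, hR, h5⟩ := exists_form A z (q - k i)
    refine ⟨Q * R, ?_, fun w hw => by simp [h3 w hw], fun h => ?_⟩
    · have := hQ.mul hR
      rwa [Nat.add_sub_cancel' (hq i hi)] at this
    · exact mul_ne_zero h4 h5 (by simpa using h z hz)
  have h3 : ∀ r ≤ d + 1, ∀ s, Many A (V r) (s * q) ((s + r).choose r) := by
    intro r
    induction r with
    | zero => exact fun hr s => by simpa using many_one A (hV 0 hr).1 (s * q)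
    | succ r ih =>
      intro hr s
      obtain ⟨Q, hQ, h4, h5⟩ := h2 r (by omega)
      induction s with
      | zero => simpa using many_one A (hV _ hr).1 0
      | succ s ihs =>
        have h6 := ih (by omega) (s + 1)
        rw [add_mul, one_mul] at h6 ⊢
        have h7 := many_step A (hm r (by omega)) (hV _ hr) hQ h4 h5 ihs h6
        have h8 : (s + 1 + (r + 1)).choose (r + 1) =
            (s + (r + 1)).choose (r + 1) + (s + 1 + r).choose r := by
          rw [show s + 1 + (r + 1) = (s + 1 + r) + 1 by ring, Nat.choose_succ_succ',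
            show s + (r + 1) = s + 1 + r by ring, add_comm]
        rwa [h8]
  obtain ⟨s, hs'⟩ := exists_nat_gt (|C| * ((q : ℝ) + 1) ^ d * (d + 1).factorial)
  have h4 := many_le A hC (h3 (d + 1) le_rfl s)
  have h5 := Nat.pow_le_choose (α := ℝ) (d + 1) (s + (d + 1))
  rw [show s + (d + 1) + 1 - (d + 1) = s + 1 by omega] at h5
  have hf : (0 : ℝ) < (d + 1).factorial := by exact_mod_cast Nat.factorial_pos _
  have hs0 : (0 : ℝ) ≤ s := Nat.cast_nonneg s
  have hq0 : (0 : ℝ) ≤ q := Nat.cast_nonneg q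
  have h6 : (((s * q : ℕ) : ℝ) + 1) ^ d ≤ ((q : ℝ) + 1) ^ d * ((s : ℝ) + 1) ^ d := by
    rw [← mul_pow]
    refine pow_le_pow_left₀ (by positivity) ?_ d
    push_cast
    nlinarith
  have h7 : C * (((s * q : ℕ) : ℝ) + 1) ^ d ≤ |C| * (((q : ℝ) + 1) ^ d * ((s : ℝ) + 1) ^ d) :=
    mul_le_mul (le_abs_self C) h6 (by positivity) (abs_nonneg C)
  have h8 := (div_le_iff₀ hf).1 (h5.trans (h4.trans h7))
  push_cast at h8
  have h9 : (0 : ℝ) < ((s : ℝ) + 1) ^ d := by positivity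
  rw [pow_succ] at h8
  nlinarith

end Pool.Agent.Lib.MP_caab05_ag.LT
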