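import Mathlib
import Pool.Agent.Lib.MP_caab05_ag.LT.Zar

/-! The stabilizer of a proper closed subset of a simple abelian variety is finite. -/

namespace Pool.Agent.Lib.MP_caab05_ag.LT

open MvPolynomial Filter Topology Asymptotics

variable {d M : ℕ}

open scoped Pointwise

namespace StabAux

section General

variable {X : Type} [NormedAddCommGroup X] [NormedSpace ℝ X] [ProperSpace X]

omit [NormedSpace ℝ X] in
/-- a closed submonoid containing a cocompact subgroup is stable under negation -/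
lemma neg_mem_of_cocompact (G : AddSubmonoid X) (hG : IsClosed (G : Set X)) (L : AddSubgroup X)
    (hL : ∀ l ∈ L, l ∈ G) {R : ℝ} (hR : ∀ z : X, ∃ l ∈ L, ‖z - l‖ ≤ R) {g : X} (hg : g ∈ G) :
    -g ∈ G := by
  choose l hl hlR using fun k : ℕ => hR (k • g)
  obtain ⟨x, -, φ, hφ, hx⟩ := (isCompact_closedBall (0 : X) R).tendsto_subseq
    (x := fun k : ℕ => k • g - l k) fun k => mem_closedBall_zero_iff.2 (hlR k)
  have h1 := (hx.comp (tendsto_add_atTop_nat 1)).sub hx
  rw [sub_self] at h1
  have h2 := h1.sub_const g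
  rw [zero_sub] at h2
  refine hG.mem_of_tendsto h2 (Eventually.of_forall fun n => ?_)
  obtain ⟨m, hm⟩ := Nat.exists_eq_add_of_lt (hφ (Nat.lt_succ_self n))
  have e : ((fun k : ℕ => k • g - l k) ∘ φ) (n + 1) - ((fun k : ℕ => k • g - l k) ∘ φ) n - g =
      m • g + (l (φ n) - l (φ (n + 1))) := by
    have hm' : φ (n + 1) = φ n + m + 1 := hm
    simp only [Function.comp_apply]
    rw [show φ (n + 1) • g = φ n • g + m • g + g by rw [hm', add_nsmul, add_nsmul, one_nsmul]]
    abel
  have : m • g + (l (φ n) - l (φ (n + 1))) ∈ G :=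
    G.add_mem (G.nsmul_mem hg m) (hL _ (L.sub_mem (hl _) (hl _)))
  rw [← e] at this
  exact this

/-- a closed subgroup without real lines is uniformly discrete -/
lemma exists_line (G : AddSubgroup X) (hG : IsClosed (G : Set X))
    (h : ∀ δ : ℝ, 0 < δ → ∃ g ∈ G, g ≠ 0 ∧ ‖g‖ < δ) :
    ∃ u : X, u ≠ 0 ∧ ∀ t : ℝ, t • u ∈ G := by
  choose g hg hg0 hgδ using fun n : ℕ => h (1 / ((n : ℝ) + 1)) (by positivity)
  have hpos : ∀ n, 0 < ‖g n‖ := fun n => norm_pos_iff.2 (hg0 n)
  obtain ⟨u, hu, φ, hφ, hx⟩ := (isCompact_sphere (0 : X) 1).tendsto_subseq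
    (x := fun n : ℕ => ‖g n‖⁻¹ • g n) fun n => by
      rw [mem_sphere_zero_iff_norm, norm_smul, norm_inv, norm_norm,
        inv_mul_cancel₀ (hpos n).ne']
  have hu0 : u ≠ 0 := by
    rintro rfl
    simp at hu
  refine ⟨u, hu0, fun t => ?_⟩
  have hn : Tendsto (fun n => ‖g n‖) atTop (𝓝 0) :=
    squeeze_zero (fun n => norm_nonneg _) (fun n => (hgδ n).le)
      tendsto_one_div_add_atTop_nhds_zero_nat
  have hs : Tendsto (fun n => (⌊t / ‖g n‖⌋ : ℝ) * ‖g n‖) atTop (𝓝 t) := by
    have h1 : Tendsto (fun n => t - ‖g n‖) atTop (𝓝 t) := by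
      simpa using hn.const_sub t
    refine tendsto_of_tendsto_of_tendsto_of_le_of_le h1 tendsto_const_nhds (fun n => ?_)
      fun n => ?_
    · have h2 := Int.lt_floor_add_one (t / ‖g n‖)
      rw [div_lt_iff₀ (hpos n)] at h2
      simp only
      linarith
    · have h2 := Int.floor_le (t / ‖g n‖)
      rwa [le_div_iff₀ (hpos n)] at h2
  have h3 := (hs.comp hφ.tendsto_atTop).smul hx
  refine hG.mem_of_tendsto h3 (Eventually.of_forall fun n => ?_)
  simp only [Function.comp_apply]
  rw [smul_smul, mul_assoc, mul_inv_cancel₀ (hpos _).ne', mul_one, Int.cast_smul_eq_zsmul]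
  exact G.zsmul_mem (hg _) _

/-- a closed subgroup without real lines meets bounded sets in finite sets -/
lemma finite_of_no_line (G : AddSubgroup X) (hG : IsClosed (G : Set X))
    (h : ∀ u : X, (∀ t : ℝ, t • u ∈ G) → u = 0) (R : ℝ) :
    (Metric.closedBall (0 : X) R ∩ G).Finite := by
  have h1 : ∃ δ : ℝ, 0 < δ ∧ ∀ g ∈ G, g ≠ 0 → δ ≤ ‖g‖ := by
    by_contra hc
    push Not at hc
    obtain ⟨u, hu, hu'⟩ := exists_line G hG hc
    exact hu (h u hu')
  obtain ⟨δ, hδ, h1⟩ := h1
  have : DiscreteTopology G := DiscreteTopology.of_forall_le_norm hδ fun x hx =>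
    h1 x x.2 fun e => hx (Subtype.ext e)
  exact Metric.finite_isBounded_inter_isClosed DiscreteTopology.isDiscrete
    Metric.isBounded_closedBall hG

end General

/-- an entire function vanishing on the real line vanishes -/
lemma eq_zero_of_real {f : ℂ → ℂ} (hf : Differentiable ℂ f) (h : ∀ t : ℝ, f t = 0) (τ : ℂ) :
    f τ = 0 := by
  have ha : AnalyticOnNhd ℂ f Set.univ := fun z _ => hf.analyticAt z
  refine ha.eqOn_zero_of_preconnected_of_frequently_eq_zero isPreconnected_univ
    (Set.mem_univ 0) ?_ (Set.mem_univ τ)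
  have h1 : Tendsto (fun n : ℕ => ((1 / ((n : ℝ) + 1) : ℝ) : ℂ)) atTop (𝓝[≠] 0) := by
    refine tendsto_nhdsWithin_iff.2 ⟨?_, Eventually.of_forall fun n => ?_⟩
    · have := (Complex.continuous_ofReal.tendsto 0).comp tendsto_one_div_add_atTop_nhds_zero_nat
      simpa [Function.comp_def] using this
    · have : (1 / ((n : ℝ) + 1) : ℝ) ≠ 0 := by positivity
      exact Complex.ofReal_ne_zero.2 this
  exact h1.frequently (Frequently.of_forall fun n => h _)

lemma isClosed_cl (A : AbVar d M) (V : Set (E d)) : IsClosed (cl A V) := by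
  simp only [cl, Set.ofPred_forall]
  exact isClosed_iInter fun P => isClosed_iInter fun _ => isClosed_iInter fun _ =>
    isClosed_iInter fun _ => isClosed_eq (differentiable_ev A P).continuous continuous_const

/-- the translations which map the closure of `V` into itself -/
def stM (A : AbVar d M) (V : Set (E d)) : AddSubmonoid (E d) where
  carrier := {g | ∀ z ∈ cl A V, z + g ∈ cl A V}
  zero_mem' := fun z hz => by simpa using hz
  add_mem' := fun {a b} ha hb z hz => by
    rw [← add_assoc]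
    exact hb _ (ha z hz)

lemma isClosed_stM (A : AbVar d M) (V : Set (E d)) : IsClosed (stM A V : Set (E d)) := by
  change IsClosed {g | ∀ z ∈ cl A V, z + g ∈ cl A V}
  simp only [Set.ofPred_forall]
  exact isClosed_iInter fun z => isClosed_iInter fun _ =>
    (isClosed_cl A V).preimage (continuous_const.add continuous_id)

lemma period_mem_stM (A : AbVar d M) (V : Set (E d)) {l : E d} (hl : l ∈ A.Λ) : l ∈ stM A V :=
  fun z hz P k hP h => (ev_add_period A hP hl z).2 (hz P k hP h)

/-- the stabilizer of the closure of `V` -/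
def stG (A : AbVar d M) (V : Set (E d)) : AddSubgroup (E d) where
  toAddSubmonoid := stM A V
  neg_mem' := fun hg => by
    obtain ⟨R, hR⟩ := exists_fund A
    exact neg_mem_of_cocompact (stM A V) (isClosed_stM A V) A.Λ.toAddSubgroup
      (fun l hl => period_mem_stM A V hl) hR hg

lemma mem_stG {A : AbVar d M} {V : Set (E d)} {g : E d} :
    g ∈ stG A V ↔ ∀ z ∈ cl A V, z + g ∈ cl A V := Iff.rfl

lemma mem_stG_of_add (A : AbVar d M) {V : Set (E d)} {h : E d} (hh : ∀ v ∈ V, v + h ∈ cl A V) :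
    h ∈ stG A V := by
  intro z hz P k hP hV
  by_contra hne
  obtain ⟨P', k', hP', h1, h2⟩ := transl A hP h z
  exact h2 hne (hz P' k' hP' fun v hv => h1 v (hh v hv P k hP hV))

/-- the union of the complex lines inside the stabilizer -/
def stU (A : AbVar d M) (V : Set (E d)) : Submodule ℂ (E d) where
  carrier := {u | ∀ t : ℂ, t • u ∈ stG A V}
  zero_mem' := fun t => by simp
  add_mem' := fun {a b} ha hb t => by
    rw [smul_add]
    exact (stG A V).add_mem (ha t) (hb t)
  smul_mem' := fun c u hu t => by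
    rw [smul_smul]
    exact hu _

lemma stU_le {A : AbVar d M} {V : Set (E d)} {u : E d} (hu : u ∈ stU A V) : u ∈ stG A V := by
  simpa using hu 1

lemma mem_stU_of_real {A : AbVar d M} {V : Set (E d)} {u : E d}
    (hu : ∀ t : ℝ, t • u ∈ stG A V) : u ∈ stU A V := by
  intro τ z hz P k hP hV
  refine eq_zero_of_real (f := fun τ : ℂ => ev A P (z + τ • u))
    ((differentiable_ev A P).comp (by fun_prop)) (fun t => ?_) τ
  have := hu t z hz P k hP hV
  rwa [← Complex.coe_smul] at this

/-- a bounded piece of the stabilizer lies in finitely many cosets of `stU` -/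
lemma exists_cosets (A : AbVar d M) (V : Set (E d)) (R : ℝ) :
    ∃ F : Set (E d), F.Finite ∧ ∀ g ∈ stG A V, ‖g‖ ≤ R → ∃ f ∈ F, g - f ∈ stU A V := by
  obtain ⟨U', hU'⟩ := (stU A V).exists_isCompl
  let π : E d →L[ℂ] E d := LinearMap.toContinuousLinearMap (U'.projection (stU A V) hU'.symm)
  have hπ : ∀ x, π x = U'.projection (stU A V) hU'.symm x := fun x => rfl
  let G' : AddSubgroup (E d) := stG A V ⊓ U'.toAddSubgroup
  have hG' : IsClosed (G' : Set (E d)) :=
    (isClosed_stM A V).inter U'.closed_of_finiteDimensional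
  have hfin := finite_of_no_line G' hG' (fun u hu => by
    have h1 : u ∈ stU A V := mem_stU_of_real fun t => (hu t).1
    have h2 : u ∈ U' := by simpa using (hu 1).2
    exact (Submodule.disjoint_def.1 hU'.disjoint) u h1 h2) (‖π‖ * R)
  refine ⟨_, hfin, fun g hg hR => ?_⟩
  have h1 : g - π g ∈ stU A V := Submodule.sub_projection_mem hU'.symm g
  refine ⟨π g, ⟨?_, ?_, Submodule.projection_apply_mem hU'.symm g⟩, h1⟩
  · rw [mem_closedBall_zero_iff]
    exact (π.le_opNorm g).trans (mul_le_mul_of_nonneg_left hR (norm_nonneg _))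
  · have := (stG A V).sub_mem hg (stU_le h1)
    rwa [sub_sub_cancel] at this

/-- the periods inside `stU` span it over the reals -/
lemma span_stU (A : AbVar d M) (V : Set (E d)) :
    Submodule.span ℝ ((stU A V : Set (E d)) ∩ (A.Λ : Set (E d))) =
      (stU A V).restrictScalars ℝ := by
  refine le_antisymm (Submodule.span_le.2 fun x hx => hx.1) fun u hu => ?_
  have hu' : u ∈ stU A V := hu
  set S := Submodule.span ℝ ((stU A V : Set (E d)) ∩ (A.Λ : Set (E d))) with hS
  obtain ⟨R, hR⟩ := exists_fund A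
  obtain ⟨F, hF, hF'⟩ := exists_cosets A V R
  have key : ∀ v ∈ stU A V, ∃ m : ℝ, 1 ≤ m ∧ ∃ s ∈ S, ‖m • v - s‖ ≤ 2 * R := by
    intro v hv
    choose l hl hlR using fun k : ℕ => hR (k • v)
    have hG : ∀ k : ℕ, k • v - l k ∈ stG A V := fun k =>
      (stG A V).sub_mem ((stG A V).nsmul_mem (stU_le hv) k) (period_mem_stM A V (hl k))
    choose f hf hfU using fun k : ℕ => hF' _ (hG k) (hlR k)
    obtain ⟨a, b, hab, e⟩ := hF.exists_lt_map_eq_of_forall_mem hf
    obtain ⟨m, rfl⟩ := Nat.exists_eq_add_of_lt hab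
    have e1 : ((m : ℝ) + 1) • v - (l (a + m + 1) - l a) =
        ((a + m + 1) • v - l (a + m + 1)) - (a • v - l a) := by
      rw [add_smul, one_smul, Nat.cast_smul_eq_nsmul, add_nsmul, add_nsmul, one_nsmul]
      abel
    refine ⟨m + 1, by simp, l (a + m + 1) - l a,
      Submodule.subset_span ⟨?_, A.Λ.sub_mem (hl _) (hl _)⟩, ?_⟩
    · have h1 := (stU A V).sub_mem (hfU (a + m + 1)) (hfU a)
      rw [e, sub_sub_sub_cancel_right, ← e1] at h1
      have h2 : ((m : ℝ) + 1) • v ∈ stU A V := ((stU A V).restrictScalars ℝ).smul_mem _ hv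
      have h3 := (stU A V).sub_mem h2 h1
      rwa [sub_sub_cancel] at h3
    · rw [e1]
      exact (norm_sub_le _ _).trans (by linarith [hlR (a + m + 1), hlR a])
  have hcl : IsClosed (S : Set (E d)) := S.closed_of_finiteDimensional
  have hR0 : 0 ≤ R := by
    obtain ⟨l, -, hl⟩ := hR 0
    exact (norm_nonneg _).trans hl
  have : u ∈ closure (S : Set (E d)) := by
    rw [Metric.mem_closure_iff]
    intro ε hε
    obtain ⟨m, hm, s, hs, hb⟩ := key (((2 * R + 1) / ε : ℝ) • u)
      (((stU A V).restrictScalars ℝ).smul_mem _ hu)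
    rw [smul_smul] at hb
    have hc0 : 0 < (2 * R + 1) / ε := by positivity
    have hc : 0 < m * ((2 * R + 1) / ε) := by positivity
    refine ⟨(m * ((2 * R + 1) / ε))⁻¹ • s, S.smul_mem _ hs, ?_⟩
    have e : u - (m * ((2 * R + 1) / ε))⁻¹ • s =
        (m * ((2 * R + 1) / ε))⁻¹ • ((m * ((2 * R + 1) / ε)) • u - s) := by
      rw [smul_sub, smul_smul, inv_mul_cancel₀ hc.ne', one_smul]
    rw [dist_eq_norm, e, norm_smul, Real.norm_eq_abs, abs_of_pos (inv_pos.2 hc),
      inv_mul_lt_iff₀ hc]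
    have h1 : m * ((2 * R + 1) / ε) * ε = m * (2 * R + 1) := by field_simp
    rw [h1]
    nlinarith
  rwa [hcl.closure_eq] at this

/-- linear forms separate the points of the variety -/
lemma exists_lin (A : AbVar d M) {a b : E d} (h : b - a ∉ A.Λ) :
    ∃ P : Pol M, P.IsHomogeneous 1 ∧ ev A P a = 0 ∧ ev A P b ≠ 0 := by
  obtain ⟨i, hi⟩ := Function.ne_iff.1 (A.ne_zero a)
  have hi' : A.θ a i ≠ 0 := hi
  have h1 : A.θ b ≠ (A.θ b i / A.θ a i) • A.θ a := fun e => h (A.inj _ _ _ e)
  obtain ⟨j, hj⟩ := Function.ne_iff.1 h1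
  refine ⟨C (A.θ a i) * X j - C (A.θ a j) * X i, ?_, ?_, fun e => hj ?_⟩
  · exact (isHomogeneous_C_mul_X _ _).sub (isHomogeneous_C_mul_X _ _)
  · simp only [ev_sub, ev_mul, ev_C, ev_X]
    ring
  · simp only [ev_sub, ev_mul, ev_C, ev_X] at e
    rw [Pi.smul_apply, smul_eq_mul, div_mul_eq_mul_div, eq_div_iff hi']
    linear_combination e

/-- a form vanishing on finitely many given points and not at the origin -/
lemma exists_form (A : AbVar d M) {F : Set (E d)} (hF : F.Finite) :
    ∃ (P : Pol M) (k : ℕ), P.IsHomogeneous k ∧ ev A P 0 ≠ 0 ∧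
      ∀ f ∈ F, f ∉ A.Λ → ev A P f = 0 := by
  induction F, hF using Set.Finite.induction_on with
  | empty => exact ⟨1, 0, isHomogeneous_one _ _, by simp, by simp⟩
  | @insert a s _ _ ih =>
    obtain ⟨P, k, hP, h0, hs⟩ := ih
    by_cases ha : a ∈ A.Λ
    · refine ⟨P, k, hP, h0, ?_⟩
      rintro f (rfl | hf) hf'
      · exact absurd ha hf'
      · exact hs f hf hf'
    · obtain ⟨Q, hQ, h1, h2⟩ := exists_lin A (a := a) (b := 0) (by simpa using ha)
      refine ⟨P * Q, k + 1, hP.mul hQ, by simp [h0, h2], ?_⟩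
      rintro f (rfl | hf) hf'
      · simp [h1]
      · simp [hs f hf hf']

end StabAux

open StabAux in
theorem stab (A : AbVar d M) (hA : A.Simple) {V H : Set (E d)} (hV : V.Nonempty)
    (hV' : cl A V ≠ Set.univ) (hH : Irr A H) (h0 : (0 : E d) ∈ H) (h : V + H ⊆ cl A V) :
    H ⊆ (A.Λ : Set (E d)) := by
  have hU : stU A V = ⊥ := by
    refine (hA _ (span_stU A V)).resolve_right fun e => hV' ?_
    obtain ⟨v, hv⟩ := hV
    refine Set.eq_univ_of_forall fun z => ?_
    have h1 : z - v ∈ stU A V := e ▸ Submodule.mem_top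
    simpa using stU_le h1 v (subset_cl A V hv)
  obtain ⟨R, hR⟩ := exists_fund A
  obtain ⟨F, hF, hF'⟩ := exists_cosets A V R
  obtain ⟨P, k, hP, hP0, hPF⟩ := exists_form A hF
  intro x hx
  by_contra hx'
  obtain ⟨Q, hQ, hQ0, hQx⟩ := exists_lin A (a := 0) (b := x) (by simpa using hx')
  have key : ∀ z ∈ H, ev A P z * ev A Q z = 0 := by
    intro z hz
    by_cases hz' : z ∈ A.Λ
    · have := (ev_add_period A hQ hz' 0).2 hQ0
      rw [zero_add] at this
      rw [this, mul_zero]
    · obtain ⟨l, hl, hlR⟩ := hR z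
      have hzG : z ∈ stG A V := mem_stG_of_add A fun v hv => h (Set.add_mem_add hv hz)
      obtain ⟨f, hf, hf'⟩ := hF' _ ((stG A V).sub_mem hzG (period_mem_stM A V hl)) hlR
      rw [hU, Submodule.mem_bot, sub_eq_zero] at hf'
      have h1 : f ∉ A.Λ := fun hf'' => hz' (by
        have := A.Λ.add_mem hf'' hl
        rwa [← hf', sub_add_cancel] at this)
      have := (ev_add_period A hP hl f).2 (hPF f hf h1)
      rw [← hf', sub_add_cancel] at this
      rw [this, zero_mul]
  rcases hH.2 P Q k 1 hP hQ key with h1 | h1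
  · exact hP0 (h1 0 h0)
  · exact hQx (h1 x hx)

end Pool.Agent.Lib.MP_caab05_ag.LT
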