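import Mathlib
import Pool.Agent.Lib.MP_caab05_ag.LT.Base

/-! The quadratic weight attached to the theta functions. -/

namespace Pool.Agent.Lib.MP_caab05_ag.LT

open MvPolynomial Filter Topology Asymptotics

variable {d M : ℕ}

namespace QuadAux

/-- the transformation law with a prescribed modulus -/
def Pr (A : AbVar d M) (q : E d → ℝ) (l : E d) : Prop :=
  ∀ z, ∃ κ : ℂ, A.θ (z + l) = κ • A.θ z ∧ ‖κ‖ = Real.exp (q (z + l) - q z)

lemma Pr.zero (A : AbVar d M) (q : E d → ℝ) : Pr A q 0 := fun z => ⟨1, by simp, by simp⟩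

lemma Pr.add {A : AbVar d M} {q : E d → ℝ} {l l' : E d} (h : Pr A q l) (h' : Pr A q l') :
    Pr A q (l + l') := fun z => by
  obtain ⟨κ, h1, h2⟩ := h z
  obtain ⟨κ', h3, h4⟩ := h' (z + l)
  refine ⟨κ' * κ, by rw [← add_assoc, h3, h1, smul_smul], ?_⟩
  rw [norm_mul, h2, h4, ← Real.exp_add, ← add_assoc]
  congr 1
  ring

lemma Pr.neg {A : AbVar d M} {q : E d → ℝ} {l : E d} (h : Pr A q l) : Pr A q (-l) := fun z => by
  obtain ⟨κ, h1, h2⟩ := h (z + -l)
  rw [neg_add_cancel_right] at h1 h2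
  have h0 : κ ≠ 0 := by
    rw [← norm_pos_iff, h2]
    exact Real.exp_pos _
  refine ⟨κ⁻¹, by rw [h1, smul_smul, inv_mul_cancel₀ h0, one_smul], ?_⟩
  rw [norm_inv, h2, ← Real.exp_neg, neg_sub]

lemma Pr.span {A : AbVar d M} {q : E d → ℝ} {s : Set (E d)} (h : ∀ l ∈ s, Pr A q l) {l : E d}
    (hl : l ∈ Submodule.span ℤ s) : Pr A q l := by
  induction hl using Submodule.span_induction with
  | mem x hx => exact h x hx
  | zero => exact Pr.zero A q
  | add x y _ _ hx hy => exact hx.add hy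
  | smul a x _ hx =>
    induction a using Int.induction_on with
    | zero => simpa using Pr.zero A q
    | succ n ih =>
      rw [add_smul, one_smul]
      exact ih.add hx
    | pred n ih =>
      rw [sub_smul, one_smul, sub_eq_add_neg]
      exact ih.add hx.neg

lemma symm_re (A : AbVar d M) {l l' : E d} {a a' : E d →ₗ[ℂ] ℂ} {b b' : ℂ}
    (h : ∀ z, A.θ (z + l) = Complex.exp (a z + b) • A.θ z)
    (h' : ∀ z, A.θ (z + l') = Complex.exp (a' z + b') • A.θ z) : (a l').re = (a' l).re := by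
  have h1 : A.θ (0 + l' + l) = A.θ (0 + l + l') := by rw [add_right_comm]
  rw [h, h', h', h, smul_smul, smul_smul] at h1
  have h2 := congrArg norm (smul_left_injective ℂ (A.ne_zero 0) h1)
  simp only [← Complex.exp_add, Complex.norm_exp, Real.exp_eq_exp, zero_add, map_zero,
    Complex.add_re] at h2
  linarith

lemma quadr (B : E d →L[ℝ] E d →L[ℝ] ℝ) (hB : ∀ x y, B x y = B y x) (L : E d →ₗ[ℝ] ℝ) {c : ℝ}
    (hc : ‖B‖ ≤ c) : Quadr c fun z => B z z / 2 + L z := by
  intro z w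
  have hI : ‖Complex.I • w‖ = ‖w‖ := by rw [norm_smul, Complex.norm_I, one_mul]
  have hb : ∀ x y : E d, ‖x‖ = ‖w‖ → ‖y‖ = ‖w‖ → |B x y| ≤ c * ‖w‖ ^ 2 := by
    intro x y hx hy
    have h := B.le_opNorm₂ x y
    rw [hx, hy, Real.norm_eq_abs, mul_assoc, ← sq] at h
    exact h.trans (mul_le_mul_of_nonneg_right hc (sq_nonneg _))
  have h1 := hb w w rfl rfl
  have h2 := hb w _ rfl hI
  have h3 := hb _ _ hI hI
  refine ⟨⟨B w w / 2, -(B w (Complex.I • w) / 2)⟩,
    ⟨B z w + L w, -(B z (Complex.I • w) + L (Complex.I • w))⟩,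
    (B w w + B (Complex.I • w) (Complex.I • w)) / 2, ?_, ?_, fun τ => ?_⟩
  · refine (Complex.norm_le_abs_re_add_abs_im _).trans ?_
    simp only [abs_neg, abs_div, abs_two]
    linarith
  · rw [abs_div, abs_two]
    linarith [abs_add_le (B w w) (B (Complex.I • w) (Complex.I • w))]
  · have e : τ • w = τ.re • w + τ.im • (Complex.I • w) := by
      ext i
      simp only [Pi.smul_apply, Pi.add_apply, smul_eq_mul, Complex.real_smul]
      conv_lhs => rw [← Complex.re_add_im τ]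
      ring
    rw [e]
    simp only [map_add, map_smul, add_apply, smul_apply,
      smul_eq_mul, sq, Complex.add_re, Complex.mul_re, Complex.mul_im, hB w z,
      hB (Complex.I • w) z, hB (Complex.I • w) w]
    ring

end QuadAux

open QuadAux in
theorem exists_quad (A : AbVar d M) : ∃ (q : E d → ℝ) (c : ℝ), 1 ≤ c ∧ Continuous q ∧ Quadr c q ∧
    (∀ l ∈ A.Λ, ∀ z, ∃ κ : ℂ, A.θ (z + l) = κ • A.θ z ∧ ‖κ‖ = Real.exp (q (z + l) - q z)) ∧
    ∀ z, ‖A.θ z‖ ≤ c * Real.exp (q z) := by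
  obtain ⟨ι, _, b, hb⟩ := exists_basis A
  have hm : ∀ j, b j ∈ A.Λ := fun j => hb ▸ Submodule.subset_span ⟨j, rfl⟩
  choose a β h using fun j => A.theta (b j) (hm j)
  let B0 : E d →ₗ[ℝ] E d →ₗ[ℝ] ℝ :=
    b.constr ℝ fun j => Complex.reLm ∘ₗ (a j).restrictScalars ℝ
  have e0 : ∀ j y, B0 (b j) y = (a j y).re := fun j y => by
    simp only [B0, Module.Basis.constr_basis]
    rfl
  have s0 : B0 = B0.flip := LinearMap.ext_basis b b fun j k => by
    rw [LinearMap.flip_apply, e0, e0]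
    exact symm_re A (h j) (h k)
  let B : E d →L[ℝ] E d →L[ℝ] ℝ := LinearMap.toContinuousLinearMap
    ((LinearMap.toContinuousLinearMap : (E d →ₗ[ℝ] ℝ) ≃ₗ[ℝ] _).toLinearMap ∘ₗ B0)
  have eB : ∀ x y, B x y = B0 x y := fun x y => rfl
  have hB : ∀ x y, B x y = B y x := fun x y => by
    rw [eB, eB]
    conv_lhs => rw [s0]
    rfl
  let L : E d →ₗ[ℝ] ℝ := b.constr ℝ fun j => (β j).re - B (b j) (b j) / 2
  have eL : ∀ j, L (b j) = (β j).re - B (b j) (b j) / 2 := fun j => b.constr_basis ℝ _ j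
  let q : E d → ℝ := fun z => B z z / 2 + L z
  have hq : Continuous q :=
    ((B.continuous.clm_apply continuous_id).div_const 2).add L.continuous_of_finiteDimensional
  have hP : ∀ l ∈ A.Λ, Pr A q l := fun l hl => by
    refine Pr.span (s := Set.range b) ?_ (hb ▸ hl)
    rintro _ ⟨j, rfl⟩ z
    refine ⟨_, h j z, ?_⟩
    rw [Complex.norm_exp, Complex.add_re, ← e0, ← eB]
    congr 1
    simp only [q, map_add, add_apply, eL, hB z (b j)]
    ring
  obtain ⟨R, hR⟩ := exists_fund A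
  have hF : Continuous fun z => ‖A.θ z‖ * Real.exp (-q z) :=
    A.holo.continuous.norm.mul (Real.continuous_exp.comp hq.neg)
  obtain ⟨C, hC⟩ := (isCompact_closedBall (0 : E d) R).bddAbove_image hF.continuousOn
  refine ⟨q, max (max ‖B‖ C) 1, le_max_right _ _, hq,
    quadr B hB L ((le_max_left _ _).trans (le_max_left _ _)), hP, fun z => ?_⟩
  obtain ⟨l, hl, hz⟩ := hR z
  obtain ⟨κ, h1, h2⟩ := hP l hl (z - l)
  rw [sub_add_cancel] at h1 h2
  have h3 : ‖A.θ (z - l)‖ * Real.exp (-q (z - l)) ≤ C :=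
    hC ⟨z - l, mem_closedBall_zero_iff.2 hz, rfl⟩
  calc ‖A.θ z‖ = ‖A.θ (z - l)‖ * Real.exp (-q (z - l)) * Real.exp (q z) := by
        rw [h1, norm_smul, h2, mul_assoc, ← Real.exp_add, mul_comm]
        congr 2
        ring
    _ ≤ _ := mul_le_mul_of_nonneg_right
        (h3.trans ((le_max_right _ _).trans (le_max_left _ _))) (Real.exp_pos _).le

end Pool.Agent.Lib.MP_caab05_ag.LT
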