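import Mathlib
import Pool.Agent.Lib.MP_caab05_ag.LT.Quad
import Pool.Agent.Lib.MP_caab05_ag.LT.Net
import Pool.Agent.Lib.MP_caab05_ag.LT.Coord

/-! Upper bound for the Hilbert function and the auxiliary polynomial. -/

namespace Pool.Agent.Lib.MP_caab05_ag.LT

open MvPolynomial Filter Topology Asymptotics

variable {d M : ℕ}

namespace AuxPAux

lemma quadr_comp {n : ℕ} {q : E d → ℝ} {c : ℝ} (hc : 0 ≤ c) (hq : Quadr c q)
    (j : (Fin n → ℂ) →L[ℂ] E d) {t c' : ℝ} (b : ℝ) (ht : 0 ≤ t) (h : t * (c * ‖j‖ ^ 2) ≤ c') :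
    Quadr c' fun u => t * (q (j u) + b) := by
  intro z w
  obtain ⟨α, β, γ, h1, h2, h3⟩ := hq (j z) (j w)
  have h4 : c * ‖j w‖ ^ 2 ≤ c * ‖j‖ ^ 2 * ‖w‖ ^ 2 := by
    rw [mul_assoc, ← mul_pow]
    gcongr
    exact j.le_opNorm w
  have h5 : t * (c * ‖j w‖ ^ 2) ≤ c' * ‖w‖ ^ 2 := by
    calc t * (c * ‖j w‖ ^ 2) ≤ t * (c * ‖j‖ ^ 2 * ‖w‖ ^ 2) := by gcongr
      _ = t * (c * ‖j‖ ^ 2) * ‖w‖ ^ 2 := by ring
      _ ≤ c' * ‖w‖ ^ 2 := by gcongr
  refine ⟨t * α, t * β, t * γ, ?_, ?_, fun τ => ?_⟩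
  · rw [norm_mul, Complex.norm_real, Real.norm_of_nonneg ht]
    exact le_trans (by gcongr) h5
  · rw [abs_mul, abs_of_nonneg ht]
    exact le_trans (by gcongr) h5
  · have h6 : (t : ℂ) * β * τ + t * α * τ ^ 2 = t * (β * τ + α * τ ^ 2) := by ring
    simp only [map_add, map_smul, h3 τ, h6, Complex.re_ofReal_mul]
    ring

lemma period {A : AbVar d M} {q : E d → ℝ}
    (hq : ∀ l ∈ A.Λ, ∀ z, ∃ κ : ℂ, A.θ (z + l) = κ • A.θ z ∧ ‖κ‖ = Real.exp (q (z + l) - q z))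
    {R : Type} [CommRing R] [Algebra R ℂ] {P : MvPolynomial (Fin (M + 1)) R} {m : ℕ}
    (hP : P.IsHomogeneous m) (b : ℝ) {l : E d} (hl : l ∈ A.Λ) (z : E d) :
    ‖aeval (A.θ (z + l)) P‖ * Real.exp (-(m * (q (z + l) + b))) =
      ‖aeval (A.θ z) P‖ * Real.exp (-(m * (q z + b))) := by
  obtain ⟨κ, h1, h2⟩ := hq l hl z
  rw [h1, aeval_smul_of_hom hP, norm_mul, norm_pow, h2, ← Real.exp_nat_mul, mul_right_comm,
    ← Real.exp_add, mul_comm]
  congr 2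
  ring

lemma diff_aeval {σ : Type} [Fintype σ] (P : MvPolynomial σ ℤ) :
    Differentiable ℂ fun x : σ → ℂ => aeval x P := by
  have h : (fun x : σ → ℂ => aeval x P) = fun x => eval x (map (algebraMap ℤ ℂ) P) := by
    funext x
    rw [eval_map, aeval_def]
  rw [h]
  exact differentiable_eval _

/-- the monomials used for the auxiliary polynomial -/
noncomputable def mono (s : Fin d → Fin (M + 1)) (N : ℕ) (al : Fin d → Fin (N + 1)) :
    MvPolynomial (Fin (M + 1)) ℤ :=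
  X 0 ^ (d * N - ∑ k, (al k : ℕ)) * ∏ k, X (s k) ^ (al k : ℕ)

lemma sum_le {N : ℕ} (al : Fin d → Fin (N + 1)) : ∑ k, (al k : ℕ) ≤ d * N := by
  have := Finset.sum_le_card_nsmul Finset.univ (fun k => (al k : ℕ)) N
    fun k _ => Nat.lt_succ_iff.1 (al k).2
  simpa using this

lemma mono_hom (s : Fin d → Fin (M + 1)) (N : ℕ) (al : Fin d → Fin (N + 1)) :
    (mono s N al).IsHomogeneous (d * N) := by
  have h1 := (isHomogeneous_X_pow (R := ℤ) (0 : Fin (M + 1)) (d * N - ∑ k, (al k : ℕ))).mul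
    (IsHomogeneous.prod Finset.univ (fun k => (X (s k) : MvPolynomial _ ℤ) ^ (al k : ℕ))
      (fun k => (al k : ℕ)) fun k _ => isHomogeneous_X_pow _ _)
  rwa [Nat.sub_add_cancel (sum_le al)] at h1

lemma mono_norm (s : Fin d → Fin (M + 1)) (N : ℕ) (al : Fin d → Fin (N + 1))
    (x : Fin (M + 1) → ℂ) : ‖aeval x (mono s N al)‖ ≤ ‖x‖ ^ (d * N) := by
  simp only [mono, map_mul, map_pow, map_prod, aeval_X, norm_mul, norm_pow, norm_prod]
  calc ‖x 0‖ ^ (d * N - ∑ k, (al k : ℕ)) * ∏ k, ‖x (s k)‖ ^ (al k : ℕ)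
      ≤ ‖x‖ ^ (d * N - ∑ k, (al k : ℕ)) * ∏ k, ‖x‖ ^ (al k : ℕ) := by
        gcongr with k
        · exact norm_le_pi_norm x 0
        · exact norm_le_pi_norm x _
    _ = ‖x‖ ^ (d * N) := by
        rw [Finset.prod_pow_eq_pow_sum, ← pow_add, Nat.sub_add_cancel (sum_le al)]

lemma mono_div (s : Fin d → Fin (M + 1)) (N : ℕ) (al : Fin d → Fin (N + 1))
    (x : Fin (M + 1) → ℂ) (hx : x 0 ≠ 0) :
    aeval x (mono s N al) = x 0 ^ (d * N) * ∏ k, (x (s k) / x 0) ^ (al k : ℕ) := by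
  simp only [mono, map_mul, map_pow, map_prod, aeval_X, div_pow, Finset.prod_div_distrib,
    Finset.prod_pow_eq_pow_sum]
  conv_rhs => rw [← Nat.sub_add_cancel (sum_le al), pow_add]
  field_simp

lemma comb_ne (A : AbVar d M) (s : Fin d → Fin (M + 1))
    (hs : ∀ π : MvPolynomial (Fin d) ℂ,
      (∀ᶠ z in 𝓝 (0 : E d), eval (fun k => A.θ z (s k) / A.θ z 0) π = 0) → π = 0)
    (N : ℕ) (p : (Fin d → Fin (N + 1)) → ℤ) (hp : p ≠ 0) :
    ∃ z, aeval (A.θ z) (∑ al, C (p al) * mono s N al) ≠ 0 := by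
  by_contra h
  push Not at h
  let e : (Fin d → Fin (N + 1)) → Fin d →₀ ℕ := fun al =>
    Finsupp.equivFunOnFinite.symm fun k => (al k : ℕ)
  have he : Function.Injective e := by
    intro al al' h1
    funext k
    exact Fin.ext (congrFun (Finsupp.equivFunOnFinite.symm.injective h1) k)
  have h0 : ∀ᶠ z in 𝓝 (0 : E d), A.θ z 0 ≠ 0 :=
    ((continuous_apply 0).comp A.holo.continuous).continuousAt.eventually_ne A.origin
  have h1 := hs (∑ al, monomial (e al) (p al : ℂ)) (by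
    filter_upwards [h0] with z hz
    have h2 := h z
    simp only [map_sum, map_mul, mono_div s N _ _ hz, eq_intCast, map_intCast] at h2
    have h3 : A.θ z 0 ^ (d * N) * eval (fun k => A.θ z (s k) / A.θ z 0)
        (∑ al, monomial (e al) (p al : ℂ)) = 0 := by
      rw [← h2, map_sum, Finset.mul_sum]
      refine Finset.sum_congr rfl fun al _ => ?_
      rw [eval_monomial, Finsupp.prod_fintype _ _ (by simp)]
      simp only [e, Finsupp.equivFunOnFinite_symm_apply_apply]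
      ring
    exact (mul_eq_zero.1 h3).resolve_left (pow_ne_zero _ hz))
  apply hp
  funext al
  have h2 := congrArg (coeff (e al)) h1
  simp only [coeff_sum, coeff_monomial, he.eq_iff, Finset.sum_ite_eq', Finset.mem_univ, if_true,
    coeff_zero] at h2
  exact_mod_cast h2

lemma comb_norm (s : Fin d → Fin (M + 1)) (N H : ℕ) (p : (Fin d → Fin (N + 1)) → ℤ)
    (hp : ∀ al, |p al| ≤ H) (x : Fin (M + 1) → ℂ) :
    ‖aeval x (∑ al, C (p al) * mono s N al)‖ ≤ ((N : ℝ) + 1) ^ d * H * ‖x‖ ^ (d * N) := by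
  rw [map_sum]
  refine (norm_sum_le _ _).trans ?_
  have h1 : ∀ al, ‖aeval x (C (p al) * mono s N al)‖ ≤ H * ‖x‖ ^ (d * N) := by
    intro al
    rw [map_mul, norm_mul, aeval_C, algebraMap_int_eq, eq_intCast, Complex.norm_intCast]
    have h2 : |(p al : ℝ)| ≤ H := by exact_mod_cast hp al
    gcongr
    exact mono_norm s N al x
  refine (Finset.sum_le_card_nsmul _ _ _ fun al _ => h1 al).trans (le_of_eq ?_)
  simp [mul_assoc]

lemma reduce {A : AbVar d M} {l n : ℕ} {y : Fin l → E d} (hy : ∀ i, y i ∈ A.Λ)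
    {r : Finset (Fin n)} {j : (Fin n → ℂ) →L[ℂ] E d}
    (hj : ∀ z ∈ Submodule.span ℂ (Set.range y), ∃ u, j u = z)
    (hr : ∀ u, u ∈ Ur r ↔ j u ∈ Submodule.span ℝ (Set.range y)) {u : Fin n → ℂ}
    (hu : u ∈ Ur r) : ∃ u' ∈ Ur r, ‖j u'‖ ≤ ∑ i, ‖y i‖ ∧ ∃ lam ∈ A.Λ, j u = j u' + lam := by
  obtain ⟨x, hx⟩ := (Submodule.mem_span_range_iff_exists_fun ℝ).1 ((hr u).1 hu)
  obtain ⟨u0, h0⟩ := hj (∑ i, ⌊x i⌋ • y i) (Submodule.sum_mem _ fun i _ =>
    zsmul_mem (Submodule.subset_span (Set.mem_range_self i)) _)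
  have h1 : j (u - u0) = ∑ i, Int.fract (x i) • y i := by
    rw [map_sub, h0, ← hx, ← Finset.sum_sub_distrib]
    refine Finset.sum_congr rfl fun i _ => ?_
    rw [Int.fract, sub_smul, Int.cast_smul_eq_zsmul]
  refine ⟨u - u0, (hr _).2 ?_, ?_, ∑ i, ⌊x i⌋ • y i,
    Submodule.sum_mem _ fun i _ => A.Λ.smul_mem _ (hy i), ?_⟩
  · rw [h1]
    exact Submodule.sum_mem _ fun i _ => Submodule.smul_mem _ _ (Submodule.subset_span ⟨i, rfl⟩)
  · rw [h1]
    refine (norm_sum_le _ _).trans (Finset.sum_le_sum fun i _ => ?_)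
    rw [norm_smul, Real.norm_of_nonneg (Int.fract_nonneg _)]
    exact mul_le_of_le_one_left (norm_nonneg _) (Int.fract_lt_one _).le
  · rw [map_sub, h0, sub_add_cancel]

lemma count {L H k : ℕ} {v S : ℝ} (hv : 18 ≤ v ^ 2) (hL : (L : ℝ) * H ≤ Real.exp (v ^ 2))
    (hH : Real.exp S ≤ (H : ℝ) + 1) (hk : 6 * v ^ 2 * k < L * S) :
    (4 * (L : ℝ) * H * 1 / (Real.exp (-v ^ 2) / 4) + 3) ^ (2 * k) < ((H : ℝ) + 1) ^ L := by
  have h1 : (1 : ℝ) ≤ Real.exp (v ^ 2) := Real.one_le_exp (by linarith)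
  have h2 : 19 ≤ Real.exp (v ^ 2) := by linarith [Real.add_one_le_exp (v ^ 2)]
  have h3 : 4 * (L : ℝ) * H * 1 / (Real.exp (-v ^ 2) / 4) + 3 ≤ Real.exp (3 * v ^ 2) := by
    have h4 : 4 * (L : ℝ) * H * 1 / (Real.exp (-v ^ 2) / 4) = 16 * (L * H) * Real.exp (v ^ 2) := by
      rw [Real.exp_neg]
      field_simp
      ring
    have h5 : Real.exp (3 * v ^ 2) = Real.exp (v ^ 2) * (Real.exp (v ^ 2) * Real.exp (v ^ 2)) := by
      rw [← Real.exp_add, ← Real.exp_add]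
      ring_nf
    rw [h4, h5]
    have h6 : (L : ℝ) * H * Real.exp (v ^ 2) ≤ Real.exp (v ^ 2) * Real.exp (v ^ 2) := by gcongr
    have h7 : 1 ≤ Real.exp (v ^ 2) * Real.exp (v ^ 2) := by nlinarith
    nlinarith
  calc (4 * (L : ℝ) * H * 1 / (Real.exp (-v ^ 2) / 4) + 3) ^ (2 * k)
      ≤ Real.exp (3 * v ^ 2) ^ (2 * k) := by gcongr
    _ = Real.exp (6 * v ^ 2 * k) := by
        rw [← Real.exp_nat_mul]
        congr 1
        push_cast
        ring
    _ < Real.exp (L * S) := Real.exp_lt_exp.2 hk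
    _ = Real.exp S ^ L := Real.exp_nat_mul _ _
    _ ≤ ((H : ℝ) + 1) ^ L := by gcongr

end AuxPAux

open AuxPAux

theorem exists_hilBd (A : AbVar d M) : ∃ C : ℝ, 1 ≤ C ∧ HilBd A C := by
  classical
  obtain ⟨q, c, hc, hqc, hq, hper, -⟩ := exists_quad A
  obtain ⟨R, hR⟩ := exists_fund A
  obtain ⟨C, hC, hnet⟩ := net (∅ : Finset (Fin d)) (c * ‖ContinuousLinearMap.id ℂ (E d)‖ ^ 2) R
    (by positivity)
  refine ⟨C, hC, fun m ι _ P hP hli => ?_⟩
  have hm : (0 : ℝ) ≤ m := Nat.cast_nonneg m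
  have ha : 1 ≤ √((m : ℝ) + 1) := Real.one_le_sqrt.2 (by linarith)
  have ha2 : √((m : ℝ) + 1) ^ 2 = m + 1 := Real.sq_sqrt (by linarith)
  obtain ⟨s, -, hs, hG⟩ := hnet _ _ ha le_rfl
  rw [Finset.card_empty, pow_zero, mul_one, Nat.sub_zero, pow_mul, ha2] at hs
  refine le_trans ?_ hs
  by_contra hlt
  have hlt' : s.card < Fintype.card ι := by exact_mod_cast not_le.1 hlt
  obtain ⟨lam, hlam, hne⟩ : ∃ lam : ι → ℂ, (∀ p ∈ s, ∑ i, lam i * ev A (P i) p = 0) ∧ lam ≠ 0 := by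
    let f : (ι → ℂ) →ₗ[ℂ] s → ℂ := (Matrix.of fun (p : s) i => ev A (P i) p).mulVecLin
    have h1 : LinearMap.ker f ≠ ⊥ := LinearMap.ker_ne_bot_of_finrank_lt (by simpa using hlt')
    obtain ⟨lam, h2, h3⟩ := (Submodule.ne_bot_iff _).1 h1
    refine ⟨lam, fun p hp => ?_, h3⟩
    have h4 := congrFun (LinearMap.mem_ker.1 h2) ⟨p, hp⟩
    simpa [f, Matrix.mulVec, dotProduct, mul_comm] using h4
  have hev : ∀ (t : ℂ) z, aeval (A.θ z) (∑ i, (t * lam i) • P i) =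
      t * ∑ i, lam i * ev A (P i) z := by
    intro t z
    simp [ev, Finset.mul_sum, mul_assoc]
  have hhom : ∀ t : ℂ, (∑ i, (t * lam i) • P i).IsHomogeneous m := fun t =>
    IsHomogeneous.sum _ _ _ fun i _ => (homogeneousSubmodule _ _ m).smul_mem _ (hP i)
  have hdiff : ∀ t : ℂ, Differentiable ℂ fun z => aeval (A.θ z) (∑ i, (t * lam i) • P i) :=
    fun t => differentiable_ev A _
  have hred : ∀ (t : ℂ) z, ∃ z', ‖z'‖ ≤ R ∧
      ‖aeval (A.θ z) (∑ i, (t * lam i) • P i)‖ * Real.exp (-(m * (q z + 0))) =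
      ‖aeval (A.θ z') (∑ i, (t * lam i) • P i)‖ * Real.exp (-(m * (q z' + 0))) := by
    intro t z
    obtain ⟨l, hl, h1⟩ := hR z
    refine ⟨z - l, h1, ?_⟩
    rw [← period hper (hhom t) 0 hl (z - l), sub_add_cancel]
  obtain ⟨z0, -, hz0⟩ := (isCompact_closedBall (0 : E d) R).exists_isMaxOn
    (f := fun z => ‖aeval (A.θ z) (∑ i, (1 * lam i) • P i)‖ * Real.exp (-(m * (q z + 0))))
    (by
      obtain ⟨z', h, -⟩ := hred 0 0
      exact ⟨z', mem_closedBall_zero_iff.2 h⟩)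
    (((hdiff 1).continuous.norm.mul (by fun_prop)).continuousOn)
  set μ := ‖aeval (A.θ z0) (∑ i, (1 * lam i) • P i)‖ * Real.exp (-(m * (q z0 + 0))) with hμ
  have hle : ∀ z, ‖∑ i, lam i * ev A (P i) z‖ ≤ μ * Real.exp (m * (q z + 0)) := by
    intro z
    obtain ⟨z', h1, h2⟩ := hred 1 z
    have h3 : _ ≤ μ := hz0 (mem_closedBall_zero_iff.2 h1)
    beta_reduce at h3
    rw [← h2, hev, one_mul, Real.exp_neg, ← div_eq_mul_inv, div_le_iff₀ (Real.exp_pos _)] at h3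
    exact h3
  have hμ0 : 0 < μ := by
    by_contra h
    have h1 : μ = 0 := le_antisymm (not_lt.1 h) (by positivity)
    apply hne
    funext i
    refine Fintype.linearIndependent_iff.1 hli lam ?_ i
    funext z
    have h2 := hle z
    rw [h1, zero_mul, norm_le_zero_iff] at h2
    simpa using h2
  have hn : ∀ z, ‖aeval (A.θ z) (∑ i, ((μ⁻¹ : ℝ) * lam i) • P i)‖ =
      μ⁻¹ * ‖∑ i, lam i * ev A (P i) z‖ := by
    intro z
    rw [hev, norm_mul, Complex.norm_real, Real.norm_of_nonneg (by positivity)]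
  have key := hG (fun z => aeval (A.θ z) (∑ i, ((μ⁻¹ : ℝ) * lam i) • P i))
    (fun z => m * (q z + 0)) (1 / 2) (hdiff _)
    (quadr_comp (by linarith) hq (ContinuousLinearMap.id ℂ (E d)) 0 hm (by
      rw [ha2, mul_comm]
      gcongr
      linarith))
    (fun z => by
      rw [hn, inv_mul_le_iff₀ hμ0]
      refine (hle z).trans ?_
      gcongr
      linarith [sq_nonneg √((m : ℝ) + 1)])
    (fun u _ => by
      obtain ⟨z', h1, h2⟩ := hred ((μ⁻¹ : ℝ) : ℂ) u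
      exact ⟨z', by simp [Ur], h1, h2⟩)
    (by
      rw [ha2, Real.exp_neg, one_div]
      exact inv_anti₀ (by norm_num) (by linarith [Real.add_one_le_exp ((m : ℝ) + 1)]))
    (fun p hp => by
      rw [hn, hlam p hp, norm_zero, mul_zero]
      positivity)
    z0 (by simp [Ur])
  rw [hn, inv_mul_le_iff₀ hμ0] at key
  have h5 : ‖∑ i, lam i * ev A (P i) z0‖ = μ * Real.exp (m * (q z0 + 0)) := by
    rw [hμ, hev, one_mul, mul_assoc, ← Real.exp_add, neg_add_cancel, Real.exp_zero, mul_one]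
  rw [h5] at key
  have h6 := mul_pos hμ0 (Real.exp_pos (m * (q z0 + 0)))
  nlinarith

theorem aux_poly (A : AbVar d M) {l n : ℕ} {y : Fin l → E d} (hy : ∀ i, y i ∈ A.Λ)
    (hind : LinearIndependent ℝ y)
    (hn : Module.finrank ℂ (Submodule.span ℂ (Set.range y)) = n) :
    l ≤ 2 * n ∧ ∃ C : ℝ, 1 ≤ C ∧ ∀ (a : ℕ) (v S : ℝ), 1 ≤ a → C * a ≤ v → 1 ≤ S → S ≤ v ^ 2 / 2 →
      C * (a : ℝ) ^ l * v ^ (2 * n - l + 2) ≤ (a : ℝ) ^ (2 * d) * S →
      ∃ P : MvPolynomial (Fin (M + 1)) ℤ, P.IsHomogeneous (d * a ^ 2) ∧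
        (∃ z, aeval (A.θ z) P ≠ 0) ∧
        (∀ x : Fin (M + 1) → ℂ, ‖x‖ ≤ 1 → ‖aeval x P‖ ≤ Real.exp (S + C * (a : ℝ) ^ 2)) ∧
        ∀ z ∈ Submodule.span ℂ (Set.range y), ‖z‖ ≤ 1 →
          ‖aeval (A.θ z) P‖ ≤ Real.exp (-v ^ 2 / 2) := by
  classical
  obtain ⟨r, j, hr, hji, hjs, hjr⟩ := coords hind hn
  obtain ⟨s, hs⟩ := alg_indep A
  obtain ⟨q, c, hc, hqc, hq, hper, hθ⟩ := exists_quad A
  obtain ⟨K, hK0, hK⟩ : ∃ K : ℝ, 0 ≤ K ∧ ∀ u, ‖u‖ ≤ K * ‖j u‖ := by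
    obtain ⟨K, -, h⟩ := (j : (Fin n → ℂ) →ₗ[ℂ] E d).exists_antilipschitzWith
      (LinearMap.ker_eq_bot.2 hji)
    exact ⟨K, K.2, fun u => ZeroHomClass.bound_of_antilipschitz _ h u⟩
  obtain ⟨B, hB0, hB⟩ : ∃ B : ℝ, 0 ≤ B ∧ ∀ z : E d, ‖z‖ ≤ 1 → q z + Real.log c ≤ B := by
    obtain ⟨B, hB⟩ := (isCompact_closedBall (0 : E d) 1).bddAbove_image
      (f := fun z => q z + Real.log c) (by fun_prop)
    exact ⟨max B 0, le_max_right _ _, fun z hz =>
      (hB ⟨z, mem_closedBall_zero_iff.2 hz, rfl⟩).trans (le_max_left _ _)⟩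
  obtain ⟨c', hc'0, hc'⟩ : ∃ c' : ℝ, 0 ≤ c' ∧ d * (c * ‖j‖ ^ 2) = c' := ⟨_, by positivity, rfl⟩
  obtain ⟨C0, hC0, hnet⟩ := net r c' (K * ∑ i, ‖y i‖) hc'0
  have hd0 : (0 : ℝ) ≤ d := Nat.cast_nonneg d
  obtain ⟨C, h5, hC1, hC2, hC3, hC4, hC5⟩ : ∃ C : ℝ, 5 ≤ C ∧ 6 * C0 < C ∧ 2 * d ≤ C ∧ K ≤ C ∧
      4 * ((2 + 2 * c') * K) ≤ C ∧ 4 * (d * B) ≤ C := by
    have h1 : 0 ≤ (2 + 2 * c') * K := by positivity
    have h2 : 0 ≤ d * B := by positivity
    refine ⟨5 + 6 * C0 + 2 * d + K + 4 * ((2 + 2 * c') * K) + 4 * (d * B), ?_, ?_, ?_, ?_, ?_,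
      ?_⟩ <;> linarith
  refine ⟨by omega, C, by linarith, fun a v S ha hv hS1 hS2 hmain => ?_⟩
  have ha' : (1 : ℝ) ≤ a := by exact_mod_cast ha
  have hav : (a : ℝ) ≤ v := by nlinarith
  have hv5 : 5 ≤ v := by nlinarith
  have hav2 : C * (a : ℝ) ^ 2 ≤ v ^ 2 := by nlinarith
  obtain ⟨s0, -, hcard, hG⟩ := hnet a v ha' hav
  have e1 : 2 * n - r.card = l := by omega
  have e2 : r.card = 2 * n - l := by omega
  rw [e1, e2] at hcard
  set H := ⌊Real.exp S⌋₊ with hH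
  have hH1 : (H : ℝ) ≤ Real.exp S := Nat.floor_le (Real.exp_pos _).le
  have hH2 : Real.exp S ≤ (H : ℝ) + 1 := (Nat.lt_floor_add_one _).le
  have hL : (((a ^ 2 : ℕ) : ℝ) + 1) ^ d * H ≤ Real.exp (S + d * (a : ℝ) ^ 2) := by
    rw [Real.exp_add, Real.exp_nat_mul, mul_comm]
    gcongr
    push_cast
    exact Real.add_one_le_exp _
  have hL' : (((a ^ 2 : ℕ) : ℝ) + 1) ^ d * H ≤ Real.exp (v ^ 2) := by
    refine hL.trans (Real.exp_le_exp.2 ?_)
    nlinarith [sq_nonneg (a : ℝ)]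
  have hcL : (Fintype.card (Fin d → Fin (a ^ 2 + 1)) : ℝ) = (((a ^ 2 : ℕ) : ℝ) + 1) ^ d := by simp
  set Q : (Fin n → ℂ) → ℝ := fun u => ((d * a ^ 2 : ℕ) : ℝ) * (q (j u) + Real.log c) with hQ
  have hQq : Quadr (c' * (a : ℝ) ^ 2) Q := quadr_comp (by linarith) hq j _ (Nat.cast_nonneg _) (by
    rw [← hc']
    push_cast
    exact le_of_eq (by ring))
  have hθQ : ∀ u, ‖A.θ (j u)‖ ^ (d * a ^ 2) ≤ Real.exp (Q u) := by
    intro u
    rw [hQ, Real.exp_nat_mul, Real.exp_add, Real.exp_log (by linarith), mul_comm (Real.exp _)]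
    gcongr
    exact hθ _
  obtain ⟨p, hp0, hpH, hp⟩ := box (κ := s0)
    (fun k al => aeval (A.θ (j k)) (mono s (a ^ 2) al) * (Real.exp (-Q k) : ℝ)) (B := 1)
    (ε := Real.exp (-v ^ 2) / 4) zero_le_one (by positivity)
    (fun k al => by
      rw [norm_mul, Complex.norm_real, Real.norm_of_nonneg (Real.exp_pos _).le, Real.exp_neg,
        ← div_eq_mul_inv, div_le_one (Real.exp_pos _)]
      exact (mono_norm _ _ _ _).trans (hθQ _))
    H (count (S := S) (by nlinarith) (by rw [hcL]; exact hL') hH2 (by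
      rw [hcL, Fintype.card_coe]
      have h1 : 0 < (a : ℝ) ^ l * v ^ (2 * n - l + 2) := by positivity
      have h2 : (a : ℝ) ^ (2 * d) ≤ (((a ^ 2 : ℕ) : ℝ) + 1) ^ d := by
        rw [pow_mul]
        gcongr
        push_cast
        linarith
      calc 6 * v ^ 2 * s0.card ≤ 6 * v ^ 2 * (C0 * (a : ℝ) ^ l * v ^ (2 * n - l)) := by gcongr
        _ = 6 * C0 * ((a : ℝ) ^ l * v ^ (2 * n - l + 2)) := by ring
        _ < C * ((a : ℝ) ^ l * v ^ (2 * n - l + 2)) := by gcongr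
        _ ≤ (a : ℝ) ^ (2 * d) * S := by rw [← mul_assoc]; exact hmain
        _ ≤ _ := by gcongr))
  have hhom : (∑ al, MvPolynomial.C (p al) * mono s (a ^ 2) al).IsHomogeneous (d * a ^ 2) :=
    IsHomogeneous.sum _ _ _ fun al _ => (mono_hom s _ al).C_mul _
  have hnorm := comb_norm s (a ^ 2) H p hpH
  refine ⟨_, hhom, comb_ne A s hs _ p hp0, fun x hx => (hnorm x).trans ?_, ?_⟩
  · calc _ ≤ Real.exp (S + d * (a : ℝ) ^ 2) * 1 := by
          gcongr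
          exact pow_le_one₀ (norm_nonneg _) hx
      _ ≤ _ := by
          rw [mul_one]
          gcongr
          linarith
  set P := ∑ al, MvPolynomial.C (p al) * mono s (a ^ 2) al with hP
  have hdiff : Differentiable ℂ fun u => aeval (A.θ (j u)) P :=
    (diff_aeval P).comp (A.holo.comp j.differentiable)
  have hb : ∀ u, ‖aeval (A.θ (j u)) P‖ ≤ Real.exp (Q u + v ^ 2) := by
    intro u
    refine (hnorm _).trans ?_
    rw [Real.exp_add, mul_comm (Real.exp _)]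
    gcongr
    exact hθQ u
  have hU := hG _ Q (Real.exp (-v ^ 2)) hdiff hQq hb
    (fun u hu => by
      obtain ⟨u', h1, h2, lam, h3, h4⟩ := reduce hy hjs hjr hu
      refine ⟨u', h1, (hK u').trans (by gcongr), ?_⟩
      simp only [hQ, h4]
      exact period hper hhom _ h3 _)
    le_rfl
    (fun k hk => by
      have h1 := hp ⟨k, hk⟩
      have h2 : ∑ al, (p al : ℂ) * (aeval (A.θ (j k)) (mono s (a ^ 2) al) *
          (Real.exp (-Q k) : ℝ)) = aeval (A.θ (j k)) P * (Real.exp (-Q k) : ℝ) := by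
        simp only [hP, map_sum, map_mul, eq_intCast, map_intCast, Finset.sum_mul, mul_assoc]
      simp only [h2] at h1
      rwa [norm_mul, Complex.norm_real, Real.norm_of_nonneg (Real.exp_pos _).le,
        Real.exp_neg (Q k), ← div_eq_mul_inv, div_le_iff₀ (Real.exp_pos _)] at h1)
  intro z hz hz1
  obtain ⟨u, rfl⟩ := hjs z hz
  have hu : ‖u‖ ≤ K := (hK u).trans (mul_le_of_le_one_right hK0 hz1)
  refine (tube r hc'0 (by linarith) (by linarith) hK0 (by nlinarith) hdiff hQq hb le_rfl hU u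
    fun k _ => ((Complex.abs_im_le_norm _).trans (norm_le_pi_norm u k)).trans hu).trans ?_
  rw [← Real.exp_add, Real.exp_le_exp]
  have h1 : Q u ≤ d * B * (a : ℝ) ^ 2 := by
    have := hB _ hz1
    rw [hQ]
    push_cast
    calc (d : ℝ) * a ^ 2 * (q (j u) + Real.log c) ≤ d * a ^ 2 * B := by gcongr
      _ = _ := by ring
  have h2 : 4 * (d * B) * (a : ℝ) ^ 2 ≤ C * (a : ℝ) ^ 2 := by gcongr
  have h3 : 4 * ((2 + 2 * c') * K) * (a * v) ≤ C * (a * v) := by gcongr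
  have h4 : C * a * v ≤ v * v := by gcongr
  nlinarith

end Pool.Agent.Lib.MP_caab05_ag.LT
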