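import Mathlib
import Pool.Agent.Lib.MP_caab05_ag.LT.Iso1

/-! Multiplicity of an isolated common zero. -/

namespace Pool.Agent.Lib.MP_caab05_ag.LT

open MvPolynomial Filter Topology Asymptotics

variable {d M : ℕ}

namespace IsoAux

/-- the polynomials congruent to a form of degree `m` -/
noncomputable def Gm (I : Ideal (Pol M)) (m : ℕ) : Submodule ℂ (Pol M) :=
  homogeneousSubmodule (Fin (M + 1)) ℂ m ⊔ I.restrictScalars ℂ

lemma mem_Gm {I : Ideal (Pol M)} {m : ℕ} {P : Pol M} :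
    P ∈ Gm I m ↔ ∃ F : Pol M, F.IsHomogeneous m ∧ P - F ∈ I := by
  rw [Gm, Submodule.mem_sup]
  constructor
  · rintro ⟨F, hF, r, hr, rfl⟩
    exact ⟨F, hF, by simpa using hr⟩
  · rintro ⟨F, hF, h⟩
    exact ⟨F, hF, P - F, h, by ring⟩

lemma mem_Gm_of_mem {I : Ideal (Pol M)} {m : ℕ} {P : Pol M} (h : P ∈ I) : P ∈ Gm I m :=
  Submodule.mem_sup_right (show P ∈ I.restrictScalars ℂ from h)

lemma mem_Gm_of_hom {I : Ideal (Pol M)} (h0 : X 0 - 1 ∈ I) {k m : ℕ} (hk : k ≤ m) {F : Pol M}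
    (hF : F.IsHomogeneous k) : F ∈ Gm I m := by
  refine mem_Gm.2 ⟨X 0 ^ (m - k) * F, ?_, ?_⟩
  · have := (isHomogeneous_X_pow (R := ℂ) (0 : Fin (M + 1)) (m - k)).mul hF
    rwa [Nat.sub_add_cancel hk] at this
  · have h1 : (X 0 : Pol M) ^ (m - k) - 1 ∈ I :=
      I.mem_of_dvd (sub_one_dvd_pow_sub_one _ _) h0
    have := I.mul_mem_right (-F) h1
    convert this using 1; ring

/-- the linear forms vanishing at a point -/
noncomputable def lin (x : Fin (M + 1) → ℂ) (i : Fin (M + 1)) : Pol M := X i - C (x i) * X 0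

lemma lin_hom (x : Fin (M + 1) → ℂ) (i : Fin (M + 1)) : (lin x i).IsHomogeneous 1 :=
  (isHomogeneous_X ℂ i).sub ((isHomogeneous_X ℂ 0).C_mul _)

lemma Gm_top {I : Ideal (Pol M)} (h0 : X 0 - 1 ∈ I) (x : Fin (M + 1) → ℂ) {s : ℕ}
    (hs : ∀ i, lin x i ^ s ∈ I) (P : Pol M) : P ∈ Gm I ((M + 1) * s) := by
  have h1 : ∀ P' : Pol M, aeval (lin x) P' ∈ Gm I ((M + 1) * s) := fun P' => by
    induction P' using MvPolynomial.induction_on' with
    | add p q hp hq => rw [map_add]; exact add_mem hp hq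
    | monomial α c =>
      rw [aeval_monomial, Finsupp.prod_fintype _ _ (by simp)]
      by_cases h : ∃ i, s ≤ α i
      · obtain ⟨i, hi⟩ := h
        refine mem_Gm_of_mem (I.mul_mem_left _ ?_)
        exact I.mem_of_dvd ((pow_dvd_pow _ hi).trans
          (Finset.dvd_prod_of_mem (fun i => lin x i ^ α i) (Finset.mem_univ i))) (hs i)
      · push Not at h
        refine mem_Gm_of_hom h0 (k := ∑ i, 1 * α i) ?_ ?_
        · calc _ ≤ ∑ _i : Fin (M + 1), s := Finset.sum_le_sum fun i _ => by simpa using (h i).le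
            _ = _ := by simp
        · exact (IsHomogeneous.prod _ _ _ fun i _ => (lin_hom x i).pow (α i)).C_mul c
  have h2 : ∀ P : Pol M, P - aeval (lin x) (aeval (fun i => (X i + C (x i) : Pol M)) P) ∈ I :=
    fun P => by
    induction P using MvPolynomial.induction_on with
    | C a => simp
    | add p q hp hq =>
      have := add_mem hp hq
      simp only [map_add]
      convert this using 1; ring
    | mul_X p i hp =>
      have := add_mem (I.mul_mem_right (X i) hp)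
        (I.mul_mem_left (aeval (lin x) (aeval (fun i => (X i + C (x i) : Pol M)) p) * C (x i)) h0)
      simp only [map_mul, aeval_X, map_add, aeval_C, algebraMap_eq]
      generalize aeval (lin x) (aeval (fun i => (X i + C (x i) : Pol M)) p) = q at this ⊢
      convert this using 1
      simp only [lin]; ring
  have := add_mem (mem_Gm_of_mem (m := (M + 1) * s) (h2 P))
    (h1 (aeval (fun i => (X i + C (x i) : Pol M)) P))
  simpa using this

/-- the filtration by the order of vanishing along the test curves -/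
noncomputable def J (A : AbVar d M) (W : Submodule ℂ (E d)) (T a : ℕ) : Ideal (Pol M) where
  carrier := {P | ∀ u ∈ W, ∀ v, (fun τ => Fp A P (gam T u v τ)) =O[𝓝 0] fun τ : ℂ => τ ^ a}
  add_mem' hP hQ u hu v := ((hP u hu v).add (hQ u hu v)).congr_left fun τ => by simp [Fp]
  zero_mem' u _ v := by simpa [Fp] using isBigO_zero _ _
  smul_mem' Q P hP u hu v := by
    have h1 : Tendsto (fun τ => Fp A Q (gam T u v τ)) (𝓝 0) (𝓝 (Fp A Q 0)) :=
      (Fp_strict A Q).continuousAt.tendsto.comp (gam_tendsto T u v)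
    exact ((h1.isBigO_one ℂ).mul (hP u hu v)).congr (fun τ => by simp [Fp]) fun τ => one_mul _

variable {A : AbVar d M} {W : Submodule ℂ (E d)} {T : ℕ}

lemma mem_J_zero (P : Pol M) : P ∈ J A W T 0 := by
  have h1 : (1 : Pol M) ∈ J A W T 0 := fun u _ v => by
    simpa [Fp] using isBigO_refl (fun _ : ℂ => (1 : ℂ)) (𝓝 0)
  simpa using (J A W T 0).mul_mem_left P h1

lemma J_mul {a b : ℕ} {P Q : Pol M} (hP : P ∈ J A W T a) (hQ : Q ∈ J A W T b) :
    P * Q ∈ J A W T (a + b) := fun u hu v =>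
  ((hP u hu v).mul (hQ u hu v)).congr (fun τ => by simp [Fp]) fun τ => (pow_add _ _ _).symm

lemma J_pow {P : Pol M} (hP : P ∈ J A W T 1) (a : ℕ) : P ^ a ∈ J A W T a := by
  induction a with
  | zero => exact mem_J_zero _
  | succ a ih => rw [pow_succ]; exact J_mul ih hP

lemma mem_J_of_zero {P : Pol M} (h : ∀ᶠ z in 𝓝 (0 : E d), Fp A P z = 0) (a : ℕ) :
    P ∈ J A W T a := fun u _ v =>
  (isBigO_zero (E' := ℂ) _ _).congr' (((gam_tendsto T u v).eventually h).mono fun _ h => h.symm)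
    EventuallyEq.rfl

lemma theta0_ne (A : AbVar d M) : ∀ᶠ z in 𝓝 (0 : E d), A.θ z 0 ≠ 0 :=
  (differentiable_pi.1 A.holo 0).continuous.continuousAt.eventually_ne A.origin

lemma X0_mem (a : ℕ) : X 0 - 1 ∈ J A W T a :=
  mem_J_of_zero ((theta0_ne A).mono fun z hz => by simp [Fp, f, hz]) a

lemma sub_C_mem (P : Pol M) : P - C (Fp A P 0) ∈ J A W T 1 := fun u _ v => by
  have h1 := ((Fp_strict A P).hasFDerivAt.isBigO_sub.comp_tendsto (gam_tendsto T u v))
  refine (h1.congr (fun τ => by simp [Fp]) fun τ => ?_).trans (gam_isBigO T u v)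
  simp

lemma Fp_hom (A : AbVar d M) {P : Pol M} {k : ℕ} (hP : P.IsHomogeneous k) (z : E d) :
    Fp A P z = (A.θ z 0)⁻¹ ^ k * ev A P z := by
  rw [Fp, f_eq, eval_smul_of_hom hP, ev]

lemma mem_J_of_ord {G : Pol M} {k : ℕ} (hG : G.IsHomogeneous k)
    (h : Ord W (ev A G) 0 (T + 1)) : G ∈ J A W T (T + 1) := fun u hu v => by
  have h1 := ((Fp_strict A G).isBigO_sub.comp_tendsto (pair_tendsto T u v)).trans (gam_sub T u v)
  have h2 : Tendsto (fun τ : ℂ => (A.θ (τ • u) 0)⁻¹ ^ k) (𝓝 0) (𝓝 ((A.θ 0 0)⁻¹ ^ k)) :=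
    ((((differentiable_pi.1 A.holo 0).continuous.tendsto 0).comp (line_tendsto u)).inv₀
      A.origin).pow k
  have h3 := (h2.isBigO_one ℂ).mul (h u hu)
  refine (h1.add (h3.congr_right fun τ => one_mul _)).congr_left fun τ => ?_
  simp [Fp_hom A hG]

/-- the Nullstellensatz step -/
lemma exists_pow (A : AbVar d M) {𝒢 : Set (Pol M)} (h𝒢 : ∀ G ∈ 𝒢, ∃ k, G.IsHomogeneous k)
    {U : Pol M} {k : ℕ} (hU : U.IsHomogeneous k) (hU0 : ev A U 0 ≠ 0)
    (hiso : ∀ z, (∀ G ∈ 𝒢, ev A G z = 0) → z ∈ A.Λ ∨ ev A U z = 0) :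
    ∃ s : ℕ, ∀ a i, lin (f A 0) i ^ s ∈ Ideal.span 𝒢 ⊔ J A W T a := by
  obtain ⟨S, -, hS⟩ := A.image
  have h1 : ∀ i, ∃ s : ℕ, (lin (f A 0) i * U) ^ s ∈ Ideal.span (S ∪ 𝒢) := fun i => by
    change _ ∈ (Ideal.span (S ∪ 𝒢)).radical
    rw [← vanishingIdeal_zeroLocus_eq_radical (K := ℂ), zeroLocus_span, mem_vanishingIdeal_iff]
    intro x hx
    obtain ⟨c, z, rfl⟩ : x ∈ {x | ∃ (c : ℂ) (z : Fin d → ℂ), x = c • A.θ z} :=
      hS ▸ fun P hP => hx P (Or.inl hP)
    change eval _ _ = 0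
    rw [map_mul, eval_smul_of_hom (lin_hom _ i), eval_smul_of_hom hU]
    by_cases hc : c = 0
    · simp [hc]
    rcases hiso z (fun G hG => by
      obtain ⟨j, hj⟩ := h𝒢 G hG
      have h2 : eval (c • A.θ z) G = 0 := hx G (Or.inr hG)
      rw [eval_smul_of_hom hj] at h2
      exact (mul_eq_zero.1 h2).resolve_left (pow_ne_zero _ hc)) with h | h
    · have h3 : ev A (lin (f A 0) i) (0 + z) = 0 := (ev_add_period A (lin_hom _ i) h 0).2 (by
        have := A.origin
        simp [lin, f, this])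
      rw [zero_add, ev] at h3
      simp [h3]
    · rw [ev] at h
      simp [h]
  choose s hs using h1
  refine ⟨∑ i, s i, fun a i => ?_⟩
  set I := Ideal.span 𝒢 ⊔ J A W T a with hI
  have h2 : Ideal.span (S ∪ 𝒢) ≤ I := by
    refine Ideal.span_le.2 ?_
    rintro P (hP | hP)
    · refine Ideal.mem_sup_right (mem_J_of_zero (Eventually.of_forall fun z => ?_) a)
      have h3 : f A z ∈ {x | ∀ P ∈ S, eval x P = 0} := hS ▸ ⟨_, z, f_eq A z⟩
      exact h3 P hP
    · exact Ideal.mem_sup_left (Ideal.subset_span hP)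
  have hu0 : Fp A U 0 ≠ 0 := by
    rw [Fp_hom A hU]; exact mul_ne_zero (pow_ne_zero _ (inv_ne_zero A.origin)) hU0
  have h3 : IsUnit (Ideal.Quotient.mk I U) := by
    have hn : IsNilpotent (Ideal.Quotient.mk I (U - C (Fp A U 0))) :=
      ⟨a, by
        rw [← map_pow, Ideal.Quotient.eq_zero_iff_mem]
        exact Ideal.mem_sup_right (J_pow (sub_C_mem U) a)⟩
    have hc : IsUnit (Ideal.Quotient.mk I (C (Fp A U 0))) := (hu0.isUnit.map C).map _
    have := hn.isUnit_add_right_of_commute hc (Commute.all _ _)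
    rwa [← map_add, sub_add_cancel] at this
  have h4 := Ideal.Quotient.eq_zero_iff_mem.2 (h2 (hs i))
  rw [mul_pow, map_mul, map_pow _ U, (h3.pow _).mul_left_eq_zero,
    Ideal.Quotient.eq_zero_iff_mem] at h4
  exact I.mem_of_dvd (pow_dvd_pow _
    (Finset.single_le_sum (fun _ _ => Nat.zero_le _) (Finset.mem_univ i))) h4

/-- reduction to forms of controlled degree -/
lemma reduce {𝒢 : Set (Pol M)} {D s₁ : ℕ}
    (h𝒢 : ∀ G ∈ 𝒢, (∃ k ≤ D, G.IsHomogeneous k) ∧ G ∈ J A W T (T + 1))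
    (h : ∀ a (P : Pol M), P ∈ Gm (Ideal.span 𝒢 ⊔ J A W T a) s₁) (s : ℕ) (P : Pol M) :
    P ∈ Gm (J A W T (s * (T + 1))) (s₁ + D * s) := by
  induction s generalizing P with
  | zero => rw [zero_mul]; exact mem_Gm_of_mem (mem_J_zero P)
  | succ s ih =>
    have h1 : ∀ G ∈ Ideal.span 𝒢, ∀ Q : Pol M,
        Q * G ∈ Gm (J A W T ((s + 1) * (T + 1))) (s₁ + D * (s + 1)) := by
      intro G hG
      induction hG using Submodule.span_induction with
      | mem G hG =>
        intro Q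
        obtain ⟨⟨k, hk, hGk⟩, hGJ⟩ := h𝒢 G hG
        obtain ⟨F, hF, hr⟩ := mem_Gm.1 (ih Q)
        have h2 := add_mem (mem_Gm_of_hom (I := J A W T ((s + 1) * (T + 1))) (X0_mem _)
          (show s₁ + D * s + k ≤ s₁ + D * (s + 1) by rw [mul_add]; omega) (hF.mul hGk))
          (mem_Gm_of_mem (show (Q - F) * G ∈ _ by rw [add_mul, one_mul]; exact J_mul hr hGJ))
        convert h2 using 1; ring
      | zero => intro Q; simp
      | add x y _ _ hx hy => intro Q; rw [mul_add Q]; exact add_mem (hx Q) (hy Q)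
      | smul c x _ hx => intro Q; rw [smul_eq_mul, ← mul_assoc]; exact hx _
    obtain ⟨F, hF, hr⟩ := mem_Gm.1 (h ((s + 1) * (T + 1)) P)
    obtain ⟨G, hG, r, hr', hGr⟩ := Submodule.mem_sup.1 hr
    have h2 := add_mem (add_mem (mem_Gm_of_hom (I := J A W T ((s + 1) * (T + 1))) (X0_mem _)
      (Nat.le_add_right s₁ (D * (s + 1))) hF) (h1 G hG 1)) (mem_Gm_of_mem hr')
    convert h2 using 1
    linear_combination -hGr

/-- independence of monomials in polynomials with independent leading terms -/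
lemma indep {ι κ : Type} [Fintype ι] [Fintype κ] {I : Ideal (Pol M)} {N : ℕ} {wt : ι → ℕ}
    {p : ι → Pol M} {γ : (ι → ℂ) → ℂ → E d}
    (hp : ∀ ζ k, Ld (fun τ => Fp A (p k) (γ ζ τ)) (ζ k) (wt k))
    (hI : ∀ P ∈ I, ∀ ζ, (fun τ => Fp A P (γ ζ τ)) =O[𝓝 0] fun τ : ℂ => τ ^ N)
    {e : κ → ι → ℕ} (he : Function.Injective e) (hN : ∀ α, ∑ k, e α k * wt k < N)
    {c : κ → ℂ} (hc : ∑ α, c α • ∏ k, p k ^ e α k ∈ I) (α : κ) : c α = 0 := by
  classical
  generalize hm : ∑ k, e α k * wt k = m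
  induction m using Nat.strong_induction_on generalizing α with
  | _ m ih =>
  have hmono : ∀ ζ β, Ld (fun τ => ∏ k, Fp A (p k) (γ ζ τ) ^ e β k) (∏ k, ζ k ^ e β k)
      (∑ k, e β k * wt k) := fun ζ β => Ld.prod _ fun k _ => (hp ζ k).pow _
  have h1 : ∀ ζ : ι → ℂ, ∑ β, (if ∑ k, e β k * wt k = m then c β * ∏ k, ζ k ^ e β k else 0) = 0 :=
    fun ζ => by
    refine Ld.unique (m := m) ?_ (Ld.of_lt (hI _ hc ζ) (hm ▸ hN α))
    have h2 : ∀ z, Fp A (∑ α, c α • ∏ k, p k ^ e α k) z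
        = ∑ β, c β * ∏ k, Fp A (p k) z ^ e β k := fun z => by simp [Fp]
    simp only [h2]
    refine Ld.sum _ fun β _ => ?_
    rcases lt_trichotomy (∑ k, e β k * wt k) m with h | h | h
    · rw [if_neg h.ne, ih _ h β rfl]; simpa using Ld.zero
    · rw [if_pos h, ← h]; exact (hmono ζ β).const_mul _
    · rw [if_neg h.ne']; simpa using (Ld.of_lt (hmono ζ β).isBigO h).const_mul (c β)
  have h3 : (∑ β, monomial (Finsupp.equivFunOnFinite.symm (e β))
      (if ∑ k, e β k * wt k = m then c β else 0) : MvPolynomial ι ℂ) = 0 := by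
    refine MvPolynomial.funext fun ζ => ?_
    rw [map_zero, map_sum]
    refine (Finset.sum_congr rfl fun β _ => ?_).trans (h1 ζ)
    rw [eval_monomial, Finsupp.prod_fintype _ _ (by simp)]
    split_ifs <;> simp
  have h4 := congrArg (coeff (Finsupp.equivFunOnFinite.symm (e α))) h3
  simp only [coeff_sum, coeff_monomial, EmbeddingLike.apply_eq_iff_eq, he.eq_iff,
    Finset.sum_ite_eq', Finset.mem_univ, if_true, hm, coeff_zero] at h4
  exact h4

lemma exists_ext {n : ℕ} {w : Fin n → E d} (hw : LinearIndependent ℂ w) :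
    ∃ (e : ℕ) (b : Module.Basis (Fin n ⊕ Fin e) ℂ (E d)), n + e = d ∧ ∀ k, b (Sum.inl k) = w k := by
  obtain ⟨W', hW'⟩ := (Submodule.span ℂ (Set.range w)).exists_isCompl
  let v := Module.finBasis ℂ W'
  have hv : Submodule.span ℂ (Set.range fun i => (v i : E d)) = W' := by
    have := congrArg (Submodule.map W'.subtype) v.span_eq
    rwa [Submodule.map_span, ← Set.range_comp, Submodule.map_subtype_top] at this
  have hli : LinearIndependent ℂ (Sum.elim w fun i => (v i : E d)) :=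
    hw.sum_type (v.linearIndependent.map' W'.subtype W'.ker_subtype) (hv.symm ▸ hW'.disjoint)
  let b := Module.Basis.mk hli (by
    rw [Set.Sum.elim_range, Submodule.span_union, hv, hW'.sup_eq_top])
  refine ⟨_, b, ?_, fun k => by simp [b]⟩
  simpa using (Module.finrank_eq_card_basis b).symm

end IsoAux

open IsoAux in
theorem iso (A : AbVar d M) {C : ℝ} (hC : HilBd A C) {D T n : ℕ} {w : Fin n → E d}
    (hw : LinearIndependent ℂ w) {𝒢 : Set (Pol M)}
    (h𝒢 : ∀ G ∈ 𝒢, (∃ k ≤ D, G.IsHomogeneous k) ∧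
      Ord (Submodule.span ℂ (Set.range w)) (ev A G) 0 (T + 1))
    {U : Pol M} {k : ℕ} (hU : U.IsHomogeneous k) (hU0 : ev A U 0 ≠ 0)
    (hiso : ∀ z, (∀ G ∈ 𝒢, ev A G z = 0) → z ∈ A.Λ ∨ ev A U z = 0) :
    ((T : ℝ) + 1) ^ n ≤ C * (1 + (d + 1) * (D : ℝ)) ^ d := by
  classical
  set W := Submodule.span ℂ (Set.range w) with hW
  obtain ⟨s', hs'⟩ := exists_pow (W := W) (T := T) A
    (fun G hG => (h𝒢 G hG).1.imp fun _ h => h.2) hU hU0 hiso
  have hred := reduce (A := A) (W := W) (T := T) (𝒢 := 𝒢) (D := D) (s₁ := (M + 1) * s')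
    (fun G hG => ⟨(h𝒢 G hG).1, by
      obtain ⟨⟨j, -, hj⟩, h⟩ := h𝒢 G hG
      exact mem_J_of_ord hj h⟩)
    (fun a P => Gm_top (Ideal.mem_sup_right (X0_mem a)) _ (hs' a) P)
  generalize (M + 1) * s' = s₁ at hred
  obtain ⟨e, b, hde, hb⟩ := exists_ext hw
  choose p hp using fun i => approx_curve A (b.coord i) T
  let wt : Fin n ⊕ Fin e → ℕ := Sum.elim (fun _ => 1) fun _ => T + 1
  let bd : Fin n ⊕ Fin e → ℕ := Sum.elim (fun _ => (s₁ + 1) * (T + 1)) fun _ => s₁ + 1
  let u : (Fin n ⊕ Fin e → ℂ) → E d := fun ζ => ∑ i, ζ (Sum.inl i) • b (Sum.inl i)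
  let v : (Fin n ⊕ Fin e → ℂ) → E d := fun ζ => ∑ i, ζ (Sum.inr i) • b (Sum.inr i)
  have hu : ∀ ζ, u ζ ∈ W := fun ζ => Submodule.sum_mem _ fun i _ =>
    Submodule.smul_mem _ _ (hb i ▸ Submodule.subset_span ⟨i, rfl⟩)
  have hp' : ∀ ζ i, Ld (fun τ => Fp A (p i) (gam T (u ζ) (v ζ) τ)) (ζ i) (wt i) := by
    intro ζ i
    have h := hp i (u ζ) (v ζ)
    rcases i with i | i
    · have h1 : b.coord (Sum.inl i) (u ζ) = ζ (Sum.inl i) := by
        simp [u, Finsupp.single_apply]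
      have h2 : b.coord (Sum.inl i) (v ζ) = 0 := by simp [v]
      rw [h1, h2] at h
      exact (IsLittleO.trans_isBigO h (pow_isBigO (show 1 ≤ T + 1 by omega))).congr_left
        fun τ => by simp [wt]
    · have h1 : b.coord (Sum.inr i) (u ζ) = 0 := by simp [u]
      have h2 : b.coord (Sum.inr i) (v ζ) = ζ (Sum.inr i) := by
        simp [v, Finsupp.single_apply]
      rw [h1, h2] at h
      simpa [wt] using h
  choose F hF hPF using fun α : (i : Fin n ⊕ Fin e) → Fin (bd i) =>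
    mem_Gm.1 (hred (d * (s₁ + 1) + 1) (∏ i, p i ^ (α i : ℕ)))
  have hli : LinearIndependent ℂ fun α => ev A (F α) := by
    refine Fintype.linearIndependent_iff.2 fun c hc => ?_
    refine indep (I := J A W T ((d * (s₁ + 1) + 1) * (T + 1))) hp'
      (fun P hP ζ => hP _ (hu ζ) _) (e := fun α i => (α i : ℕ))
      (fun α β h => funext fun i => Fin.ext (congrFun h i)) (fun α => ?_) ?_
    · calc _ ≤ ∑ _i : Fin n ⊕ Fin e, (s₁ + 1) * (T + 1) := Finset.sum_le_sum fun i _ => by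
            have := (α i).2
            rcases i with i | i
            · exact (mul_one _).le.trans this.le
            · exact Nat.mul_le_mul_right _ this.le
        _ = d * (s₁ + 1) * (T + 1) := by simp [hde, mul_assoc]
        _ < _ := by rw [add_mul _ 1]; omega
    · have h1 : ∑ α, c α • F α ∈ J A W T ((d * (s₁ + 1) + 1) * (T + 1)) :=
        mem_J_of_zero (Eventually.of_forall fun z => by
          have h2 := congrFun hc z
          simp only [Finset.sum_apply, Pi.smul_apply, smul_eq_mul, Pi.zero_apply] at h2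
          have h3 : Fp A (∑ α, c α • F α) z = ∑ α, c α * Fp A (F α) z := by simp [Fp]
          simp only [h3, Fp_hom A (hF _), mul_left_comm (c _), ← Finset.mul_sum, h2, mul_zero]) _
      have h2 := add_mem h1 (Submodule.sum_mem _ fun α (_ : α ∈ Finset.univ) =>
        Submodule.smul_of_tower_mem _ (c α) (hPF α))
      simpa [smul_sub] using h2
  have h1 := hC _ _ F hF hli
  have hcard : Fintype.card ((i : Fin n ⊕ Fin e) → Fin (bd i)) = (s₁ + 1) ^ d * (T + 1) ^ n := by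
    simp [bd, ← hde, mul_pow, pow_add]; ring
  rw [hcard] at h1
  push_cast at h1
  have hs0 : (0 : ℝ) ≤ s₁ := Nat.cast_nonneg _
  have hD0 : (0 : ℝ) ≤ D := Nat.cast_nonneg _
  have hd0 : (0 : ℝ) ≤ d := Nat.cast_nonneg _
  have hC0 : 0 ≤ C := by
    by_contra h
    have h2 : C * ((s₁ : ℝ) + D * (d * (s₁ + 1) + 1) + 1) ^ d < 0 :=
      mul_neg_of_neg_of_pos (not_le.1 h) (by positivity)
    have h3 : (0 : ℝ) ≤ ((s₁ : ℝ) + 1) ^ d * ((T : ℝ) + 1) ^ n := by positivity
    linarith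
  have h2 : ((s₁ : ℝ) + D * (d * (s₁ + 1) + 1) + 1) ^ d
      ≤ ((s₁ : ℝ) + 1) ^ d * (1 + (d + 1) * (D : ℝ)) ^ d := by
    rw [← mul_pow]
    refine pow_le_pow_left₀ (by positivity) ?_ d
    nlinarith [mul_nonneg hs0 hD0]
  refine le_of_mul_le_mul_left (a := ((s₁ : ℝ) + 1) ^ d) (h1.trans ?_) (by positivity)
  rw [mul_left_comm]
  exact mul_le_mul_of_nonneg_left h2 hC0

end Pool.Agent.Lib.MP_caab05_ag.LT
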