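import Mathlib
import Pool.Agent.Lib.MP_caab05_ag.LT.AuxP
import Pool.Agent.Lib.MP_caab05_ag.LT.Stab
import Pool.Agent.Lib.MP_caab05_ag.LT.Iso
import Pool.Agent.Lib.MP_caab05_ag.LT.Eqs

/-! The multiplicity estimate. -/

namespace Pool.Agent.Lib.MP_caab05_ag.LT

open MvPolynomial Filter Topology Asymptotics

variable {d M : ℕ}

namespace ZeroAux

open scoped Pointwise

lemma ord_mono {W : Submodule ℂ (E d)} {F : E d → ℂ} {z : E d} {k l : ℕ} (h : Ord W F z l)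
    (hk : k ≤ l) : Ord W F z k := fun u hu => by
  rcases hk.lt_or_eq with h' | rfl
  · exact (h u hu).trans (isLittleO_pow_pow h').isBigO
  · exact h u hu

lemma ord_zero {W : Submodule ℂ (E d)} {F : E d → ℂ} {z : E d} {k : ℕ} (h : Ord W F z (k + 1)) :
    F z = 0 := by
  have := (h 0 W.zero_mem).bound
  obtain ⟨c, hc⟩ := this
  simpa using hc.self_of_nhds

lemma step (A : AbVar d M) (hA : A.Simple) {C : ℝ} (hC : HilBd A C) {κ D T n : ℕ} {P : Pol M}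
    {w : Fin n → E d} (hP : P.IsHomogeneous D) (hP0 : ∃ z, ev A P z ≠ 0)
    (hw : LinearIndependent ℂ w)
    (hκ : ∀ (v : E d) (N : ℕ), ∃ 𝒢 : Set (Pol M),
      (∀ G ∈ 𝒢, ∃ k ≤ κ * D, G.IsHomogeneous k) ∧
      (∀ z, (∀ G ∈ 𝒢, ev A G z = 0) ↔ Ord (Submodule.span ℂ (Set.range w)) (ev A P) (z + v) N) ∧
      ∀ T : ℕ, Ord (Submodule.span ℂ (Set.range w)) (ev A P) v (N + T) →
        ∀ G ∈ 𝒢, Ord (Submodule.span ℂ (Set.range w)) (ev A G) 0 (T + 1))
    (hcon : ¬ ((T : ℝ) + 1) ^ n ≤ C * (1 + (d + 1) * ((κ * D : ℕ) : ℝ)) ^ d)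
    {V : Set (E d)} {N : ℕ} (hV : Irr A V) (h0 : (0 : E d) ∈ V)
    (hO : ∀ v ∈ V, Ord (Submodule.span ℂ (Set.range w)) (ev A P) v (N + 1 + T)) :
    ∃ V', Irr A V' ∧ V ⊆ V' ∧ ¬ V' ⊆ cl A V ∧
      ∀ v ∈ V', Ord (Submodule.span ℂ (Set.range w)) (ev A P) v (N + 1) := by
  set W := Submodule.span ℂ (Set.range w)
  choose 𝒢 h1 h2 h3 using fun v => hκ v (N + 1)
  have hS : (0 : E d) ∈ {z | ∀ v ∈ V, Ord W (ev A P) (z + v) (N + 1)} := fun v hv => by
    rw [zero_add]; exact ord_mono (hO v hv) (by omega)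
  rcases dichotomy A hS with ⟨H, hHS, hH, hH0, hHΛ⟩ | ⟨U, k, hU, hU0, hz⟩
  · refine ⟨V + H, irr_add A hV hH, fun v hv => ⟨v, hv, 0, hH0, add_zero v⟩, fun h => hHΛ ?_, ?_⟩
    · refine stab A hA hV.1 (fun h' => ?_) hH hH0 h
      obtain ⟨z, hz⟩ := hP0
      refine hz ((h' ▸ Set.mem_univ z : z ∈ cl A V) P D hP fun v hv => ?_)
      exact ord_zero (k := 0) (ord_mono (hO v hv) (by omega))
    · rintro _ ⟨v, hv, h, hh, rfl⟩
      have := hHS hh v hv
      rwa [add_comm] at this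
  · refine absurd (iso A hC hw (𝒢 := ⋃ v ∈ V, 𝒢 v) ?_ hU hU0 ?_) hcon
    · intro G hG
      simp only [Set.mem_iUnion] at hG
      obtain ⟨v, hv, hG⟩ := hG
      exact ⟨h1 v G hG, h3 v T (hO v hv) G hG⟩
    · intro z h
      refine hz z fun v hv => (h2 v z).1 fun G hG => h G ?_
      simp only [Set.mem_iUnion]
      exact ⟨v, hv, hG⟩

lemma ord_origin (A : AbVar d M) {W : Submodule ℂ (E d)} {P : Pol M} {D k : ℕ}
    (h : ∀ u ∈ W, ∀ j ≤ k,
      iteratedDeriv j (fun τ : ℂ => ev A P (τ • u) / A.θ (τ • u) 0 ^ D) 0 = 0) :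
    Ord W (ev A P) 0 (k + 1) := by
  intro u hu
  have hl : Differentiable ℂ fun τ : ℂ => τ • u := by fun_prop
  have h1 : Differentiable ℂ fun τ : ℂ => A.θ (τ • u) 0 ^ D :=
    (((differentiable_apply (0 : Fin (M + 1))).comp A.holo).comp hl).pow D
  have h2 : Differentiable ℂ fun τ : ℂ => ev A P (τ • u) := (differentiable_ev A P).comp hl
  have h3 : A.θ ((0 : ℂ) • u) 0 ^ D ≠ 0 := by rw [zero_smul]; exact pow_ne_zero _ A.origin
  have h4 : AnalyticAt ℂ (fun τ : ℂ => ev A P (τ • u) / A.θ (τ • u) 0 ^ D) 0 :=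
    (h2.analyticAt 0).div (h1.analyticAt 0) h3
  have h5 := (isBigO_pow_iff h4 (k + 1)).2 fun j hj => h u hu j (by omega)
  have h6 := h5.mul (h1.continuous.continuousAt (x := 0).isBigO_one ℂ)
  refine (h6.congr_right fun τ => mul_one _).congr' ?_ EventuallyEq.rfl
  filter_upwards [h1.continuous.continuousAt.eventually_ne h3] with τ hτ
  rw [div_mul_cancel₀ _ hτ, zero_add]

end ZeroAux

theorem zero_est (A : AbVar d M) (hA : A.Simple) : ∃ C : ℝ, 0 < C ∧ ∀ (D T n : ℕ) (P : Pol M)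
    (w : Fin n → E d), 1 ≤ D → P.IsHomogeneous D → (∃ z, ev A P z ≠ 0) → LinearIndependent ℂ w →
    (∀ u ∈ Submodule.span ℂ (Set.range w), ∀ j ≤ d * T,
      iteratedDeriv j (fun τ : ℂ => ev A P (τ • u) / A.θ (τ • u) 0 ^ D) 0 = 0) →
    ((T : ℝ) + 1) ^ n ≤ C * (D : ℝ) ^ d := by
  classical
  obtain ⟨C, hC1, hC⟩ := exists_hilBd A
  obtain ⟨κ, hκ⟩ := exists_eqs A
  refine ⟨C * (1 + (d + 1) * κ) ^ d, by positivity, fun D T n P w hD hP hP0 hw hz => ?_⟩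
  by_contra hcon
  have hcon' : ¬ ((T : ℝ) + 1) ^ n ≤ C * (1 + (d + 1) * ((κ * D : ℕ) : ℝ)) ^ d := by
    refine fun h => hcon (h.trans ?_)
    have hD' : (1 : ℝ) ≤ D := by exact_mod_cast hD
    rw [mul_assoc, ← mul_pow]
    gcongr
    push_cast
    nlinarith
  set W := Submodule.span ℂ (Set.range w)
  let Pr : ℕ → Set (E d) → Prop := fun r V =>
    Irr A V ∧ (0 : E d) ∈ V ∧ ∀ v ∈ V, Ord W (ev A P) v ((d - r) * T + 1)
  have key : ∀ r V, ∃ V', (r < d ∧ Pr r V → Pr (r + 1) V' ∧ V ⊆ V' ∧ ¬ V' ⊆ cl A V) ∧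
      (¬ r < d → V' = Set.univ) := by
    intro r V
    by_cases hr : r < d ∧ Pr r V
    · obtain ⟨V', a1, a2, a3, a4⟩ := ZeroAux.step A hA hC hP hP0 hw (hκ D P hP W) hcon'
        (N := (d - (r + 1)) * T) hr.2.1 hr.2.2.1 (fun v hv => by
          have := hr.2.2.2 v hv
          rwa [show d - r = d - (r + 1) + 1 by omega, add_mul, one_mul, add_right_comm] at this)
      exact ⟨V', fun _ => ⟨⟨a1, a2 hr.2.2.1, a4⟩, a2, a3⟩, fun h => absurd hr.1 h⟩
    · exact ⟨Set.univ, fun h => absurd h hr, fun _ => rfl⟩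
  choose g hg1 hg2 using key
  let V : ℕ → Set (E d) := fun r => Nat.rec {0} g r
  have hV : ∀ r ≤ d, Pr r (V r) := by
    intro r hr
    induction r with
    | zero =>
      refine ⟨⟨Set.singleton_nonempty _, fun P Q _ _ _ _ h => ?_⟩, rfl, ?_⟩
      · simpa [V] using h
      · rintro _ rfl
        exact ZeroAux.ord_origin A hz
    | succ r ih => exact (hg1 r _ ⟨by omega, ih (by omega)⟩).1
  have hlast : V (d + 1) = Set.univ := hg2 d _ (lt_irrefl d)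
  refine chain A hC V (fun i hi => ?_) (fun i hi => ?_) (fun i hi => ?_)
  · rcases Nat.lt_or_ge d i with h | h
    · rw [show i = d + 1 by omega, hlast]; exact irr_univ A
    · exact (hV i h).1
  · rcases hi.lt_or_eq with h | rfl
    · exact (hg1 i _ ⟨h, hV i hi⟩).2.1
    · rw [hlast]; exact Set.subset_univ _
  · rcases hi.lt_or_eq with h | rfl
    · exact (hg1 i _ ⟨h, hV i hi⟩).2.2
    · rw [hlast]
      intro h
      obtain ⟨z, hz⟩ := hP0
      exact hz (h (Set.mem_univ z) P D hP fun v hv => ZeroAux.ord_zero ((hV _ le_rfl).2.2 v hv))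

end Pool.Agent.Lib.MP_caab05_ag.LT
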