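import Mathlib
import Pool.Agent.Lib.MP_caab05_ag.LT.Defs4
import Pool.Agent.Lib.MP_caab05_ag.LT.Zero

/-! The multiplicity estimate for subspaces in general position. -/

namespace Pool.Agent.Lib.MP_caab05_ag.LT

open MvPolynomial Filter Topology Asymptotics

variable {d M : ℕ}

namespace ZeroCAux

open scoped Pointwise

open StabAux in
/-- a stabilizer without complex lines has no irreducible subset through the origin except sets of
periods -/
lemma stab' (A : AbVar d M) {V H : Set (E d)} (hU : stU A V = ⊥) (hH : Irr A H)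
    (h0 : (0 : E d) ∈ H) (h : V + H ⊆ cl A V) : H ⊆ (A.Λ : Set (E d)) := by
  obtain ⟨R, hR⟩ := exists_fund A
  obtain ⟨F, hF, hF'⟩ := exists_cosets A V R
  obtain ⟨P, k, hP, hP0, hPF⟩ := exists_form A hF
  intro x hx
  by_contra hx'
  obtain ⟨Q, hQ, hQ0, hQx⟩ := exists_lin A (a := 0) (b := x) (by simpa using hx')
  have key : ∀ z ∈ H, ev A P z * ev A Q z = 0 := by
    intro z hz
    by_cases hz' : z ∈ A.Λ
    · have := (ev_add_period A hQ hz' 0).2 hQ0
      rw [zero_add] at this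
      rw [this, mul_zero]
    · obtain ⟨l, hl, hlR⟩ := hR z
      have hzG : z ∈ stG A V := mem_stG_of_add A fun v hv => h (Set.add_mem_add hv hz)
      obtain ⟨f, hf, hf'⟩ := hF' _ ((stG A V).sub_mem hzG (period_mem_stM A V hl)) hlR
      rw [hU, Submodule.mem_bot, sub_eq_zero] at hf'
      have h1 : f ∉ A.Λ := fun hf'' => hz' (by
        have := A.Λ.add_mem hf'' hl
        rwa [← hf', sub_add_cancel] at this)
      have := (ev_add_period A hP hl f).2 (hPF f hf h1)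
      rw [← hf', sub_add_cancel] at this
      rw [this, zero_mul]
  rcases hH.2 P Q k 1 hP hQ key with h1 | h1
  · exact hP0 (h1 0 h0)
  · exact hQx (h1 x hx)

/-- vanishing along `W` at all points of a complement `U` gives vanishing along all lines -/
lemma ord_top {W U : Submodule ℂ (E d)} {F : E d → ℂ} (hF : Differentiable ℂ F) {k : ℕ}
    (hWU : ∀ z, ∃ w ∈ W, z - w ∈ U) (hO : ∀ b ∈ U, Ord W F b (k + 1)) :
    Ord ⊤ F 0 (k + 1) := by
  intro z _
  obtain ⟨w, hw, hb⟩ := hWU z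
  have hH : Continuous fun p : ℂ × ℂ => F (p.1 • (z - w) + p.2 • w) :=
    hF.continuous.comp (by fun_prop)
  obtain ⟨K, hK⟩ := (isCompact_closedBall (0 : ℂ × ℂ) 1).exists_bound_of_continuousOn
    hH.continuousOn
  refine IsBigO.of_bound K ?_
  filter_upwards [Metric.ball_mem_nhds (0 : ℂ) one_pos] with τ hτ
  rw [mem_ball_zero_iff] at hτ
  have h2 := EqsAux.schwarz (g := fun s : ℂ => F (τ • (z - w) + s • w))
    (hF.comp (by fun_prop)) (hO _ (U.smul_mem τ hb) w hw) (K := K)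
    (fun s hs => hK (τ, s) (by
      rw [mem_closedBall_zero_iff, Prod.norm_def]
      exact max_le hτ.le hs)) hτ
  have e : (0 : E d) + τ • z = τ • (z - w) + τ • w := by
    rw [smul_sub, sub_add_cancel, zero_add]
  rw [e, norm_pow]
  exact h2

/-- the order at the origin of a nonzero form is bounded by a multiple of its degree -/
lemma exists_ord_le (A : AbVar d M) : ∃ C : ℝ, 1 ≤ C ∧ ∀ (D k : ℕ) (P : Pol M),
    P.IsHomogeneous D → (∃ z, ev A P z ≠ 0) → Ord ⊤ (ev A P) 0 (k + 1) →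
      (k : ℝ) + 1 ≤ C * D := by
  obtain ⟨q, c, -, hq, -, hper, -⟩ := exists_quad A
  obtain ⟨R, hR⟩ := exists_fund A
  have hR0 : 0 ≤ R := by
    obtain ⟨l, -, hl⟩ := hR 0
    exact (norm_nonneg _).trans hl
  obtain ⟨Q, hQ⟩ := (isCompact_closedBall (0 : E d) (2 * R)).exists_bound_of_continuousOn
    hq.continuousOn
  have hQ0 : 0 ≤ Q := (norm_nonneg _).trans (hQ 0 (by simpa using hR0))
  refine ⟨1 + 4 * Q, by linarith, fun D k P hP hP0 hO => ?_⟩
  let φ : E d → ℝ := fun z => ‖ev A P z‖ * Real.exp (-(D * q z))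
  have hφ : Continuous φ :=
    (differentiable_ev A P).continuous.norm.mul
      (Real.continuous_exp.comp (continuous_const.mul hq).neg)
  obtain ⟨z₀, hz₀, hmax⟩ := (isCompact_closedBall (0 : E d) R).exists_isMaxOn
    ⟨0, by simpa using hR0⟩ hφ.continuousOn
  rw [mem_closedBall_zero_iff] at hz₀
  have hall : ∀ z, φ z ≤ φ z₀ := by
    intro z
    obtain ⟨l, hl, hz⟩ := hR z
    have h1 := AuxPAux.period hper hP 0 hl (z - l)
    simp only [sub_add_cancel, add_zero, aeval_eq_eval] at h1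
    have h2 : φ (z - l) ≤ φ z₀ := hmax (mem_closedBall_zero_iff.2 hz)
    exact h1.le.trans h2
  have hpos : 0 < φ z₀ := by
    obtain ⟨z, hz⟩ := hP0
    exact (mul_pos (norm_pos_iff.2 hz) (Real.exp_pos _)).trans_le (hall z)
  have hev : ∀ z, ‖ev A P z‖ = φ z * Real.exp (D * q z) := fun z => by
    simp only [φ]
    rw [mul_assoc, ← Real.exp_add, neg_add_cancel, Real.exp_zero, mul_one]
  have hD : (0 : ℝ) ≤ D := Nat.cast_nonneg D
  have h2 := EqsAux.schwarz (g := fun s : ℂ => ev A P (0 + s • ((2 : ℂ) • z₀)))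
    ((differentiable_ev A P).comp (by fun_prop)) (hO _ Submodule.mem_top)
    (K := φ z₀ * Real.exp (D * Q)) (fun s hs => by
      have h3 : ‖q (0 + s • ((2 : ℂ) • z₀))‖ ≤ Q := hQ _ (by
        rw [mem_closedBall_zero_iff, zero_add, norm_smul, norm_smul, Complex.norm_ofNat]
        have := norm_nonneg z₀
        have := norm_nonneg s
        nlinarith)
      rw [hev]
      refine mul_le_mul (hall _) (Real.exp_le_exp.2 ?_) (Real.exp_pos _).le hpos.le
      exact mul_le_mul_of_nonneg_left ((le_abs_self _).trans h3) hD)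
    (s := 2⁻¹) (by norm_num)
  have e : (0 : E d) + (2⁻¹ : ℂ) • ((2 : ℂ) • z₀) = z₀ := by
    rw [zero_add, smul_smul, inv_mul_cancel₀ two_ne_zero, one_smul]
  have e2 : ‖(2⁻¹ : ℂ)‖ = Real.exp (-Real.log 2) := by
    rw [Real.exp_neg, Real.exp_log two_pos, norm_inv, Complex.norm_ofNat]
  simp only [e] at h2
  rw [hev, e2, mul_assoc (φ z₀), ← Real.exp_nat_mul, ← Real.exp_add] at h2
  have h4 := Real.exp_le_exp.1 (le_of_mul_le_mul_left h2 hpos)
  have h5 : -Q ≤ q z₀ := (abs_le.1 (hQ z₀ (mem_closedBall_zero_iff.2 (by linarith)))).1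
  have h6 := mul_le_mul_of_nonneg_left h5 hD
  have h7 : (1 : ℝ) / 2 ≤ Real.log 2 := by linarith [Real.log_two_gt_d9]
  have h8 := mul_le_mul_of_nonneg_left h7 (by positivity : (0 : ℝ) ≤ (k : ℝ) + 1)
  push_cast at h4
  nlinarith

open StabAux in
/-- if the stabilizer contains a complex line then the form vanishes along all lines -/
lemma ord_of_ne (A : AbVar d M) {W : Submodule ℂ (E d)} (hW : A.GenC W) {D k : ℕ} {P : Pol M}
    (hP : P.IsHomogeneous D) {V : Set (E d)} (hU : stU A V ≠ ⊥) (h0 : (0 : E d) ∈ V)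
    (hO : ∀ v ∈ V, Ord W (ev A P) v (k + 1)) : Ord ⊤ (ev A P) 0 (k + 1) := by
  obtain ⟨S, hS, hS'⟩ := (hW _ (span_stU A V)).resolve_left hU
  obtain ⟨κ, hκ⟩ := exists_eqs A
  obtain ⟨𝒢, h1, h2, -⟩ := hκ D P hP W 0 (k + 1)
  refine ord_top (W := W) (U := stU A V) (differentiable_ev A P) (fun z => ?_) fun b hb => ?_
  · obtain ⟨w, hw, hwz⟩ := hS' z
    refine ⟨w, hw, ?_⟩
    have e : z - w = ∑ j ∈ S, (z j - w j) • (Pi.single j 1 : E d) := by
      funext i
      rw [Finset.sum_apply]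
      simp only [Pi.smul_apply, Pi.single_apply, smul_eq_mul, mul_ite, mul_one, mul_zero,
        Finset.sum_ite_eq, Pi.sub_apply]
      split_ifs with hi
      · rfl
      · rw [hwz i hi, sub_self]
    rw [e]
    exact Submodule.sum_mem _ fun j hj => Submodule.smul_mem _ _ (hS j hj)
  · have h3 : (0 : E d) + b ∈ cl A V := stU_le hb 0 (subset_cl A V h0)
    rw [zero_add] at h3
    have h4 := (h2 b).1 fun G hG => by
      obtain ⟨m, -, hm⟩ := h1 G hG
      exact h3 G m hm fun v hv => (h2 v).2 (by rw [add_zero]; exact hO v hv) G hG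
    rwa [add_zero] at h4

lemma step (A : AbVar d M) {C : ℝ} (hC : HilBd A C) {κ D T n : ℕ} {P : Pol M}
    {w : Fin n → E d} (hP : P.IsHomogeneous D) (hw : LinearIndependent ℂ w)
    (hW : A.GenC (Submodule.span ℂ (Set.range w)))
    (hκ : ∀ (v : E d) (N : ℕ), ∃ 𝒢 : Set (Pol M),
      (∀ G ∈ 𝒢, ∃ k ≤ κ * D, G.IsHomogeneous k) ∧
      (∀ z, (∀ G ∈ 𝒢, ev A G z = 0) ↔ Ord (Submodule.span ℂ (Set.range w)) (ev A P) (z + v) N) ∧
      ∀ T : ℕ, Ord (Submodule.span ℂ (Set.range w)) (ev A P) v (N + T) →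
        ∀ G ∈ 𝒢, Ord (Submodule.span ℂ (Set.range w)) (ev A G) 0 (T + 1))
    (hcon : ¬ ((T : ℝ) + 1) ^ n ≤ C * (1 + (d + 1) * ((κ * D : ℕ) : ℝ)) ^ d)
    (hcon' : ¬ Ord ⊤ (ev A P) 0 (T + 1))
    {V : Set (E d)} {N : ℕ} (hV : Irr A V) (h0 : (0 : E d) ∈ V)
    (hO : ∀ v ∈ V, Ord (Submodule.span ℂ (Set.range w)) (ev A P) v (N + 1 + T)) :
    ∃ V', Irr A V' ∧ V ⊆ V' ∧ ¬ V' ⊆ cl A V ∧
      ∀ v ∈ V', Ord (Submodule.span ℂ (Set.range w)) (ev A P) v (N + 1) := by
  set W := Submodule.span ℂ (Set.range w)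
  have hU : StabAux.stU A V = ⊥ := by
    by_contra hU
    exact hcon' (ord_of_ne A hW hP hU h0 fun v hv => ZeroAux.ord_mono (hO v hv) (by omega))
  choose 𝒢 h1 h2 h3 using fun v => hκ v (N + 1)
  have hS : (0 : E d) ∈ {z | ∀ v ∈ V, Ord W (ev A P) (z + v) (N + 1)} := fun v hv => by
    rw [zero_add]; exact ZeroAux.ord_mono (hO v hv) (by omega)
  rcases dichotomy A hS with ⟨H, hHS, hH, hH0, hHΛ⟩ | ⟨U, k, hU', hU0, hz⟩
  · refine ⟨V + H, irr_add A hV hH, fun v hv => ⟨v, hv, 0, hH0, add_zero v⟩,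
      fun h => hHΛ (stab' A hU hH hH0 h), ?_⟩
    rintro _ ⟨v, hv, h, hh, rfl⟩
    have := hHS hh v hv
    rwa [add_comm] at this
  · refine absurd (iso A hC hw (𝒢 := ⋃ v ∈ V, 𝒢 v) ?_ hU' hU0 ?_) hcon
    · intro G hG
      simp only [Set.mem_iUnion] at hG
      obtain ⟨v, hv, hG⟩ := hG
      exact ⟨h1 v G hG, h3 v T (hO v hv) G hG⟩
    · intro z h
      refine hz z fun v hv => (h2 v z).1 fun G hG => h G ?_
      simp only [Set.mem_iUnion]
      exact ⟨v, hv, hG⟩

end ZeroCAux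

theorem zeroC : ZeroCS := by
  classical
  intro d M A
  obtain ⟨C, hC1, hC⟩ := exists_hilBd A
  obtain ⟨κ, hκ⟩ := exists_eqs A
  obtain ⟨C', hC'1, hC'⟩ := ZeroCAux.exists_ord_le A
  refine ⟨C * (1 + (d + 1) * κ) ^ d + C' ^ d, by positivity,
    fun D T n P w hD hP hP0 hw hW hz => ?_⟩
  by_contra hcon
  have hD' : (1 : ℝ) ≤ D := by exact_mod_cast hD
  have hcon' : ¬ ((T : ℝ) + 1) ^ n ≤ C * (1 + (d + 1) * ((κ * D : ℕ) : ℝ)) ^ d := by
    refine fun h => hcon (h.trans ?_)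
    have h1 : C * (1 + (d + 1) * ((κ * D : ℕ) : ℝ)) ^ d ≤
        C * (1 + (d + 1) * κ) ^ d * (D : ℝ) ^ d := by
      rw [mul_assoc, ← mul_pow]
      gcongr
      push_cast
      nlinarith
    have h2 : 0 ≤ C' ^ d * (D : ℝ) ^ d := by positivity
    rw [add_mul]
    linarith
  have hcon'' : ¬ Ord ⊤ (ev A P) 0 (T + 1) := by
    refine fun h => hcon ?_
    have h1 := hC' D T P hP hP0 h
    have hn : n ≤ d := by simpa using hw.fintype_card_le_finrank
    have h2 : ((T : ℝ) + 1) ^ n ≤ C' ^ d * (D : ℝ) ^ d := by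
      rw [← mul_pow]
      exact (pow_le_pow_left₀ (by positivity) h1 n).trans
        (pow_le_pow_right₀ (by nlinarith) hn)
    have h3 : 0 ≤ C * (1 + (d + 1) * κ) ^ d * (D : ℝ) ^ d := by positivity
    rw [add_mul]
    linarith
  set W := Submodule.span ℂ (Set.range w)
  let Pr : ℕ → Set (E d) → Prop := fun r V =>
    Irr A V ∧ (0 : E d) ∈ V ∧ ∀ v ∈ V, Ord W (ev A P) v ((d - r) * T + 1)
  have key : ∀ r V, ∃ V', (r < d ∧ Pr r V → Pr (r + 1) V' ∧ V ⊆ V' ∧ ¬ V' ⊆ cl A V) ∧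
      (¬ r < d → V' = Set.univ) := by
    intro r V
    by_cases hr : r < d ∧ Pr r V
    · obtain ⟨V', a1, a2, a3, a4⟩ := ZeroCAux.step A hC hP hw hW (hκ D P hP W) hcon' hcon''
        (N := (d - (r + 1)) * T) hr.2.1 hr.2.2.1 (fun v hv => by
          have := hr.2.2.2 v hv
          rwa [show d - r = d - (r + 1) + 1 by omega, add_mul, one_mul, add_right_comm] at this)
      exact ⟨V', fun _ => ⟨⟨a1, a2 hr.2.2.1, a4⟩, a2, a3⟩, fun h => absurd hr.1 h⟩
    · exact ⟨Set.univ, fun h => absurd h hr, fun _ => rfl⟩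
  choose g hg1 hg2 using key
  let V : ℕ → Set (E d) := fun r => Nat.rec {0} g r
  have hV : ∀ r ≤ d, Pr r (V r) := by
    intro r hr
    induction r with
    | zero =>
      refine ⟨⟨Set.singleton_nonempty _, fun P Q _ _ _ _ h => ?_⟩, rfl, ?_⟩
      · simpa [V] using h
      · rintro _ rfl
        exact ZeroAux.ord_origin A hz
    | succ r ih => exact (hg1 r _ ⟨by omega, ih (by omega)⟩).1
  have hlast : V (d + 1) = Set.univ := hg2 d _ (lt_irrefl d)
  refine chain A hC V (fun i hi => ?_) (fun i hi => ?_) (fun i hi => ?_)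
  · rcases Nat.lt_or_ge d i with h | h
    · rw [show i = d + 1 by omega, hlast]; exact irr_univ A
    · exact (hV i h).1
  · rcases hi.lt_or_eq with h | rfl
    · exact (hg1 i _ ⟨h, hV i hi⟩).2.1
    · rw [hlast]; exact Set.subset_univ _
  · rcases hi.lt_or_eq with h | rfl
    · exact (hg1 i _ ⟨h, hV i hi⟩).2.2
    · rw [hlast]
      intro h
      obtain ⟨z, hz⟩ := hP0
      exact hz (h (Set.mem_univ z) P D hP fun v hv => ZeroAux.ord_zero ((hV _ le_rfl).2.2 v hv))

end Pool.Agent.Lib.MP_caab05_ag.LT
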