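import Mathlib
import Pool.Agent.Lib.MP_caab05_ag.LT.MainC

/-! The transcendence theorem for a family of subspaces with a uniform multiplicity estimate. -/

namespace Pool.Agent.Lib.MP_caab05_ag.LT

open MvPolynomial Filter Topology Asymptotics

variable {d M : ℕ}

namespace MainPAux

open MainCAux

/-- rows whose entries are coordinates of `x` or zero -/
def rowp {n : ℕ} {ι K : Type} [Zero K] (ρ : Fin n → Fin d → Option ι) (x : ι → K) (k : Fin n) :
    Fin d → K := fun m => (ρ k m).elim 0 x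

/-- the multiplicity estimate for the span of `w` -/
def ZEst (A : AbVar d M) (C : ℝ) {n : ℕ} (w : Fin n → E d) : Prop :=
  ∀ (D T : ℕ) (P : Pol M), 1 ≤ D → P.IsHomogeneous D → (∃ z, ev A P z ≠ 0) →
    (∀ u ∈ Submodule.span ℂ (Set.range w), ∀ j ≤ d * T,
      iteratedDeriv j (fun τ : ℂ => ev A P (τ • u) / A.θ (τ • u) 0 ^ D) 0 = 0) →
    ((T : ℝ) + 1) ^ n ≤ C * (D : ℝ) ^ d

lemma rowp_smul {n : ℕ} {ι : Type} (ρ : Fin n → Fin d → Option ι) (l : ℂ) (x : ι → ℂ)
    (k : Fin n) : rowp ρ (l • x) k = l • rowp ρ x k := by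
  funext m
  simp only [rowp, Pi.smul_apply]
  cases ρ k m <;> simp

lemma norm_rowp_le {n : ℕ} {ι : Type} [Fintype ι] (ρ : Fin n → Fin d → Option ι)
    (x : Option (Option ι) → ℂ) {N : ℕ} {a : Fin n → ℕ} (ha : ∀ k, a k ≤ N) :
    ‖∑ k, (a k : ℂ) • rowp ρ (mat x) k‖ ≤ n * N * ‖x‖ := by
  refine (norm_sum_le _ _).trans ?_
  have : ∀ k ∈ Finset.univ, ‖(a k : ℂ) • rowp ρ (mat x) k‖ ≤ N * ‖x‖ := fun k _ => by
    rw [norm_smul, Complex.norm_natCast]
    refine mul_le_mul (by exact_mod_cast ha k) ?_ (norm_nonneg _) (Nat.cast_nonneg _)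
    refine (pi_norm_le_iff_of_nonneg (norm_nonneg _)).2 fun j => ?_
    unfold rowp
    cases ρ k j with
    | none => simp
    | some p => exact norm_le_pi_norm x _
  refine (Finset.sum_le_card_nsmul _ _ _ this).trans (le_of_eq ?_)
  simp [mul_assoc]

open Pluck in
theorem coreP (h2 : ElimAS) (A : AbVar d M) {n t : ℕ} {ι : Type} [Fintype ι]
    (ρ : Fin n → Fin d → Option ι) {η₀ : ι → ℂ} {Cz' : ℝ} (hCz' : 0 < Cz')
    (hA : Op η₀ fun x => ZEst A Cz' (rowp ρ x)) {F : IntermediateField ℚ ℂ}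
    (hF : Algebra.trdeg ℚ F ≤ t) (huF : ∀ i, η₀ i ∈ F) :
    ∃ C : ℝ, 1 ≤ C ∧ ∀ (D T : ℕ) (P : MvPolynomial (Fin (M + 1)) ℤ) (β V L : ℝ), 1 ≤ D →
      D ≤ d * T → P.IsHomogeneous D → (∃ z, aeval (A.θ z) P ≠ 0) → 0 ≤ β →
      (∀ x : Fin (M + 1) → ℂ, ‖x‖ ≤ 1 → ‖aeval x P‖ ≤ Real.exp β) →
      (∀ z ∈ Submodule.span ℂ (Set.range (rowp ρ η₀)), ‖z‖ ≤ 1 →
        ‖aeval (A.θ z) P‖ ≤ Real.exp (-V)) →
      C * (D : ℝ) ^ d < ((T : ℝ) + 1) ^ n → C * ((d * T : ℕ) + 1) ≤ Real.exp L →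
      V ≤ C * (β + (d * T : ℕ) * L + (d * T : ℕ)) * ((d * T : ℕ) : ℝ) ^ t := by
  classical
  obtain ⟨e, G, hG1, hG2, hG3⟩ := hA
  obtain ⟨BG, hBG0, hBG⟩ := exists_bound G
  obtain ⟨Cz, hCz, hCz1, hCz2⟩ : ∃ Cz : ℝ, 0 < Cz ∧ Cz' ≤ Cz ∧ ((e : ℝ) + 2) ^ n ≤ Cz :=
    ⟨Cz' + ((e : ℝ) + 2) ^ n, by positivity, le_add_of_nonneg_right (by positivity),
      le_add_of_nonneg_left hCz'.le⟩
  obtain ⟨c, Cj, hc, hCj, hj⟩ := jets A
  obtain ⟨Cs, hCs, hs⟩ := small A
  obtain ⟨η, hη1, hη2, hη3⟩ : ∃ η : Option (Option ι) → ℂ, η none = 1 ∧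
      η (some none) = (aeval η₀ G)⁻¹ ∧ mat η = η₀ :=
    ⟨fun o => o.elim 1 fun o' => o'.elim (aeval η₀ G)⁻¹ η₀, rfl, rfl, rfl⟩
  have hηF : ∀ i, η i ∈ F := by
    rintro (_ | _ | p)
    · rw [hη1]; exact one_mem F
    · rw [hη2]; exact inv_mem (aeval_mem huF G)
    · rw [show η (some (some p)) = η₀ p from congrFun hη3 p]; exact huF _
  obtain ⟨Ce, hCe, he⟩ := h2 t F hF _ none η (by rw [hη1]; exact one_ne_zero) hηF c hc
  set K : ℝ := Cj + Cs * (n * ‖η‖ + 1) + ‖η‖ + n + 1 + BG with hK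
  have hη0 := norm_nonneg η
  have hn0 : (0 : ℝ) ≤ n := Nat.cast_nonneg n
  have hK0 : 0 ≤ Cs * (n * ‖η‖ + 1) := by positivity
  refine ⟨K + Cz + 6 * (Ce + 1), by linarith, ?_⟩
  intro D T P β V L hD hDN hP hP0 hβ hB hV hT hL
  set N := d * T with hN
  have hN1 : 1 ≤ N := hD.trans hDN
  have hN1' : (1 : ℝ) ≤ N := by exact_mod_cast hN1
  have hKL : K * (N + 1) ≤ Real.exp L := le_trans (by gcongr; linarith) hL
  have hKN : K ≤ K * (N + 1) := le_mul_of_one_le_right (by linarith) (by linarith)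
  have hL0 : 0 ≤ L := by
    rw [← Real.one_le_exp_iff]
    linarith
  have key := he N (β + 6 * (N * L)) (V - (β + 6 * (N * L))) hN1 (by positivity) ?_
  · have h1 : (1 : ℝ) ≤ (N : ℝ) ^ t := one_le_pow₀ hN1'
    have h2 : 0 ≤ N * L := by positivity
    have h3 : β + 6 * (N * L) + N ≤ 6 * (β + N * L + N) := by linarith
    have h4 : β + 6 * (N * L) ≤ 6 * (β + N * L + N) * (N : ℝ) ^ t :=
      le_trans (by linarith) (le_mul_of_one_le_right (by positivity) h1)
    have h5 : Ce * (β + 6 * (N * L) + N) * (N : ℝ) ^ t ≤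
        Ce * (6 * (β + N * L + N)) * (N : ℝ) ^ t := by gcongr
    have h6 : 6 * (Ce + 1) * (β + N * L + N) * (N : ℝ) ^ t ≤
        (K + Cz + 6 * (Ce + 1)) * (β + N * L + N) * (N : ℝ) ^ t := by gcongr; linarith
    linarith
  intro x hxi
  by_cases hGx : aeval (mat x) G = 0
  · have hNe : e + 1 ≤ N := by
      have h3 : (1 : ℝ) ≤ (D : ℝ) ^ d := one_le_pow₀ (by exact_mod_cast hD)
      have h4 : ((e : ℝ) + 2) ^ n < ((T : ℝ) + 1) ^ n := by
        refine lt_of_le_of_lt ?_ hT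
        exact le_trans (by linarith) (le_mul_of_one_le_right (by linarith) h3)
      have h5 := lt_of_pow_lt_pow_left₀ n (by positivity) h4
      have h6 : e + 2 < T + 1 := by exact_mod_cast h5
      have h7 : T ≤ N := Nat.le_mul_of_pos_left _ (Nat.pos_of_mul_pos_right hN1)
      omega
    set R : MvPolynomial (Option (Option ι)) ℤ :=
      (X (some none) * rename (fun p => some (some p)) G - X none ^ (e + 1)) *
        X none ^ (N - (e + 1)) with hR
    have hval : ∀ (c' : ℂ) (x : Option (Option ι) → ℂ),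
        val (Polynomial.C R * 1) c' x =
          (x (some none) * aeval (mat x) G - x none ^ (e + 1)) * x none ^ (N - (e + 1)) :=
      fun c' x => by
        rw [val_C_mul, val_one, mul_one, hR]
        simp only [map_mul, map_sub, map_pow, aeval_X, aeval_rename]
        rfl
    refine ⟨Polynomial.C R * 1, ⟨fun c' l x => ?_, fun c' _ x hx => ?_, ?_⟩, ?_⟩
    · have h3 : aeval (mat (l • x)) G = l ^ e * aeval (mat x) G := aeval_smul_of_hom hG1 l (mat x)
      rw [hval, hval, h3, show l ^ N = l ^ (e + 1) * l ^ (N - (e + 1)) by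
        rw [← pow_add]; congr 1; omega]
      simp only [Pi.smul_apply, smul_eq_mul, mul_pow]
      ring
    · have h3 : ∀ i, ‖x i‖ ≤ 1 := fun i => (norm_le_pi_norm x i).trans hx
      have h4 : ‖x (some none) * aeval (mat x) G - x none ^ (e + 1)‖ ≤ BG + 1 := by
        refine (norm_sub_le _ _).trans (add_le_add ?_ ?_)
        · rw [norm_mul]
          exact (mul_le_of_le_one_left (norm_nonneg _) (h3 _)).trans
            (hBG _ ((norm_mat_le x).trans hx))
        · rw [norm_pow]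
          exact pow_le_one₀ (norm_nonneg _) (h3 _)
      rw [hval, norm_mul, norm_pow]
      refine (mul_le_of_le_one_right (norm_nonneg _) (pow_le_one₀ (norm_nonneg _) (h3 _))).trans
        (h4.trans (le_trans (by linarith) ((hKN.trans hKL).trans (Real.exp_le_exp.2 ?_))))
      have : L ≤ N * L := le_mul_of_one_le_left hL0 hN1'
      linarith
    · rw [hval, hη1, hη2, hη3, inv_mul_cancel₀ hG2, one_pow, sub_self, zero_mul, norm_zero]
      exact (Real.exp_pos _).le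
    · rw [hval, hGx, mul_zero, zero_sub]
      exact mul_ne_zero (neg_ne_zero.2 (pow_ne_zero _ hxi)) (pow_ne_zero _ hxi)
  have hex : ∃ w ∈ Submodule.span ℂ (Set.range (rowp ρ (mat x))), ∃ j ≤ N,
      iteratedDeriv j (fun τ : ℂ => aeval (A.θ (τ • w)) P / A.θ (τ • w) 0 ^ D) 0 ≠ 0 := by
    by_contra hcon
    push Not at hcon
    have := hG3 (mat x) hGx D T (map (Int.castRingHom ℂ) P) hD (hP.map _)
      (by simpa only [ev_map] using hP0) (by simpa only [ev_map] using hcon)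
    have h2 : Cz' * (D : ℝ) ^ d ≤ (K + Cz + 6 * (Ce + 1)) * (D : ℝ) ^ d := by gcongr; linarith
    linarith
  obtain ⟨w, hw, j, hjN, hw0⟩ := hex
  obtain ⟨Q, κ, hκ0, hκ, hQ1, hQ2, hQ3⟩ := hj D j P _ hP hB
  obtain ⟨a, ha, ha0⟩ := grid Q c (rowp ρ (mat x)) (hQ3 c) hjN hw (by rw [hQ1]; exact mul_ne_zero hκ0 hw0)
  let g : Fin d → MvPolynomial (Option (Option ι)) ℤ :=
    fun m => ∑ k, (a k : MvPolynomial (Option (Option ι)) ℤ) *
      (ρ k m).elim 0 fun p => X (some (some p))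
  have hval : ∀ (c' : ℂ) (x : Option (Option ι) → ℂ),
      val (Polynomial.C (X none ^ (N - j)) * Q.map (eval₂Hom C g)) c' x =
        x none ^ (N - j) * val Q c' (∑ k, (a k : ℂ) • rowp ρ (mat x) k) := fun c' x => by
    rw [val_C_mul, val_map]
    congr 2
    · simp
    · ext m
      simp only [g, map_sum, map_mul, map_natCast, Finset.sum_apply, Pi.smul_apply, smul_eq_mul]
      refine Finset.sum_congr rfl fun k _ => ?_
      unfold rowp
      cases ρ k m <;> simp [mat]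
  have hjN' : (j : ℝ) ≤ N := by exact_mod_cast hjN
  have e1 : Cj ^ D ≤ Real.exp (N * L) := pow_le_exp (by linarith) (by linarith) hL0 hDN
  have e1' : Cj ^ j ≤ Real.exp (N * L) := pow_le_exp (by linarith) (by linarith) hL0 hjN
  refine ⟨Polynomial.C (X none ^ (N - j)) * Q.map (eval₂Hom C g),
    ⟨fun c' l x => ?_, fun c' hc' x hx => ?_, ?_⟩, ?_⟩
  · have : ∑ k, (a k : ℂ) • rowp ρ (mat (l • x)) k = l • ∑ k, (a k : ℂ) • rowp ρ (mat x) k := by
      rw [Finset.smul_sum]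
      refine Finset.sum_congr rfl fun k _ => ?_
      rw [show mat (l • x) = l • mat x from rfl, rowp_smul, smul_comm]
    rw [hval, hval, this, hQ3, Pi.smul_apply, smul_eq_mul, mul_pow,
      show l ^ N = l ^ (N - j) * l ^ j by rw [← pow_add]; congr 1; omega]
    ring
  · rw [hval, norm_mul, norm_pow]
    have e0 : ‖x none‖ ^ (N - j) ≤ 1 := pow_le_one₀ (norm_nonneg _) ((norm_le_pi_norm x none).trans hx)
    have e2 : (Cj * (j + 1)) ^ j ≤ Real.exp (N * L) :=
      pow_le_exp (by positivity) (le_trans (by gcongr; linarith) hKL) hL0 hjN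
    have e3 : ‖∑ k, (a k : ℂ) • rowp ρ (mat x) k‖ ^ j ≤ Real.exp (N * L) := by
      refine pow_le_exp (norm_nonneg _) ((norm_rowp_le ρ x ha).trans (le_trans ?_ hKL)) hL0 hjN
      refine (mul_le_of_le_one_right (by positivity) hx).trans ?_
      gcongr <;> linarith
    calc _ ≤ 1 * (Real.exp β * Real.exp (N * L) * Real.exp (N * L) * Real.exp (N * L)) := by
          gcongr
          refine (hQ2 c' hc' _).trans ?_
          gcongr
      _ ≤ _ := by
          simp only [← Real.exp_add, one_mul, Real.exp_le_exp]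
          have : 0 ≤ N * L := by positivity
          linarith
  · set w' := ∑ k, (a k : ℂ) • rowp ρ (mat η) k with hw'
    have hmem : w' ∈ Submodule.span ℂ (Set.range (rowp ρ η₀)) :=
      Submodule.sum_mem _ fun k _ => Submodule.smul_mem _ _ (by rw [hη3]; exact Submodule.subset_span ⟨k, rfl⟩)
    have hd : Differentiable ℂ fun z => aeval (A.θ z) P := by
      simpa only [← ev_map] using differentiable_ev A (map (Int.castRingHom ℂ) P)
    have e4 := hs _ D j w' _ hd fun τ hτ => hV _ (Submodule.smul_mem _ τ hmem) hτ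
    have e0 : ‖η none‖ ^ (N - j) ≤ Real.exp (N * L) :=
      pow_le_exp (norm_nonneg _) ((norm_le_pi_norm η none).trans (by linarith)) hL0 (by omega)
    have e2 : (j.factorial : ℝ) ≤ Real.exp (N * L) := by
      refine le_trans (by exact_mod_cast Nat.factorial_le_pow j) (pow_le_exp (x := j)
        (by positivity) (le_trans ?_ hKL) hL0 hjN)
      exact le_trans (by linarith) (le_mul_of_one_le_left (by positivity) (by linarith))
    have e3 : (Cs * (‖w'‖ + 1)) ^ j ≤ Real.exp (N * L) := by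
      refine pow_le_exp (by positivity) (le_trans ?_ hKL) hL0 hjN
      have := norm_rowp_le ρ η ha
      calc Cs * (‖w'‖ + 1) ≤ Cs * ((n * ‖η‖ + 1) * (N + 1)) := by
            gcongr
            have : 0 ≤ n * ‖η‖ := by positivity
            nlinarith
        _ = Cs * (n * ‖η‖ + 1) * (N + 1) := by ring
        _ ≤ _ := by gcongr; linarith
    have e5 : Cs ^ D ≤ Real.exp (N * L) := by
      refine pow_le_exp (by positivity) (le_trans ?_ (hKN.trans hKL)) hL0 hDN
      have : Cs ≤ Cs * (n * ‖η‖ + 1) :=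
        le_mul_of_one_le_right (by linarith) (le_add_of_nonneg_left (by positivity))
      linarith
    have e6 : ‖κ‖ ≤ Real.exp (N * L) * Real.exp (N * L) := by
      refine hκ.trans ?_
      rw [pow_add]
      gcongr
    rw [hval, hQ1, norm_mul, norm_mul, norm_pow]
    calc _ ≤ Real.exp (N * L) * (Real.exp (N * L) * Real.exp (N * L) *
          (Real.exp (N * L) * Real.exp (N * L) * Real.exp (N * L) * Real.exp (-V))) := by
          gcongr
          refine e4.trans ?_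
          gcongr
      _ ≤ _ := by
          simp only [← Real.exp_add, Real.exp_le_exp]
          linarith
  · rw [hval]
    exact mul_ne_zero (pow_ne_zero _ hxi) ha0

theorem main_natP (hel : ElimAS) (A : AbVar d M) {l n t : ℕ} {y : Fin l → E d}
    (hy : ∀ i, y i ∈ A.Λ) (hind : LinearIndependent ℤ y)
    (hn : Module.finrank ℂ (Submodule.span ℂ (Set.range y)) = n) {F : IntermediateField ℚ ℂ}
    (hF : Algebra.trdeg ℚ F ≤ t) {ι : Type} [Fintype ι] (ρ : Fin n → Fin d → Option ι)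
    {η₀ : ι → ℂ} {Cz' : ℝ} (hCz' : 0 < Cz') (hA : Op η₀ fun x => ZEst A Cz' (rowp ρ x))
    (huF : ∀ i, η₀ i ∈ F)
    (hu2 : Submodule.span ℂ (Set.range (rowp ρ η₀)) = Submodule.span ℂ (Set.range y)) :
    l * (d - n) ≤ d * (2 * n + 2 - l) * t := by
  by_contra hlt
  push Not at hlt
  obtain ⟨hl, Ca, hCa, ha⟩ := aux_poly A hy (indep_real A hy hind) hn
  obtain ⟨Cc, hCc, hc⟩ := coreP hel A ρ hCz' hA hF huF
  obtain ⟨b, hb⟩ : ∃ b, 2 * n = l + b := Nat.exists_eq_add_of_le hl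
  have hpos : 0 < l * (d - n) := (Nat.zero_le _).trans_lt hlt
  have hl0 : 0 < l := Nat.pos_of_mul_pos_right hpos
  have hnd : n < d := by have := Nat.pos_of_mul_pos_left hpos; omega
  obtain ⟨e, he⟩ : ∃ e, d = n + e := Nat.exists_eq_add_of_le hnd.le
  have hn0 : 1 ≤ n := by omega
  have hd1 : 1 ≤ d := by omega
  rw [show d - n = e by omega, show 2 * n + 2 - l = b + 2 by omega] at hlt
  rw [show 2 * n - l + 2 = b + 2 by omega] at ha
  obtain ⟨s, hs⟩ : ∃ s, s = b + 3 := ⟨_, rfl⟩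
  obtain ⟨C1, hC1⟩ : ∃ C1 : ℕ, Cc * (d : ℝ) ^ d + 1 ≤ C1 := exists_nat_ge _
  have hdd : (0 : ℝ) ≤ Cc * (d : ℝ) ^ d := by positivity
  have hC11 : 1 ≤ C1 := by exact_mod_cast (by linarith : (1 : ℝ) ≤ C1)
  obtain ⟨K, hK⟩ : ∃ K : ℝ, K = Cc * (1 + Ca + d * C1 * (2 * d * s + 1) + d * C1) *
    ((d : ℝ) * C1) ^ t := ⟨_, rfl⟩
  have hK0 : 0 ≤ K := by rw [hK]; positivity
  have hK1 : 0 ≤ Cc * (d * C1 + 1) := by positivity
  obtain ⟨X, hX⟩ : ∃ X : ℕ, 2 * K + Ca + 2 + Cc * (d * C1 + 1) < X := exists_nat_gt _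
  have hX2 : (2 : ℝ) ≤ X := by linarith
  have hX1 : (1 : ℝ) ≤ X := by linarith
  have hX1' : 1 ≤ X := by exact_mod_cast hX1
  have hXa : Ca ≤ X := by linarith
  have hY1 : (1 : ℝ) ≤ (X : ℝ) ^ (2 * d * s) := one_le_pow₀ hX1
  have hv : ((X : ℝ) ^ (d * s * (t + 1) + 1)) ^ 2 = ((X : ℝ) ^ (2 * d * s)) ^ (t + 1) * X ^ 2 := by
    rw [← pow_mul, ← pow_mul, ← pow_add]; congr 1; ring
  have ha2 : ((X : ℝ) ^ (n * s)) ^ 2 ≤ (X : ℝ) ^ (2 * d * s) := by
    rw [← pow_mul]; exact pow_le_pow_right₀ hX1 (by nlinarith)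
  obtain ⟨P, hP1, hP2, hP3, hP4⟩ := ha (X ^ (n * s)) ((X : ℝ) ^ (d * s * (t + 1) + 1))
    ((X : ℝ) ^ (2 * d * s)) (Nat.one_le_pow _ _ hX1') (by
      push_cast
      rw [pow_succ']
      exact mul_le_mul hXa (pow_le_pow_right₀ hX1 (by nlinarith [Nat.zero_le (d * s * t)]))
        (by positivity) (by positivity)) hY1 (by
      rw [hv, le_div_iff₀ two_pos]
      exact mul_le_mul (le_self_pow₀ hY1 (by omega)) (by nlinarith) (by positivity)
        (by positivity)) (by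
      push_cast
      rw [← pow_mul, ← pow_mul, ← pow_mul, ← pow_add, mul_assoc, ← pow_add]
      refine (mul_le_mul_of_nonneg_right hXa (by positivity)).trans ?_
      rw [← pow_succ']
      refine pow_le_pow_right₀ hX1 ?_
      have h1 : n * l + d * (t + 1) * (b + 2) + 1 ≤ 2 * d * n + 2 * d := by
        have : 2 * d * n = d * (l + b) := by rw [← hb]; ring
        rw [this]
        subst he
        nlinarith
      calc _ = s * (n * l + d * (t + 1) * (b + 2) + 1) := by rw [hs]; ring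
        _ ≤ s * (2 * d * n + 2 * d) := Nat.mul_le_mul_left _ h1
        _ = _ := by ring)
  have ha2' : (X ^ (n * s)) ^ 2 ≤ X ^ (2 * d * s) := by exact_mod_cast ha2
  have key := hc (d * (X ^ (n * s)) ^ 2) (C1 * X ^ (2 * d * s)) P
    ((X : ℝ) ^ (2 * d * s) + Ca * ((X ^ (n * s) : ℕ) : ℝ) ^ 2)
    (((X : ℝ) ^ (d * s * (t + 1) + 1)) ^ 2 / 2) ((2 * d * s + 1 : ℕ) * X)
    (Nat.mul_pos hd1 (by positivity))
    (Nat.mul_le_mul_left _ (ha2'.trans (Nat.le_mul_of_pos_left _ hC11))) hP1 hP2 (by positivity)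
    hP3 (fun z hz h => by rw [← neg_div]; exact hP4 z (hu2 ▸ hz) h) (by
      push_cast
      have h1 : (((X : ℝ) ^ (n * s)) ^ 2) ^ d = ((X : ℝ) ^ (2 * d * s)) ^ n := by
        rw [← pow_mul, ← pow_mul, ← pow_mul]; congr 1; ring
      have h2 : (C1 : ℝ) ≤ (C1 : ℝ) ^ n := le_self_pow₀ (by linarith) (by omega)
      rw [mul_pow, h1, ← mul_assoc]
      calc _ < (C1 : ℝ) ^ n * ((X : ℝ) ^ (2 * d * s)) ^ n := by gcongr; linarith
        _ ≤ _ := by rw [← mul_pow]; gcongr; linarith) (by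
      rw [Real.exp_nat_mul]
      push_cast
      calc _ ≤ Cc * (d * C1 + 1) * (X : ℝ) ^ (2 * d * s) := by
            rw [mul_assoc Cc]; gcongr; linarith
        _ ≤ (X : ℝ) ^ (2 * d * s + 1) := by rw [pow_succ']; gcongr; linarith
        _ ≤ _ := by gcongr; linarith [Real.add_one_le_exp (X : ℝ)])
  rw [hv] at key
  push_cast at key
  generalize (X : ℝ) ^ (2 * d * s) = Y at key hY1 ha2
  have h3 : Y + Ca * ((X : ℝ) ^ (n * s)) ^ 2 + d * (C1 * Y) * ((2 * d * s + 1) * X) + d * (C1 * Y) ≤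
      (1 + Ca + d * C1 * (2 * d * s + 1) + d * C1) * (Y * X) := by
    have h4 : Y ≤ Y * X := le_mul_of_one_le_right (by linarith) hX1
    have h5 : Ca * ((X : ℝ) ^ (n * s)) ^ 2 ≤ Ca * (Y * X) := by gcongr; exact ha2.trans h4
    have h6 : d * (C1 * Y) ≤ d * (C1 * (Y * X)) := by gcongr
    linarith
  have h7 : Y ^ (t + 1) * X ^ 2 / 2 ≤ K * (Y ^ (t + 1) * X) := by
    refine key.trans ?_
    calc _ ≤ Cc * ((1 + Ca + d * C1 * (2 * d * s + 1) + d * C1) * (Y * X)) *
          (d * (C1 * Y)) ^ t := by gcongr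
      _ = _ := by rw [hK]; ring
  have h8 : 0 < Y ^ (t + 1) * X := by positivity
  nlinarith

end MainPAux

end Pool.Agent.Lib.MP_caab05_ag.LT
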