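import Mathlib
import Pool.Agent.Lib.MP_caab05_ag.LT.Defs5
import Pool.Agent.Lib.MP_caab05_ag.LT.MainF
import Pool.Agent.Lib.MP_caab05_ag.LT.Zero

/-! The transcendence theorem with redundant variables. -/

namespace Pool.Agent.Lib.MP_caab05_ag.LT

open MvPolynomial Filter Topology Asymptotics

variable {d M : ℕ}

namespace MainPAux

open MainCAux

/-- the decomposition into blocks -/
def blk {d' p : ℕ} (δ : Fin p × Fin d ≃ Fin d') : E d' ≃ₗ[ℂ] (Fin p → E d) where
  toFun := sl δ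
  map_add' _ _ := rfl
  map_smul' _ _ := rfl
  invFun v m := v (δ.symm m).1 (δ.symm m).2
  left_inv z := funext fun m => congrArg z (δ.apply_symm_apply m)
  right_inv v := funext fun j => funext fun i => by simp [sl]

/-- a family of vectors put in every block -/
noncomputable def fam {d' p n n' : ℕ} (δ : Fin p × Fin d ≃ Fin d') (γ : Fin p × Fin n ≃ Fin n')
    (v : Fin n → E d) (k : Fin n') : E d' :=
  (blk δ).symm (Pi.single (γ.symm k).1 (v (γ.symm k).2))

lemma sl_fam {d' p n n' : ℕ} (δ : Fin p × Fin d ≃ Fin d') (γ : Fin p × Fin n ≃ Fin n')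
    (v : Fin n → E d) (k : Fin n') :
    sl δ (fam δ γ v k) = Pi.single (γ.symm k).1 (v (γ.symm k).2) :=
  (blk δ).apply_symm_apply _

lemma span_fam {d' p n n' : ℕ} (δ : Fin p × Fin d ≃ Fin d') (γ : Fin p × Fin n ≃ Fin n')
    (v : Fin n → E d) :
    Submodule.span ℂ (Set.range (fam δ γ v)) = powS δ (Submodule.span ℂ (Set.range v)) := by
  refine le_antisymm (Submodule.span_le.2 ?_) fun z hz => ?_
  · rintro _ ⟨k, rfl⟩ j
    rw [sl_fam]
    by_cases h : j = (γ.symm k).1
    · rw [h, Pi.single_eq_same]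
      exact Submodule.subset_span ⟨_, rfl⟩
    · rw [Pi.single_eq_of_ne h]
      exact Submodule.zero_mem _
  · have e : z = ∑ j, (blk δ).symm (Pi.single j (sl δ z j)) := by
      rw [← map_sum, Finset.univ_sum_single]
      exact ((blk δ).symm_apply_apply z).symm
    rw [e]
    refine Submodule.sum_mem _ fun j _ => ?_
    obtain ⟨a, ha⟩ := (Submodule.mem_span_range_iff_exists_fun ℂ).1 (hz j)
    have e2 : (Pi.single j (∑ i, a i • v i) : Fin p → E d) = ∑ i, a i • Pi.single j (v i) := by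
      have := map_sum (LinearMap.single ℂ (fun _ : Fin p => E d) j) (fun i => a i • v i) Finset.univ
      simpa only [map_smul, LinearMap.coe_single] using this
    rw [← ha, e2, map_sum]
    refine Submodule.sum_mem _ fun i _ => ?_
    rw [map_smul]
    refine Submodule.smul_mem _ _ (Submodule.subset_span ⟨γ (j, i), ?_⟩)
    simp [fam]

lemma indep_fam_int {d' p n n' : ℕ} (δ : Fin p × Fin d ≃ Fin d') (γ : Fin p × Fin n ≃ Fin n')
    {v : Fin n → E d} (h : LinearIndependent ℤ v) : LinearIndependent ℤ (fam δ γ v) :=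
  (((Pi.linearIndependent_single (fun (_ : Fin p) => v) fun _ => h).comp
    (γ.symm.trans (Equiv.sigmaEquivProd _ _).symm) (Equiv.injective _)).map'
    ((blk δ).symm.toLinearMap.restrictScalars ℤ)
    (LinearMap.ker_eq_bot.2 (blk δ).symm.injective))

lemma indep_fam_cx {d' p n n' : ℕ} (δ : Fin p × Fin d ≃ Fin d') (γ : Fin p × Fin n ≃ Fin n')
    {v : Fin n → E d} (h : LinearIndependent ℂ v) : LinearIndependent ℂ (fam δ γ v) :=
  (((Pi.linearIndependent_single (fun (_ : Fin p) => v) fun _ => h).comp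
    (γ.symm.trans (Equiv.sigmaEquivProd _ _).symm) (Equiv.injective _)).map'
    (blk δ).symm.toLinearMap (LinearMap.ker_eq_bot.2 (blk δ).symm.injective))

/-- the block diagonal pattern -/
def pat {d' p n n' : ℕ} (δ : Fin p × Fin d ≃ Fin d') (γ : Fin p × Fin n ≃ Fin n') (k : Fin n')
    (m : Fin d') : Option (Fin n × Fin d) :=
  if (δ.symm m).1 = (γ.symm k).1 then some ((γ.symm k).2, (δ.symm m).2) else none

lemma rowp_pat {d' p n n' : ℕ} (δ : Fin p × Fin d ≃ Fin d') (γ : Fin p × Fin n ≃ Fin n')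
    (x : Fin n × Fin d → ℂ) : rowp (pat δ γ) x = fam δ γ (row x) := by
  funext k m
  change (pat δ γ k m).elim 0 x =
    (Pi.single (γ.symm k).1 (row x (γ.symm k).2) : Fin p → E d) (δ.symm m).1 (δ.symm m).2
  unfold pat
  by_cases h : (δ.symm m).1 = (γ.symm k).1
  · rw [if_pos h, h, Pi.single_eq_same]
    rfl
  · rw [if_neg h, Pi.single_eq_of_ne h]
    rfl

lemma deriv_of_ord (A : AbVar d M) {W : Submodule ℂ (E d)} {P : Pol M} (D : ℕ) {k : ℕ}
    (h : Ord W (ev A P) 0 (k + 1)) : ∀ u ∈ W, ∀ j ≤ k,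
      iteratedDeriv j (fun τ : ℂ => ev A P (τ • u) / A.θ (τ • u) 0 ^ D) 0 = 0 := by
  intro u hu j hj
  have hl : Differentiable ℂ fun τ : ℂ => τ • u := by fun_prop
  have h1 : Differentiable ℂ fun τ : ℂ => A.θ (τ • u) 0 ^ D :=
    (((differentiable_apply (0 : Fin (M + 1))).comp A.holo).comp hl).pow D
  have h2 : Differentiable ℂ fun τ : ℂ => ev A P (τ • u) := (differentiable_ev A P).comp hl
  have h3 : A.θ ((0 : ℂ) • u) 0 ^ D ≠ 0 := by rw [zero_smul]; exact pow_ne_zero _ A.origin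
  have h4 : AnalyticAt ℂ (fun τ : ℂ => ev A P (τ • u) / A.θ (τ • u) 0 ^ D) 0 :=
    (h2.analyticAt 0).div (h1.analyticAt 0) h3
  refine (isBigO_pow_iff h4 (k + 1)).1 ?_ j (by omega)
  have h5 := (h u hu).mul (((h1.continuous.continuousAt (x := 0)).inv₀ h3).isBigO_one ℂ)
  refine (h5.congr_right fun τ => mul_one _).congr_left fun τ => ?_
  rw [zero_add, div_eq_mul_inv]
  rfl

theorem pow_nat (h1 : ZeroCS) (h2 : ElimAS) (h3 : PowS) (h4 : PowZS) (A : AbVar d M) {l n t : ℕ}
    {y : Fin l → E d} (hA : A.GenC (Submodule.span ℂ (Set.range y))) (hy : ∀ i, y i ∈ A.Λ)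
    (hind : LinearIndependent ℤ y) {F : IntermediateField ℚ ℂ} (hF : Algebra.trdeg ℚ F ≤ t)
    {η : Fin n × Fin d → ℂ} (hη : ∀ i, η i ∈ F) (hu : LinearIndependent ℂ (row η))
    (hu2 : Submodule.span ℂ (Set.range (row η)) = Submodule.span ℂ (Set.range y)) {p : ℕ}
    (hp : 0 < p) : p * l * (p * d - p * n) ≤ p * d * (2 * (p * n) + 2 - p * l) * t := by
  classical
  obtain ⟨M', hM'⟩ : ∃ M', (M + 1) ^ p = M' + 1 :=
    Nat.exists_eq_succ_of_ne_zero (pow_ne_zero _ (Nat.succ_ne_zero M))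
  let ε₀ : Fin (M' + 1) ≃ (Fin p → Fin (M + 1)) := Fintype.equivOfCardEq (by simp [hM'])
  let ε := (Equiv.swap 0 (ε₀.symm 0)).trans ε₀
  let δ : Fin p × Fin d ≃ Fin (p * d) := finProdFinEquiv
  let γ : Fin p × Fin n ≃ Fin (p * n) := finProdFinEquiv
  let γ' : Fin p × Fin l ≃ Fin (p * l) := finProdFinEquiv
  obtain ⟨B, hB1, hB2⟩ := h3 d M p (p * d) M' A δ ε hp (by simp [ε])
  obtain ⟨C, hC, hz⟩ := h1 d M A
  have hsp : Submodule.span ℂ (Set.range (fam δ γ (row η))) =
      Submodule.span ℂ (Set.range (fam δ γ' y)) := by rw [span_fam, span_fam, hu2]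
  refine main_natP h2 B (y := fam δ γ' y) (fun k => (hB1 _).2 fun j => ?_)
    (indep_fam_int δ γ' hind) ?_ hF (pat δ γ) (pow_pos hC p)
    ((op_gen A hu (hu2 ▸ hA)).mono fun x hx => ?_) hη (by rw [rowp_pat, hsp])
  · rw [sl_fam]
    by_cases h : j = (γ'.symm k).1
    · rw [h, Pi.single_eq_same]
      exact hy _
    · rw [Pi.single_eq_of_ne h]
      exact A.Λ.zero_mem
  · rw [← hsp, finrank_span_eq_card (indep_fam_cx δ γ hu), Fintype.card_fin]
  · intro D T Q hD hQ hQ0 hv
    rw [rowp_pat, span_fam] at hv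
    by_contra hcon
    have hcon' : ¬ ((T : ℝ) + 1) ^ n ≤ C * (D : ℝ) ^ d := fun h => hcon (by
      rw [pow_mul', pow_mul', ← mul_pow]
      gcongr)
    obtain ⟨z, hz0⟩ := hQ0
    refine hz0 (h4 d M p (p * d) M' A δ ε B hB2 (Submodule.span ℂ (Set.range (row x))) D
      (d * T) (fun P hP hO w => ?_) Q hQ ?_ z)
    · by_contra hw
      exact hcon' (hz D T n P (row x) hD hP ⟨w, hw⟩ hx.1 hx.2 (deriv_of_ord A D hO))
    · rw [← mul_assoc]
      exact ZeroAux.ord_origin B hv

lemma limit {d n l t : ℕ} (hl : l ≤ 2 * n)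
    (h : ∀ p, 0 < p → p * l * (p * d - p * n) ≤ p * d * (2 * (p * n) + 2 - p * l) * t) :
    l * (d - n) ≤ d * (2 * n - l) * t := by
  obtain ⟨b, hb⟩ : ∃ b, 2 * n = l + b := Nat.exists_eq_add_of_le hl
  have h1 := h (2 * d * t + 1) (Nat.succ_pos _)
  generalize hp : 2 * d * t + 1 = p at h1
  have hp0 : 0 < p := by omega
  rw [← Nat.mul_sub, show 2 * (p * n) = p * l + p * b by rw [← mul_add, ← hb]; ring,
    show p * l + p * b + 2 - p * l = p * b + 2 by omega] at h1
  rw [show 2 * n - l = b by omega]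
  generalize d - n = e at h1 ⊢
  have h2 : p * (l * e) ≤ p * (d * b * t) + 2 * d * t :=
    Nat.le_of_mul_le_mul_left (by nlinarith) hp0
  by_contra hc
  have h3 : d * b * t + 1 ≤ l * e := by omega
  have h4 := Nat.mul_le_mul_left p h3
  rw [mul_add, mul_one] at h4
  omega

end MainPAux

open MainCAux MainPAux in
theorem mainP (h1 : ZeroCS) (h2 : ElimAS) (h3 : PowS) (h4 : PowZS) : MainPS := by
  intro d M l n A y hy hind hn hA F hdef
  obtain ⟨u, hu1, hu2, hu3⟩ : ∃ u : Fin n → E d, (∀ k j, u k j ∈ F) ∧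
      Submodule.span ℂ (Set.range u) = Submodule.span ℂ (Set.range y) ∧ LinearIndependent ℂ u := by
    have := Submodule.exists_fun_fin_finrank_span_eq ℂ
      {w | w ∈ Submodule.span ℂ (Set.range y) ∧ ∀ j, w j ∈ F}
    rw [hdef, hn] at this
    obtain ⟨u, h1, h2, h3⟩ := this
    exact ⟨u, fun k => (h1 k).2, h2, h3⟩
  let η : Fin n × Fin d → ℂ := fun p => u p.1 p.2
  let F' := IntermediateField.adjoin ℚ (Set.range η)
  have hle : F' ≤ F := IntermediateField.adjoin_le_iff.2 (by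
    rintro _ ⟨p, rfl⟩
    exact hu1 _ _)
  have : Algebra.EssFiniteType ℚ F' := IntermediateField.essFiniteType_iff.2
    (IntermediateField.fg_adjoin_of_finite (Set.finite_range η))
  obtain ⟨t, ht⟩ := Cardinal.lt_aleph0.1 (trdeg_lt_aleph0 ℚ F')
  have h5 := limit (aux_poly A hy (indep_real A hy hind) hn).1 fun p hp =>
    pow_nat h1 h2 h3 h4 A hA hy hind ht.le (η := η)
      (fun i => IntermediateField.subset_adjoin ℚ _ ⟨i, rfl⟩) hu3 hu2 hp
  have h6 : (t : Cardinal) ≤ Algebra.trdeg ℚ F :=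
    ht ▸ trdeg_le_of_injective (IntermediateField.inclusion hle)
      (IntermediateField.inclusion_injective hle)
  refine le_trans ?_ (mul_le_mul_right h6 _)
  exact_mod_cast h5

end Pool.Agent.Lib.MP_caab05_ag.LT
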