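import Mathlib
import Pool.Agent.Lib.MP_caab05_ag.LT.Defs5

/-! The Segre embedding of a power of an abelian variety. -/

namespace Pool.Agent.Lib.MP_caab05_ag.LT

open MvPolynomial Filter Topology

namespace PowAux

lemma alg_iff {σ : Type} {P : MvPolynomial σ ℂ} :
    AlgCoeff P ↔ ∃ Q : MvPolynomial σ (algebraicClosure ℚ ℂ),
      MvPolynomial.map (algebraMap (algebraicClosure ℚ ℂ) ℂ) Q = P := by
  constructor
  · intro h
    refine ⟨∑ m ∈ P.support, monomial m ⟨coeff m P, mem_algebraicClosure_iff.2 (h m)⟩, ?_⟩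
    rw [map_sum]
    conv_rhs => rw [← P.support_sum_monomial_coeff]
    exact Finset.sum_congr rfl fun m _ => by rw [map_monomial]; rfl
  · rintro ⟨Q, rfl⟩ m
    rw [coeff_map]
    exact mem_algebraicClosure_iff.1 (coeff m Q).2

lemma alg_X {σ : Type} (i : σ) : AlgCoeff (X i : MvPolynomial σ ℂ) :=
  alg_iff.2 ⟨X i, map_X _ _⟩

lemma alg_mul {σ : Type} {P Q : MvPolynomial σ ℂ} (hP : AlgCoeff P) (hQ : AlgCoeff Q) :
    AlgCoeff (P * Q) := by
  obtain ⟨P, rfl⟩ := alg_iff.1 hP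
  obtain ⟨Q, rfl⟩ := alg_iff.1 hQ
  exact alg_iff.2 ⟨P * Q, map_mul _ _ _⟩

lemma alg_sub {σ : Type} {P Q : MvPolynomial σ ℂ} (hP : AlgCoeff P) (hQ : AlgCoeff Q) :
    AlgCoeff (P - Q) := by
  obtain ⟨P, rfl⟩ := alg_iff.1 hP
  obtain ⟨Q, rfl⟩ := alg_iff.1 hQ
  exact alg_iff.2 ⟨P - Q, map_sub _ _ _⟩

lemma alg_pow {σ : Type} {P : MvPolynomial σ ℂ} (hP : AlgCoeff P) (n : ℕ) :
    AlgCoeff (P ^ n) := by
  obtain ⟨P, rfl⟩ := alg_iff.1 hP
  exact alg_iff.2 ⟨P ^ n, map_pow _ _ _⟩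

lemma alg_prod {σ ι : Type} [Fintype ι] {P : ι → MvPolynomial σ ℂ} (hP : ∀ i, AlgCoeff (P i)) :
    AlgCoeff (∏ i, P i) := by
  choose Q hQ using fun i => alg_iff.1 (hP i)
  exact alg_iff.2 ⟨∏ i, Q i, by rw [map_prod]; exact Finset.prod_congr rfl fun i _ => hQ i⟩

lemma alg_rename {σ τ : Type} (f : σ → τ) {P : MvPolynomial σ ℂ} (hP : AlgCoeff P) :
    AlgCoeff (rename f P) := by
  obtain ⟨P, rfl⟩ := alg_iff.1 hP
  exact alg_iff.2 ⟨rename f P, map_rename _ _ _⟩

lemma wh_rename {σ τ N : Type} [AddCommMonoid N] (f : σ → τ) (w : τ → N) {P : MvPolynomial σ ℂ}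
    {k : N} (hP : P.IsWeightedHomogeneous (w ∘ f) k) : (rename f P).IsWeightedHomogeneous w k := by
  rw [← P.support_sum_monomial_coeff, map_sum]
  simp_rw [rename_monomial]
  refine IsWeightedHomogeneous.sum _ _ _ fun m hm => isWeightedHomogeneous_monomial _ _ _ ?_
  rw [← hP (mem_support_iff.1 hm), Finsupp.weight_apply, Finsupp.weight_apply,
    Finsupp.sum_mapDomain_index (by simp) (by simp [add_smul])]
  rfl

lemma alg_num_prod {ι : Type} (s : Finset ι) {a : ι → ℂ} (h : ∀ i, IsAlgebraic ℚ (a i)) :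
    IsAlgebraic ℚ (∏ i ∈ s, a i) :=
  mem_algebraicClosure_iff.1 (prod_mem fun i _ => mem_algebraicClosure_iff.2 (h i))

lemma alg_num_sum {ι : Type} (s : Finset ι) {a : ι → ℂ} (h : ∀ i, IsAlgebraic ℚ (a i)) :
    IsAlgebraic ℚ (∑ i ∈ s, a i) :=
  mem_algebraicClosure_iff.1 (sum_mem fun i _ => mem_algebraicClosure_iff.2 (h i))

lemma diff_div {n : ℕ} {f g : E n → ℂ} {x : E n} (hf : DifferentiableAt ℂ f x)
    (hg : DifferentiableAt ℂ g x) (h : g x ≠ 0) : DifferentiableAt ℂ (fun z => f z / g z) x := by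
  simp only [div_eq_mul_inv]
  exact hf.mul (hg.inv h)

variable {d M p d' M' : ℕ}

/-- the block as a continuous linear map -/
noncomputable def slL (δ : Fin p × Fin d ≃ Fin d') (j : Fin p) : E d' →L[ℂ] E d :=
  ContinuousLinearMap.pi fun i => ContinuousLinearMap.proj (δ (j, i))

lemma slL_apply (δ : Fin p × Fin d ≃ Fin d') (j : Fin p) (z : E d') : slL δ j z = sl δ z j := rfl

/-- gluing of blocks -/
def glue (δ : Fin p × Fin d ≃ Fin d') (u : Fin p → E d) : E d' :=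
  fun k => u (δ.symm k).1 (δ.symm k).2

lemma sl_glue (δ : Fin p × Fin d ≃ Fin d') (u : Fin p → E d) (j : Fin p) :
    sl δ (glue δ u) j = u j := by
  ext i; simp [sl, glue]

lemma glue_sl (δ : Fin p × Fin d ≃ Fin d') (z : E d') : glue δ (sl δ z) = z := by
  ext k; simp [sl, glue]

lemma eq_zero_of_sl (δ : Fin p × Fin d ≃ Fin d') {z : E d'} (h : ∀ j, sl δ z j = 0) : z = 0 := by
  rw [← glue_sl δ z]
  ext k; simp [glue, h]

/-- the period lattice of the power -/
def lat (A : AbVar d M) (δ : Fin p × Fin d ≃ Fin d') : Submodule ℤ (E d') where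
  carrier := {z | ∀ j, sl δ z j ∈ A.Λ}
  zero_mem' := fun _ => A.Λ.zero_mem
  add_mem' := fun ha hb j => A.Λ.add_mem (ha j) (hb j)
  smul_mem' := fun c _ h j => A.Λ.smul_mem c (h j)

lemma lat_discrete (A : AbVar d M) (δ : Fin p × Fin d ≃ Fin d') : DiscreteTopology (lat A δ) := by
  have := A.discrete
  let f : lat A δ → Fin p → A.Λ := fun z j => ⟨sl δ z.1 j, z.2 j⟩
  have hf : Continuous f := by
    refine continuous_pi fun j => Continuous.subtype_mk ?_ _
    exact (slL δ j).continuous.comp continuous_subtype_val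
  refine DiscreteTopology.of_continuous_injective hf fun z w h => ?_
  apply Subtype.ext
  rw [← glue_sl δ z.1, ← glue_sl δ w.1]
  congr 1
  ext1 j
  exact congrArg Subtype.val (congrFun h j)

lemma lat_span (A : AbVar d M) (δ : Fin p × Fin d ≃ Fin d') :
    Submodule.span ℝ (lat A δ : Set (E d')) = ⊤ := by
  classical
  let g : (Fin p → E d) →ₗ[ℝ] E d' :=
    { toFun := glue δ, map_add' := fun _ _ => rfl, map_smul' := fun _ _ => rfl }
  have key : ∀ (j : Fin p) (v : E d),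
      g (Pi.single j v) ∈ Submodule.span ℝ (lat A δ : Set (E d')) := by
    intro j v
    have hv : v ∈ Submodule.span ℝ (A.Λ : Set (E d)) := by rw [A.span_top]; trivial
    have hle : Submodule.span ℝ (A.Λ : Set (E d)) ≤ (Submodule.span ℝ (lat A δ : Set (E d'))).comap
        (g.comp (LinearMap.single ℝ (fun _ : Fin p => E d) j)) := by
      rw [Submodule.span_le]
      intro l hl
      refine Submodule.subset_span fun j' => ?_
      change sl δ (glue δ (Pi.single j l)) j' ∈ A.Λ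
      rw [sl_glue]
      by_cases h : j' = j
      · subst h; rw [Pi.single_eq_same]; exact hl
      · rw [Pi.single_eq_of_ne h]; exact A.Λ.zero_mem
    exact hle hv
  rw [eq_top_iff]
  intro z _
  have : z = ∑ j, g (Pi.single j (sl δ z j)) := by
    rw [← map_sum, Finset.univ_sum_single]
    exact (glue_sl δ z).symm
  rw [this]
  exact Submodule.sum_mem _ fun j _ => key j _

/-- the Segre coordinates -/
noncomputable def Th (A : AbVar d M) (δ : Fin p × Fin d ≃ Fin d')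
    (ε : Fin (M' + 1) ≃ (Fin p → Fin (M + 1))) (z : E d') (m : Fin (M' + 1)) : ℂ :=
  ∏ j, A.θ (sl δ z j) (ε m j)

/-- the indices of a slice -/
def sc (ε : Fin (M' + 1) ≃ (Fin p → Fin (M + 1))) (c : Fin p → Fin (M + 1)) (j : Fin p)
    (i : Fin (M + 1)) : Fin (M' + 1) := ε.symm (Function.update c j i)

/-- the factor of a slice -/
noncomputable def fac (A : AbVar d M) (δ : Fin p × Fin d ≃ Fin d') (z : E d')
    (c : Fin p → Fin (M + 1)) (j : Fin p) : ℂ :=
  ∏ m ∈ Finset.univ.erase j, A.θ (sl δ z m) (c m)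

variable (A : AbVar d M) (δ : Fin p × Fin d ≃ Fin d') (ε : Fin (M' + 1) ≃ (Fin p → Fin (M + 1)))

lemma Th_sc (z : E d') (c : Fin p → Fin (M + 1)) (j : Fin p) :
    Th A δ ε z ∘ sc ε c j = fac A δ z c j • A.θ (sl δ z j) := by
  ext i
  simp only [Function.comp, Th, sc, fac, Equiv.apply_symm_apply, Pi.smul_apply, smul_eq_mul]
  rw [← Finset.mul_prod_erase _ _ (Finset.mem_univ j), Function.update_self, mul_comm]
  congr 1
  exact Finset.prod_congr rfl fun m hm => by rw [Function.update_of_ne (Finset.ne_of_mem_erase hm)]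

lemma exists_c (z : E d') : ∃ c : Fin p → Fin (M + 1), ∀ j, A.θ (sl δ z j) (c j) ≠ 0 := by
  choose c hc using fun j => Function.ne_iff.1 (A.ne_zero (sl δ z j))
  exact ⟨c, hc⟩

lemma fac_ne {z : E d'} {c : Fin p → Fin (M + 1)} (h : ∀ j, A.θ (sl δ z j) (c j) ≠ 0) (j : Fin p) :
    fac A δ z c j ≠ 0 := Finset.prod_ne_zero_iff.2 fun m _ => h m

lemma diff_th (j : Fin p) (i : Fin (M + 1)) :
    Differentiable ℂ fun z : E d' => A.θ (sl δ z j) i :=
  ((differentiable_pi.1 A.holo i).comp (slL δ j).differentiable :)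

lemma Th_holo : Differentiable ℂ (Th A δ ε) := by
  classical
  refine differentiable_pi.2 fun m z => ?_
  exact (HasFDerivAt.finsetProd (u := Finset.univ)
    (g := fun j z => A.θ (sl δ z j) (ε m j))
    fun j _ => (diff_th A δ j (ε m j) z).hasFDerivAt).differentiableAt

lemma Th_ne (z : E d') : Th A δ ε z ≠ 0 := by
  obtain ⟨c, hc⟩ := exists_c A δ z
  refine Function.ne_iff.2 ⟨ε.symm c, ?_⟩
  simp only [Th, Equiv.apply_symm_apply, Pi.zero_apply]
  exact Finset.prod_ne_zero_iff.2 fun j _ => hc j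

lemma Th_theta (l : E d') (hl : l ∈ lat A δ) : ∃ (a : E d' →ₗ[ℂ] ℂ) (b : ℂ),
    ∀ z, Th A δ ε (z + l) = Complex.exp (a z + b) • Th A δ ε z := by
  choose a b h using fun j => A.theta _ (hl j)
  refine ⟨∑ j, (a j).comp (slL δ j).toLinearMap, ∑ j, b j, fun z => ?_⟩
  ext m
  have h1 : ∀ j, sl δ (z + l) j = sl δ z j + sl δ l j := fun _ => rfl
  simp only [Th, h1, h, Pi.smul_apply, smul_eq_mul, Finset.prod_mul_distrib, ← Complex.exp_sum,
    LinearMap.sum_apply, Finset.sum_add_distrib]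
  rfl

lemma Th_inj (z w : E d') (c₀ : ℂ) (h : Th A δ ε z = c₀ • Th A δ ε w) : z - w ∈ lat A δ := by
  obtain ⟨c, hc⟩ := exists_c A δ z
  intro j
  have h1 : Th A δ ε z ∘ sc ε c j = c₀ • (Th A δ ε w ∘ sc ε c j) := by rw [h]; rfl
  rw [Th_sc, Th_sc] at h1
  refine A.inj (sl δ z j) (sl δ w j) ((fac A δ z c j)⁻¹ * (c₀ * fac A δ w c j)) ?_
  rw [mul_smul, mul_smul, ← h1, smul_smul, inv_mul_cancel₀ (fac_ne A δ hc j), one_smul]

lemma Th_image : ∃ S : Set (MvPolynomial (Fin (M' + 1)) ℂ),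
    (∀ P ∈ S, (∃ k, P.IsHomogeneous k) ∧ AlgCoeff P) ∧
    {x | ∀ P ∈ S, eval x P = 0} = {x | ∃ (c : ℂ) (z : E d'), x = c • Th A δ ε z} := by
  classical
  obtain ⟨S, hS, hSe⟩ := A.image
  refine ⟨{Q | ((∃ k, Q.IsHomogeneous k) ∧ AlgCoeff Q) ∧ ∀ z, eval (Th A δ ε z) Q = 0},
    fun P hP => hP.1, Set.Subset.antisymm (fun x hx => ?_) ?_⟩
  · by_cases hx0 : x = 0
    · exact ⟨0, 0, by rw [hx0, zero_smul]⟩
    obtain ⟨m₀, hm₀⟩ := Function.ne_iff.1 hx0
    have hm₀ : x m₀ ≠ 0 := hm₀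
    have hsl : ∀ j, ∃ (a : ℂ) (u : E d), x ∘ sc ε (ε m₀) j = a • A.θ u := by
      intro j
      have : x ∘ sc ε (ε m₀) j ∈ {x | ∀ P ∈ S, eval x P = 0} := by
        intro P hP
        rw [← eval_rename]
        obtain ⟨⟨k, hk⟩, ha⟩ := hS P hP
        refine hx _ ⟨⟨⟨k, hk.rename_isHomogeneous⟩, alg_rename _ ha⟩, fun z => ?_⟩
        rw [eval_rename, Th_sc]
        have h2 : fac A δ z (ε m₀) j • A.θ (sl δ z j) ∈ {x | ∀ P ∈ S, eval x P = 0} := by
          rw [hSe]; exact ⟨_, _, rfl⟩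
        exact h2 P hP
      rwa [hSe] at this
    choose a u hau using hsl
    refine ⟨x m₀ * (∏ j, a j) / x m₀ ^ p, glue δ u, funext fun m => ?_⟩
    have hrel := hx (X m * X m₀ ^ p - X m₀ * ∏ j, X (sc ε (ε m₀) j (ε m j))) ⟨⟨⟨1 + p, ?_⟩,
      alg_sub (alg_mul (alg_X _) (alg_pow (alg_X _) _)) (alg_mul (alg_X _)
        (alg_prod fun _ => alg_X _))⟩, fun z => ?_⟩
    · simp only [map_sub, map_mul, map_pow, map_prod, eval_X] at hrel
      have h3 : ∀ j, x (sc ε (ε m₀) j (ε m j)) = a j * A.θ (u j) (ε m j) :=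
        fun j => congrFun (hau j) (ε m j)
      simp only [h3, Finset.prod_mul_distrib] at hrel
      simp only [Pi.smul_apply, smul_eq_mul, Th, sl_glue]
      field_simp
      linear_combination hrel
    · refine IsHomogeneous.sub ((isHomogeneous_X ℂ m).mul (isHomogeneous_X_pow m₀ p))
        ((isHomogeneous_X ℂ m₀).mul ?_)
      have := IsHomogeneous.prod Finset.univ
        (fun j => (X (sc ε (ε m₀) j (ε m j)) : MvPolynomial (Fin (M' + 1)) ℂ)) (fun _ => 1)
        fun j _ => isHomogeneous_X ℂ _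
      simpa using this
    · simp only [map_sub, map_mul, map_pow, map_prod, eval_X]
      have h3 : ∀ j, Th A δ ε z (sc ε (ε m₀) j (ε m j)) =
          fac A δ z (ε m₀) j * A.θ (sl δ z j) (ε m j) :=
        fun j => congrFun (Th_sc A δ ε z (ε m₀) j) (ε m j)
      have h4 : ∀ j, A.θ (sl δ z j) (ε m₀ j) * fac A δ z (ε m₀) j = Th A δ ε z m₀ :=
        fun j => Finset.mul_prod_erase _ (fun j => A.θ (sl δ z j) (ε m₀ j)) (Finset.mem_univ j)
      have h5 : Th A δ ε z m₀ * ∏ j, fac A δ z (ε m₀) j = Th A δ ε z m₀ ^ p := by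
        conv_lhs => rw [Th, ← Finset.prod_mul_distrib]
        simp [h4]
      simp only [h3, Finset.prod_mul_distrib]
      rw [← mul_assoc, h5, sub_eq_zero, mul_comm]
      rfl
  · rintro x ⟨c, z, rfl⟩ P ⟨⟨⟨k, hk⟩, _⟩, hP⟩
    rw [eval_smul_of_hom hk, hP, mul_zero]

lemma Th_add (z₀ w₀ : E d') : ∃ (k : ℕ × ℕ)
    (B : Fin (M' + 1) → MvPolynomial (Fin (M' + 1) ⊕ Fin (M' + 1)) ℂ),
    (∀ i, (B i).IsWeightedHomogeneous (Sum.elim (fun _ => (1, 0)) (fun _ => (0, 1))) k ∧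
      AlgCoeff (B i)) ∧
    (fun i => eval (Sum.elim (Th A δ ε z₀) (Th A δ ε w₀)) (B i)) ≠ 0 ∧
    ∀ z w, ∃ c : ℂ, (fun i => eval (Sum.elim (Th A δ ε z) (Th A δ ε w)) (B i)) =
      c • Th A δ ε (z + w) := by
  choose k B hB hne hadd using fun j => A.add (sl δ z₀ j) (sl δ w₀ j)
  obtain ⟨c, hc⟩ := exists_c A δ z₀
  obtain ⟨c', hc'⟩ := exists_c A δ w₀
  have hev : ∀ (z w : E d') (m : Fin (M' + 1)), eval (Sum.elim (Th A δ ε z) (Th A δ ε w))
      (∏ j, rename (Sum.map (sc ε c j) (sc ε c' j)) (B j (ε m j))) =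
      (∏ j, fac A δ z c j ^ (k j).1 * fac A δ w c' j ^ (k j).2) *
        ∏ j, eval (Sum.elim (A.θ (sl δ z j)) (A.θ (sl δ w j))) (B j (ε m j)) := by
    intro z w m
    rw [map_prod, ← Finset.prod_mul_distrib]
    refine Finset.prod_congr rfl fun j _ => ?_
    rw [eval_rename, Sum.elim_comp_map, Th_sc, Th_sc, eval_bihom (hB j _).1]
  refine ⟨∑ j, k j, fun m => ∏ j, rename (Sum.map (sc ε c j) (sc ε c' j)) (B j (ε m j)),
    fun m => ⟨?_, alg_prod fun j => alg_rename _ (hB j _).2⟩, ?_, fun z w => ?_⟩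
  · refine IsWeightedHomogeneous.prod _ _ _ fun j _ => wh_rename _ _ ?_
    rw [Sum.elim_comp_map]
    exact (hB j _).1
  · choose i hi using fun j => Function.ne_iff.1 (hne j)
    refine Function.ne_iff.2 ⟨ε.symm i, ?_⟩
    rw [hev]
    simp only [Equiv.apply_symm_apply, Pi.zero_apply]
    refine mul_ne_zero (Finset.prod_ne_zero_iff.2 fun j _ => mul_ne_zero
      (pow_ne_zero _ (fac_ne A δ hc j)) (pow_ne_zero _ (fac_ne A δ hc' j)))
      (Finset.prod_ne_zero_iff.2 fun j _ => hi j)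
  · choose e he using fun j => hadd j (sl δ z j) (sl δ w j)
    refine ⟨(∏ j, fac A δ z c j ^ (k j).1 * fac A δ w c' j ^ (k j).2) * ∏ j, e j,
      funext fun m => ?_⟩
    have h1 : ∀ j, eval (Sum.elim (A.θ (sl δ z j)) (A.θ (sl δ w j))) (B j (ε m j)) =
        e j * A.θ (sl δ (z + w) j) (ε m j) := fun j => congrFun (he j) (ε m j)
    simp only [hev, h1, Pi.smul_apply, smul_eq_mul, Th]
    rw [Finset.prod_mul_distrib (f := e), mul_assoc]

lemma sl_zero (j : Fin p) : sl δ (0 : E d') j = 0 := rfl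

lemma Th_div (hε : ε 0 = 0) (z : E d') (m : Fin (M' + 1)) :
    Th A δ ε z m / Th A δ ε z 0 = ∏ j, A.θ (sl δ z j) (ε m j) / A.θ (sl δ z j) 0 := by
  rw [Finset.prod_div_distrib, Th, Th, hε]
  rfl

lemma diff_q (i : Fin (M + 1)) : DifferentiableAt ℂ (fun u => A.θ u i / A.θ u 0) 0 :=
  diff_div (differentiable_pi.1 A.holo i 0) (differentiable_pi.1 A.holo 0 0) A.origin

lemma Th_tangent (hε : ε 0 = 0) (m : Fin (M' + 1)) (k : Fin d') :
    IsAlgebraic ℚ (fderiv ℂ (fun z => Th A δ ε z m / Th A δ ε z 0) 0 (Pi.single k 1)) := by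
  classical
  have h1 : ∀ j, HasFDerivAt (fun z : E d' => A.θ (sl δ z j) (ε m j) / A.θ (sl δ z j) 0)
      ((fderiv ℂ (fun u => A.θ u (ε m j) / A.θ u 0) 0).comp (slL δ j)) 0 :=
    fun j => ((diff_q A (ε m j)).hasFDerivAt.comp (0 : E d') (slL δ j).hasFDerivAt :)
  have h2 := (HasFDerivAt.finsetProd (u := Finset.univ) fun j _ => h1 j).fderiv
  simp only [Th_div A δ ε hε]
  rw [h2, sum_apply]
  refine alg_num_sum _ fun j => ?_
  rw [smul_apply, smul_eq_mul]
  refine IsAlgebraic.mul (alg_num_prod _ fun j' => A.origin_alg _) ?_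
  rw [ContinuousLinearMap.comp_apply]
  obtain ⟨⟨j₀, i₀⟩, rfl⟩ := δ.surjective k
  by_cases h : j = j₀
  · subst h
    have : slL δ j (Pi.single (δ (j, i₀)) 1) = Pi.single i₀ 1 := by
      ext i; simp [slL_apply, sl, Pi.single_apply]
    rw [this]
    exact A.tangent_alg _ _
  · have : slL δ j (Pi.single (δ (j₀, i₀)) 1) = 0 := by
      ext i; simp [slL_apply, sl, h]
    rw [this, map_zero]
    exact isAlgebraic_zero

lemma Th_origin (hε : ε 0 = 0) : Th A δ ε 0 0 ≠ 0 := by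
  rw [Th, hε]
  exact Finset.prod_ne_zero_iff.2 fun j _ => A.origin

lemma Th_immersion (hε : ε 0 = 0) :
    Function.Injective (fderiv ℂ (fun z i => Th A δ ε z i / Th A δ ε z 0) 0) := by
  rw [injective_iff_map_eq_zero]
  intro v hv
  refine eq_zero_of_sl δ fun j => ?_
  have hF : DifferentiableAt ℂ (fun z i => Th A δ ε z i / Th A δ ε z 0) 0 :=
    differentiableAt_pi.2 fun i => diff_div (differentiable_pi.1 (Th_holo A δ ε) i 0)
      (differentiable_pi.1 (Th_holo A δ ε) 0 0) (Th_origin A δ ε hε)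
  have hG : DifferentiableAt ℂ (fun u i => A.θ u i / A.θ u 0) 0 :=
    differentiableAt_pi.2 fun i => diff_q A i
  let π : (Fin (M' + 1) → ℂ) →L[ℂ] (Fin (M + 1) → ℂ) :=
    ContinuousLinearMap.pi fun i => ContinuousLinearMap.proj (sc ε 0 j i)
  have h1 := π.hasFDerivAt.comp (0 : E d') hF.hasFDerivAt
  have h2 : HasFDerivAt (fun z : E d' => fun i => A.θ (sl δ z j) i / A.θ (sl δ z j) 0)
      ((fderiv ℂ (fun u i => A.θ u i / A.θ u 0) 0).comp (slL δ j)) 0 :=
    (hG.hasFDerivAt.comp (0 : E d') (slL δ j).hasFDerivAt :)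
  have hne : ∀ᶠ z in 𝓝 (0 : E d'), Th A δ ε z 0 ≠ 0 :=
    (differentiable_pi.1 (Th_holo A δ ε) 0 0).continuousAt.eventually_ne (Th_origin A δ ε hε)
  have h3 : (fun z : E d' => fun i => A.θ (sl δ z j) i / A.θ (sl δ z j) 0) =ᶠ[𝓝 0]
      (π ∘ fun z i => Th A δ ε z i / Th A δ ε z 0) := by
    filter_upwards [hne] with z hz
    ext i
    have e1 : Th A δ ε z (sc ε 0 j i) = fac A δ z 0 j * A.θ (sl δ z j) i :=
      congrFun (Th_sc A δ ε z 0 j) i
    have e0 : sc ε 0 j 0 = 0 := by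
      rw [sc, Equiv.symm_apply_eq, hε]
      exact Function.update_eq_self j 0
    have e2 : Th A δ ε z 0 = fac A δ z 0 j * A.θ (sl δ z j) 0 := by
      rw [← e0]; exact congrFun (Th_sc A δ ε z 0 j) 0
    change _ = Th A δ ε z (sc ε 0 j i) / Th A δ ε z 0
    rw [e2] at hz
    rw [e1, e2, mul_div_mul_left _ _ (left_ne_zero_of_mul hz)]
  have h4 := h2.unique (h1.congr_of_eventuallyEq h3)
  have h5 := congrArg (fun L : E d' →L[ℂ] (Fin (M + 1) → ℂ) => L v) h4
  simp only [ContinuousLinearMap.comp_apply, hv, map_zero] at h5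
  exact (injective_iff_map_eq_zero _).1 A.immersion _ h5

end PowAux

open PowAux in
theorem powV : PowS := by
  intro d M p d' M' A δ ε _ hε
  exact ⟨{
    Λ := lat A δ
    discrete := lat_discrete A δ
    span_top := lat_span A δ
    θ := Th A δ ε
    holo := Th_holo A δ ε
    ne_zero := Th_ne A δ ε
    theta := Th_theta A δ ε
    inj := Th_inj A δ ε
    image := Th_image A δ ε
    add := Th_add A δ ε
    origin := Th_origin A δ ε hε
    origin_alg := fun m => by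
      rw [Th_div A δ ε hε]
      exact alg_num_prod _ fun j => A.origin_alg _
    tangent_alg := Th_tangent A δ ε hε
    immersion := Th_immersion A δ ε hε }, fun _ => Iff.rfl, fun _ _ => rfl⟩

end Pool.Agent.Lib.MP_caab05_ag.LT
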