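import Mathlib
import Pool.Agent.Lib.MP_caab05_ag.LT.DetA
import Pool.Agent.Lib.MP_caab05_ag.LT.ElimAff
import Pool.Agent.Lib.MP_caab05_ag.LT.FacBd
import Pool.Agent.Lib.MP_caab05_ag.LT.MainP
import Pool.Agent.Lib.MP_caab05_ag.LT.Norm
import Pool.Agent.Lib.MP_caab05_ag.LT.Per
import Pool.Agent.Lib.MP_caab05_ag.LT.Pow
import Pool.Agent.Lib.MP_caab05_ag.LT.PowZ
import Pool.Agent.Lib.MP_caab05_ag.LT.ZeroC

/-! The transcendence theorem with redundant variables, without hypotheses. -/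

namespace Pool.Agent.Lib.MP_caab05_ag.LT

theorem mainQ : MainPS :=
  mainP zeroC (elimA (detA per facBd (normS per))) powV powZ

end Pool.Agent.Lib.MP_caab05_ag.LT
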