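import Mathlib
import Pool.Agent.Lib.MP_caab05_ag.LT.Pluck
import Pool.Agent.Lib.MP_caab05_ag.LT.Zero
import Pool.Agent.Lib.MP_caab05_ag.LT.JetB
import Pool.Agent.Lib.MP_caab05_ag.LT.ElimB

/-! A form with small values on the subspace cannot exist in small transcendence degree. -/

namespace Pool.Agent.Lib.MP_caab05_ag.LT

open MvPolynomial Filter Topology Asymptotics

variable {d M : ℕ}

namespace CoreAux

lemma pow_le_exp {x L : ℝ} {j N : ℕ} (hx0 : 0 ≤ x) (hx : x ≤ Real.exp L) (hL : 0 ≤ L)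
    (hj : j ≤ N) : x ^ j ≤ Real.exp (N * L) := by
  refine (pow_le_pow_left₀ hx0 hx j).trans ?_
  rw [← Real.exp_nat_mul]
  gcongr

lemma ev_map (A : AbVar d M) (P : MvPolynomial (Fin (M + 1)) ℤ) (z : E d) :
    ev A (map (Int.castRingHom ℂ) P) z = aeval (A.θ z) P := by
  rw [ev, eval_map, aeval_def]
  rfl

end CoreAux

open CoreAux Pluck in
theorem core (A : AbVar d M) (hA : A.Simple) {n t : ℕ} {u : Fin n → E d}
    (hu : LinearIndependent ℂ u) {F : IntermediateField ℚ ℂ} (hF : Algebra.trdeg ℚ F ≤ t)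
    (huF : ∀ k j, u k j ∈ F) :
    ∃ C : ℝ, 1 ≤ C ∧ ∀ (D T : ℕ) (P : MvPolynomial (Fin (M + 1)) ℤ) (β V L : ℝ), 1 ≤ D →
      D ≤ d * T → P.IsHomogeneous D → (∃ z, aeval (A.θ z) P ≠ 0) → 0 ≤ β →
      (∀ x : Fin (M + 1) → ℂ, ‖x‖ ≤ 1 → ‖aeval x P‖ ≤ Real.exp β) →
      (∀ z ∈ Submodule.span ℂ (Set.range u), ‖z‖ ≤ 1 → ‖aeval (A.θ z) P‖ ≤ Real.exp (-V)) →
      C * (D : ℝ) ^ d < ((T : ℝ) + 1) ^ n → C * ((d * T : ℕ) + 1) ≤ Real.exp L →
      V ≤ C * (β + (d * T : ℕ) * L + (d * T : ℕ)) * ((d * T : ℕ) : ℝ) ^ t := by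
  classical
  obtain ⟨Cz, hCz, hz⟩ := zero_est A hA
  obtain ⟨c, Cj, hc, hCj, hj⟩ := jets A
  obtain ⟨Cs, hCs, hs⟩ := small A
  obtain ⟨Ce, hCe, he⟩ := elim hF (minor_ne_zero hu) (minor_mem huF) hc
  set η := minor u with hη
  set K : ℝ := Cj + Cs * (n * ‖η‖ + 1) + ‖η‖ + n + 1 with hK
  have hη0 := norm_nonneg η
  have hn0 : (0 : ℝ) ≤ n := Nat.cast_nonneg n
  have hK0 : 0 ≤ Cs * (n * ‖η‖ + 1) := by positivity
  refine ⟨K + Cz + 6 * (Ce + 1), by linarith, ?_⟩
  intro D T P β V L hD hDN hP hP0 hβ hB hV hT hL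
  set N := d * T with hN
  have hN1 : 1 ≤ N := hD.trans hDN
  have hN1' : (1 : ℝ) ≤ N := by exact_mod_cast hN1
  have hKL : K * (N + 1) ≤ Real.exp L := le_trans (by gcongr; linarith) hL
  have hKN : K ≤ K * (N + 1) := le_mul_of_one_le_right (by linarith) (by linarith)
  have hL0 : 0 ≤ L := by
    rw [← Real.one_le_exp_iff]
    linarith
  have key := he N (β + 6 * (N * L)) (V - (β + 6 * (N * L))) hN1 (by positivity) ?_
  · have h1 : (1 : ℝ) ≤ (N : ℝ) ^ t := one_le_pow₀ hN1'
    have h2 : 0 ≤ N * L := by positivity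
    have h3 : β + 6 * (N * L) + N ≤ 6 * (β + N * L + N) := by linarith
    have h4 : β + 6 * (N * L) ≤ 6 * (β + N * L + N) * (N : ℝ) ^ t :=
      le_trans (by linarith) (le_mul_of_one_le_right (by positivity) h1)
    have h5 : Ce * (β + 6 * (N * L) + N) * (N : ℝ) ^ t ≤
        Ce * (6 * (β + N * L + N)) * (N : ℝ) ^ t := by gcongr
    have h6 : 6 * (Ce + 1) * (β + N * L + N) * (N : ℝ) ^ t ≤
        (K + Cz + 6 * (Ce + 1)) * (β + N * L + N) * (N : ℝ) ^ t := by gcongr; linarith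
    linarith
  intro x hx
  by_cases hinj : ∀ i', ¬ Function.Injective i' → x i' = 0
  swap
  · push Not at hinj
    obtain ⟨i, hi, hxi⟩ := hinj
    have hval : ∀ (c' : ℂ) (x : (Fin n → Fin d) → ℂ),
        val (Polynomial.C (X i ^ N) * 1) c' x = x i ^ N := fun c' x => by
      rw [val_C_mul, val_one]; simp
    refine ⟨Polynomial.C (X i ^ N) * 1, ⟨fun c' l x => ?_, fun c' _ x hx => ?_, ?_⟩, ?_⟩
    · simp only [hval, Pi.smul_apply, smul_eq_mul, mul_pow]
    · rw [hval, norm_pow]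
      exact (pow_le_one₀ (norm_nonneg _) ((norm_le_pi_norm x i).trans hx)).trans
        (Real.one_le_exp (by positivity))
    · rw [hval, hη, minor_zero u hi, zero_pow (by omega), norm_zero]
      exact (Real.exp_pos _).le
    · rw [hval]; exact pow_ne_zero _ hxi
  obtain ⟨i, hxi⟩ := Function.ne_iff.1 hx
  have hex : ∃ w ∈ Submodule.span ℂ (Set.range (vec x i)), ∃ j ≤ N,
      iteratedDeriv j (fun τ : ℂ => aeval (A.θ (τ • w)) P / A.θ (τ • w) 0 ^ D) 0 ≠ 0 := by
    by_contra hcon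
    push Not at hcon
    have := hz D T n (map (Int.castRingHom ℂ) P) (vec x i) hD (hP.map _)
      (by simpa only [ev_map] using hP0) (vec_indep hxi hinj) (by simpa only [ev_map] using hcon)
    have h2 : Cz * (D : ℝ) ^ d ≤ (K + Cz + 6 * (Ce + 1)) * (D : ℝ) ^ d := by gcongr; linarith
    linarith
  obtain ⟨w, hw, j, hjN, hw0⟩ := hex
  obtain ⟨Q, κ, hκ0, hκ, hQ1, hQ2, hQ3⟩ := hj D j P _ hP hB
  obtain ⟨a, ha, ha0⟩ := grid Q c (vec x i) (hQ3 c) hjN hw (by rw [hQ1]; exact mul_ne_zero hκ0 hw0)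
  let g : Fin d → MvPolynomial (Fin n → Fin d) ℤ :=
    fun m => ∑ k, (a k : MvPolynomial (Fin n → Fin d) ℤ) * X (Function.update i k m)
  have hval : ∀ (c' : ℂ) (x : (Fin n → Fin d) → ℂ),
      val (Polynomial.C (X i ^ (N - j)) * Q.map (eval₂Hom C g)) c' x =
        x i ^ (N - j) * val Q c' (∑ k, (a k : ℂ) • vec x i k) := fun c' x => by
    rw [val_C_mul, val_map]
    congr 2
    · simp
    · ext m; simp [g, vec]
  have hjN' : (j : ℝ) ≤ N := by exact_mod_cast hjN
  have e1 : Cj ^ D ≤ Real.exp (N * L) := pow_le_exp (by linarith) (by linarith) hL0 hDN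
  have e1' : Cj ^ j ≤ Real.exp (N * L) := pow_le_exp (by linarith) (by linarith) hL0 hjN
  refine ⟨Polynomial.C (X i ^ (N - j)) * Q.map (eval₂Hom C g),
    ⟨fun c' l x => ?_, fun c' hc' x hx => ?_, ?_⟩, ?_⟩
  · have : ∑ k, (a k : ℂ) • vec (l • x) i k = l • ∑ k, (a k : ℂ) • vec x i k := by
      rw [Finset.smul_sum]
      exact Finset.sum_congr rfl fun k _ => smul_comm _ l (vec x i k)
    rw [hval, hval, this, hQ3, Pi.smul_apply, smul_eq_mul, mul_pow,
      show l ^ N = l ^ (N - j) * l ^ j by rw [← pow_add]; congr 1; omega]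
    ring
  · rw [hval, norm_mul, norm_pow]
    have e0 : ‖x i‖ ^ (N - j) ≤ 1 := pow_le_one₀ (norm_nonneg _) ((norm_le_pi_norm x i).trans hx)
    have e2 : (Cj * (j + 1)) ^ j ≤ Real.exp (N * L) :=
      pow_le_exp (by positivity) (le_trans (by gcongr; linarith) hKL) hL0 hjN
    have e3 : ‖∑ k, (a k : ℂ) • vec x i k‖ ^ j ≤ Real.exp (N * L) := by
      refine pow_le_exp (norm_nonneg _) ((norm_vec_le x i ha).trans (le_trans ?_ hKL)) hL0 hjN
      refine (mul_le_of_le_one_right (by positivity) hx).trans ?_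
      gcongr <;> linarith
    calc _ ≤ 1 * (Real.exp β * Real.exp (N * L) * Real.exp (N * L) * Real.exp (N * L)) := by
          gcongr
          refine (hQ2 c' hc' _).trans ?_
          gcongr
      _ ≤ _ := by
          simp only [← Real.exp_add, one_mul, Real.exp_le_exp]
          have : 0 ≤ N * L := by positivity
          linarith
  · set w' := ∑ k, (a k : ℂ) • vec η i k with hw'
    have hmem : w' ∈ Submodule.span ℂ (Set.range u) :=
      Submodule.sum_mem _ fun k _ => Submodule.smul_mem _ _ (vec_minor_mem u i k)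
    have hd : Differentiable ℂ fun z => aeval (A.θ z) P := by
      simpa only [← ev_map] using differentiable_ev A (map (Int.castRingHom ℂ) P)
    have e4 := hs _ D j w' _ hd fun τ hτ => hV _ (Submodule.smul_mem _ τ hmem) hτ
    have e0 : ‖η i‖ ^ (N - j) ≤ Real.exp (N * L) :=
      pow_le_exp (norm_nonneg _) ((norm_le_pi_norm η i).trans (by linarith)) hL0 (by omega)
    have e2 : (j.factorial : ℝ) ≤ Real.exp (N * L) := by
      refine le_trans (by exact_mod_cast Nat.factorial_le_pow j) (pow_le_exp (x := j)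
        (by positivity) (le_trans ?_ hKL) hL0 hjN)
      exact le_trans (by linarith) (le_mul_of_one_le_left (by positivity) (by linarith))
    have e3 : (Cs * (‖w'‖ + 1)) ^ j ≤ Real.exp (N * L) := by
      refine pow_le_exp (by positivity) (le_trans ?_ hKL) hL0 hjN
      have := norm_vec_le η i ha
      calc Cs * (‖w'‖ + 1) ≤ Cs * ((n * ‖η‖ + 1) * (N + 1)) := by
            gcongr
            have : 0 ≤ n * ‖η‖ := by positivity
            nlinarith
        _ = Cs * (n * ‖η‖ + 1) * (N + 1) := by ring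
        _ ≤ _ := by gcongr; linarith
    have e5 : Cs ^ D ≤ Real.exp (N * L) := by
      refine pow_le_exp (by positivity) (le_trans ?_ (hKN.trans hKL)) hL0 hDN
      have : Cs ≤ Cs * (n * ‖η‖ + 1) :=
        le_mul_of_one_le_right (by linarith) (le_add_of_nonneg_left (by positivity))
      linarith
    have e6 : ‖κ‖ ≤ Real.exp (N * L) * Real.exp (N * L) := by
      refine hκ.trans ?_
      rw [pow_add]
      gcongr
    rw [hval, hQ1, norm_mul, norm_mul, norm_pow]
    calc _ ≤ Real.exp (N * L) * (Real.exp (N * L) * Real.exp (N * L) *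
          (Real.exp (N * L) * Real.exp (N * L) * Real.exp (N * L) * Real.exp (-V))) := by
          gcongr
          refine e4.trans ?_
          gcongr
      _ ≤ _ := by
          simp only [← Real.exp_add, Real.exp_le_exp]
          linarith
  · rw [hval]
    exact mul_ne_zero (pow_ne_zero _ hxi) ha0

end Pool.Agent.Lib.MP_caab05_ag.LT
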