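import Mathlib
import Pool.Agent.Lib.MP_caab05_ag.LT.Core

/-! Choice of the parameters. -/

namespace Pool.Agent.Lib.MP_caab05_ag.LT

open MvPolynomial Filter Topology Asymptotics

variable {d M : ℕ}

theorem main_nat (A : AbVar d M) (hA : A.Simple) {l n t : ℕ} {y : Fin l → E d}
    (hy : ∀ i, y i ∈ A.Λ) (hind : LinearIndependent ℤ y)
    (hn : Module.finrank ℂ (Submodule.span ℂ (Set.range y)) = n) {F : IntermediateField ℚ ℂ}
    (hF : Algebra.trdeg ℚ F ≤ t)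
    (hdef : Submodule.span ℂ {w | w ∈ Submodule.span ℂ (Set.range y) ∧ ∀ j, w j ∈ F} =
      Submodule.span ℂ (Set.range y)) :
    l * (d - n) ≤ d * (2 * n + 2 - l) * t := by
  by_contra hlt
  push Not at hlt
  obtain ⟨hl, Ca, hCa, ha⟩ := aux_poly A hy (indep_real A hy hind) hn
  obtain ⟨u, hu1, hu2, hu3⟩ : ∃ u : Fin n → E d, (∀ k j, u k j ∈ F) ∧
      Submodule.span ℂ (Set.range u) = Submodule.span ℂ (Set.range y) ∧ LinearIndependent ℂ u := by
    have := Submodule.exists_fun_fin_finrank_span_eq ℂ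
      {w | w ∈ Submodule.span ℂ (Set.range y) ∧ ∀ j, w j ∈ F}
    rw [hdef, hn] at this
    obtain ⟨u, h1, h2, h3⟩ := this
    exact ⟨u, fun k => (h1 k).2, h2, h3⟩
  obtain ⟨Cc, hCc, hc⟩ := core A hA hu3 hF hu1
  obtain ⟨b, hb⟩ : ∃ b, 2 * n = l + b := Nat.exists_eq_add_of_le hl
  have hpos : 0 < l * (d - n) := (Nat.zero_le _).trans_lt hlt
  have hl0 : 0 < l := Nat.pos_of_mul_pos_right hpos
  have hnd : n < d := by have := Nat.pos_of_mul_pos_left hpos; omega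
  obtain ⟨e, he⟩ : ∃ e, d = n + e := Nat.exists_eq_add_of_le hnd.le
  have hn0 : 1 ≤ n := by omega
  have hd1 : 1 ≤ d := by omega
  rw [show d - n = e by omega, show 2 * n + 2 - l = b + 2 by omega] at hlt
  rw [show 2 * n - l + 2 = b + 2 by omega] at ha
  obtain ⟨s, hs⟩ : ∃ s, s = b + 3 := ⟨_, rfl⟩
  obtain ⟨C1, hC1⟩ : ∃ C1 : ℕ, Cc * (d : ℝ) ^ d + 1 ≤ C1 := exists_nat_ge _
  have hdd : (0 : ℝ) ≤ Cc * (d : ℝ) ^ d := by positivity
  have hC11 : 1 ≤ C1 := by exact_mod_cast (by linarith : (1 : ℝ) ≤ C1)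
  obtain ⟨K, hK⟩ : ∃ K : ℝ, K = Cc * (1 + Ca + d * C1 * (2 * d * s + 1) + d * C1) *
    ((d : ℝ) * C1) ^ t := ⟨_, rfl⟩
  have hK0 : 0 ≤ K := by rw [hK]; positivity
  have hK1 : 0 ≤ Cc * (d * C1 + 1) := by positivity
  obtain ⟨X, hX⟩ : ∃ X : ℕ, 2 * K + Ca + 2 + Cc * (d * C1 + 1) < X := exists_nat_gt _
  have hX2 : (2 : ℝ) ≤ X := by linarith
  have hX1 : (1 : ℝ) ≤ X := by linarith
  have hX1' : 1 ≤ X := by exact_mod_cast hX1
  have hXa : Ca ≤ X := by linarith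
  have hY1 : (1 : ℝ) ≤ (X : ℝ) ^ (2 * d * s) := one_le_pow₀ hX1
  have hv : ((X : ℝ) ^ (d * s * (t + 1) + 1)) ^ 2 = ((X : ℝ) ^ (2 * d * s)) ^ (t + 1) * X ^ 2 := by
    rw [← pow_mul, ← pow_mul, ← pow_add]; congr 1; ring
  have ha2 : ((X : ℝ) ^ (n * s)) ^ 2 ≤ (X : ℝ) ^ (2 * d * s) := by
    rw [← pow_mul]; exact pow_le_pow_right₀ hX1 (by nlinarith)
  obtain ⟨P, hP1, hP2, hP3, hP4⟩ := ha (X ^ (n * s)) ((X : ℝ) ^ (d * s * (t + 1) + 1))
    ((X : ℝ) ^ (2 * d * s)) (Nat.one_le_pow _ _ hX1') (by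
      push_cast
      rw [pow_succ']
      exact mul_le_mul hXa (pow_le_pow_right₀ hX1 (by nlinarith [Nat.zero_le (d * s * t)]))
        (by positivity) (by positivity)) hY1 (by
      rw [hv, le_div_iff₀ two_pos]
      exact mul_le_mul (le_self_pow₀ hY1 (by omega)) (by nlinarith) (by positivity)
        (by positivity)) (by
      push_cast
      rw [← pow_mul, ← pow_mul, ← pow_mul, ← pow_add, mul_assoc, ← pow_add]
      refine (mul_le_mul_of_nonneg_right hXa (by positivity)).trans ?_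
      rw [← pow_succ']
      refine pow_le_pow_right₀ hX1 ?_
      have h1 : n * l + d * (t + 1) * (b + 2) + 1 ≤ 2 * d * n + 2 * d := by
        have : 2 * d * n = d * (l + b) := by rw [← hb]; ring
        rw [this]
        subst he
        nlinarith
      calc _ = s * (n * l + d * (t + 1) * (b + 2) + 1) := by rw [hs]; ring
        _ ≤ s * (2 * d * n + 2 * d) := Nat.mul_le_mul_left _ h1
        _ = _ := by ring)
  have ha2' : (X ^ (n * s)) ^ 2 ≤ X ^ (2 * d * s) := by exact_mod_cast ha2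
  have key := hc (d * (X ^ (n * s)) ^ 2) (C1 * X ^ (2 * d * s)) P
    ((X : ℝ) ^ (2 * d * s) + Ca * ((X ^ (n * s) : ℕ) : ℝ) ^ 2)
    (((X : ℝ) ^ (d * s * (t + 1) + 1)) ^ 2 / 2) ((2 * d * s + 1 : ℕ) * X)
    (Nat.mul_pos hd1 (by positivity))
    (Nat.mul_le_mul_left _ (ha2'.trans (Nat.le_mul_of_pos_left _ hC11))) hP1 hP2 (by positivity)
    hP3 (fun z hz h => by rw [← neg_div]; exact hP4 z (hu2 ▸ hz) h) (by
      push_cast
      have h1 : (((X : ℝ) ^ (n * s)) ^ 2) ^ d = ((X : ℝ) ^ (2 * d * s)) ^ n := by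
        rw [← pow_mul, ← pow_mul, ← pow_mul]; congr 1; ring
      have h2 : (C1 : ℝ) ≤ (C1 : ℝ) ^ n := le_self_pow₀ (by linarith) (by omega)
      rw [mul_pow, h1, ← mul_assoc]
      calc _ < (C1 : ℝ) ^ n * ((X : ℝ) ^ (2 * d * s)) ^ n := by gcongr; linarith
        _ ≤ _ := by rw [← mul_pow]; gcongr; linarith) (by
      rw [Real.exp_nat_mul]
      push_cast
      calc _ ≤ Cc * (d * C1 + 1) * (X : ℝ) ^ (2 * d * s) := by
            rw [mul_assoc Cc]; gcongr; linarith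
        _ ≤ (X : ℝ) ^ (2 * d * s + 1) := by rw [pow_succ']; gcongr; linarith
        _ ≤ _ := by gcongr; linarith [Real.add_one_le_exp (X : ℝ)])
  rw [hv] at key
  push_cast at key
  generalize (X : ℝ) ^ (2 * d * s) = Y at key hY1 ha2
  have h3 : Y + Ca * ((X : ℝ) ^ (n * s)) ^ 2 + d * (C1 * Y) * ((2 * d * s + 1) * X) + d * (C1 * Y) ≤
      (1 + Ca + d * C1 * (2 * d * s + 1) + d * C1) * (Y * X) := by
    have h4 : Y ≤ Y * X := le_mul_of_one_le_right (by linarith) hX1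
    have h5 : Ca * ((X : ℝ) ^ (n * s)) ^ 2 ≤ Ca * (Y * X) := by gcongr; exact ha2.trans h4
    have h6 : d * (C1 * Y) ≤ d * (C1 * (Y * X)) := by gcongr
    linarith
  have h7 : Y ^ (t + 1) * X ^ 2 / 2 ≤ K * (Y ^ (t + 1) * X) := by
    refine key.trans ?_
    calc _ ≤ Cc * ((1 + Ca + d * C1 * (2 * d * s + 1) + d * C1) * (Y * X)) *
          (d * (C1 * Y)) ^ t := by gcongr
      _ = _ := by rw [hK]; ring
  have h8 : 0 < Y ^ (t + 1) * X := by positivity
  nlinarith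

theorem main (A : AbVar d M) (hA : A.Simple) {l n : ℕ} {y : Fin l → E d}
    (hy : ∀ i, y i ∈ A.Λ) (hind : LinearIndependent ℤ y)
    (hn : Module.finrank ℂ (Submodule.span ℂ (Set.range y)) = n) (F : IntermediateField ℚ ℂ)
    (hdef : Submodule.span ℂ {w | w ∈ Submodule.span ℂ (Set.range y) ∧ ∀ j, w j ∈ F} =
      Submodule.span ℂ (Set.range y)) :
    ((l * (d - n) : ℕ) : Cardinal) ≤ ((d * (2 * n + 2 - l) : ℕ) : Cardinal) * Algebra.trdeg ℚ F := by
  rcases lt_or_ge (Algebra.trdeg ℚ F) Cardinal.aleph0 with h | h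
  · obtain ⟨t, ht⟩ := Cardinal.lt_aleph0.1 h
    rw [ht]
    exact_mod_cast main_nat A hA hy hind hn ht.le hdef
  · have hl := (aux_poly A hy (indep_real A hy hind) hn).1
    rcases Nat.eq_zero_or_pos d with rfl | hd
    · simp
    · refine (Cardinal.natCast_lt_aleph0.le.trans h).trans (Cardinal.le_mul_left ?_)
      exact_mod_cast (Nat.mul_pos hd (by omega)).ne'

end Pool.Agent.Lib.MP_caab05_ag.LT
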