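import Mathlib
import Pool.Agent.Lib.MP_caab05_ag.LT.Main

/-! Abelian varieties with multiplication by a number field. -/

namespace Pool.Agent.Lib.MP_caab05_ag.LT

open Module NumberField

variable {d M : ℕ} {K : Type} [Field K] [NumberField K]

theorem exists_proj (ι : K →+* End ℂ (E d)) : ∃ e : (K →+* ℂ) → End ℂ (E d),
    (∀ v, ∑ σ, e σ v = v) ∧ ∀ σ x v, ι x (e σ v) = σ x • e σ v := by
  classical
  let b := finBasis ℚ K
  let c := b.traceDual
  have hb : ∀ x : K, ∑ j, Algebra.trace ℚ K (x * c j) • b j = x := fun x => by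
    conv_rhs => rw [← c.traceDual.sum_repr x]
    simp only [Basis.traceDual_repr_apply, Algebra.traceForm_apply]
    rw [Basis.traceDual_traceDual]
  have hc : ∀ x : K, ∑ j, Algebra.trace ℚ K (x * b j) • c j = x := fun x => by
    conv_rhs => rw [← c.sum_repr x]
    simp only [Basis.traceDual_repr_apply, Algebra.traceForm_apply, c]
  have hι : ∀ x : K, ι x = ∑ j, (Algebra.trace ℚ K (x * c j) : ℂ) • ι (b j) := fun x => by
    conv_lhs => rw [← hb x, map_sum]
    exact Finset.sum_congr rfl fun j _ => by rw [map_rat_smul, Rat.cast_smul_eq_qsmul]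
  have ht : ∀ x : K, ∑ σ : K →+* ℂ, σ x = (Algebra.trace ℚ K x : ℂ) := fun x => by
    rw [← eq_ratCast (algebraMap ℚ ℂ), trace_eq_sum_embeddings ℂ]
    exact Fintype.sum_equiv (RingHom.equivRatAlgHom K ℂ) _ _ fun _ => rfl
  refine ⟨fun σ => ∑ j, σ (c j) • ι (b j), fun v => ?_, fun σ x v => ?_⟩
  · rw [← LinearMap.sum_apply, Finset.sum_comm]
    simp only [← Finset.sum_smul, ht]
    have := hι 1
    simp only [one_mul] at this
    rw [← this, map_one, End.one_apply]
  · rw [← End.mul_apply, ← LinearMap.smul_apply, Finset.mul_sum, Finset.smul_sum]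
    congr 1
    simp only [mul_smul_comm, ← map_mul, smul_smul]
    conv_lhs => enter [2, j]; rw [hι (x * b j), Finset.smul_sum]
    rw [Finset.sum_comm]
    refine Finset.sum_congr rfl fun i _ => ?_
    simp only [smul_smul]
    rw [← Finset.sum_smul, ← hc (x * c i), map_sum]
    congr 1
    refine Finset.sum_congr rfl fun j _ => ?_
    rw [map_rat_smul, mul_comm, mul_right_comm x, Rat.smul_def]

theorem finrank_iSup_le {ι : Type} (s : Finset ι) (U : ι → Submodule ℂ (E d)) :
    finrank ℂ ↥(s.sup U) ≤ ∑ i ∈ s, finrank ℂ (U i) := by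
  classical
  induction s using Finset.induction_on with
  | empty => simp
  | insert i s hi ih =>
    rw [Finset.sup_insert, Finset.sum_insert hi]
    exact (Submodule.finrank_add_le_finrank_add_finrank _ _).trans (by omega)

/-- independent periods spanning a small subspace -/
theorem exists_periods (A : AbVar d M) (ι : K →+* End ℂ (E d))
    (hι : ∀ x, ∀ y ∈ A.Λ, ∃ r : ℤ, r ≠ 0 ∧ r • ι x y ∈ A.Λ) :
    ∃ k, k * finrank ℚ K = 2 * d ∧ ∀ a ≤ k, ∃ y : Fin (a * finrank ℚ K) → E d, (∀ i, y i ∈ A.Λ) ∧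
      LinearIndependent ℤ y ∧ finrank ℂ (Submodule.span ℂ (Set.range y)) ≤
        ∑ σ : K →+* ℂ, min a (finrank ℂ ↥(⨅ x, End.eigenspace (ι x) (σ x))) := by
  classical
  let : Module K (E d) := Module.compHom _ ι
  have hs : ∀ (x : K) (v : E d), x • v = ι x v := fun _ _ => rfl
  have : IsScalarTower ℚ K (E d) := ⟨fun q x v => by rw [hs, hs, map_rat_smul]; rfl⟩
  have den : ∀ v ∈ Submodule.span K (A.Λ : Set (E d)), ∀ x : K,
      ∃ r : ℤ, r ≠ 0 ∧ r • ι x v ∈ A.Λ := by
    intro v hv
    induction hv using Submodule.span_induction with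
    | mem v hv => exact fun x => hι x v hv
    | zero => exact fun x => ⟨1, one_ne_zero, by simp⟩
    | add v w _ _ h1 h2 =>
      intro x
      obtain ⟨r, hr, h1⟩ := h1 x
      obtain ⟨s, hs, h2⟩ := h2 x
      refine ⟨r * s, mul_ne_zero hr hs, ?_⟩
      rw [map_add, smul_add, mul_smul r s (ι x w), mul_comm, mul_smul]
      exact add_mem (A.Λ.smul_mem _ h1) (A.Λ.smul_mem _ h2)
    | smul z v _ h => exact fun x => by rw [hs, ← End.mul_apply, ← map_mul]; exact h _
  have hq : (Submodule.span K (A.Λ : Set (E d))).restrictScalars ℚ =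
      Submodule.span ℚ (A.Λ : Set (E d)) := by
    refine le_antisymm (fun v hv => ?_) (Submodule.span_le_restrictScalars _ _ _)
    obtain ⟨r, hr, h⟩ := den v hv 1
    rw [map_one, End.one_apply] at h
    have := Submodule.smul_mem _ (r : ℚ)⁻¹ (Submodule.subset_span (R := ℚ) h)
    rwa [← Int.cast_smul_eq_zsmul ℚ, inv_smul_smul₀ (by exact_mod_cast hr)] at this
  obtain ⟨κ, _, β, hβ⟩ := exists_basis A
  have hβ' : Submodule.span ℚ (A.Λ : Set (E d)) = Submodule.span ℚ (Set.range β) := by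
    rw [← hβ, Submodule.span_span_of_tower]
  have hr : finrank ℚ ((Submodule.span K (A.Λ : Set (E d))).restrictScalars ℚ) = 2 * d := by
    rw [hq, hβ', finrank_span_eq_card (β.linearIndependent.restrict_scalars' ℚ),
      ← finrank_eq_card_basis β, finrank_pi_fintype]
    simp [mul_comm]
  have : Module.Finite ℚ ((Submodule.span K (A.Λ : Set (E d))).restrictScalars ℚ) := by
    rw [hq, hβ']; exact Module.Finite.span_of_finite _ (Set.finite_range _)
  have : Module.Finite ℚ (Submodule.span K (A.Λ : Set (E d))) := this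
  have : Module.Finite K (Submodule.span K (A.Λ : Set (E d))) :=
    Module.Finite.of_restrictScalars_finite ℚ _ _
  refine ⟨finrank K (Submodule.span K (A.Λ : Set (E d))), by
    rw [mul_comm, finrank_mul_finrank]; exact hr, fun a ha => ?_⟩
  let v : Fin a → E d := fun i => finBasis K (Submodule.span K (A.Λ : Set (E d))) (i.castLE ha)
  have hv : LinearIndependent K v := ((finBasis K _).linearIndependent.map' _
    (Submodule.ker_subtype _)).comp _ (Fin.castLE_injective ha)
  let b := finBasis ℚ K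
  choose r hr0 hr1 using fun p : Fin (finrank ℚ K) × Fin a =>
    den (v p.2) (Submodule.coe_mem _) (b p.1)
  have hl := (linearIndependent_smul b.linearIndependent hv).units_smul
    fun p => Units.mk0 (r p : ℚ) (by exact_mod_cast hr0 p)
  let f : Fin (a * finrank ℚ K) ≃ Fin (finrank ℚ K) × Fin a :=
    finProdFinEquiv.symm.trans (Equiv.prodComm _ _)
  obtain ⟨e, he1, he2⟩ := exists_proj ι
  refine ⟨fun i => r (f i) • ι (b (f i).1) (v (f i).2), fun i => hr1 _, ?_, ?_⟩
  · have := (hl.comp f f.injective).restrict_scalars' ℤ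
    convert this using 2 with i
    simp [hs, Units.smul_def, Int.cast_smul_eq_zsmul]
  · refine ((Submodule.finrank_mono (t := Finset.univ.sup fun σ =>
      Submodule.span ℂ (Set.range fun i => e σ (v i))) ?_).trans (finrank_iSup_le _ _)).trans
      (Finset.sum_le_sum fun σ _ => le_min ((finrank_range_le_card _).trans (by simp))
        (Submodule.finrank_mono ?_))
    · rw [Submodule.span_le]
      rintro _ ⟨i, rfl⟩
      refine Submodule.smul_of_tower_mem _ _ ?_
      rw [← he1 (v _), map_sum]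
      refine Submodule.sum_mem _ fun σ _ => ?_
      rw [he2]
      exact Finset.le_sup (f := fun σ => Submodule.span ℂ (Set.range fun i => e σ (v i)))
        (Finset.mem_univ σ) (Submodule.smul_mem _ _ (Submodule.subset_span ⟨_, rfl⟩))
    · rw [Submodule.span_le]
      rintro _ ⟨i, rfl⟩
      exact (Submodule.mem_iInf _).2 fun x => End.mem_eigenspace_iff.2 (he2 σ x _)

theorem cor (A : AbVar d M) (hA : A.Simple) (ι : K →+* End ℂ (E d))
    (hι : ∀ x, ∀ y ∈ A.Λ, ∃ r : ℤ, r ≠ 0 ∧ r • ι x y ∈ A.Λ) (hK : finrank ℚ K ≤ d)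
    (m : (K →+* ℂ) → ℕ) (hm : ∀ σ, m σ = finrank ℂ ↥(⨅ x, End.eigenspace (ι x) (σ x))) (δ : ℕ)
    (hδ : δ = ∑ σ, min (m σ) (m (ComplexEmbedding.conjugate σ))) :
    ((8 * d : ℕ) : Cardinal) ≤ ((18 * (δ + 2) : ℕ) : Cardinal) * Algebra.trdeg ℚ
      (IntermediateField.adjoin ℚ {z | ∃ y ∈ A.Λ, ∃ j, z = y j}) + ((9 * δ : ℕ) : Cardinal) := by
  set F := IntermediateField.adjoin ℚ {z | ∃ y ∈ A.Λ, ∃ j, z = y j} with hF
  rcases lt_or_ge (Algebra.trdeg ℚ F) Cardinal.aleph0 with h | h
  swap
  · refine ((Cardinal.natCast_lt_aleph0.le.trans h).trans (Cardinal.le_mul_left ?_)).trans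
      le_self_add
    exact_mod_cast (by omega : 18 * (δ + 2) ≠ 0)
  obtain ⟨t, ht⟩ := Cardinal.lt_aleph0.1 h
  obtain ⟨k, hk, hy⟩ := exists_periods A ι hι
  obtain ⟨y, h1, h2, h3⟩ := hy (k / 2) (Nat.div_le_self _ _)
  have h4 := main_nat A hA h1 h2 rfl ht.le (le_antisymm (Submodule.span_le.2 fun w hw => hw.1)
    (Submodule.span_mono (by
      rintro _ ⟨i, rfl⟩
      exact ⟨Submodule.subset_span ⟨i, rfl⟩,
        fun j => IntermediateField.subset_adjoin _ _ ⟨_, h1 i, j, rfl⟩⟩)))
  have h5 : finrank ℂ (Submodule.span ℂ (Set.range y)) ≤ d :=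
    (Submodule.finrank_le _).trans (by simp)
  have h6 : 2 * ∑ σ : K →+* ℂ, min (k / 2) (m σ) ≤ k / 2 * finrank ℚ K + δ := by
    rw [two_mul]
    nth_rw 2 [← Equiv.sum_comp (ComplexEmbedding.involutive_conjugate K).toPerm]
    rw [← Finset.sum_add_distrib, hδ, ← Embeddings.card K ℂ, mul_comm, ← Finset.card_univ,
      ← smul_eq_mul, ← Finset.sum_const, ← Finset.sum_add_distrib]
    refine Finset.sum_le_sum fun σ _ => ?_
    rw [Function.Involutive.coe_toPerm]
    omega
  simp only [← hm] at h3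
  rw [ht]
  have hN : 0 < finrank ℚ K := finrank_pos
  generalize finrank ℂ (Submodule.span ℂ (Set.range y)) = n at h3 h4 h5
  generalize finrank ℚ K = N at hk h3 h4 h6 hK hN
  have h7 : 2 * n ≤ k / 2 * N + δ := by omega
  have h8 : k / 2 * N * (d - n) ≤ d * (δ + 2) * t :=
    h4.trans (Nat.mul_le_mul_right _ (Nat.mul_le_mul_left _ (by omega)))
  have h9 : k / 2 * N ≤ d ∧ 2 * d ≤ 3 * (k / 2 * N) := by
    have h2k : 2 ≤ k := by by_contra hc; nlinarith
    constructor
    · nlinarith [Nat.mul_le_mul_right N (by omega : 2 * (k / 2) ≤ k)]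
    · nlinarith [Nat.mul_le_mul_right N (by omega : k ≤ 3 * (k / 2))]
  generalize k / 2 * N = l at h7 h8 h9
  norm_cast
  zify [h5] at h8
  zify at h7 h9 hN hK ⊢
  have hd : (0 : ℤ) < d := by omega
  refine le_of_mul_le_mul_left ?_ hd
  nlinarith [mul_nonneg (sub_nonneg.2 h9.2) (by omega : (0 : ℤ) ≤ 4 * d - 3 * l),
    mul_nonneg (sub_nonneg.2 h9.1) (Int.natCast_nonneg δ),
    mul_nonneg (sub_nonneg.2 h7) (Int.natCast_nonneg l)]

end Pool.Agent.Lib.MP_caab05_ag.LT
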