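import Mathlib
import Pool.Agent.Lib.MP_caab05_ag.LT.Defs

/-! Fields of definition, period fields and multiplication by a number field. -/

namespace Pool.Agent.Lib.MP_caab05_ag.LT

variable {d M : ℕ} {K : Type} [Field K] [NumberField K]

/-- the subspace `W` is spanned by its vectors with coordinates in `F` -/
def DefinedOver (W : Submodule ℂ (Fin d → ℂ)) (F : IntermediateField ℚ ℂ) : Prop :=
  Submodule.span ℂ {w | w ∈ W ∧ ∀ j, w j ∈ F} = W

/-- the field generated by the coordinates of all periods -/
noncomputable def AbVar.periodField (A : AbVar d M) : IntermediateField ℚ ℂ :=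
  IntermediateField.adjoin ℚ {z | ∃ y ∈ A.Λ, ∃ j, z = y j}

/-- the action `ι` of `K` on the Lie algebra preserves the rational span of the period lattice,
that is, `K` acts on `A` up to isogeny -/
def AbVar.Acts (A : AbVar d M) (ι : K →+* Module.End ℂ (Fin d → ℂ)) : Prop :=
  ∀ x, ∀ y ∈ A.Λ, ∃ r : ℤ, r ≠ 0 ∧ r • ι x y ∈ A.Λ

/-- the multiplicity of the embedding `σ` in the action `ι` -/
noncomputable def mult (ι : K →+* Module.End ℂ (Fin d → ℂ)) (σ : K →+* ℂ) : ℕ :=
  Module.finrank ℂ ↥(⨅ x, Module.End.eigenspace (ι x) (σ x))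

/-- the sum over all embeddings of the smaller of the multiplicities of `σ` and its conjugate -/
noncomputable def defect (ι : K →+* Module.End ℂ (Fin d → ℂ)) : ℕ :=
  ∑ σ, min (mult ι σ) (mult ι (NumberField.ComplexEmbedding.conjugate σ))

end Pool.Agent.Lib.MP_caab05_ag.LT
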